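import Mathlib

/-!
Reversible bifocal homoclinic orbits: definitions shared by the statement and the proof.
-/

namespace Pool.Agent.Work.MP_05654f_an

open Filter Topology Set

section General

variable {V : Type} [NormedAddCommGroup V] [NormedSpace ℝ V]

/-- A solution of the equation `x' = f x` defined for all real times. -/
def IsSol (f : V → V) (x : ℝ → V) : Prop := ∀ t, HasDerivAt x (f (x t)) t

/-- Initial points of solutions on `[0, ∞)` that tend to `O` and stay in `N` from time `T` on: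
the local stable set of `O` in `N`, pulled back by the flow for time `T`. -/
def Ws (f : V → V) (O : V) (N : Set V) (T : ℝ) : Set V :=
  {z | ∃ x : ℝ → V, x 0 = z ∧ (∀ t, 0 ≤ t → HasDerivAt x (f (x t)) t) ∧ Tendsto x atTop (𝓝 O) ∧
    ∀ t, T ≤ t → x t ∈ N}

/-- End points of solutions on `(-∞, 0]` that tend to `O` and stay in `N` up to time `-T`:
the local unstable set of `O` in `N`, pushed forward by the flow for time `T`. -/
def Wu (f : V → V) (O : V) (N : Set V) (T : ℝ) : Set V :=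
  {z | ∃ x : ℝ → V, x 0 = z ∧ (∀ t, t ≤ 0 → HasDerivAt x (f (x t)) t) ∧ Tendsto x atBot (𝓝 O) ∧
    ∀ t, t ≤ -T → x t ∈ N}

/-- `v` is tangent to `W` at `p`: it is the velocity at `p` of a continuous curve in `W`. -/
def TangentTo (W : Set V) (p v : V) : Prop :=
  ∃ c : ℝ → V, Continuous c ∧ c 0 = p ∧ HasDerivAt c v 0 ∧ ∀ᶠ s in 𝓝 (0 : ℝ), c s ∈ W

/-- `v` is tangent at `p` to the (immersed) stable manifold of `O`. -/
def TanWs (f : V → V) (O p v : V) : Prop :=
  ∀ N ∈ 𝓝 O, ∃ T, 0 ≤ T ∧ TangentTo (Ws f O N T) p v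

/-- `v` is tangent at `p` to the (immersed) unstable manifold of `O`. -/
def TanWu (f : V → V) (O p v : V) : Prop :=
  ∀ N ∈ 𝓝 O, ∃ T, 0 ≤ T ∧ TangentTo (Wu f O N T) p v

/-- A homoclinic orbit to `O`: a solution that is not an equilibrium and tends to `O` in both
time directions. -/
def IsHomoclinic (f : V → V) (O : V) (x : ℝ → V) : Prop :=
  IsSol f x ∧ (∃ t, f (x t) ≠ 0) ∧ Tendsto x atTop (𝓝 O) ∧ Tendsto x atBot (𝓝 O)

/-- A periodic orbit: a non-constant periodic solution. -/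
def IsPeriodicOrbit (f : V → V) (x : ℝ → V) : Prop :=
  IsSol f x ∧ (∃ t, x t ≠ x 0) ∧ ∃ T, 0 < T ∧ Function.Periodic x T

/-- Non-degeneracy: along `γ` the tangent spaces of the stable and unstable manifolds meet only in
the line of the vector field. -/
def Nondegenerate (f : V → V) (O : V) (γ : ℝ → V) : Prop :=
  ∀ t v, TanWs f O (γ t) v → TanWu f O (γ t) v → ∃ c : ℝ, v = c • f (γ t)

/-- `φ` is a global flow of `F`. -/
structure IsFlow (F : V → V) (φ : ℝ → V → V) : Prop where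
  zero : ∀ z, φ 0 z = z
  deriv : ∀ z t, HasDerivAt (fun s => φ s z) (F (φ t z)) t

end General

/-- The model phase space. -/
abbrev E := ℂ × ℂ

/-- The reversor in normal coordinates. -/
def sw (z : E) : E := (z.2, z.1)

/-- The linear part `(x, y) ↦ (-l x, l y)`. -/
noncomputable def Alin (l : ℂ) : E →L[ℝ] E :=
  ((-l) • ContinuousLinearMap.fst ℝ ℂ ℂ).prod (l • ContinuousLinearMap.snd ℝ ℂ ℂ)

/-- The linear flow. -/
noncomputable def expA (l : ℂ) (t : ℝ) (w : E) : E :=
  (Complex.exp (-(l * t)) * w.1, Complex.exp (l * t) * w.2)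

@[simp] lemma Alin_apply (l : ℂ) (z : E) : Alin l z = (-l * z.1, l * z.2) := by
  simp [Alin]

@[simp] lemma sw_sw (z : E) : sw (sw z) = z := rfl

/-- A point of the logarithmic spiral with phase `δ` and parameter `u`. -/
noncomputable def Sp (κ δ u : ℝ) : ℂ := Complex.exp ((κ * δ : ℝ) + (-(κ : ℂ) + Complex.I) * u)

/-- The sum of the two angles at vertex `i` of a chain. -/
noncomputable def dl (Θ : ℝ × ℝ × ℝ → ℝ) (s H : ℤ → ℝ) (i : ℤ) : ℝ :=
  Θ (s i, s (i - 1), (H i + H (i - 1)) / 2) + Θ (s i, s (i + 1), (H i + H (i + 1)) / 2)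

/-- The edge equation between vertices `i` and `i + 1`. -/
def Edge (q : ℝ × ℝ × ℝ → ℝ) (s H : ℤ → ℝ) (i : ℤ) : Prop :=
  H (i + 1) - H i = 2 * q (s i, s (i + 1), (H i + H (i + 1)) / 2)

/-- The vertex condition: the point `s i + H i * I` lies on the spiral with phase `dl`. -/
def OnSp (κ : ℝ) (Θ : ℝ × ℝ × ℝ → ℝ) (s H : ℤ → ℝ) (i : ℤ) : Prop :=
  ∃ u : ℝ, (s i : ℂ) + (H i : ℂ) * Complex.I = Sp κ (dl Θ s H i) u

end Pool.Agent.Work.MP_05654f_an
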