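import Pool.Agent.Work.MP_05654f_an.Defs

/-!
Global flows of Lipschitz vector fields and their strict differentiability.
-/

namespace Pool.Agent.Work.MP_05654f_an

open Filter Topology Set

section Aux

variable {W : Type} [NormedAddCommGroup W] [NormedSpace ℝ W]

/-- Two-sided Gronwall inequality. -/
theorem flow_gron {f f' : ℝ → W} {T δ K ε : ℝ}
    (hf : ∀ s ∈ Icc (-T) T, HasDerivWithinAt f (f' s) (Icc (-T) T) s) (h0 : ‖f 0‖ ≤ δ)
    (hb : ∀ s ∈ Icc (-T) T, ‖f' s‖ ≤ K * ‖f s‖ + ε) {t : ℝ} (ht : t ∈ Icc (-T) T) :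
    ‖f t‖ ≤ gronwallBound δ K ε |t| := by
  have hT : 0 ≤ T := by linarith [ht.1, ht.2]
  have key : ∀ (g g' : ℝ → W), (∀ s ∈ Icc (-T) T, HasDerivWithinAt g (g' s) (Icc (-T) T) s) →
      ‖g 0‖ ≤ δ → (∀ s ∈ Icc (-T) T, ‖g' s‖ ≤ K * ‖g s‖ + ε) →
      ∀ u ∈ Icc 0 T, ‖g u‖ ≤ gronwallBound δ K ε u := by
    intro g g' hg hg0 hgb u hu
    have hsub : Icc 0 T ⊆ Icc (-T) T := Icc_subset_Icc_left (by linarith)
    have hc : ContinuousOn g (Icc 0 T) :=
      (HasDerivWithinAt.continuousOn hg).mono hsub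
    have := norm_le_gronwallBound_of_norm_deriv_right_le (f' := g') (δ := δ) (K := K) (ε := ε) hc
      (fun x hx => (hg x (hsub (Ico_subset_Icc_self hx))).mono_of_mem_nhdsWithin
        (mem_of_superset (Icc_mem_nhdsGE hx.2) (Icc_subset_Icc_left (by linarith [hx.1]))))
      hg0 (fun x hx => hgb x (hsub (Ico_subset_Icc_self hx))) u hu
    simpa using this
  rcases le_total 0 t with h | h
  · rw [abs_of_nonneg h]
    exact key f f' hf h0 hb t ⟨h, ht.2⟩
  · rw [abs_of_nonpos h]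
    have hm : MapsTo (fun s : ℝ => -s) (Icc (-T) T) (Icc (-T) T) :=
      fun s hs => ⟨by linarith [hs.2], by linarith [hs.1]⟩
    have := key (fun s => f (-s)) (fun s => -f' (-s)) (fun s hs => by
      have := (hf (-s) (hm hs)).scomp s (hasDerivAt_neg s).hasDerivWithinAt hm
      simpa [Function.comp_def] using this) (by simpa using h0)
      (fun s hs => by simpa using hb (-s) (hm hs)) (-t) ⟨by linarith, by linarith [ht.1]⟩
    simpa using this

theorem flow_gron_lin (K ε x : ℝ) : gronwallBound 0 K ε x = ε * gronwallBound 0 K 1 x := by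
  unfold gronwallBound
  split_ifs with h
  · ring
  · ring

theorem flow_gron_nonneg {K x : ℝ} (hK : 0 ≤ K) (hx : 0 ≤ x) : 0 ≤ gronwallBound 0 K 1 x := by
  have := gronwallBound_mono (δ := 0) (K := K) (ε := 1) le_rfl zero_le_one hK hx
  rwa [gronwallBound_x0] at this

/-- Solutions of a time-dependent Lipschitz equation exist on every compact time interval. -/
theorem flow_exists_Icc [CompleteSpace W] {v : ℝ → W → W} {K : NNReal}
    (hv : ∀ t, LipschitzWith K (v t)) (hc : ∀ x, Continuous fun t => v t x) {T : ℝ} (hT : 0 ≤ T)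
    (x₀ : W) : ∃ α : ℝ → W, α 0 = x₀ ∧
      ∀ t ∈ Icc (-T) T, HasDerivWithinAt α (v t (α t)) (Icc (-T) T) t := by
  obtain ⟨M, hM⟩ := (isCompact_Icc (a := -T) (b := T)).exists_bound_of_continuousOn
    (hc x₀).continuousOn
  have hM0 : 0 ≤ M := (norm_nonneg _).trans (hM 0 ⟨by linarith, hT⟩)
  have hK : (0 : ℝ) ≤ K := K.2
  have hvb : ∀ t ∈ Icc (-T) T, ∀ y, ‖v t y‖ ≤ K * ‖y - x₀‖ + M := by
    intro t ht y
    have h1 := (hv t).dist_le_mul y x₀
    rw [dist_eq_norm, dist_eq_norm] at h1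
    have h2 := norm_le_norm_sub_add (v t y) (v t x₀)
    linarith [hM t ht]
  set B : ℝ := gronwallBound 0 K M T with hB
  have hB0 : 0 ≤ B := by
    rw [hB, flow_gron_lin]; exact mul_nonneg hM0 (flow_gron_nonneg hK hT)
  let χ : W → ℝ := fun y => max 0 (min 1 (B + 1 - ‖y - x₀‖))
  have hχ0 : ∀ y, 0 ≤ χ y := fun y => le_max_left _ _
  have hχ1 : ∀ y, χ y ≤ 1 := fun y => max_le zero_le_one (min_le_left _ _)
  have hχl : ∀ y z, |χ y - χ z| ≤ ‖y - z‖ := by
    intro y z
    have h1 : |‖y - x₀‖ - ‖z - x₀‖| ≤ ‖y - z‖ := by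
      simpa using abs_norm_sub_norm_le (y - x₀) (z - x₀)
    have h2 := abs_max_sub_max_le_abs (min 1 (B + 1 - ‖y - x₀‖)) (min 1 (B + 1 - ‖z - x₀‖)) 0
    have h3 := abs_min_sub_min_le_max 1 (B + 1 - ‖y - x₀‖) 1 (B + 1 - ‖z - x₀‖)
    simp only [χ]
    rw [max_comm 0, max_comm 0]
    refine h2.trans (h3.trans ?_)
    rw [sub_self, abs_zero]
    refine max_le (norm_nonneg _) ?_
    rw [show B + 1 - ‖y - x₀‖ - (B + 1 - ‖z - x₀‖) = -(‖y - x₀‖ - ‖z - x₀‖) by ring, abs_neg]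
    exact h1
  let L : ℝ := K * (B + 1) + M
  have hL0 : 0 ≤ L := by positivity
  have hGb : ∀ t ∈ Icc (-T) T, ∀ y, ‖χ y • v t y‖ ≤ L := by
    intro t ht y
    rw [norm_smul, Real.norm_of_nonneg (hχ0 y)]
    rcases le_total (B + 1) ‖y - x₀‖ with h | h
    · have : χ y = 0 := max_eq_left (min_le_of_right_le (by linarith))
      rw [this, zero_mul]; exact hL0
    · calc χ y * ‖v t y‖ ≤ 1 * (K * ‖y - x₀‖ + M) :=
            mul_le_mul (hχ1 y) (hvb t ht y) (norm_nonneg _) zero_le_one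
        _ ≤ L := by rw [one_mul]; simp only [L]; gcongr
  have hpl : IsPicardLindelof (fun t y => χ y • v t y) (tmin := -T) (tmax := T)
      ⟨0, by constructor <;> linarith⟩ x₀ (NNReal.mk (L * T) (by positivity)) 0 (NNReal.mk L hL0)
      (NNReal.mk (K * (L * T) + M + K) (by positivity)) := by
    refine ⟨fun t ht => ?_, fun x _ => ?_, fun t ht x _ => hGb t ht x, ?_⟩
    · refine LipschitzOnWith.of_dist_le_mul fun y hy z _ => ?_
      rw [dist_eq_norm, dist_eq_norm]
      have hy' : ‖y - x₀‖ ≤ L * T := by simpa [dist_eq_norm] using hy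
      have e : χ y • v t y - χ z • v t z = (χ y - χ z) • v t y + χ z • (v t y - v t z) := by
        rw [sub_smul, smul_sub]; abel
      have h1 := (hv t).dist_le_mul y z
      rw [dist_eq_norm, dist_eq_norm] at h1
      have h2 : ‖v t y‖ ≤ K * (L * T) + M := (hvb t ht y).trans (by gcongr)
      rw [e]
      refine (norm_add_le _ _).trans ?_
      rw [norm_smul, norm_smul, Real.norm_eq_abs, Real.norm_of_nonneg (hχ0 z)]
      have h3 : |χ y - χ z| * ‖v t y‖ ≤ ‖y - z‖ * (K * (L * T) + M) :=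
        mul_le_mul (hχl y z) h2 (norm_nonneg _) (norm_nonneg _)
      have h4 : χ z * ‖v t y - v t z‖ ≤ 1 * (K * ‖y - z‖) :=
        mul_le_mul (hχ1 z) h1 (norm_nonneg _) zero_le_one
      simp only [NNReal.coe_mk]
      nlinarith
    · exact ((hc x).const_smul (χ x)).continuousOn
    · simp
  obtain ⟨α, hα0, hα⟩ := hpl.exists_eq_forall_mem_Icc_hasDerivWithinAt₀
  have hα0' : α 0 = x₀ := hα0
  refine ⟨α, hα0', fun t ht => ?_⟩
  have hg : ‖α t - x₀‖ ≤ gronwallBound 0 K M |t| := by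
    refine flow_gron (f := fun s => α s - x₀) (f' := fun s => χ (α s) • v s (α s))
      (fun s hs => (hα s hs).sub_const x₀) (by simp [hα0']) (fun s hs => ?_) ht
    rw [norm_smul, Real.norm_of_nonneg (hχ0 _)]
    calc χ (α s) * ‖v s (α s)‖ ≤ 1 * (K * ‖α s - x₀‖ + M) :=
          mul_le_mul (hχ1 _) (hvb s hs _) (norm_nonneg _) zero_le_one
      _ = _ := one_mul _
  have hg' : ‖α t - x₀‖ ≤ B :=
    hg.trans (gronwallBound_mono le_rfl hM0 hK (abs_le.2 ht))
  have h1 : χ (α t) = 1 := by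
    simp only [χ]
    rw [min_eq_left (by linarith), max_eq_right zero_le_one]
  have := hα t ht
  rwa [h1, one_smul] at this

end Aux

variable {V : Type} [NormedAddCommGroup V] [NormedSpace ℝ V] [CompleteSpace V]
  {F : V → V} {K : NNReal} {φ : ℝ → V → V}

theorem exists_flow (hF : LipschitzWith K F) : ∃ φ : ℝ → V → V, IsFlow F φ := by
  have h1 : ∀ (z : V) (n : ℕ), ∃ α : ℝ → V, α 0 = z ∧
      ∀ t ∈ Ioo (-(n : ℝ)) n, HasDerivAt α (F (α t)) t := by
    intro z n
    obtain ⟨α, h0, hα⟩ := flow_exists_Icc (v := fun _ => F) (fun _ => hF)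
      (fun _ => continuous_const) (Nat.cast_nonneg n) z
    exact ⟨α, h0, fun t ht => (hα t (Ioo_subset_Icc_self ht)).hasDerivAt (Icc_mem_nhds ht.1 ht.2)⟩
  choose α h0 hα using h1
  have huniq : ∀ (z : V) (m n : ℕ) (t : ℝ), |t| < m → |t| < n → α z m t = α z n t := by
    intro z m n t hm hn
    have hmin : |t| < min (m : ℝ) n := lt_min hm hn
    have hpos : 0 < min (m : ℝ) n := (abs_nonneg t).trans_lt hmin
    refine ODE_solution_unique_of_mem_Ioo (v := fun _ => F) (s := fun _ => univ) (K := K)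
      (a := -min (m : ℝ) n) (b := min (m : ℝ) n) (t₀ := 0)
      (fun _ _ => hF.lipschitzOnWith) ⟨by linarith, hpos⟩
      (fun s hs => ⟨hα z m s ⟨by linarith [hs.1, min_le_left (m : ℝ) n],
        hs.2.trans_le (min_le_left _ _)⟩, trivial⟩)
      (fun s hs => ⟨hα z n s ⟨by linarith [hs.1, min_le_right (m : ℝ) n],
        hs.2.trans_le (min_le_right _ _)⟩, trivial⟩) (by rw [h0, h0]) (abs_lt.1 hmin)
  have hlt : ∀ t : ℝ, |t| < ((⌊|t|⌋₊ + 1 : ℕ) : ℝ) := fun t => by
    push_cast; exact Nat.lt_floor_add_one _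
  refine ⟨fun t z => α z (⌊|t|⌋₊ + 1) t, ⟨fun z => h0 z _, fun z t => ?_⟩⟩
  refine (hα z _ t (abs_lt.1 (hlt t))).congr_of_eventuallyEq ?_
  have : ∀ᶠ s in 𝓝 t, |s| < ((⌊|t|⌋₊ + 1 : ℕ) : ℝ) :=
    continuous_abs.continuousAt.eventually_lt continuousAt_const (hlt t)
  filter_upwards [this] with s hs
  exact huniq z _ _ s (hlt s) hs

omit [CompleteSpace V] in
theorem IsFlow.flow_shift (hφ : IsFlow F φ) (z : V) (c t : ℝ) :
    HasDerivAt (fun s => φ (s - c) z) (F (φ (t - c) z)) t := by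
  have := (hφ.deriv z (t - c)).scomp t ((hasDerivAt_id t).sub_const c)
  simpa [Function.comp_def] using this

theorem IsFlow.unique_Icc (hF : LipschitzWith K F) (hφ : IsFlow F φ) {x : ℝ → V} {a b : ℝ}
    (hx : ∀ t ∈ Icc a b, HasDerivAt x (F (x t)) t) {t₀ t : ℝ} (h0 : t₀ ∈ Icc a b)
    (ht : t ∈ Icc a b) : x t = φ (t - t₀) (x t₀) := by
  have hy := hφ.flow_shift (x t₀) t₀
  have he : x t₀ = φ (t₀ - t₀) (x t₀) := by rw [sub_self, hφ.zero]
  rcases le_total t₀ t with h | h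
  · have hs : Icc t₀ t ⊆ Icc a b := Icc_subset_Icc h0.1 ht.2
    exact ODE_solution_unique_of_mem_Icc_right (v := fun _ => F) (s := fun _ => univ) (K := K)
      (g := fun s => φ (s - t₀) (x t₀)) (fun _ _ => hF.lipschitzOnWith)
      (HasDerivAt.continuousOn fun s hs' => hx s (hs hs'))
      (fun s hs' => (hx s (hs (Ico_subset_Icc_self hs'))).hasDerivWithinAt) (fun _ _ => trivial)
      (HasDerivAt.continuousOn fun s _ => hy s)
      (fun s _ => (hy s).hasDerivWithinAt) (fun _ _ => trivial) he ⟨h, le_rfl⟩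
  · have hs : Icc t t₀ ⊆ Icc a b := Icc_subset_Icc ht.1 h0.2
    exact ODE_solution_unique_of_mem_Icc_left (v := fun _ => F) (s := fun _ => univ) (K := K)
      (g := fun s => φ (s - t₀) (x t₀)) (fun _ _ => hF.lipschitzOnWith)
      (HasDerivAt.continuousOn fun s hs' => hx s (hs hs'))
      (fun s hs' => (hx s (hs (Ioc_subset_Icc_self hs'))).hasDerivWithinAt) (fun _ _ => trivial)
      (HasDerivAt.continuousOn fun s _ => hy s)
      (fun s _ => (hy s).hasDerivWithinAt) (fun _ _ => trivial) he ⟨le_rfl, h⟩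

theorem IsFlow.flow_eq (hF : LipschitzWith K F) (hφ : IsFlow F φ) {x : ℝ → V}
    (hx : ∀ t, HasDerivAt x (F (x t)) t) (t : ℝ) : x t = φ t (x 0) := by
  have := hφ.unique_Icc hF (a := -|t|) (b := |t|) (fun s _ => hx s) (t₀ := 0) (t := t)
    ⟨by simp, abs_nonneg t⟩ (abs_le.1 le_rfl)
  simpa using this

theorem IsFlow.add (hF : LipschitzWith K F) (hφ : IsFlow F φ) (s t : ℝ) (z : V) :
    φ (s + t) z = φ s (φ t z) := by
  have := hφ.flow_eq hF (hφ.flow_shift z (-t)) s
  simpa using this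

theorem IsFlow.norm_sub_le (hF : LipschitzWith K F) (hφ : IsFlow F φ) (t : ℝ) (a b : V) :
    ‖φ t a - φ t b‖ ≤ Real.exp (K * |t|) * ‖a - b‖ := by
  have := flow_gron (f := fun s => φ s a - φ s b) (f' := fun s => F (φ s a) - F (φ s b))
    (T := |t|) (δ := ‖a - b‖) (K := K) (ε := 0)
    (fun s _ => ((hφ.deriv a s).sub (hφ.deriv b s)).hasDerivWithinAt)
    (by simp [hφ.zero]) (fun s _ => by
      have := hF.dist_le_mul (φ s a) (φ s b)
      rw [dist_eq_norm, dist_eq_norm] at this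
      simpa using this) (abs_le.1 le_rfl)
  rwa [gronwallBound_ε0, mul_comm] at this

theorem IsFlow.continuous (hF : LipschitzWith K F) (hφ : IsFlow F φ) :
    Continuous fun p : ℝ × V => φ p.1 p.2 := by
  refine continuous_iff_continuousAt.2 fun p => ?_
  have h1 : Continuous fun s => φ s p.2 :=
    continuous_iff_continuousAt.2 fun s => (hφ.deriv p.2 s).continuousAt
  have h2 : Tendsto (fun q : ℝ × V => φ q.1 q.2 - φ q.1 p.2) (𝓝 p) (𝓝 0) := by
    refine squeeze_zero_norm (fun q => hφ.norm_sub_le hF q.1 q.2 p.2) ?_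
    have : Continuous fun q : ℝ × V => Real.exp (K * |q.1|) * ‖q.2 - p.2‖ := by fun_prop
    simpa using this.tendsto p
  have h3 := h2.add ((h1.comp continuous_fst).tendsto p)
  simpa [ContinuousAt] using h3

theorem IsFlow.rev (hF : LipschitzWith K F) (hφ : IsFlow F φ) (R : V →L[ℝ] V)
    (hR : ∀ z, F (R z) = -R (F z)) (t : ℝ) (z : V) : φ t (R z) = R (φ (-t) z) := by
  have hx : ∀ s, HasDerivAt (fun u => R (φ (-u) z)) (F (R (φ (-s) z))) s := by
    intro s
    have h1 := (hφ.deriv z (-s)).scomp s (hasDerivAt_neg s)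
    have h2 := R.hasFDerivAt.comp_hasDerivAt s h1
    rw [hR]
    simpa [Function.comp_def] using h2
  have := hφ.flow_eq hF hx t
  simpa [hφ.zero] using this.symm

/-- A map that can be approximated by linear maps in the Lipschitz sense near `p` is strictly
differentiable at `p`. -/
theorem strict_of_approx {W : Type} [NormedAddCommGroup W] [NormedSpace ℝ W] [CompleteSpace W]
    (f : V → W) (p : V)
    (h : ∀ ε > 0, ∃ L : V →L[ℝ] W, ∀ᶠ q : V × V in 𝓝 (p, p),
      ‖f q.1 - f q.2 - L (q.1 - q.2)‖ ≤ ε * ‖q.1 - q.2‖) :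
    ∃ L : V →L[ℝ] W, HasStrictFDerivAt f L p := by
  have key : ∀ (ε ε' : ℝ) (L L' : V →L[ℝ] W), 0 ≤ ε + ε' →
      (∀ᶠ q : V × V in 𝓝 (p, p), ‖f q.1 - f q.2 - L (q.1 - q.2)‖ ≤ ε * ‖q.1 - q.2‖) →
      (∀ᶠ q : V × V in 𝓝 (p, p), ‖f q.1 - f q.2 - L' (q.1 - q.2)‖ ≤ ε' * ‖q.1 - q.2‖) →
      ‖L - L'‖ ≤ ε + ε' := by
    intro ε ε' L L' h0 hL hL'
    refine ContinuousLinearMap.opNorm_le_bound _ h0 fun v => ?_
    have hc : Tendsto (fun s : ℝ => (p + s • v, p)) (𝓝[>] 0) (𝓝 (p, p)) := by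
      have : Continuous fun s : ℝ => (p + s • v, p) := by fun_prop
      simpa using (this.tendsto 0).mono_left nhdsWithin_le_nhds
    obtain ⟨s, ⟨h1, h2⟩, hs⟩ := ((hc.eventually (hL.and hL')).and self_mem_nhdsWithin).exists
    have hs' : 0 < s := hs
    simp only [add_sub_cancel_left, map_smul, norm_smul, Real.norm_of_nonneg hs'.le] at h1 h2
    have e : s • (L - L') v = (f (p + s • v) - f p - s • L' v) - (f (p + s • v) - f p - s • L v) := by
      simp only [sub_apply, smul_sub]; abel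
    have h3 : s * ‖(L - L') v‖ ≤ s * ((ε + ε') * ‖v‖) := by
      rw [← Real.norm_of_nonneg hs'.le, ← norm_smul, e, Real.norm_of_nonneg hs'.le]
      refine (norm_sub_le _ _).trans ?_
      linarith
    exact le_of_mul_le_mul_left h3 hs'
  have hpos : ∀ n : ℕ, (0 : ℝ) < 1 / ((n : ℝ) + 1) := fun n => by positivity
  choose L hL using fun n : ℕ => h (1 / ((n : ℝ) + 1)) (hpos n)
  have hcau : CauchySeq L := by
    refine cauchySeq_of_le_tendsto_0 (fun N : ℕ => 2 * (1 / ((N : ℝ) + 1))) (fun n m N hn hm => ?_)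
      (by simpa using tendsto_one_div_add_atTop_nhds_zero_nat.const_mul (2 : ℝ))
    rw [dist_eq_norm]
    have h1 := key _ _ _ _ (by positivity) (hL n) (hL m)
    have h2 : 1 / ((n : ℝ) + 1) ≤ 1 / ((N : ℝ) + 1) := Nat.one_div_le_one_div hn
    have h3 : 1 / ((m : ℝ) + 1) ≤ 1 / ((N : ℝ) + 1) := Nat.one_div_le_one_div hm
    linarith
  obtain ⟨M, hM⟩ := cauchySeq_tendsto_of_complete hcau
  refine ⟨M, (hasStrictFDerivAt_iff_isLittleO ..).2 (Asymptotics.isLittleO_iff.2 fun c hc => ?_)⟩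
  obtain ⟨L', hL'⟩ := h (c / 2) (by positivity)
  have hle : ‖L' - M‖ ≤ c / 2 := by
    have h1 : Tendsto (fun n => ‖L' - L n‖) atTop (𝓝 ‖L' - M‖) := (hM.const_sub L').norm
    have h2 : Tendsto (fun n : ℕ => c / 2 + 1 / ((n : ℝ) + 1)) atTop (𝓝 (c / 2)) := by
      simpa using tendsto_one_div_add_atTop_nhds_zero_nat.const_add (c / 2)
    exact le_of_tendsto_of_tendsto' h1 h2 fun n => key _ _ _ _ (by positivity) hL' (hL n)
  filter_upwards [hL'] with q hq
  have e : f q.1 - f q.2 - M (q.1 - q.2) =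
      (f q.1 - f q.2 - L' (q.1 - q.2)) + (L' - M) (q.1 - q.2) := by
    simp only [sub_apply]; abel
  rw [e]
  refine (norm_add_le _ _).trans ?_
  have := (L' - M).le_of_opNorm_le hle (q.1 - q.2)
  linarith

theorem IsFlow.flow_strict (hF : LipschitzWith K F) (hφ : IsFlow F φ) (hC : ContDiff ℝ 1 F)
    (t : ℝ) (p : V) : ∃ L : V →L[ℝ] V, HasStrictFDerivAt (φ t) L p := by
  have hD : Continuous (fderiv ℝ F) := hC.continuous_fderiv one_ne_zero
  have hdiff : Differentiable ℝ F := hC.differentiable one_ne_zero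
  have hK : (0 : ℝ) ≤ K := K.2
  have hA : ∀ y, ‖fderiv ℝ F y‖ ≤ K := fun y => norm_fderiv_le_of_lipschitz ℝ hF
  have horb : Continuous fun s => φ s p :=
    continuous_iff_continuousAt.2 fun s => (hφ.deriv p s).continuousAt
  obtain ⟨L, hL0, hL⟩ := flow_exists_Icc (W := V →L[ℝ] V) (K := K)
    (v := fun s M => (fderiv ℝ F (φ s p)).comp M) (fun s => by
      refine LipschitzWith.of_dist_le_mul fun M N => ?_
      rw [dist_eq_norm, dist_eq_norm, ← ContinuousLinearMap.comp_sub]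
      exact (ContinuousLinearMap.opNorm_comp_le _ _).trans
        (mul_le_mul_of_nonneg_right (hA _) (norm_nonneg _)))
    (fun M => (hD.comp horb).clm_comp continuous_const) (abs_nonneg t)
    (ContinuousLinearMap.id ℝ V)
  refine ⟨L t, (hasStrictFDerivAt_iff_isLittleO ..).2
    (Asymptotics.isLittleO_iff.2 fun c hc => ?_)⟩
  set E₀ : ℝ := Real.exp (K * |t|) with hE₀
  set G : ℝ := gronwallBound 0 K 1 |t| with hG
  have hE0 : 0 < E₀ := Real.exp_pos _
  have hG0 : 0 ≤ G := flow_gron_nonneg hK (abs_nonneg t)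
  set ε : ℝ := c / (E₀ * (G + 1)) with hε
  have hε0 : 0 < ε := by positivity
  -- uniform continuity of the derivative along the orbit
  obtain ⟨δ, hδ, hδ'⟩ : ∃ δ > 0, ∀ s ∈ Icc (-|t|) |t|, ∀ y, ‖y - φ s p‖ < δ →
      ‖fderiv ℝ F y - fderiv ℝ F (φ s p)‖ ≤ ε := by
    have h1 : ∀ᶠ w in 𝓝 (0 : V), ∀ s ∈ Icc (-|t|) |t|,
        ‖fderiv ℝ F (φ s p + w) - fderiv ℝ F (φ s p)‖ < ε := by
      refine isCompact_Icc.eventually_forall_of_forall_eventually fun s _ => ?_
      have : Continuous fun z : V × ℝ =>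
          ‖fderiv ℝ F (φ z.2 p + z.1) - fderiv ℝ F (φ z.2 p)‖ :=
        ((hD.comp ((horb.comp continuous_snd).add continuous_fst)).sub
          (hD.comp (horb.comp continuous_snd))).norm
      exact this.continuousAt.eventually_lt continuousAt_const (by simpa using hε0)
    obtain ⟨δ, hδ, h2⟩ := Metric.eventually_nhds_iff.1 h1
    refine ⟨δ, hδ, fun s hs y hy => ?_⟩
    have := h2 (y := y - φ s p) (by simpa using hy) s hs
    simpa using this.le
  have hnear : ∀ᶠ a in 𝓝 p, ‖a - p‖ < δ / E₀ := by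
    have : Continuous fun a : V => ‖a - p‖ := by fun_prop
    exact this.continuousAt.eventually_lt continuousAt_const (by simpa using div_pos hδ hE0)
  have hlip : ∀ s ∈ Icc (-|t|) |t|, ∀ a b, ‖φ s a - φ s b‖ ≤ E₀ * ‖a - b‖ := by
    intro s hs a b
    refine (hφ.norm_sub_le hF s a b).trans (mul_le_mul_of_nonneg_right ?_ (norm_nonneg _))
    exact Real.exp_le_exp.2 (mul_le_mul_of_nonneg_left (abs_le.2 hs) hK)
  have hball : ∀ s ∈ Icc (-|t|) |t|, ∀ a, ‖a - p‖ < δ / E₀ → φ s a ∈ Metric.ball (φ s p) δ := by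
    intro s hs a ha
    rw [mem_ball_iff_norm]
    refine (hlip s hs a p).trans_lt ?_
    rwa [lt_div_iff₀ hE0, mul_comm] at ha
  filter_upwards [hnear.prod_nhds hnear] with q hq
  have hw := flow_gron (f := fun s => φ s q.1 - φ s q.2 - L s (q.1 - q.2))
    (f' := fun s => F (φ s q.1) - F (φ s q.2) - fderiv ℝ F (φ s p) (L s (q.1 - q.2)))
    (T := |t|) (δ := 0) (K := K) (ε := ε * (E₀ * ‖q.1 - q.2‖))
    (fun s hs => by
      have h1 := (hL s hs).clm_apply (hasDerivWithinAt_const s _ (q.1 - q.2))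
      refine (((hφ.deriv q.1 s).sub (hφ.deriv q.2 s)).hasDerivWithinAt.sub h1).congr_deriv ?_
      simp)
    (by simp [hφ.zero, hL0]) (fun s hs => by
      have h1 := (convex_ball (φ s p) δ).norm_image_sub_le_of_norm_hasFDerivWithin_le'
        (f := F) (f' := fderiv ℝ F) (φ := fderiv ℝ F (φ s p)) (C := ε)
        (fun y _ => (hdiff y).hasFDerivAt.hasFDerivWithinAt)
        (fun y hy => hδ' s hs y (mem_ball_iff_norm.1 hy))
        (hball s hs _ hq.2) (hball s hs _ hq.1)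
      have e : F (φ s q.1) - F (φ s q.2) - fderiv ℝ F (φ s p) (L s (q.1 - q.2)) =
          fderiv ℝ F (φ s p) (φ s q.1 - φ s q.2 - L s (q.1 - q.2)) +
            (F (φ s q.1) - F (φ s q.2) - fderiv ℝ F (φ s p) (φ s q.1 - φ s q.2)) := by
        rw [map_sub _ (φ s q.1 - φ s q.2)]; abel
      rw [e]
      refine (norm_add_le _ _).trans (add_le_add
        ((fderiv ℝ F (φ s p)).le_of_opNorm_le (hA _) _) (h1.trans ?_))
      exact mul_le_mul_of_nonneg_left (hlip s hs _ _) hε0.le) (abs_le.1 le_rfl)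
  refine hw.trans ?_
  rw [flow_gron_lin, ← hG]
  have : ε * E₀ * G ≤ c := by
    rw [hε, div_mul_eq_mul_div, div_mul_eq_mul_div, div_le_iff₀ (by positivity)]
    nlinarith [mul_pos hc hE0]
  nlinarith [norm_nonneg (q.1 - q.2)]

theorem IsFlow.strict (hF : LipschitzWith K F) (hφ : IsFlow F φ) (hC : ContDiff ℝ 1 F) (t : ℝ)
    (p : V) : ∃ L : V ≃L[ℝ] V, HasStrictFDerivAt (φ t) (L : V →L[ℝ] V) p := by
  obtain ⟨L, hL⟩ := hφ.flow_strict hF hC t p
  obtain ⟨M, hM⟩ := hφ.flow_strict hF hC (-t) (φ t p)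
  have h1 : φ (-t) ∘ φ t = id := by
    funext z; simp [← hφ.add hF, hφ.zero]
  have h2 : φ t ∘ φ (-t) = id := by
    funext z; simp [← hφ.add hF, hφ.zero]
  have hp : φ (-t) (φ t p) = p := congrFun h1 p
  have e1 : M.comp L = ContinuousLinearMap.id ℝ V := by
    have := hM.hasFDerivAt.comp p hL.hasFDerivAt
    rw [h1] at this
    exact this.unique (hasFDerivAt_id p)
  have e2 : L.comp M = ContinuousLinearMap.id ℝ V := by
    have hL' : HasFDerivAt (φ t) L (φ (-t) (φ t p)) := by rw [hp]; exact hL.hasFDerivAt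
    have := hL'.comp (φ t p) hM.hasFDerivAt
    rw [h2] at this
    exact this.unique (hasFDerivAt_id _)
  exact ⟨ContinuousLinearEquiv.equivOfInverse L M (fun v => congrArg (· v) e1)
    (fun v => congrArg (· v) e2), hL⟩

end Pool.Agent.Work.MP_05654f_an
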