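import Pool.Agent.Work.MP_05654f_an.Defs

-- merged part: Pool.Agent.Work.MP_05654f_an.Spiral
section
-- merged part: Pool.Agent.Work.MP_05654f_an.MCmp
section
/-!
Abstract fixed point, comparison and persistence lemmas for chains.
-/

namespace Pool.Agent.Work.MP_05654f_an

open Filter Topology Set

/-- Weighted contraction property. -/
def WContr {ι : Type} (w : ι → ℝ) (T : (ι → ℝ) → ι → ℝ) : Prop :=
  ∀ f g M, 0 ≤ M → (∀ j, w j * |f j - g j| ≤ M) → ∀ i, w i * |T f i - T g i| ≤ 3 / 4 * M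

lemma fp_stab {ι : Type} {w : ι → ℝ} (hw : ∀ i, 0 < w i) {T : (ι → ℝ) → ι → ℝ}
    (hT : WContr w T) {f g : ι → ℝ} (hf : T f = f) {B e : ℝ}
    (hB : ∀ j, w j * |f j - g j| ≤ B) (he : ∀ i, w i * |T g i - g i| ≤ e) (i : ι) :
    w i * |f i - g i| ≤ 4 * e := by
  have : Nonempty ι := ⟨i⟩
  set M := ⨆ j, w j * |f j - g j| with hM
  have hbdd : BddAbove (range fun j => w j * |f j - g j|) := ⟨B, by rintro _ ⟨j, rfl⟩; exact hB j⟩
  have hle : ∀ j, w j * |f j - g j| ≤ M := fun j => le_ciSup hbdd j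
  have h0 : 0 ≤ M := le_trans (mul_nonneg (hw i).le (abs_nonneg _)) (hle i)
  have h1 : M ≤ 3 / 4 * M + e := by
    refine ciSup_le fun j => ?_
    have h2 := hT f g M h0 hle j
    have h3 := he j
    rw [hf] at h2
    have h4 : |f j - g j| ≤ |f j - T g j| + |T g j - g j| := abs_sub_le _ _ _
    have h5 := mul_le_mul_of_nonneg_left h4 (hw j).le
    linarith only [h2, h3, h5]
  have := hle i
  linarith only [h1, this]

lemma fp_exists {ι : Type} {w : ι → ℝ} (hw : ∀ i, 0 < w i) {T : (ι → ℝ) → ι → ℝ}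
    (hT : WContr w T) {M0 : ℝ} (h0 : ∀ i, w i * |T 0 i| ≤ M0) (hM0 : 0 ≤ M0) :
    ∃ f, T f = f ∧ ∀ i, w i * |f i| ≤ 4 * M0 := by
  set a : ℕ → ι → ℝ := fun n => T^[n] 0 with ha
  have hs : ∀ n, a (n + 1) = T (a n) := fun n => Function.iterate_succ_apply' _ _ _
  have hstep : ∀ n j, w j * |a (n + 1) j - a n j| ≤ (3 / 4) ^ n * M0 := by
    intro n
    induction n with
    | zero => intro j; simpa [ha] using h0 j
    | succ n ih =>
      intro j
      have := hT (a (n + 1)) (a n) _ (by positivity) ih j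
      rw [← hs, ← hs] at this
      calc _ ≤ _ := this
        _ = _ := by ring
  have hcau : ∀ j, CauchySeq fun n => a n j := by
    intro j
    refine cauchySeq_of_le_geometric (3 / 4) (M0 / w j) (by norm_num) fun n => ?_
    rw [Real.dist_eq, abs_sub_comm, div_mul_eq_mul_div, le_div_iff₀ (hw j)]
    have := hstep n j
    linarith only [this]
  choose f hf using fun j => cauchySeq_tendsto_of_complete (hcau j)
  have htail : ∀ n m j, w j * |a (n + m) j - a n j| ≤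
      4 * M0 * ((3 / 4) ^ n - (3 / 4) ^ (n + m)) := by
    intro n m j
    induction m with
    | zero => simp
    | succ m ih =>
      have h1 := hstep (n + m) j
      have h2 : |a (n + (m + 1)) j - a n j| ≤
          |a (n + m + 1) j - a (n + m) j| + |a (n + m) j - a n j| := abs_sub_le _ _ _
      have h3 := mul_le_mul_of_nonneg_left h2 (hw j).le
      have h4 : (3 / 4 : ℝ) ^ (n + (m + 1)) = 3 / 4 * (3 / 4) ^ (n + m) := by
        rw [← add_assoc, pow_succ]; ring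
      rw [h4]; linarith only [ih, h1, h3]
  have hlim : ∀ n j, w j * |f j - a n j| ≤ 4 * M0 * (3 / 4) ^ n := by
    intro n j
    have h1 : Tendsto (fun m => w j * |a (n + m) j - a n j|) atTop (𝓝 (w j * |f j - a n j|)) := by
      have h2 : Tendsto (fun m => a (n + m) j) atTop (𝓝 (f j)) :=
        (hf j).comp (tendsto_atTop_mono (fun m => Nat.le_add_left m n) tendsto_id)
      exact ((h2.sub_const _).abs).const_mul _
    refine le_of_tendsto' h1 fun m => (htail n m j).trans ?_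
    have : 0 ≤ (3 / 4 : ℝ) ^ (n + m) := by positivity
    linarith only [hM0, this, mul_nonneg_of_nonpos_of_nonpos (Mathlib.Tactic.Linarith.sub_nonpos_of_le hM0) (Mathlib.Tactic.Linarith.sub_nonpos_of_le this)]
  refine ⟨f, ?_, fun i => ?_⟩
  · funext i
    have h1 : ∀ n, w i * |T f i - f i| ≤ 8 * M0 * (3 / 4) ^ n := by
      intro n
      have h2 := hT f (a n) _ (by positivity) (hlim n) i
      rw [← hs] at h2
      have h3 := hlim (n + 1) i
      have h4 : |T f i - f i| ≤ |T f i - a (n + 1) i| + |f i - a (n + 1) i| := by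
        rw [abs_sub_comm (f i)]; exact abs_sub_le _ _ _
      have h5 := mul_le_mul_of_nonneg_left h4 (hw i).le
      have h6 : 0 ≤ M0 * (3 / 4 : ℝ) ^ n := by positivity
      rw [pow_succ] at h3
      linarith only [h2, h3, h5, h6]
    have h2 : Tendsto (fun n : ℕ => 8 * M0 * (3 / 4 : ℝ) ^ n) atTop (𝓝 (8 * M0 * 0)) :=
      (tendsto_pow_atTop_nhds_zero_of_lt_one (by norm_num) (by norm_num)).const_mul _
    have h3 := ge_of_tendsto' h2 h1
    have h4 : |T f i - f i| ≤ 0 := by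
      by_contra h
      have := mul_pos (hw i) (lt_of_not_ge h)
      linarith only [h3, this]
    exact sub_eq_zero.1 (abs_nonpos_iff.1 h4)
  · simpa [ha] using hlim 0 i

/-- Difference inequality along the edge from `i` to `i + 1`. -/
def DE (η2 : ℝ) (ds dH : ℤ → ℝ) (i : ℤ) : Prop :=
  ∀ m, |ds i| ≤ m → |ds (i + 1)| ≤ m → |dH i| ≤ m → |dH (i + 1)| ≤ m →
    |dH (i + 1) - dH i| ≤ η2 * m

/-- Difference inequality at the vertex `i`. -/
def DV (Λ e2 : ℝ) (ds dH : ℤ → ℝ) (i : ℤ) : Prop :=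
  ∀ m, |ds (i - 1)| ≤ m → |ds i| ≤ m → |ds (i + 1)| ≤ m → |dH (i - 1)| ≤ m → |dH i| ≤ m →
    |dH (i + 1)| ≤ m → |ds i| ≤ Λ * |dH i| + e2 * m

lemma cmp {Λ e2 η2 μ : ℝ} (hΛ : 1 ≤ Λ) (hμ : 2 ≤ μ)
    (he : e2 * μ ≤ 1 / 2) (hη : 16 * η2 * Λ ≤ 1) {ds dH : ℤ → ℝ} {a b k : ℤ} (hak : a ≤ k)
    (hkb : k ≤ b) (hE : ∀ i, a ≤ i → i < b → DE η2 ds dH i)
    (hV : ∀ i, a < i → i < b → DV Λ e2 ds dH i) {E : ℝ} (h0 : |dH k| ≤ E)
    (h1 : |ds a| ≤ μ ^ (k - a) * E) (h2 : |ds b| ≤ μ ^ (b - k) * E) {i : ℤ} (hai : a ≤ i)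
    (hib : i ≤ b) : |dH i| ≤ μ ^ |i - k| * E ∧ |ds i| ≤ 4 * Λ * μ ^ |i - k| * E := by
  have hμ0 : 0 < μ := by linarith only [hμ]
  have hp : ∀ j : ℤ, 0 < μ ^ j := fun j => zpow_pos hμ0 j
  have hE0 : 0 ≤ E := (abs_nonneg _).trans h0
  set f : ℤ → ℝ := fun j => max (|dH j| / μ ^ |j - k|) (|ds j| / (4 * Λ * μ ^ |j - k|)) with hf
  obtain ⟨j0, hj0, hmax⟩ := (Finset.Icc a b).exists_max_image f ⟨k, by simp [hak, hkb]⟩
  set M := f j0 with hM
  have hM0 : 0 ≤ M := le_trans (by have := hp |j0 - k|; positivity) (le_max_left _ _)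
  have hH : ∀ j, a ≤ j → j ≤ b → |dH j| ≤ μ ^ |j - k| * M := by
    intro j h3 h4
    have := (le_max_left _ _).trans (hmax j (by simp [h3, h4]))
    rwa [div_le_iff₀ (hp _), mul_comm] at this
  have hs : ∀ j, a ≤ j → j ≤ b → |ds j| ≤ 4 * Λ * μ ^ |j - k| * M := by
    intro j h3 h4
    have := (le_max_right _ _).trans (hmax j (by simp [h3, h4]))
    rwa [div_le_iff₀ (by have := hp |j - k|; positivity), mul_comm] at this
  have hmono : ∀ x y : ℤ, x ≤ y → μ ^ x ≤ μ ^ y := fun x y h =>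
    zpow_le_zpow_right₀ (by linarith only [hμ]) h
  have hH' : ∀ j (t : ℤ), a ≤ j → j ≤ b → |j - k| ≤ t → |dH j| ≤ 4 * Λ * μ ^ t * M := by
    intro j t h3 h4 h5
    have h6 := hH j h3 h4
    have h7 := hmono _ _ h5
    have h8 := hp t
    have h9 : μ ^ |j - k| * M ≤ μ ^ t * M := mul_le_mul_of_nonneg_right h7 hM0
    have h10 : 0 ≤ μ ^ t * M := by positivity
    linarith only [h6, h9, h10, mul_le_mul_of_nonneg_right hΛ h10]
  have hs' : ∀ j (t : ℤ), a ≤ j → j ≤ b → |j - k| ≤ t → |ds j| ≤ 4 * Λ * μ ^ t * M := by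
    intro j t h3 h4 h5
    have h6 := hs j h3 h4
    have h7 := hmono _ _ h5
    have h9 : μ ^ |j - k| * M ≤ μ ^ t * M := mul_le_mul_of_nonneg_right h7 hM0
    linarith only [h6, mul_le_mul_of_nonneg_left h9 (zero_le_one.trans hΛ)]
  have hj := Finset.mem_Icc.1 hj0
  have key : M ≤ max (3 / 4 * M) E := by
    rw [hM, hf]
    refine max_le ?_ ?_
    · rw [div_le_iff₀ (hp _)]
      rcases lt_trichotomy j0 k with h | h | h
      · have e1 : |j0 - k| = |j0 + 1 - k| + 1 := by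
          rw [abs_of_neg (by omega), abs_of_nonpos (by omega)]; ring
        have h3 := hE j0 hj.1 (by omega) (4 * Λ * μ ^ |j0 - k| * M)
          (hs' _ _ hj.1 hj.2 le_rfl) (hs' _ _ (by omega) (by omega) (by omega))
          (hH' _ _ hj.1 hj.2 le_rfl) (hH' _ _ (by omega) (by omega) (by omega))
        have h4 := hH (j0 + 1) (by omega) (by omega)
        have h5 : μ ^ |j0 - k| = μ ^ |j0 + 1 - k| * μ := by rw [e1, zpow_add_one₀ hμ0.ne']
        have h6 : |dH j0| ≤ |dH (j0 + 1)| + |dH (j0 + 1) - dH j0| := by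
          have := abs_sub (dH (j0 + 1)) (dH (j0 + 1) - dH j0)
          simpa using this
        have h7 : 0 ≤ μ ^ |j0 + 1 - k| * M := by clear * - μ j0 k hp M hμ dH ds Λ; have := hp |j0 + 1 - k|; positivity
        have h8 : 0 ≤ μ ^ |j0 - k| * M := by clear * - μ j0 k hp M hμ dH ds Λ; have := hp |j0 - k|; positivity
        refine le_trans ?_ (mul_le_mul_of_nonneg_right (le_max_left _ _) (hp _).le)
        have h9 : μ ^ |j0 + 1 - k| * M ≤ 1 / 2 * (μ ^ |j0 - k| * M) := by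
          rw [h5]; linarith only [mul_le_mul_of_nonneg_right hμ h7]
        have h10 : η2 * (4 * Λ * μ ^ |j0 - k| * M) ≤ 1 / 4 * (μ ^ |j0 - k| * M) := by
          linarith only [mul_le_mul_of_nonneg_right hη h8]
        clear * - dH j0 μ k ds Λ η2 M h3 h4 h6 h9 h10; linarith only [h3, h4, h6, h9, h10]
      · subst h
        simp only [sub_self, abs_zero, zpow_zero, mul_one]
        exact h0.trans (le_max_right _ _)
      · have e1 : |j0 - k| = |j0 - 1 - k| + 1 := by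
          rw [abs_of_pos (by omega), abs_of_nonneg (by omega)]; ring
        have h3 := hE (j0 - 1) (by omega) (by omega) (4 * Λ * μ ^ |j0 - k| * M)
          (hs' _ _ (by omega) (by omega) (by omega))
          (by rw [sub_add_cancel]; exact hs' _ _ hj.1 hj.2 le_rfl)
          (hH' _ _ (by omega) (by omega) (by omega))
          (by rw [sub_add_cancel]; exact hH' _ _ hj.1 hj.2 le_rfl)
        rw [sub_add_cancel] at h3
        have h4 := hH (j0 - 1) (by omega) (by omega)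
        have h5 : μ ^ |j0 - k| = μ ^ |j0 - 1 - k| * μ := by rw [e1, zpow_add_one₀ hμ0.ne']
        have h6 : |dH j0| ≤ |dH (j0 - 1)| + |dH j0 - dH (j0 - 1)| := by
          have := abs_add_le (dH (j0 - 1)) (dH j0 - dH (j0 - 1))
          simpa using this
        have h7 : 0 ≤ μ ^ |j0 - 1 - k| * M := by clear * - μ j0 k hp M hμ dH ds Λ; have := hp |j0 - 1 - k|; positivity
        have h8 : 0 ≤ μ ^ |j0 - k| * M := by clear * - μ j0 k hp M hμ dH ds Λ; have := hp |j0 - k|; positivity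
        refine le_trans ?_ (mul_le_mul_of_nonneg_right (le_max_left _ _) (hp _).le)
        have h9 : μ ^ |j0 - 1 - k| * M ≤ 1 / 2 * (μ ^ |j0 - k| * M) := by
          rw [h5]; linarith only [mul_le_mul_of_nonneg_right hμ h7]
        have h10 : η2 * (4 * Λ * μ ^ |j0 - k| * M) ≤ 1 / 4 * (μ ^ |j0 - k| * M) := by
          linarith only [mul_le_mul_of_nonneg_right hη h8]
        clear * - dH j0 μ k ds Λ η2 M h3 h4 h6 h9 h10; linarith only [h3, h4, h6, h9, h10]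
    · have hq : 0 < 4 * Λ * μ ^ |j0 - k| := by have := hp |j0 - k|; positivity
      rw [div_le_iff₀ hq]
      have hbd : ∀ x : ℝ, x ≤ μ ^ |j0 - k| * E →
          x ≤ max (3 / 4 * M) E * (4 * Λ * μ ^ |j0 - k|) := by
        intro x hx
        refine le_trans ?_ (mul_le_mul_of_nonneg_right (le_max_right _ _) hq.le)
        have : 0 ≤ μ ^ |j0 - k| * E := by have := hp |j0 - k|; positivity
        linarith only [hx, this, mul_le_mul_of_nonneg_right hΛ this]
      rcases eq_or_lt_of_le hj.1 with h | h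
      · refine hbd _ ?_
        have : |a - k| = k - a := by rw [abs_of_nonpos (by omega)]; ring
        rw [← h, this]; exact h1
      rcases eq_or_lt_of_le hj.2 with h' | h'
      · refine hbd _ ?_
        have : |b - k| = b - k := by rw [abs_of_nonneg (by omega)]
        rw [h', this]; exact h2
      have a1 : |j0 - 1 - k| ≤ |j0 - k| + 1 := by
        rw [abs_le]; constructor <;> cases abs_cases (j0 - k) <;> omega
      have a2 : |j0 + 1 - k| ≤ |j0 - k| + 1 := by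
        rw [abs_le]; constructor <;> cases abs_cases (j0 - k) <;> omega
      have h3 := hV j0 h h' (4 * Λ * μ ^ (|j0 - k| + 1) * M)
        (hs' _ _ (by omega) (by omega) a1) (hs' _ _ hj.1 hj.2 (by omega))
        (hs' _ _ (by omega) (by omega) a2) (hH' _ _ (by omega) (by omega) a1)
        (hH' _ _ hj.1 hj.2 (by omega)) (hH' _ _ (by omega) (by omega) a2)
      have h4 := hH j0 hj.1 hj.2
      rw [zpow_add_one₀ hμ0.ne'] at h3
      refine le_trans ?_ (mul_le_mul_of_nonneg_right (le_max_left _ _) hq.le)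
      have h8 : 0 ≤ Λ * (μ ^ |j0 - k| * M) := by clear * - μ j0 k hp Λ M hΛ hμ dH ds; have := hp |j0 - k|; positivity
      have h9 : Λ * |dH j0| ≤ Λ * (μ ^ |j0 - k| * M) :=
        mul_le_mul_of_nonneg_left h4 (zero_le_one.trans hΛ)
      have h10 : e2 * (4 * Λ * (μ ^ |j0 - k| * μ) * M) =
          4 * (e2 * μ) * (Λ * (μ ^ |j0 - k| * M)) := by ring
      linarith only [h3, h9, h10, mul_le_mul_of_nonneg_right he h8]
  have hME : M ≤ E := by
    rcases le_max_iff.1 key with h | h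
    · linarith only [h, hE0]
    · exact h
  have h5 := hp |i - k|
  refine ⟨(hH i hai hib).trans (mul_le_mul_of_nonneg_left hME h5.le),
    (hs i hai hib).trans (mul_le_mul_of_nonneg_left hME (by positivity))⟩

lemma persist {d p : ℕ → ℝ} {ξ τ : ℝ} (hτ : 0 < τ) (hξ0 : 0 ≤ ξ) (hξ : ξ * (τ + 1) ≤ τ / 2)
    (hp : ∀ n, p (n + 1) ≤ p n / 2)
    (hd : ∀ n, |d (n + 1) - d n| ≤ ξ * (|d n| + p n)) (h0 : 0 < d 0) (h1 : τ * p 0 ≤ d 0)
    (n : ℕ) : (1 / 2) ^ n * d 0 ≤ d n := by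
  have : (1 / 2) ^ n * d 0 ≤ d n ∧ τ * p n ≤ d n := by
    induction n with
    | zero => simpa using h1
    | succ n ih =>
      have h2 : 0 < d n := lt_of_lt_of_le (by positivity) ih.1
      have h3 := hd n
      rw [abs_of_pos h2] at h3
      have h4 := (abs_le.1 h3).1
      have h5 : τ * (ξ * (d n + p n)) ≤ τ * (d n / 2) := by linarith only [hξ0, ih, hξ, h2, ih.2, mul_nonneg_of_nonpos_of_nonpos (Mathlib.Tactic.Linarith.sub_nonpos_of_le hξ0) (Mathlib.Tactic.Linarith.sub_nonpos_of_le ih.right), mul_nonneg_of_nonpos_of_nonpos (Mathlib.Tactic.Linarith.sub_nonpos_of_le hξ) (le_of_lt (Mathlib.Tactic.Linarith.sub_neg_of_lt h2))]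
      have h6 : ξ * (d n + p n) ≤ d n / 2 := le_of_mul_le_mul_left h5 hτ
      refine ⟨by rw [pow_succ]; linarith only [ih, h4, h6, ih.1], ?_⟩
      have := hp n
      linarith only [ih, h4, h6, hτ, this, ih.2, mul_nonneg_of_nonpos_of_nonpos (le_of_lt (Mathlib.Tactic.Linarith.sub_neg_of_lt hτ)) (Mathlib.Tactic.Linarith.sub_nonpos_of_le this)]
  exact this.1

lemma le_of_geom {x y C μ : ℝ} (hμ : 2 ≤ μ) (h : ∀ n : ℕ, x ≤ y + C * (μ⁻¹) ^ n) : x ≤ y := by
  have h2 : Tendsto (fun n : ℕ => y + C * (μ⁻¹) ^ n) atTop (𝓝 (y + C * 0)) :=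
    ((tendsto_pow_atTop_nhds_zero_of_lt_one (by positivity)
      (inv_lt_one_of_one_lt₀ (by linarith only [hμ]))).const_mul _).const_add _
  simpa using ge_of_tendsto' h2 h

end Pool.Agent.Work.MP_05654f_an
end

-- merged part: Pool.Agent.Work.MP_05654f_an.Low
section
/-!
Low laws: the structure of constants, difference inequalities, comparison on half lines,
persistence of signs and decay in runs.
-/

namespace Pool.Agent.Work.MP_05654f_an

open Filter Topology Set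

/-- A Lipschitz and bounded vertex law. -/
def Law (δ0 Λ e B : ℝ) (V : ℝ → ℝ → ℝ) : Prop :=
  (∀ H H' δ δ', |δ| ≤ δ0 → |δ'| ≤ δ0 → |V H δ - V H' δ'| ≤ Λ * |H - H'| + e * |δ - δ'|) ∧
    ∀ H δ, |δ| ≤ δ0 → |V H δ| ≤ B

/-- Lipschitz bound in three variables. -/
def Lip3 (η : ℝ) (q : ℝ × ℝ × ℝ → ℝ) : Prop :=
  ∀ a b c a' b' c' m, |a - a'| ≤ m → |b - b'| ≤ m → |c - c'| ≤ m →
    |q (a, b, c) - q (a', b', c')| ≤ η * m

/-- Antisymmetry in the first two variables. -/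
def Anti (q : ℝ × ℝ × ℝ → ℝ) : Prop := ∀ a b c, q (b, a, c) = -q (a, b, c)

lemma Law.mono {δ0 Λ e B Λ' e' B' : ℝ} {V : ℝ → ℝ → ℝ} (h : Law δ0 Λ e B V) (h1 : Λ ≤ Λ')
    (h2 : e ≤ e') (h3 : B ≤ B') : Law δ0 Λ' e' B' V := by
  refine ⟨fun H H' δ δ' a b => (h.1 H H' δ δ' a b).trans ?_, fun H δ a => (h.2 H δ a).trans h3⟩
  have := abs_nonneg (H - H')
  have := abs_nonneg (δ - δ')
  nlinarith

lemma Anti.diag {q : ℝ × ℝ × ℝ → ℝ} (h : Anti q) (a c : ℝ) : q (a, a, c) = 0 := by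
  have := h a a c
  linarith only [this]

lemma Lip3.size {η : ℝ} {q : ℝ × ℝ × ℝ → ℝ} (h : Lip3 η q) (ha : Anti q) (a b c : ℝ) :
    |q (a, b, c)| ≤ η * |a - b| := by
  have := h a b c a a c |a - b| (by simp) (by rw [abs_sub_comm]) (by simp)
  rwa [ha.diag, sub_zero] at this

lemma abs_mid_le {a b a' b' m : ℝ} (h1 : |a - a'| ≤ m) (h2 : |b - b'| ≤ m) :
    |(a + b) / 2 - (a' + b') / 2| ≤ m := by
  rw [abs_le] at *
  constructor <;> linarith only [h1, h2, h1.1, h1.2, h2.1, h2.2]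

lemma Edge.size {η : ℝ} {q : ℝ × ℝ × ℝ → ℝ} (h : Lip3 η q) (ha : Anti q) {s H : ℤ → ℝ} {i : ℤ}
    (hE : Edge q s H i) : |H (i + 1) - H i| ≤ 2 * η * |s i - s (i + 1)| := by
  unfold Edge at hE
  rw [hE, abs_mul, abs_two, mul_assoc]
  exact mul_le_mul_of_nonneg_left (h.size ha _ _ _) (by norm_num)

lemma Edge.de {η : ℝ} {q : ℝ × ℝ × ℝ → ℝ} (h : Lip3 η q) {s H s' H' : ℤ → ℝ} {i : ℤ}
    (hE : Edge q s H i) (hE' : Edge q s' H' i) : DE (2 * η) (s - s') (H - H') i := by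
  intro m h1 h2 h3 h4
  simp only [Pi.sub_apply] at *
  unfold Edge at hE hE'
  have h5 := h _ _ _ _ _ _ m h1 h2 (abs_mid_le h3 h4)
  have : H (i + 1) - H' (i + 1) - (H i - H' i) = 2 * (q (s i, s (i + 1), (H i + H (i + 1)) / 2) -
      q (s' i, s' (i + 1), (H' i + H' (i + 1)) / 2)) := by linarith only [hE, hE']
  rw [this, abs_mul, abs_two]
  linarith only [h5]

lemma dl_lip {l : ℝ} {Θ : ℝ × ℝ × ℝ → ℝ} (h : Lip3 l Θ) {s H s' H' : ℤ → ℝ} {i : ℤ} {m : ℝ}
    (h1 : |s (i - 1) - s' (i - 1)| ≤ m) (h2 : |s i - s' i| ≤ m)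
    (h3 : |s (i + 1) - s' (i + 1)| ≤ m) (h4 : |H (i - 1) - H' (i - 1)| ≤ m)
    (h5 : |H i - H' i| ≤ m) (h6 : |H (i + 1) - H' (i + 1)| ≤ m) :
    |dl Θ s H i - dl Θ s' H' i| ≤ 2 * l * m := by
  unfold dl
  have a1 := h _ _ _ _ _ _ m h2 h1 (abs_mid_le h5 h4)
  have a2 := h _ _ _ _ _ _ m h2 h3 (abs_mid_le h5 h6)
  rw [abs_le] at *
  constructor <;> linarith only [a1, a2, a1.1, a1.2, a2.1, a2.2]

/-- The constants and laws of the low letters. -/
structure Lw where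
  κ : ℝ
  q : ℝ × ℝ × ℝ → ℝ
  Θ : ℝ × ℝ × ℝ → ℝ
  η : ℝ
  l : ℝ
  δ0 : ℝ
  Λ : ℝ
  e : ℝ
  B : ℝ
  R : ℝ
  LV : ℕ → ℝ → ℝ → ℝ
  Mk : ℕ → ℝ → Prop
  anti : Anti q
  lipq : Lip3 η q
  lipΘ : Lip3 l Θ
  bΘ : ∀ p, |Θ p| ≤ δ0 / 2
  law : ∀ b, Law δ0 Λ e B (LV b)
  η0 : 0 ≤ η
  l0 : 0 ≤ l
  e0 : 0 ≤ e
  Λ1 : 1 ≤ Λ
  B1 : 1 ≤ B
  R0 : 0 < R
  RB : 12 * R ≤ B
  se : e * l * Λ ≤ 1 / 64
  sη : η * Λ * Λ ≤ 1 / 1024
  sR : 28800 * (η * Λ * B) ≤ R
  adm : ∀ b ≤ 5, ∀ H δ, |H| ≤ 12 * R → |δ| ≤ δ0 →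
    (∃ u : ℝ, (LV b H δ : ℂ) + (H : ℂ) * Complex.I = Sp κ δ u) ∧ Mk b (LV b H δ)
  mk_inj : ∀ b ≤ 5, ∀ b' ≤ 5, ∀ s, Mk b s → Mk b' s → b = b'

namespace Lw

variable (W : Lw)

/-- The total variation constant of a run. -/
def c : ℝ := 288 * (W.η * W.Λ * W.B)

lemma c0 : 0 ≤ W.c := by
  have := W.η0; have := W.Λ1; have := W.B1
  unfold c; positivity

lemma cR : 100 * W.c ≤ W.R := by have := W.sR; unfold c; linarith only [this]

lemma sηΛ : W.η * W.Λ ≤ 1 / 1024 := by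
  have := W.η0; have := W.Λ1; have := W.sη
  have h : 0 ≤ W.η * W.Λ := by positivity
  nlinarith

lemma sel : W.e * W.l ≤ 1 / 64 := by
  have := W.e0; have := W.Λ1; have := W.se; have := W.l0
  have h : 0 ≤ W.e * W.l := by positivity
  nlinarith

lemma ηB : 4 * (W.η * W.B) ≤ W.c := by
  have := W.η0; have := W.Λ1; have := W.B1
  have h : 0 ≤ W.η * W.B := by positivity
  unfold c; nlinarith

lemma dl_le (s H : ℤ → ℝ) (i : ℤ) : |dl W.Θ s H i| ≤ W.δ0 := by
  unfold dl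
  have a1 := W.bΘ (s i, s (i - 1), (H i + H (i - 1)) / 2)
  have a2 := W.bΘ (s i, s (i + 1), (H i + H (i + 1)) / 2)
  exact (abs_add_le _ _).trans (by linarith only [a1, a2])

lemma dv {Λ B : ℝ} {V : ℝ → ℝ → ℝ} (h : Law W.δ0 Λ W.e B V) {s H s' H' : ℤ → ℝ} {i : ℤ}
    (h1 : s i = V (H i) (dl W.Θ s H i)) (h2 : s' i = V (H' i) (dl W.Θ s' H' i)) :
    DV Λ (2 * (W.e * W.l)) (s - s') (H - H') i := by
  intro m a1 a2 a3 a4 a5 a6
  simp only [Pi.sub_apply] at *
  have b1 := dl_lip W.lipΘ a1 a2 a3 a4 a5 a6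
  have b2 := h.1 (H i) (H' i) _ _ (W.dl_le s H i) (W.dl_le s' H' i)
  rw [← h1, ← h2] at b2
  have b3 := mul_le_mul_of_nonneg_left b1 W.e0
  linarith only [b2, b3]

/-- The vertex `i` obeys the low law `b`. -/
def Vx (b : ℕ) (s H : ℤ → ℝ) (i : ℤ) : Prop := s i = W.LV b (H i) (dl W.Θ s H i)

variable {W}

lemma Vx.bd {b : ℕ} {s H : ℤ → ℝ} {i : ℤ} (h : W.Vx b s H i) : |s i| ≤ W.B := by
  rw [h]; exact (W.law b).2 _ _ (W.dl_le _ _ _)

lemma Vx.dv {b : ℕ} {s H s' H' : ℤ → ℝ} {i : ℤ} (h : W.Vx b s H i) (h' : W.Vx b s' H' i) :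
    DV W.Λ (2 * (W.e * W.l)) (s - s') (H - H') i := W.dv (W.law b) h h'

lemma edge_le {q : ℝ × ℝ × ℝ → ℝ} (h : Lip3 W.η q) (ha : Anti q) {s H : ℤ → ℝ} {i : ℤ}
    (hE : Edge q s H i) (h1 : |s i| ≤ W.B) (h2 : |s (i + 1)| ≤ W.B) :
    |H (i + 1) - H i| ≤ 4 * (W.η * W.B) := by
  have a1 := hE.size h ha
  have a2 : |s i - s (i + 1)| ≤ 2 * W.B := (abs_sub _ _).trans (by linarith only [h1, h2])
  have := W.η0
  linarith only [a1, a2, this, mul_nonneg_of_nonpos_of_nonpos (Mathlib.Tactic.Linarith.sub_nonpos_of_le a2) (Mathlib.Tactic.Linarith.sub_nonpos_of_le this)]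

variable (W)

/-- Difference inequalities to the left of `b`. -/
def DL (ds dH : ℤ → ℝ) (b : ℤ) : Prop :=
  (∀ i < b, DE (2 * W.η) ds dH i ∧ DV W.Λ (2 * (W.e * W.l)) ds dH i) ∧ ∀ i ≤ b, |ds i| ≤ 2 * W.B

/-- Difference inequalities to the right of `a`. -/
def DR (ds dH : ℤ → ℝ) (a : ℤ) : Prop :=
  (∀ i, a ≤ i → DE (2 * W.η) ds dH i) ∧ (∀ i, a < i → DV W.Λ (2 * (W.e * W.l)) ds dH i) ∧
    ∀ i, a ≤ i → |ds i| ≤ 2 * W.B

variable {W}

lemma DE.refl {η : ℝ} {ds dH : ℤ → ℝ} {i : ℤ} (c : ℤ) (h : DE η ds dH (c - i - 1)) :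
    DE η (fun j => ds (c - j)) (fun j => dH (c - j)) i := by
  intro m h1 h2 h3 h4
  have e1 : c - (i + 1) = c - i - 1 := by ring
  have e2 : c - i - 1 + 1 = c - i := by ring
  simp only [e1] at *
  have := h m h2 (by rwa [e2]) h4 (by rwa [e2])
  rwa [e2, abs_sub_comm] at this

lemma DV.refl {Λ e : ℝ} {ds dH : ℤ → ℝ} {i : ℤ} (c : ℤ) (h : DV Λ e ds dH (c - i)) :
    DV Λ e (fun j => ds (c - j)) (fun j => dH (c - j)) i := by
  intro m h1 h2 h3 h4 h5 h6
  have e1 : c - (i + 1) = c - i - 1 := by ring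
  have e2 : c - (i - 1) = c - i + 1 := by ring
  simp only [e1, e2] at *
  exact h m h3 h2 h1 h6 h5 h4

lemma DR.refl {ds dH : ℤ → ℝ} {a : ℤ} (h : W.DR ds dH a) :
    W.DL (fun j => ds (0 - j)) (fun j => dH (0 - j)) (-a) :=
  ⟨fun i hi => ⟨DE.refl 0 (h.1 _ (by omega)), DV.refl 0 (h.2.1 _ (by omega))⟩,
    fun i hi => h.2.2 _ (by omega)⟩

lemma cmpI {μ : ℝ} (hμ : 2 ≤ μ) (hμ8 : μ ≤ 8) {ds dH : ℤ → ℝ} {a b k : ℤ} (hak : a ≤ k)
    (hkb : k ≤ b) (hE : ∀ i, a ≤ i → i < b → DE (2 * W.η) ds dH i)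
    (hV : ∀ i, a < i → i < b → DV W.Λ (2 * (W.e * W.l)) ds dH i) {E : ℝ} (h0 : |dH k| ≤ E)
    (h1 : |ds a| ≤ μ ^ (k - a) * E) (h2 : |ds b| ≤ μ ^ (b - k) * E) {i : ℤ} (hai : a ≤ i)
    (hib : i ≤ b) : |dH i| ≤ μ ^ |i - k| * E ∧ |ds i| ≤ 4 * W.Λ * μ ^ |i - k| * E := by
  have a1 := W.sel
  have a2 := W.sηΛ
  have a3 : 0 ≤ W.e * W.l := mul_nonneg W.e0 W.l0
  exact cmp W.Λ1 hμ (by linarith only [hμ8, a1, hμ, mul_nonneg_of_nonpos_of_nonpos (Mathlib.Tactic.Linarith.sub_nonpos_of_le hμ) (Mathlib.Tactic.Linarith.sub_nonpos_of_le a1)]) (by linarith only [a2]) hak hkb hE hV h0 h1 h2 hai hib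

lemma pow_aux {μ C E : ℝ} (hμ : 2 ≤ μ) (hC : 0 ≤ C) (hE : 0 ≤ E) {d : ℤ} {n : ℕ} (h : (n : ℤ) ≤ d) :
    C ≤ μ ^ d * (E + C * μ⁻¹ ^ n) := by
  have h0 : 0 < μ := by linarith only [hμ]
  have h1 : μ ^ (n : ℤ) ≤ μ ^ d := zpow_le_zpow_right₀ (by linarith) h
  have h2 : μ ^ (n : ℤ) * μ⁻¹ ^ n = 1 := by
    rw [zpow_natCast, ← mul_pow, mul_inv_cancel₀ h0.ne', one_pow]
  have h3 : 0 ≤ μ ^ d := (zpow_pos h0 _).le
  have h4 : 0 ≤ C * μ⁻¹ ^ n := by positivity
  calc C = μ ^ (n : ℤ) * (C * μ⁻¹ ^ n) := by rw [mul_left_comm, h2, mul_one]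
    _ ≤ μ ^ d * (C * μ⁻¹ ^ n) := mul_le_mul_of_nonneg_right h1 h4
    _ ≤ _ := mul_le_mul_of_nonneg_left (by linarith only [hE]) h3

lemma cmpL {μ : ℝ} (hμ : 2 ≤ μ) (hμ8 : μ ≤ 8) {ds dH : ℤ → ℝ} {b k : ℤ} (h : W.DL ds dH b)
    (hkb : k ≤ b) {E : ℝ} (h0 : |dH k| ≤ E) (h2 : |ds b| ≤ μ ^ (b - k) * E) {i : ℤ}
    (hib : i ≤ b) : |dH i| ≤ μ ^ |i - k| * E ∧ |ds i| ≤ 4 * W.Λ * μ ^ |i - k| * E := by
  have hE : 0 ≤ E := (abs_nonneg _).trans h0
  have hB : 0 ≤ 2 * W.B := by linarith only [W.B1]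
  have h00 : 0 < μ := by linarith
  have key : ∀ n : ℕ, |dH i| ≤ μ ^ |i - k| * (E + 2 * W.B * μ⁻¹ ^ n) ∧
      |ds i| ≤ 4 * W.Λ * μ ^ |i - k| * (E + 2 * W.B * μ⁻¹ ^ n) := by
    intro n
    have h3 : 0 ≤ 2 * W.B * μ⁻¹ ^ n := by positivity
    refine cmpI (a := min i k - n) hμ hμ8 (by omega) hkb (fun j _ hj => (h.1 j hj).1)
      (fun j _ hj => (h.1 j hj).2) (by linarith only [h0, h3]) ?_ ?_ (by omega) hib
    · exact (h.2 _ (by omega)).trans (pow_aux hμ hB hE (by omega))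
    · exact h2.trans (mul_le_mul_of_nonneg_left (by linarith only [h3]) (zpow_pos h00 _).le)
  constructor
  · refine le_of_geom (C := μ ^ |i - k| * (2 * W.B)) hμ fun n => (key n).1.trans_eq ?_
    ring
  · refine le_of_geom (C := 4 * W.Λ * μ ^ |i - k| * (2 * W.B)) hμ fun n => (key n).2.trans_eq ?_
    ring

lemma cmpZ {ds dH : ℤ → ℝ} (h : ∀ b, W.DL ds dH b) {k : ℤ} {E : ℝ} (h0 : |dH k| ≤ E) (i : ℤ) :
    |dH i| ≤ 2 ^ |i - k| * E ∧ |ds i| ≤ 4 * W.Λ * 2 ^ |i - k| * E := by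
  have hE : 0 ≤ E := (abs_nonneg _).trans h0
  have hB : 0 ≤ 2 * W.B := by linarith only [W.B1]
  have key : ∀ n : ℕ, |dH i| ≤ 2 ^ |i - k| * (E + 2 * W.B * 2⁻¹ ^ n) ∧
      |ds i| ≤ 4 * W.Λ * 2 ^ |i - k| * (E + 2 * W.B * 2⁻¹ ^ n) := by
    intro n
    have h3 : 0 ≤ 2 * W.B * (2 : ℝ)⁻¹ ^ n := by positivity
    refine cmpL (b := max i k + n) le_rfl (by norm_num) (h _) (by omega) (by linarith only [h0, h3]) ?_ (by omega)
    exact ((h (max i k + n)).2 _ le_rfl).trans (pow_aux le_rfl hB hE (by omega))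
  constructor
  · refine le_of_geom (C := 2 ^ |i - k| * (2 * W.B)) le_rfl fun n => (key n).1.trans_eq ?_
    ring
  · refine le_of_geom (C := 4 * W.Λ * 2 ^ |i - k| * (2 * W.B)) le_rfl
      fun n => (key n).2.trans_eq ?_
    ring

lemma persL {ds dH : ℤ → ℝ} {b k : ℤ} (h : W.DL ds dH b) (hkb : k ≤ b)
    (h0 : 256 * (W.η * W.Λ) * (8 ^ (k - b) * |ds b|) < dH k) (n : ℕ) :
    (1 / 2) ^ n * dH k ≤ dH (k - n) := by
  have a2 := W.sηΛ
  have a3 : 0 ≤ W.η * W.Λ := mul_nonneg W.η0 (by linarith only [W.Λ1])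
  have a4 : 0 ≤ (8 : ℝ) ^ (k - b) * |ds b| := by positivity
  have hpos : 0 < dH k := lt_of_le_of_lt (by positivity) h0
  have hstep : ∀ n : ℕ, |dH (k - (n + 1 : ℕ)) - dH (k - n)| ≤
      64 * (W.η * W.Λ) * (|dH (k - n)| + 8 ^ (k - n - b) * |ds b|) := by
    intro n
    set E := |dH (k - n)| + 8 ^ (k - n - b) * |ds b| with hE
    have b0 : 0 ≤ (8 : ℝ) ^ (k - n - b) * |ds b| := by positivity
    have hE0 : 0 ≤ E := by positivity
    have b1 : |ds b| ≤ 8 ^ (b - (k - n)) * E := by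
      have : (8 : ℝ) ^ (b - (k - n)) * (8 ^ (k - n - b) * |ds b|) = |ds b| := by
        rw [← mul_assoc, ← zpow_add₀ (by norm_num)]; simp
      rw [← this]
      exact mul_le_mul_of_nonneg_left (by linarith only [abs_nonneg (dH (k - n))]) (by positivity)
    have c1 := cmpL (μ := 8) (by norm_num) le_rfl h (k := k - n) (by omega) (E := E)
      (by linarith only [b0]) b1 (i := k - n) (by omega)
    have c2 := cmpL (μ := 8) (by norm_num) le_rfl h (k := k - n) (by omega) (E := E)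
      (by linarith only [b0]) b1 (i := k - n - 1) (by omega)
    have e1 : |k - n - 1 - (k - n)| = 1 := by simp
    rw [e1, zpow_one] at c2
    simp only [sub_self, abs_zero, zpow_zero] at c1
    have hΛ := W.Λ1
    have hΛE : E ≤ W.Λ * E := by linarith only [hE0, hΛ, mul_nonneg_of_nonpos_of_nonpos (Mathlib.Tactic.Linarith.sub_nonpos_of_le hE0) (Mathlib.Tactic.Linarith.sub_nonpos_of_le hΛ)]
    have c3 := (h.1 (k - n - 1) (by omega)).1 (32 * (W.Λ * E)) (by linarith only [c2, c2.2])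
      (by rw [sub_add_cancel]; linarith only [hE0, c1, hΛE, c1.2]) (by linarith only [hE0, c2, hΛE, c2.1])
      (by rw [sub_add_cancel]; linarith only [b0, hE0, hΛE, c1.1])
    rw [sub_add_cancel, abs_sub_comm] at c3
    have e2 : k - ((n + 1 : ℕ) : ℤ) = k - n - 1 := by push_cast; ring
    rw [e2]
    linarith only [c3]
  have hp : ∀ n : ℕ, (8 : ℝ) ^ (k - (n + 1 : ℕ) - b) * |ds b| ≤ 8 ^ (k - n - b) * |ds b| / 2 := by
    intro n
    have e2 : k - ((n + 1 : ℕ) : ℤ) - b = k - n - b - 1 := by push_cast; ring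
    rw [e2, zpow_sub_one₀ (by norm_num)]
    have b0 : 0 ≤ (8 : ℝ) ^ (k - n - b) * |ds b| := by positivity
    linarith only [b0]
  rcases eq_or_lt_of_le a3 with hz | hz
  · have : ∀ n : ℕ, dH (k - n) = dH k := by
      intro n
      induction n with
      | zero => simp
      | succ n ih =>
        have := hstep n
        rw [← hz, mul_zero, zero_mul, abs_nonpos_iff, sub_eq_zero] at this
        rw [this, ih]
    rw [this]
    have : (1 / 2 : ℝ) ^ n ≤ 1 := pow_le_one₀ (by norm_num) (by norm_num)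
    linarith only [hpos, this, mul_nonneg_of_nonpos_of_nonpos (le_of_lt (Mathlib.Tactic.Linarith.sub_neg_of_lt hpos)) (Mathlib.Tactic.Linarith.sub_nonpos_of_le this)]
  have := persist (d := fun n : ℕ => dH (k - n)) (p := fun n : ℕ => 8 ^ (k - n - b) * |ds b|)
    (ξ := 64 * (W.η * W.Λ)) (τ := 256 * (W.η * W.Λ)) (by positivity) (by positivity)
    (by linarith only [hz, a2, a3, mul_nonneg_of_nonpos_of_nonpos (Mathlib.Tactic.Linarith.sub_nonpos_of_le a2) (Mathlib.Tactic.Linarith.sub_nonpos_of_le a3)]) hp hstep (by simpa using hpos) (by simpa using h0.le) n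
  simpa using this

lemma persR {ds dH : ℤ → ℝ} {a k : ℤ} (h : W.DR ds dH a) (hak : a ≤ k)
    (h0 : 256 * (W.η * W.Λ) * (8 ^ (a - k) * |ds a|) < dH k) {i : ℤ} (hi : k ≤ i) : 0 < dH i := by
  have a3 : 0 ≤ W.η * W.Λ := mul_nonneg W.η0 (by linarith only [W.Λ1])
  have hpos : 0 < dH k := lt_of_le_of_lt (by positivity) h0
  have := persL h.refl (k := -k) (by omega) (by
    have e : -k - -a = a - k := by ring
    simpa [e] using h0) (i - k).toNat
  have e : 0 - (-k - ((i - k).toNat : ℤ)) = i := by omega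
  simp only [e, zero_sub, neg_neg] at this
  exact lt_of_lt_of_le (by positivity) this

lemma exists_pow_lt {C d : ℝ} (hd : 0 < d) {θ : ℝ} (h0 : 0 ≤ θ) (h1 : θ < 1) :
    ∃ n0 : ℕ, ∀ n ≥ n0, C * θ ^ n < d := by
  have h2 : Tendsto (fun n : ℕ => C * θ ^ n) atTop (𝓝 (C * 0)) :=
    (tendsto_pow_atTop_nhds_zero_of_lt_one h0 h1).const_mul _
  rw [mul_zero] at h2
  exact eventually_atTop.1 (h2.eventually (gt_mem_nhds hd))

lemma eight_neg (n : ℕ) : (8 : ℝ) ^ (-(n : ℤ)) = (1 / 8) ^ n := by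
  rw [zpow_neg, zpow_natCast, one_div, inv_pow]

lemma persZ {ds dH : ℤ → ℝ} (h : ∀ b, W.DL ds dH b) {k : ℤ} (h0 : 0 < dH k) (i : ℤ) :
    0 < dH i := by
  have a3 : 0 ≤ W.η * W.Λ := mul_nonneg W.η0 (by linarith only [W.Λ1])
  obtain ⟨n, hn⟩ := exists_pow_lt (C := 256 * (W.η * W.Λ) * (2 * W.B)) h0
    (θ := 1 / 8) (by norm_num) (by norm_num)
  have hn' := hn n le_rfl
  have key : ∀ j : ℤ, 256 * (W.η * W.Λ) * (8 ^ (-(n : ℤ)) * |ds j|) < dH k := by
    intro j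
    refine lt_of_le_of_lt ?_ hn'
    rw [eight_neg, mul_assoc (256 * (W.η * W.Λ))]
    refine mul_le_mul_of_nonneg_left ?_ (by positivity)
    rw [mul_comm]
    exact mul_le_mul_of_nonneg_right ((h j).2 j le_rfl) (by positivity)
  rcases le_total i k with hi | hi
  · have := persL (h (k + n)) (k := k) (by omega) (by
      have e : k - (k + n) = -(n : ℤ) := by ring
      rw [e]; exact key _) (k - i).toNat
    have e : k - ((k - i).toNat : ℤ) = i := by omega
    rw [e] at this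
    exact lt_of_lt_of_le (by positivity) this
  · refine persR (a := k - n) ⟨fun j _ => ((h (j + 1)).1 j (by omega)).1,
      fun j _ => ((h (j + 1)).1 j (by omega)).2, fun j _ => (h j).2 j le_rfl⟩ (by omega) ?_ hi
    have e : k - n - k = -(n : ℤ) := by ring
    rw [e]; exact key _

lemma exists_const (W : Lw) (b : ℕ) (y : ℝ) :
    ∃ σ : ℝ, ∀ i, W.Vx b (fun _ => σ) (fun _ => y) i ∧ Edge W.q (fun _ => σ) (fun _ => y) i := by
  obtain ⟨f, hf, -⟩ := fp_exists (ι := Unit) (w := fun _ => 1) (fun _ => one_pos)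
    (T := fun f _ => W.LV b y (dl W.Θ (fun _ => f ()) (fun _ => y) 0)) (M0 := W.B) (by
      intro f g M hM h i
      have h1 : |f () - g ()| ≤ M := by simpa using h ()
      have h2 := dl_lip W.lipΘ (s := fun _ => f ()) (H := fun _ => y) (s' := fun _ => g ())
        (H' := fun _ => y) (i := 0) h1 h1 h1 (by simpa) (by simpa) (by simpa)
      have h3 := (W.law b).1 y y _ _ (W.dl_le (fun _ => f ()) (fun _ => y) 0)
        (W.dl_le (fun _ => g ()) (fun _ => y) 0)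
      have h4 := mul_le_mul_of_nonneg_left h2 W.e0
      have h5 := W.sel
      simp only [sub_self, abs_zero, mul_zero, zero_add, one_mul] at h3 ⊢
      linarith only [hM, h4, h3, h5, mul_nonneg_of_nonpos_of_nonpos (Mathlib.Tactic.Linarith.sub_nonpos_of_le hM) (Mathlib.Tactic.Linarith.sub_nonpos_of_le h5)])
    (fun _ => by simpa using (W.law b).2 _ _ (W.dl_le _ _ _)) (by linarith [W.B1])
  refine ⟨f (), fun i => ⟨?_, ?_⟩⟩
  · exact (congrFun hf ()).symm
  · simp [Edge, W.anti.diag]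

lemma run_step {s H : ℤ → ℝ} {a b : ℤ} (hV : ∀ i, a < i → i < b → W.Vx 1 s H i)
    (hE : ∀ i, a ≤ i → i < b → Edge W.q s H i) (ha : |s a| ≤ W.B) (hb : |s b| ≤ W.B) {i : ℤ}
    (h1 : a ≤ i) (h2 : i < b) : |H (i + 1) - H i| ≤ W.c / 2 * (8 ^ (a - i) + 8 ^ (i - b)) := by
  obtain ⟨σ, hσ⟩ := W.exists_const 1 (H i)
  have hσB : |σ| ≤ W.B := (hσ 0).1.bd
  have hB := W.B1
  set E := 2 * W.B * (8 ^ (a - i) + 8 ^ (i - b)) with hEdef
  have p1 : (0 : ℝ) < 8 ^ (a - i) := by positivity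
  have p2 : (0 : ℝ) < 8 ^ (i - b) := by positivity
  have hE0 : 0 ≤ E := by positivity
  have key : ∀ j, a ≤ j → j ≤ b → |s j - σ| ≤ 4 * W.Λ * 8 ^ |j - i| * E := by
    intro j j1 j2
    refine (cmpI (ds := s - fun _ => σ) (dH := H - fun _ => H i) (μ := 8) (by norm_num) le_rfl h1 h2.le
      (fun j b1 b2 => (hE j b1 b2).de W.lipq (hσ j).2)
      (fun j b1 b2 => (hV j b1 b2).dv (hσ j).1) (by simpa using hE0) ?_ ?_ j1 j2).2
    · have e : (8 : ℝ) ^ (i - a) * 8 ^ (a - i) = 1 := by rw [← zpow_add₀ (by norm_num)]; simp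
      have p3 : (0 : ℝ) < 8 ^ (i - a) := by positivity
      have : |s a - σ| ≤ 2 * W.B := (abs_sub _ _).trans (by linarith only [ha, hσB])
      simp only [Pi.sub_apply]
      have p4 : 0 ≤ W.B * (8 ^ (i - a) * 8 ^ (i - b)) := by positivity
      linarith only [e, this, p4, hB, Mathlib.Tactic.Linarith.mul_zero_eq (Mathlib.Tactic.Linarith.sub_nonpos_of_le hB) (sub_eq_zero_of_eq e)]
    · have e : (8 : ℝ) ^ (b - i) * 8 ^ (i - b) = 1 := by rw [← zpow_add₀ (by norm_num)]; simp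
      have p3 : (0 : ℝ) < 8 ^ (b - i) := by positivity
      have : |s b - σ| ≤ 2 * W.B := (abs_sub _ _).trans (by linarith only [hb, hσB])
      simp only [Pi.sub_apply]
      have p4 : 0 ≤ W.B * (8 ^ (b - i) * 8 ^ (a - i)) := by positivity
      linarith only [e, this, p4, hB, Mathlib.Tactic.Linarith.mul_zero_eq (Mathlib.Tactic.Linarith.sub_nonpos_of_le hB) (sub_eq_zero_of_eq e)]
  have k1 := key i h1 h2.le
  have k2 := key (i + 1) (by omega) (by omega)
  simp only [sub_self, abs_zero, zpow_zero, add_sub_cancel_left, abs_one,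
    zpow_one] at k1 k2
  have k3 := (hE i h1 h2).size W.lipq W.anti
  have k4 : |s i - s (i + 1)| ≤ 36 * (W.Λ * E) := by
    have := abs_sub (s i - σ) (s (i + 1) - σ)
    rw [sub_sub_sub_cancel_right] at this
    linarith only [k1, k2, this]
  have k5 := mul_le_mul_of_nonneg_left k4 (mul_nonneg (by norm_num : (0 : ℝ) ≤ 2) W.η0)
  refine (k3.trans k5).trans_eq ?_
  rw [hEdef, c]; ring

lemma run {s H : ℤ → ℝ} {a b : ℤ} (hV : ∀ i, a < i → i < b → W.Vx 1 s H i)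
    (hE : ∀ i, a ≤ i → i < b → Edge W.q s H i) (ha : |s a| ≤ W.B) (hb : |s b| ≤ W.B) {i j : ℤ}
    (h1 : a ≤ i) (h2 : i ≤ j) (h3 : j ≤ b) : |H j - H i| ≤ W.c * (8 ^ (a - i) + 8 ^ (j - b)) := by
  have hc := W.c0
  have key : ∀ n : ℕ, i + n ≤ b → |H (i + n) - H i| ≤
      W.c * (8 ^ (a - i) - 8 ^ (a - (i + n)) + 8 ^ (i + n - b) - 8 ^ (i - b)) := by
    intro n
    induction n with
    | zero => intro _; simp
    | succ n ih =>
      intro hn
      push_cast at hn ⊢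
      have k1 := ih (by omega)
      have k2 := run_step hV hE ha hb (i := i + n) (by omega) (by omega)
      have e1 : a - (i + (n + 1)) = a - (i + n) - 1 := by ring
      have e2 : i + (n + 1) - b = i + n - b + 1 := by ring
      rw [e1, e2, zpow_sub_one₀ (by norm_num), zpow_add_one₀ (by norm_num), ← add_assoc]
      have k3 := abs_sub_le (H (i + n + 1)) (H (i + n)) (H i)
      have p1 : 0 ≤ W.c * 8 ^ (a - (i + n)) := by positivity
      have p2 : 0 ≤ W.c * 8 ^ (i + n - b) := by positivity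
      linarith only [k1, k2, k3, p1, p2]
  have := key (j - i).toNat (by omega)
  have e : i + ((j - i).toNat : ℤ) = j := by omega
  rw [e] at this
  refine this.trans (mul_le_mul_of_nonneg_left ?_ hc)
  have p1 : (0 : ℝ) < 8 ^ (a - j) := by positivity
  have p2 : (0 : ℝ) < 8 ^ (i - b) := by positivity
  linarith only [p1, p2]

lemma run2 {s H : ℤ → ℝ} {a b : ℤ} (hV : ∀ i, a < i → i < b → W.Vx 1 s H i)
    (hE : ∀ i, a ≤ i → i < b → Edge W.q s H i) (ha : |s a| ≤ W.B) (hb : |s b| ≤ W.B) {i j : ℤ}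
    (h1 : a ≤ i) (h2 : i ≤ j) (h3 : j ≤ b) : |H j - H i| ≤ 2 * W.c := by
  have p1 : (8 : ℝ) ^ (a - i) ≤ 1 := zpow_le_one_of_nonpos₀ (by norm_num) (by omega)
  have p2 : (8 : ℝ) ^ (j - b) ≤ 1 := zpow_le_one_of_nonpos₀ (by norm_num) (by omega)
  have := W.c0
  exact (run hV hE ha hb h1 h2 h3).trans (by linarith only [p1, this, p2, mul_nonneg_of_nonpos_of_nonpos (Mathlib.Tactic.Linarith.sub_nonpos_of_le p1) (Mathlib.Tactic.Linarith.sub_nonpos_of_le this), mul_nonneg_of_nonpos_of_nonpos (Mathlib.Tactic.Linarith.sub_nonpos_of_le p2) (Mathlib.Tactic.Linarith.sub_nonpos_of_le this)])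

end Lw

end Pool.Agent.Work.MP_05654f_an
end

-- merged part: Pool.Agent.Work.MP_05654f_an.Spiral
section
/-!
The logarithmic spiral and its branches as vertex laws.
-/

namespace Pool.Agent.Work.MP_05654f_an

open Filter Topology Set

/-- The contraction of the spiral in half a turn. -/
noncomputable def lam (κ : ℝ) : ℝ := Real.exp (-(κ * Real.pi))

/-- The spiral with phase zero. -/
noncomputable def Zu (κ u : ℝ) : ℂ := Complex.exp ((-(κ : ℂ) + Complex.I) * u)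

/-- Clamping to an interval. -/
def cl (lo hi x : ℝ) : ℝ := max lo (min hi x)

lemma lam_pos (κ : ℝ) : 0 < lam κ := Real.exp_pos _

lemma lam_lt_one {κ : ℝ} (hκ : 0 < κ) : lam κ < 1 :=
  Real.exp_lt_one_iff.2 (by have := Real.pi_pos; linarith only [hκ, this, mul_pos_of_neg_of_neg (Mathlib.Tactic.Linarith.sub_neg_of_lt hκ) (Mathlib.Tactic.Linarith.sub_neg_of_lt this)])

lemma cl_eq {lo hi x : ℝ} (h1 : lo ≤ x) (h2 : x ≤ hi) : cl lo hi x = x := by
  unfold cl; rw [min_eq_right h2, max_eq_right h1]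

lemma cl_lip (lo hi x y : ℝ) : |cl lo hi x - cl lo hi y| ≤ |x - y| := by
  unfold cl
  rw [max_comm lo, max_comm lo]
  refine (abs_max_sub_max_le_abs _ _ _).trans ?_
  simpa using abs_min_sub_min_le_max hi x hi y

lemma cl_mem {lo hi : ℝ} (h : lo ≤ hi) (x : ℝ) : cl lo hi x ∈ Icc lo hi :=
  ⟨le_max_left _ _, max_le h (min_le_left _ _)⟩

lemma Sp_eq (κ δ u : ℝ) : Sp κ δ u = (Real.exp (κ * δ) : ℂ) * Zu κ u := by
  unfold Sp Zu
  rw [Complex.exp_add, Complex.ofReal_exp]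

lemma Zu_add (κ u : ℝ) (b : ℕ) : Zu κ (u + b * Real.pi) = (((-lam κ) ^ b : ℝ) : ℂ) * Zu κ u := by
  have h : Complex.exp ((-(κ : ℂ) + Complex.I) * Real.pi) = ((-lam κ : ℝ) : ℂ) := by
    rw [add_mul, Complex.exp_add, mul_comm Complex.I, Complex.exp_pi_mul_I, lam]
    push_cast
    ring_nf
  unfold Zu
  push_cast at h ⊢
  rw [← h, ← Complex.exp_nat_mul, ← Complex.exp_add]
  congr 1; ring

/-- The inverse `U` of the imaginary part on the branch through `1`. -/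
structure SpD (κ : ℝ) where
  F0 : ℝ
  U : ℝ → ℝ
  F0pos : 0 < F0
  F0le : F0 ≤ 1
  U0 : U 0 = 0
  im : ∀ h ∈ Icc (-(F0 / lam κ)) F0, (Zu κ (U h)).im = h
  norm : ∀ h ∈ Icc (-(F0 / lam κ)) F0, ‖Zu κ (U h)‖ ≤ 1 / lam κ
  lip : ∀ ν, 0 < ν → ν ≤ 1 / 2 → ∃ Λ, ∀ h ∈ Icc (-((1 - ν) * F0 / lam κ)) ((1 - ν) * F0),
    ∀ h' ∈ Icc (-((1 - ν) * F0 / lam κ)) ((1 - ν) * F0),
      |(Zu κ (U h)).re - (Zu κ (U h')).re| ≤ Λ * |h - h'|
  path : ∀ h ∈ Icc (-(lam κ * F0)) F0, ∀ u, U h ≤ u →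
    (Zu κ u).im ∈ Icc (-(lam κ * F0)) F0 ∧ ‖Zu κ u‖ ≤ 1 / lam κ

/-- The law of the branch `b`, clamped at margin `ν`. -/
noncomputable def SpD.V {κ : ℝ} (D : SpD κ) (ν : ℝ) (b : ℕ) (H δ : ℝ) : ℝ :=
  Real.exp (κ * δ) * (-lam κ) ^ b * (Zu κ (D.U (cl (-((1 - ν) * D.F0 / lam κ)) ((1 - ν) * D.F0)
    (Real.exp (-(κ * δ)) * cl (-(3 / lam κ)) (3 / lam κ) (H / (-lam κ) ^ b))))).re

lemma sp_Zu_re (κ u : ℝ) : (Zu κ u).re = Real.exp (-(κ * u)) * Real.cos u := by
  unfold Zu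
  rw [Complex.exp_re]
  simp

lemma sp_Zu_im (κ u : ℝ) : (Zu κ u).im = Real.exp (-(κ * u)) * Real.sin u := by
  unfold Zu
  rw [Complex.exp_im]
  simp

lemma sp_Zu_norm (κ u : ℝ) : ‖Zu κ u‖ = Real.exp (-(κ * u)) := by
  unfold Zu
  rw [Complex.norm_exp]
  simp

lemma sp_exp_le {κ u : ℝ} (hκ : 0 < κ) (hu : -Real.pi ≤ u) :
    Real.exp (-(κ * u)) ≤ 1 / lam κ := by
  rw [lam, one_div, ← Real.exp_neg, neg_neg]
  exact Real.exp_le_exp.2 (by linarith only [hκ, hu, mul_nonneg_of_nonpos_of_nonpos (le_of_lt (Mathlib.Tactic.Linarith.sub_neg_of_lt hκ)) (Mathlib.Tactic.Linarith.sub_nonpos_of_le hu)])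

lemma sp_Zu_norm_le {κ u : ℝ} (hκ : 0 < κ) (hu : -Real.pi ≤ u) : ‖Zu κ u‖ ≤ 1 / lam κ := by
  rw [sp_Zu_norm]; exact sp_exp_le hκ hu

lemma sp_im_deriv (κ u : ℝ) : HasDerivAt (fun u => (Zu κ u).im)
    (Real.exp (-(κ * u)) * (Real.cos u - κ * Real.sin u)) u := by
  simp only [sp_Zu_im]
  have h1 : HasDerivAt (fun u : ℝ => -(κ * u)) (-(κ * 1)) u :=
    ((hasDerivAt_id' u).const_mul κ).fun_neg
  exact (h1.exp.fun_mul (Real.hasDerivAt_sin u)).congr_deriv (by ring)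

lemma sp_re_deriv (κ u : ℝ) : HasDerivAt (fun u => (Zu κ u).re)
    (Real.exp (-(κ * u)) * (-Real.sin u - κ * Real.cos u)) u := by
  simp only [sp_Zu_re]
  have h1 : HasDerivAt (fun u : ℝ => -(κ * u)) (-(κ * 1)) u :=
    ((hasDerivAt_id' u).const_mul κ).fun_neg
  exact (h1.exp.fun_mul (Real.hasDerivAt_cos u)).congr_deriv (by ring)

lemma sp_im_add (κ u : ℝ) (b : ℕ) :
    (Zu κ (u + b * Real.pi)).im = (-lam κ) ^ b * (Zu κ u).im := by
  rw [Zu_add, Complex.im_ofReal_mul]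

lemma sp_exists_u0 {κ : ℝ} (hκ : 0 < κ) : ∃ u0 : ℝ, 0 < u0 ∧ u0 < Real.pi / 2 ∧
    ∀ u, u0 - Real.pi < u → u < u0 → 0 < Real.cos u - κ * Real.sin u := by
  have h0 : 0 < Real.arctan (1 / κ) := Real.arctan_pos.2 (by positivity)
  have h1 := Real.arctan_lt_pi_div_two (1 / κ)
  refine ⟨Real.arctan (1 / κ), h0, h1, fun u hu1 hu2 => ?_⟩
  have hc := Real.cos_arctan_pos (1 / κ)
  have ht := Real.tan_arctan (1 / κ)
  rw [Real.tan_eq_sin_div_cos, div_eq_div_iff hc.ne' hκ.ne', one_mul] at ht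
  have hs : 0 < Real.sin (Real.arctan (1 / κ)) :=
    Real.sin_pos_of_pos_of_lt_pi h0 (by have := Real.pi_pos; linarith only [h0, h1])
  have h2 : 0 < Real.sin (Real.arctan (1 / κ) - u) :=
    Real.sin_pos_of_pos_of_lt_pi (by linarith only [hu2]) (by linarith only [hu1])
  rw [Real.sin_sub, ← ht] at h2
  have h3 : 0 < Real.sin (Real.arctan (1 / κ)) * (Real.cos u - κ * Real.sin u) := by
    convert h2 using 1; ring
  exact (mul_pos_iff_of_pos_left hs).1 h3

lemma sp_re_lip {κ : ℝ} (hκ : 0 < κ) {u v : ℝ} (hu : -Real.pi ≤ u) (hv : -Real.pi ≤ v) :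
    |(Zu κ u).re - (Zu κ v).re| ≤ (1 + κ) / lam κ * |u - v| := by
  have h := (convex_Ici (-Real.pi)).norm_image_sub_le_of_norm_hasDerivWithin_le
    (f := fun u => (Zu κ u).re)
    (f' := fun u => Real.exp (-(κ * u)) * (-Real.sin u - κ * Real.cos u))
    (C := (1 + κ) / lam κ) (fun x _ => (sp_re_deriv κ x).hasDerivWithinAt) (fun x hx => by
      rw [Real.norm_eq_abs, abs_mul, abs_of_pos (Real.exp_pos _)]
      have h1 := sp_exp_le hκ (mem_Ici.1 hx)
      have h2 : |-Real.sin x - κ * Real.cos x| ≤ 1 + κ := by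
        have a1 := Real.sin_le_one x
        have a2 := Real.neg_one_le_sin x
        have a3 := Real.cos_le_one x
        have a4 := Real.neg_one_le_cos x
        rw [abs_le]; constructor <;> linarith only [a1, hκ, a3, a2, a4, mul_nonneg_of_nonpos_of_nonpos (le_of_lt (Mathlib.Tactic.Linarith.sub_neg_of_lt hκ)) (Mathlib.Tactic.Linarith.sub_nonpos_of_le a3), mul_nonneg_of_nonpos_of_nonpos (le_of_lt (Mathlib.Tactic.Linarith.sub_neg_of_lt hκ)) (Mathlib.Tactic.Linarith.sub_nonpos_of_le a4)]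
      calc _ ≤ 1 / lam κ * (1 + κ) :=
            mul_le_mul h1 h2 (abs_nonneg _) (by have := lam_pos κ; positivity)
        _ = _ := by ring) (mem_Ici.2 hv) (mem_Ici.2 hu)
  simpa [Real.norm_eq_abs] using h

lemma sp_exp_lip {x y : ℝ} (hx : |x| ≤ 1) (hy : |y| ≤ 1) :
    |Real.exp x - Real.exp y| ≤ 3 * |x - y| := by
  have key : ∀ a b : ℝ, a ≤ 1 → b ≤ a → Real.exp a - Real.exp b ≤ 3 * (a - b) := by
    intro a b ha hb
    have h1 := Real.add_one_le_exp (b - a)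
    have h2 : Real.exp b = Real.exp a * Real.exp (b - a) := by rw [← Real.exp_add]; ring_nf
    have h3 : Real.exp a ≤ 3 :=
      (Real.exp_le_exp.2 ha).trans (by have := Real.exp_one_lt_d9; linarith only [this])
    have h4 := Real.exp_pos a
    rw [h2]
    linarith only [hb, h3, h1, h4, mul_nonneg_of_nonpos_of_nonpos (Mathlib.Tactic.Linarith.sub_nonpos_of_le hb) (Mathlib.Tactic.Linarith.sub_nonpos_of_le h3), mul_nonneg_of_nonpos_of_nonpos (Mathlib.Tactic.Linarith.sub_nonpos_of_le h1) (le_of_lt (Mathlib.Tactic.Linarith.sub_neg_of_lt h4))]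
  rcases le_total y x with h | h
  · rw [abs_of_nonneg (sub_nonneg.2 (Real.exp_le_exp.2 h)), abs_of_nonneg (sub_nonneg.2 h)]
    exact key x y (abs_le.1 hx).2 h
  · rw [abs_sub_comm, abs_sub_comm x, abs_of_nonneg (sub_nonneg.2 (Real.exp_le_exp.2 h)),
      abs_of_nonneg (sub_nonneg.2 h)]
    exact key y x (abs_le.1 hy).2 h

lemma sp_exp_le_three {x : ℝ} (hx : |x| ≤ 1) : Real.exp x ≤ 3 :=
  (Real.exp_le_exp.2 (abs_le.1 hx).2).trans (by have := Real.exp_one_lt_d9; linarith only [this])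

theorem exists_spD {κ : ℝ} (hκ : 0 < κ) : Nonempty (SpD κ) := by
  obtain ⟨u0, h0, h1, hc⟩ := sp_exists_u0 hκ
  have hpi := Real.pi_pos
  have hl := lam_pos κ
  have hl1 := lam_lt_one hκ
  set F : ℝ → ℝ := fun u => (Zu κ u).im with hF
  have hd : ∀ u, HasDerivAt F (Real.exp (-(κ * u)) * (Real.cos u - κ * Real.sin u)) u :=
    sp_im_deriv κ
  have hcont : Continuous F := continuous_iff_continuousAt.2 (fun u => (hd u).continuousAt)
  have hmono : StrictMonoOn F (Icc (u0 - Real.pi) u0) := by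
    refine strictMonoOn_of_deriv_pos (convex_Icc _ _) hcont.continuousOn (fun x hx => ?_)
    rw [interior_Icc] at hx
    rw [(hd x).deriv]
    exact mul_pos (Real.exp_pos _) (hc x hx.1 hx.2)
  have hF0 : F 0 = 0 := by simp [hF, sp_Zu_im]
  have hz : (0 : ℝ) ∈ Icc (u0 - Real.pi) u0 := ⟨by linarith only [h0, h1], h0.le⟩
  have hlo : u0 - Real.pi ∈ Icc (u0 - Real.pi) u0 := ⟨le_rfl, by linarith only [h0, h1]⟩
  have hhi : u0 ∈ Icc (u0 - Real.pi) u0 := ⟨by linarith only [h0, h1], le_rfl⟩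
  have hpos : 0 < F u0 := by rw [← hF0]; exact hmono hz hhi h0
  have hle : F u0 ≤ 1 := by
    simp only [hF, sp_Zu_im]
    have a1 : Real.exp (-(κ * u0)) ≤ 1 := Real.exp_le_one_iff.2 (by linarith only [mul_pos hκ h0])
    have a2 := Real.sin_le_one u0
    have a3 := Real.exp_pos (-(κ * u0))
    linarith only [a1, mul_le_mul_of_nonneg_left a2 a3.le]
  have hadd : ∀ u (b : ℕ), F (u + b * Real.pi) = (-lam κ) ^ b * F u := sp_im_add κ
  have hFlo : F (u0 - Real.pi) = -(F u0 / lam κ) := by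
    have := hadd (u0 - Real.pi) 1
    simp only [Nat.cast_one, one_mul, sub_add_cancel, pow_one] at this
    rw [this]; field_simp
  have hrange : ∀ u ∈ Icc (u0 - Real.pi) u0, F u ∈ Icc (-(F u0 / lam κ)) (F u0) := fun u hu =>
    ⟨hFlo ▸ hmono.monotoneOn hlo hu hu.1, hmono.monotoneOn hu hhi hu.2⟩
  have hex : ∀ h ∈ Icc (-(F u0 / lam κ)) (F u0), ∃ u ∈ Icc (u0 - Real.pi) u0, F u = h := by
    intro h hh
    rw [← hFlo] at hh
    exact intermediate_value_Icc (by linarith only [h0, h1]) hcont.continuousOn hh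
  set U : ℝ → ℝ := Function.invFunOn F (Icc (u0 - Real.pi) u0) with hU
  have hUm : ∀ h ∈ Icc (-(F u0 / lam κ)) (F u0), U h ∈ Icc (u0 - Real.pi) u0 :=
    fun h hh => Function.invFunOn_mem (hex h hh)
  have hUe : ∀ h ∈ Icc (-(F u0 / lam κ)) (F u0), F (U h) = h :=
    fun h hh => Function.invFunOn_eq (hex h hh)
  have hdiv : F u0 ≤ F u0 / lam κ := by
    rw [le_div_iff₀ hl]; exact mul_le_of_le_one_right hpos.le hl1.le
  have hlf : lam κ * F u0 ≤ F u0 := mul_le_of_le_one_left hpos.le hl1.le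
  refine ⟨{ F0 := F u0
            U := U
            F0pos := hpos
            F0le := hle
            U0 := ?_
            im := hUe
            norm := fun h hh => sp_Zu_norm_le hκ (by have := (hUm h hh).1; linarith only [h0, this])
            lip := fun ν hν0 hν1 => ?_
            path := fun h hh u hu => ?_ }⟩
  · have hh : (0 : ℝ) ∈ Icc (-(F u0 / lam κ)) (F u0) := ⟨by linarith only [hpos, hdiv], hpos.le⟩
    exact hmono.injOn (hUm 0 hh) hz (by rw [hUe 0 hh, hF0])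
  · have e1 : (1 - ν) * F u0 < F u0 := by linarith only [mul_pos hν0 hpos]
    have e2 : (1 - ν) * F u0 / lam κ < F u0 / lam κ := div_lt_div_of_pos_right e1 hl
    have e3 : 0 ≤ (1 - ν) * F u0 := mul_nonneg (by linarith only [hl, hl1, hν1]) hpos.le
    have e4 : 0 ≤ (1 - ν) * F u0 / lam κ := div_nonneg e3 hl.le
    have hsub : ∀ h ∈ Icc (-((1 - ν) * F u0 / lam κ)) ((1 - ν) * F u0),
        h ∈ Icc (-(F u0 / lam κ)) (F u0) := fun h hh => ⟨by linarith only [e2, hh, hh.1], by linarith only [e1, hh, hh.2]⟩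
    have ha : -((1 - ν) * F u0 / lam κ) ∈ Icc (-(F u0 / lam κ)) (F u0) :=
      hsub _ ⟨le_rfl, by linarith only [e3, e4]⟩
    have hb : (1 - ν) * F u0 ∈ Icc (-(F u0 / lam κ)) (F u0) := hsub _ ⟨by linarith only [e3, e4], le_rfl⟩
    have hUmono : ∀ h ∈ Icc (-(F u0 / lam κ)) (F u0), ∀ h' ∈ Icc (-(F u0 / lam κ)) (F u0),
        h ≤ h' → U h ≤ U h' := fun h hh h' hh' hle' =>
      (hmono.le_iff_le (hUm h hh) (hUm h' hh')).1 (by rw [hUe h hh, hUe h' hh']; exact hle')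
    have ha' : u0 - Real.pi < U (-((1 - ν) * F u0 / lam κ)) :=
      (hmono.lt_iff_lt hlo (hUm _ ha)).1 (by rw [hUe _ ha, hFlo]; linarith only [e2])
    have hb' : U ((1 - ν) * F u0) < u0 :=
      (hmono.lt_iff_lt (hUm _ hb) hhi).1 (by rw [hUe _ hb]; exact e1)
    have hab : U (-((1 - ν) * F u0 / lam κ)) ≤ U ((1 - ν) * F u0) :=
      hUmono _ ha _ hb (by linarith only [e3, e4])
    obtain ⟨x, hx, hmin⟩ := (isCompact_Icc (a := U (-((1 - ν) * F u0 / lam κ)))
      (b := U ((1 - ν) * F u0))).exists_isMinOn (nonempty_Icc.2 hab)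
      (f := fun u => Real.exp (-(κ * u)) * (Real.cos u - κ * Real.sin u)) (by fun_prop)
    have hm : 0 < Real.exp (-(κ * x)) * (Real.cos x - κ * Real.sin x) :=
      mul_pos (Real.exp_pos _) (hc x (by linarith only [ha', hx, hx.1]) (by linarith only [hb', hx, hx.2]))
    set m := Real.exp (-(κ * x)) * (Real.cos x - κ * Real.sin x) with hmdef
    have hlow : ∀ p ∈ Icc (U (-((1 - ν) * F u0 / lam κ))) (U ((1 - ν) * F u0)),
        ∀ q ∈ Icc (U (-((1 - ν) * F u0 / lam κ))) (U ((1 - ν) * F u0)), p ≤ q →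
          m * (q - p) ≤ F q - F p := by
      refine (convex_Icc _ _).mul_sub_le_image_sub_of_le_deriv hcont.continuousOn
        (fun y _ => (hd y).differentiableAt.differentiableWithinAt) (fun y hy => ?_)
      rw [(hd y).deriv]
      exact hmin (interior_subset hy)
    refine ⟨(1 + κ) / lam κ / m, fun h hh h' hh' => ?_⟩
    have hp : U h ∈ Icc (U (-((1 - ν) * F u0 / lam κ))) (U ((1 - ν) * F u0)) :=
      ⟨hUmono _ ha _ (hsub h hh) hh.1, hUmono _ (hsub h hh) _ hb hh.2⟩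
    have hq : U h' ∈ Icc (U (-((1 - ν) * F u0 / lam κ))) (U ((1 - ν) * F u0)) :=
      ⟨hUmono _ ha _ (hsub h' hh') hh'.1, hUmono _ (hsub h' hh') _ hb hh'.2⟩
    have hinv : m * |U h - U h'| ≤ |h - h'| := by
      rcases le_total (U h) (U h') with hle' | hle'
      · have := hlow _ hp _ hq hle'
        rw [hUe h (hsub h hh), hUe h' (hsub h' hh')] at this
        rw [abs_sub_comm, abs_of_nonneg (sub_nonneg.2 hle'), abs_sub_comm]
        exact this.trans (le_abs_self _)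
      · have := hlow _ hq _ hp hle'
        rw [hUe h (hsub h hh), hUe h' (hsub h' hh')] at this
        rw [abs_of_nonneg (sub_nonneg.2 hle')]
        exact this.trans (le_abs_self _)
    have hre := sp_re_lip hκ (u := U h) (v := U h') (by linarith only [h0, hUm, hsub, hh, (hUm h (hsub h hh)).1])
      (by linarith only [h0, hUm, hsub, hh', (hUm h' (hsub h' hh')).1])
    have hL : 0 ≤ (1 + κ) / lam κ / m := by clear * - κ m hκ hl hm; positivity
    calc _ ≤ (1 + κ) / lam κ * |U h - U h'| := hre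
      _ = (1 + κ) / lam κ / m * (m * |U h - U h'|) := by clear * - κ U h h' m hm hl hκ; field_simp
      _ ≤ _ := mul_le_mul_of_nonneg_left hinv hL
  · have hh' : h ∈ Icc (-(F u0 / lam κ)) (F u0) := ⟨by linarith only [hdiv, hlf, hh, hh.1], hh.2⟩
    have hUh := hUm h hh'
    refine ⟨?_, sp_Zu_norm_le hκ (by linarith only [h0, hu, hUh, hUh.1])⟩
    show F u ∈ Icc (-(lam κ * F u0)) (F u0)
    rcases le_total u u0 with hu0 | hu0
    · have hu' : u ∈ Icc (u0 - Real.pi) u0 := ⟨hUh.1.trans hu, hu0⟩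
      have := hmono.monotoneOn hUh hu' hu
      rw [hUe h hh'] at this
      exact ⟨hh.1.trans this, (hrange u hu').2⟩
    · have hq0 : 0 ≤ (u - u0) / Real.pi := div_nonneg (by linarith only [hu0]) hpi.le
      have f1 := Nat.floor_le hq0
      have f2 := Nat.lt_floor_add_one ((u - u0) / Real.pi)
      set j := ⌊(u - u0) / Real.pi⌋₊ with hj
      rw [le_div_iff₀ hpi] at f1
      rw [div_lt_iff₀ hpi] at f2
      have hv : u - ((j + 1 : ℕ) : ℝ) * Real.pi ∈ Icc (u0 - Real.pi) u0 := by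
        push_cast; constructor <;> linarith only [f1, f2]
      have he := hadd (u - ((j + 1 : ℕ) : ℝ) * Real.pi) (j + 1)
      rw [sub_add_cancel] at he
      obtain ⟨r1, r2⟩ := hrange _ hv
      set y := F (u - ((j + 1 : ℕ) : ℝ) * Real.pi) with hy
      have r3 : -F u0 ≤ lam κ * y := by
        have := mul_le_mul_of_nonneg_left r1 hl.le
        rwa [mul_neg, mul_div_cancel₀ _ hl.ne'] at this
      have r4 : lam κ * y ≤ lam κ * F u0 := mul_le_mul_of_nonneg_left r2 hl.le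
      rw [he]
      rcases j with _ | j
      · simp only [zero_add, pow_one]
        constructor <;> linarith only [r4, r3]
      · have g1 : |(-lam κ) ^ (j + 1 + 1) * y| ≤ lam κ * F u0 := by
          clear * - κ j y F u0 hl hlf r4 r3 hl1
          rw [pow_succ, mul_assoc, abs_mul, pow_succ, abs_mul, abs_pow, abs_neg, abs_of_pos hl]
          have g2 : |-lam κ * y| ≤ F u0 := by
            rw [abs_le]; constructor <;> linarith only [hlf, r4, r3]
          have g3 : lam κ ^ j ≤ 1 := pow_le_one₀ hl.le hl1.le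
          calc lam κ ^ j * lam κ * |-lam κ * y| ≤ 1 * lam κ * F u0 := by gcongr
            _ = _ := by ring
        exact ⟨(abs_le.1 g1).1, (abs_le.1 g1).2.trans hlf⟩

theorem SpD.law {κ : ℝ} (hκ : 0 < κ) (D : SpD κ) {ν : ℝ} (h0 : 0 < ν) (h1 : ν ≤ 1 / 2) :
    ∃ Λ e : ℝ, 1 ≤ Λ ∧ 0 ≤ e ∧ ∀ δ0, κ * δ0 ≤ 1 → ∀ b : ℕ,
      Law δ0 Λ (lam κ ^ b * e) (3 * lam κ ^ b / lam κ) (D.V ν b) := by
  obtain ⟨Λ0, hΛ0⟩ := D.lip ν h0 h1
  have hl := lam_pos κ
  have hF := D.F0pos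
  have e1 : (1 - ν) * D.F0 ≤ D.F0 := by linarith only [h0, hF, mul_pos_of_neg_of_neg (Mathlib.Tactic.Linarith.sub_neg_of_lt h0) (Mathlib.Tactic.Linarith.sub_neg_of_lt hF)]
  have e2 : (1 - ν) * D.F0 / lam κ ≤ D.F0 / lam κ := div_le_div_of_nonneg_right e1 hl.le
  have e3 : 0 ≤ (1 - ν) * D.F0 := mul_nonneg (by linarith only [h0, h1]) hF.le
  have e4 : 0 ≤ (1 - ν) * D.F0 / lam κ := div_nonneg e3 hl.le
  have hlh : -((1 - ν) * D.F0 / lam κ) ≤ (1 - ν) * D.F0 := by linarith only [e3, e4]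
  set g : ℝ → ℝ := fun x =>
    (Zu κ (D.U (cl (-((1 - ν) * D.F0 / lam κ)) ((1 - ν) * D.F0) x))).re with hg
  have hΛ : 0 ≤ max Λ0 1 := le_trans zero_le_one (le_max_right _ _)
  have g1 : ∀ x y, |g x - g y| ≤ max Λ0 1 * |x - y| := fun x y =>
    (hΛ0 _ (cl_mem hlh x) _ (cl_mem hlh y)).trans
      (mul_le_mul (le_max_left _ _) (cl_lip _ _ _ _) (abs_nonneg _) hΛ)
  have g2 : ∀ x, |g x| ≤ 1 / lam κ := fun x => by
    have hm := cl_mem hlh x
    exact (Complex.abs_re_le_norm _).trans (D.norm _ ⟨by linarith only [e2, hm, hm.1], by linarith only [e1, hm, hm.2]⟩)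
  have h3 : 0 < 3 / lam κ := by positivity
  set c : ℝ → ℝ := cl (-(3 / lam κ)) (3 / lam κ) with hc
  have c1 : ∀ x y, |c x - c y| ≤ |x - y| := cl_lip _ _
  have c2 : ∀ x, |c x| ≤ 3 / lam κ := fun x => abs_le.2 (cl_mem (by linarith only [h3]) x)
  refine ⟨max Λ0 1, 3 * κ / lam κ + 27 * κ * max Λ0 1 / lam κ, le_max_right _ _, by positivity,
    fun δ0 hδ0 b => ?_⟩
  have hk : ∀ δ, |δ| ≤ δ0 → |κ * δ| ≤ 1 := fun δ h => by
    rw [abs_mul, abs_of_pos hκ]
    exact (mul_le_mul_of_nonneg_left h hκ.le).trans hδ0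
  have hV : ∀ H δ, D.V ν b H δ =
      Real.exp (κ * δ) * (-lam κ) ^ b * g (Real.exp (-(κ * δ)) * c (H / (-lam κ) ^ b)) :=
    fun _ _ => rfl
  have hp : |(-lam κ) ^ b| = lam κ ^ b := by rw [abs_pow, abs_neg, abs_of_pos hl]
  have hlb : 0 < lam κ ^ b := pow_pos hl b
  refine ⟨fun H H' δ δ' a1 a2 => ?_, fun H δ a1 => ?_⟩
  · have k1 := hk δ a1
    have k2 := hk δ' a2
    have s1 : |D.V ν b H δ - D.V ν b H' δ| ≤ max Λ0 1 * |H - H'| := by
      clear * - κ D ν b H δ H' Λ0 g c hV hp g1 c1 hl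
      rw [hV, hV, ← mul_sub, abs_mul, abs_mul, hp, abs_of_pos (Real.exp_pos _)]
      have t1 := g1 (Real.exp (-(κ * δ)) * c (H / (-lam κ) ^ b))
        (Real.exp (-(κ * δ)) * c (H' / (-lam κ) ^ b))
      rw [← mul_sub, abs_mul, abs_of_pos (Real.exp_pos _)] at t1
      have t2 := c1 (H / (-lam κ) ^ b) (H' / (-lam κ) ^ b)
      rw [← sub_div, abs_div, hp] at t2
      have t3 : Real.exp (κ * δ) * Real.exp (-(κ * δ)) = 1 := by rw [← Real.exp_add]; simp
      calc _ ≤ Real.exp (κ * δ) * lam κ ^ b *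
            (max Λ0 1 * (Real.exp (-(κ * δ)) * (|H - H'| / lam κ ^ b))) := by
            refine mul_le_mul_of_nonneg_left (t1.trans ?_) (by positivity)
            gcongr
        _ = (Real.exp (κ * δ) * Real.exp (-(κ * δ))) * (max Λ0 1 * |H - H'|) := by
            field_simp
        _ = _ := by rw [t3, one_mul]
    have s2 : |D.V ν b H' δ - D.V ν b H' δ'| ≤
        lam κ ^ b * (3 * κ / lam κ + 27 * κ * max Λ0 1 / lam κ) * |δ - δ'| := by
      clear * - κ D ν b H' δ δ' Λ0 g c hV c2 k1 k2 hκ g1 g2 hp hlb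
      rw [hV, hV]
      set y := c (H' / (-lam κ) ^ b) with hy
      have y2 : |y| ≤ 3 / lam κ := c2 _
      have u1 := sp_exp_lip k1 k2
      have u2 := sp_exp_lip (x := -(κ * δ)) (y := -(κ * δ')) (by rwa [abs_neg]) (by rwa [abs_neg])
      have v1 : |κ * δ - κ * δ'| = κ * |δ - δ'| := by rw [← mul_sub, abs_mul, abs_of_pos hκ]
      have v2 : |-(κ * δ) - -(κ * δ')| = κ * |δ - δ'| := by
        rw [← v1, ← abs_neg]; congr 1; ring
      rw [v1] at u1
      rw [v2] at u2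
      have w1 := g1 (Real.exp (-(κ * δ)) * y) (Real.exp (-(κ * δ')) * y)
      rw [← sub_mul, abs_mul] at w1
      have w2 := g2 (Real.exp (-(κ * δ)) * y)
      have w3 := sp_exp_le_three k2
      have e : Real.exp (κ * δ) * (-lam κ) ^ b * g (Real.exp (-(κ * δ)) * y) -
          Real.exp (κ * δ') * (-lam κ) ^ b * g (Real.exp (-(κ * δ')) * y) =
          (-lam κ) ^ b * ((Real.exp (κ * δ) - Real.exp (κ * δ')) * g (Real.exp (-(κ * δ)) * y) +
            Real.exp (κ * δ') * (g (Real.exp (-(κ * δ)) * y) - g (Real.exp (-(κ * δ')) * y))) := by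
        ring
      rw [e, abs_mul, hp, mul_assoc]
      refine mul_le_mul_of_nonneg_left ((abs_add_le _ _).trans ?_) hlb.le
      rw [abs_mul, abs_mul, abs_of_pos (Real.exp_pos (κ * δ'))]
      have z1 : |Real.exp (κ * δ) - Real.exp (κ * δ')| * |g (Real.exp (-(κ * δ)) * y)| ≤
          3 * (κ * |δ - δ'|) * (1 / lam κ) := by clear * - κ δ δ' g y u1 w2 hκ; gcongr
      have z2 : Real.exp (κ * δ') *
          |g (Real.exp (-(κ * δ)) * y) - g (Real.exp (-(κ * δ')) * y)| ≤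
          3 * (max Λ0 1 * (3 * (κ * |δ - δ'|) * (3 / lam κ))) := by
        clear * - κ δ' g δ y Λ0 w3 w1 u2 y2 hκ
        refine mul_le_mul w3 (w1.trans ?_) (abs_nonneg _) (by norm_num)
        gcongr
      calc _ ≤ 3 * (κ * |δ - δ'|) * (1 / lam κ) +
            3 * (max Λ0 1 * (3 * (κ * |δ - δ'|) * (3 / lam κ))) := add_le_add z1 z2
        _ = _ := by ring
    exact (abs_sub_le _ _ _).trans (add_le_add s1 s2)
  · rw [hV, abs_mul, abs_mul, hp, abs_of_pos (Real.exp_pos _)]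
    have w2 := g2 (Real.exp (-(κ * δ)) * c (H / (-lam κ) ^ b))
    have w3 := sp_exp_le_three (hk δ a1)
    calc _ ≤ 3 * lam κ ^ b * (1 / lam κ) := by clear * - κ δ b g c H w3 hl w2; gcongr
      _ = _ := by ring

theorem SpD.V_eq {κ : ℝ} (hκ : 0 < κ) (D : SpD κ) {ν : ℝ} (h0 : 0 < ν) (h1 : ν ≤ 1 / 2) (b : ℕ)
    {H δ : ℝ} (hδ : κ * |δ| ≤ 1)
    (h : Real.exp (-(κ * δ)) * (H / (-lam κ) ^ b) ∈
      Icc (-((1 - ν) * D.F0 / lam κ)) ((1 - ν) * D.F0)) :
    D.V ν b H δ = Real.exp (κ * δ) * (-lam κ) ^ b *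
        (Zu κ (D.U (Real.exp (-(κ * δ)) * (H / (-lam κ) ^ b)))).re ∧
      (D.V ν b H δ : ℂ) + (H : ℂ) * Complex.I =
        Sp κ δ (D.U (Real.exp (-(κ * δ)) * (H / (-lam κ) ^ b)) + b * Real.pi) := by
  have hl := lam_pos κ
  have hl1 := lam_lt_one hκ
  have hF := D.F0pos
  have hF1 := D.F0le
  have e1 : (1 - ν) * D.F0 ≤ D.F0 := by linarith only [h0, hF, mul_pos_of_neg_of_neg (Mathlib.Tactic.Linarith.sub_neg_of_lt h0) (Mathlib.Tactic.Linarith.sub_neg_of_lt hF)]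
  have e2 : (1 - ν) * D.F0 / lam κ ≤ D.F0 / lam κ := div_le_div_of_nonneg_right e1 hl.le
  have e3 : D.F0 / lam κ ≤ 1 / lam κ := div_le_div_of_nonneg_right hF1 hl.le
  have e4 : 1 ≤ 1 / lam κ := by rw [le_div_iff₀ hl]; linarith only [hl1]
  have k1 : |κ * δ| ≤ 1 := by rwa [abs_mul, abs_of_pos hκ]
  have t3 : Real.exp (κ * δ) * Real.exp (-(κ * δ)) = 1 := by rw [← Real.exp_add]; simp
  set x := Real.exp (-(κ * δ)) * (H / (-lam κ) ^ b) with hx
  have hxe : H / (-lam κ) ^ b = Real.exp (κ * δ) * x := by rw [hx, ← mul_assoc, t3, one_mul]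
  have hxa : |x| ≤ 1 / lam κ := abs_le.2 ⟨by linarith only [e2, e3, h, h.1], by linarith only [hF1, e1, e4, h, h.2]⟩
  have hHa : |H / (-lam κ) ^ b| ≤ 3 / lam κ := by
    rw [hxe, abs_mul, abs_of_pos (Real.exp_pos _)]
    have w3 := sp_exp_le_three k1
    calc _ ≤ 3 * (1 / lam κ) := by gcongr
      _ = _ := by ring
  have hV : D.V ν b H δ = Real.exp (κ * δ) * (-lam κ) ^ b * (Zu κ (D.U x)).re := by
    unfold SpD.V
    rw [cl_eq (abs_le.1 hHa).1 (abs_le.1 hHa).2, ← hx, cl_eq h.1 h.2]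
  refine ⟨hV, ?_⟩
  have him := D.im x ⟨by linarith only [e2, h, h.1], by linarith only [e1, h, h.2]⟩
  have hne : (-lam κ) ^ b ≠ 0 := pow_ne_zero _ (neg_ne_zero.2 hl.ne')
  have hH : H = Real.exp (κ * δ) * (-lam κ) ^ b * (Zu κ (D.U x)).im := by
    rw [him, mul_right_comm, ← hxe, div_mul_cancel₀ _ hne]
  rw [Sp_eq, Zu_add, ← mul_assoc, ← Complex.ofReal_mul, hV]
  conv_lhs => rw [hH]
  conv_rhs => rw [← Complex.re_add_im (Zu κ (D.U x))]
  simp only [Complex.ofReal_mul]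
  ring

end Pool.Agent.Work.MP_05654f_an
end
end

-- merged part: Pool.Agent.Work.MP_05654f_an.HiDef
section
-- merged part: Pool.Agent.Work.MP_05654f_an.Sys
section
/-!
The general anchored system: existence, uniqueness and stability.
-/

namespace Pool.Agent.Work.MP_05654f_an

open Filter Topology Set

namespace Lw

variable (W : Lw)

/-- Hypotheses on an anchored system with core `[a, b]`, anchor `k` and frozen copies `cp`. -/
structure Ok (k a b : ℤ) (K ηw eY : ℝ) (V : ℤ → ℝ → ℝ → ℝ) (Y : ℝ → ℝ)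
    (Q : ℤ → ℝ × ℝ × ℝ → ℝ) (cp : ℤ → ℤ) : Prop where
  hak : a ≤ k
  hkb : k ≤ b
  hK : W.Λ ≤ K
  ηw0 : 0 ≤ ηw
  eY0 : 0 ≤ eY
  sηw : ηw * K ≤ 1 / 32
  seY : eY * W.l * W.Λ * K ≤ 1 / 32
  lawc : ∀ i, a ≤ i → i ≤ b → Law W.δ0 K W.e W.B (V i)
  lawo : ∀ i, ¬(a ≤ i ∧ i ≤ b) → Law W.δ0 W.Λ W.e W.B (V i)
  lawY : ∀ δ δ', |δ| ≤ W.δ0 → |δ'| ≤ W.δ0 → |Y δ - Y δ'| ≤ eY * |δ - δ'|
  lipQ : ∀ i, Lip3 W.η (Q i)
  antiQ : ∀ i, Anti (Q i)
  lipw : ∀ i, a ≤ i → i < b → Lip3 ηw (Q i)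
  hcp : ∀ i, cp i = i ∨ (¬(a ≤ i ∧ i ≤ b) ∧ a ≤ cp i ∧ cp i ≤ b ∧ |cp i - k| ≤ |i - k|)

/-- Solutions of the anchored system. -/
structure Sol (k : ℤ) (V : ℤ → ℝ → ℝ → ℝ) (Y : ℝ → ℝ) (Q : ℤ → ℝ × ℝ × ℝ → ℝ) (cp : ℤ → ℤ)
    (s H : ℤ → ℝ) : Prop where
  vx : ∀ i, s i = V (cp i) (H (cp i)) (dl W.Θ s H (cp i))
  an : H k = Y (dl W.Θ s H k)
  ed : ∀ i, Edge (Q i) s H i

/-- The fixed point map of the anchored system. -/
noncomputable def TT (k : ℤ) (V : ℤ → ℝ → ℝ → ℝ) (Y : ℝ → ℝ) (Q : ℤ → ℝ × ℝ × ℝ → ℝ)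
    (cp : ℤ → ℤ) (f : Bool × ℤ → ℝ) : Bool × ℤ → ℝ
  | (true, i) => V (cp i) (f (false, cp i))
      (dl W.Θ (fun j => f (true, j)) (fun j => f (false, j)) (cp i))
  | (false, i) =>
      if i = k then Y (dl W.Θ (fun j => f (true, j)) (fun j => f (false, j)) k)
      else if k < i then f (false, i - 1) +
        2 * Q (i - 1) (f (true, i - 1), f (true, i), (f (false, i - 1) + f (false, i)) / 2)
      else f (false, i + 1) -
        2 * Q i (f (true, i), f (true, i + 1), (f (false, i) + f (false, i + 1)) / 2)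

/-- The reciprocal weights. -/
noncomputable def sz (k a b : ℤ) (K : ℝ) : Bool × ℤ → ℝ
  | (true, i) => (if a ≤ i ∧ i ≤ b then 4 * K else 4 * W.Λ * K) * 2 ^ |i - k|
  | (false, i) => (if a ≤ i ∧ i ≤ b then 1 else K) * 2 ^ |i - k|

/-- Packing a pair of sequences. -/
def pk (s H : ℤ → ℝ) : Bool × ℤ → ℝ
  | (true, i) => s i
  | (false, i) => H i

variable {W} {k a b : ℤ} {K ηw eY : ℝ} {V : ℤ → ℝ → ℝ → ℝ} {Y : ℝ → ℝ}
  {Q : ℤ → ℝ × ℝ × ℝ → ℝ} {cp : ℤ → ℤ}

lemma sz_ge (hK : W.Λ ≤ K) (x : Bool × ℤ) : 2 ^ |x.2 - k| ≤ W.sz k a b K x := by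
  have h1 := W.Λ1
  obtain ⟨_ | _, i⟩ := x
  · have : (0 : ℝ) < 2 ^ |i - k| := by positivity
    simp only [sz]; split_ifs <;> linarith only [hK, this, h1, mul_nonneg_of_nonpos_of_nonpos (Mathlib.Tactic.Linarith.sub_nonpos_of_le hK) (le_of_lt (Mathlib.Tactic.Linarith.sub_neg_of_lt this)), mul_nonneg_of_nonpos_of_nonpos (Mathlib.Tactic.Linarith.sub_nonpos_of_le h1) (le_of_lt (Mathlib.Tactic.Linarith.sub_neg_of_lt this))]
  · have : (0 : ℝ) < 2 ^ |i - k| := by positivity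
    have h2 : 1 ≤ W.Λ * K := by linarith only [hK, h1, mul_nonneg_of_nonpos_of_nonpos (Mathlib.Tactic.Linarith.sub_nonpos_of_le hK) (Mathlib.Tactic.Linarith.sub_nonpos_of_le h1), mul_nonneg_of_nonpos_of_nonpos (Mathlib.Tactic.Linarith.sub_nonpos_of_le h1) (Mathlib.Tactic.Linarith.sub_nonpos_of_le h1)]
    simp only [sz]; split_ifs <;> linarith only [this, hK, h1, h2, mul_nonneg_of_nonpos_of_nonpos (Mathlib.Tactic.Linarith.sub_nonpos_of_le hK) (le_of_lt (Mathlib.Tactic.Linarith.sub_neg_of_lt this)), mul_nonneg_of_nonpos_of_nonpos (Mathlib.Tactic.Linarith.sub_nonpos_of_le h1) (le_of_lt (Mathlib.Tactic.Linarith.sub_neg_of_lt this)), mul_nonneg_of_nonpos_of_nonpos (le_of_lt (Mathlib.Tactic.Linarith.sub_neg_of_lt this)) (Mathlib.Tactic.Linarith.sub_nonpos_of_le h2)]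

lemma sz_le (hK : W.Λ ≤ K) (x : Bool × ℤ) : W.sz k a b K x ≤ 4 * W.Λ * K * 2 ^ |x.2 - k| := by
  have h1 := W.Λ1
  have h2 : K ≤ W.Λ * K := by linarith only [h1, hK, mul_nonneg_of_nonpos_of_nonpos (Mathlib.Tactic.Linarith.sub_nonpos_of_le hK) (Mathlib.Tactic.Linarith.sub_nonpos_of_le h1), mul_nonneg_of_nonpos_of_nonpos (Mathlib.Tactic.Linarith.sub_nonpos_of_le h1) (Mathlib.Tactic.Linarith.sub_nonpos_of_le h1)]
  obtain ⟨_ | _, i⟩ := x
  · have : (0 : ℝ) < 2 ^ |i - k| := by positivity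
    simp only [sz]; split_ifs <;> linarith only [this, hK, h1, h2, mul_nonneg_of_nonpos_of_nonpos (Mathlib.Tactic.Linarith.sub_nonpos_of_le hK) (le_of_lt (Mathlib.Tactic.Linarith.sub_neg_of_lt this)), mul_nonneg_of_nonpos_of_nonpos (Mathlib.Tactic.Linarith.sub_nonpos_of_le h1) (le_of_lt (Mathlib.Tactic.Linarith.sub_neg_of_lt this)), mul_nonneg_of_nonpos_of_nonpos (Mathlib.Tactic.Linarith.sub_nonpos_of_le h2) (le_of_lt (Mathlib.Tactic.Linarith.sub_neg_of_lt this))]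
  · have : (0 : ℝ) < 2 ^ |i - k| := by positivity
    simp only [sz]; split_ifs <;> linarith only [h2, this, mul_nonneg_of_nonpos_of_nonpos (Mathlib.Tactic.Linarith.sub_nonpos_of_le h2) (le_of_lt (Mathlib.Tactic.Linarith.sub_neg_of_lt this))]

lemma sz_pos (hK : W.Λ ≤ K) (x : Bool × ℤ) : 0 < W.sz k a b K x :=
  lt_of_lt_of_le (by positivity) (sz_ge hK x)

lemma two_zpow_le {x y : ℤ} (h : x ≤ y) : (2 : ℝ) ^ x ≤ 2 ^ y :=
  zpow_le_zpow_right₀ (by norm_num) h

lemma Ok.contr (h : W.Ok k a b K ηw eY V Y Q cp) :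
    WContr (fun x => (W.sz k a b K x)⁻¹) (W.TT k V Y Q cp) := by
  intro f g M hM hfg x
  have hΛ := W.Λ1
  have hK : 1 ≤ K := hΛ.trans h.hK
  have hΛK : K ≤ W.Λ * K := by linarith only [hΛ, hK, mul_nonneg_of_nonpos_of_nonpos (Mathlib.Tactic.Linarith.sub_nonpos_of_le hΛ) (Mathlib.Tactic.Linarith.sub_nonpos_of_le hK)]
  have hb : ∀ y, |f y - g y| ≤ W.sz k a b K y * M := fun y =>
    (inv_mul_le_iff₀ (sz_pos h.hK y)).1 (hfg y)
  have hall : ∀ (y : Bool × ℤ) (t : ℤ), |y.2 - k| ≤ t →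
      |f y - g y| ≤ 4 * (W.Λ * K * (2 ^ t * M)) := by
    intro y t ht
    have a1 := (sz_le (a := a) (b := b) h.hK y).trans
      (mul_le_mul_of_nonneg_left (two_zpow_le ht) (by positivity))
    have a2 := mul_le_mul_of_nonneg_right a1 hM
    exact (hb y).trans (a2.trans_eq (by ring))
  have hcore : ∀ (y : Bool × ℤ) (t : ℤ), a ≤ y.2 → y.2 ≤ b → |y.2 - k| ≤ t →
      |f y - g y| ≤ 4 * (K * (2 ^ t * M)) := by
    intro y t h1 h2 ht
    refine (hb y).trans ?_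
    have a1 := two_zpow_le ht
    have a2 := mul_le_mul_of_nonneg_right a1 hM
    have a3 : 0 ≤ (2 : ℝ) ^ |y.2 - k| * M := by positivity
    obtain ⟨_ | _, i⟩ := y
    · simp only [sz] at *; rw [if_pos ⟨h1, h2⟩]; linarith only [a2, a3, hK, mul_nonneg_of_nonpos_of_nonpos (Mathlib.Tactic.Linarith.sub_nonpos_of_le hK) (Mathlib.Tactic.Linarith.sub_nonpos_of_le a2), mul_nonneg_of_nonpos_of_nonpos (Mathlib.Tactic.Linarith.sub_nonpos_of_le hK) (Mathlib.Tactic.Linarith.sub_nonpos_of_le a3)]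
    · simp only [sz] at *; rw [if_pos ⟨h1, h2⟩]; linarith only [a2, hK, mul_nonneg_of_nonpos_of_nonpos (Mathlib.Tactic.Linarith.sub_nonpos_of_le hK) (Mathlib.Tactic.Linarith.sub_nonpos_of_le a2)]
  have hH : ∀ i, |f (false, i) - g (false, i)| ≤ K * (2 ^ |i - k| * M) := by
    intro i
    refine (hb _).trans ?_
    have a3 : 0 ≤ (2 : ℝ) ^ |i - k| * M := by positivity
    simp only [sz]; split_ifs <;> linarith only [hK, a3, mul_nonneg_of_nonpos_of_nonpos (Mathlib.Tactic.Linarith.sub_nonpos_of_le hK) (Mathlib.Tactic.Linarith.sub_nonpos_of_le a3)]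
  have hHc : ∀ i, a ≤ i → i ≤ b → |f (false, i) - g (false, i)| ≤ 2 ^ |i - k| * M := by
    intro i h1 h2
    refine (hb _).trans ?_
    simp only [sz]; rw [if_pos ⟨h1, h2⟩, one_mul]
  have hdl : ∀ j, |dl W.Θ (fun j => f (true, j)) (fun j => f (false, j)) j -
      dl W.Θ (fun j => g (true, j)) (fun j => g (false, j)) j| ≤
        16 * W.l * (W.Λ * K * (2 ^ |j - k| * M)) := by
    intro j
    have a1 : |j - 1 - k| ≤ |j - k| + 1 := by
      rw [abs_le]; constructor <;> cases abs_cases (j - k) <;> omega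
    have a2 : |j + 1 - k| ≤ |j - k| + 1 := by
      rw [abs_le]; constructor <;> cases abs_cases (j - k) <;> omega
    have a3 : |j - k| ≤ |j - k| + 1 := by omega
    refine (dl_lip W.lipΘ (hall (true, j - 1) _ a1) (hall (true, j) _ a3) (hall (true, j + 1) _ a2)
      (hall (false, j - 1) _ a1) (hall (false, j) _ a3) (hall (false, j + 1) _ a2)).trans_eq ?_
    rw [zpow_add_one₀ (by norm_num)]; ring
  have hvc : ∀ j, a ≤ j → j ≤ b →
      |V j (f (false, j)) (dl W.Θ (fun j => f (true, j)) (fun j => f (false, j)) j) -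
        V j (g (false, j)) (dl W.Θ (fun j => g (true, j)) (fun j => g (false, j)) j)| ≤
        3 * (K * (2 ^ |j - k| * M)) := by
    intro j h1 h2
    refine ((h.lawc j h1 h2).1 _ _ _ _ (W.dl_le _ _ _) (W.dl_le _ _ _)).trans ?_
    have a1 := mul_le_mul_of_nonneg_left (hHc j h1 h2) (by linarith only [hK] : 0 ≤ K)
    have a2 := mul_le_mul_of_nonneg_left (hdl j) W.e0
    have a3 : 0 ≤ K * ((2 : ℝ) ^ |j - k| * M) := by positivity
    have a4 := mul_le_mul_of_nonneg_right W.se a3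
    linarith only [a1, a2, a3, a4]
  have hed : ∀ (j : ℤ) (η m : ℝ), Lip3 η (Q j) → (∀ c, |f (c, j) - g (c, j)| ≤ m) →
      (∀ c, |f (c, j + 1) - g (c, j + 1)| ≤ m) →
      |2 * Q j (f (true, j), f (true, j + 1), (f (false, j) + f (false, j + 1)) / 2) -
        2 * Q j (g (true, j), g (true, j + 1), (g (false, j) + g (false, j + 1)) / 2)| ≤
        2 * η * m := by
    intro j η m hl h1 h2
    have := hl _ _ _ _ _ _ m (h1 true) (h2 true) (abs_mid_le (h1 false) (h2 false))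
    rw [← mul_sub, abs_mul, abs_two]; linarith only [this]
  rw [inv_mul_le_iff₀ (sz_pos h.hK x)]
  obtain ⟨_ | _, i⟩ := x
  · simp only [TT, sz]
    have a3 : 0 ≤ (2 : ℝ) ^ |i - k| * M := by positivity
    by_cases hik : i = k
    · subst hik
      rw [if_pos rfl, if_pos rfl, if_pos ⟨h.hak, h.hkb⟩]
      refine (h.lawY _ _ (W.dl_le _ _ _) (W.dl_le _ _ _)).trans ?_
      have a1 := mul_le_mul_of_nonneg_left (hdl i) h.eY0
      have a2 := mul_le_mul_of_nonneg_right h.seY a3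
      linarith only [a3, a1, a2]
    have key : ∀ (j j' : ℤ) (u v : ℝ), |j' - k| + 1 = |i - k| → (j = i ∨ j = j') →
        (j + 1 = i ∨ j + 1 = j') → (a ≤ i ∧ i ≤ b → a ≤ j' ∧ j' ≤ b) →
        |u - v| ≤ |f (false, j') - g (false, j')| +
          |2 * Q j (f (true, j), f (true, j + 1), (f (false, j) + f (false, j + 1)) / 2) -
          2 * Q j (g (true, j), g (true, j + 1), (g (false, j) + g (false, j + 1)) / 2)| →
        |u - v| ≤ (if a ≤ i ∧ i ≤ b then 1 else K) * 2 ^ |i - k| * (3 / 4 * M) := by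
      intro j j' u v e1 e2 e3 e4 huv
      have e5 : (2 : ℝ) ^ |i - k| = 2 ^ |j' - k| * 2 := by
        rw [← e1, zpow_add_one₀ (by norm_num)]
      have e6 : |j - k| ≤ |i - k| := by rcases e2 with h | h <;> subst h <;> omega
      have e7 : |j + 1 - k| ≤ |i - k| := by rcases e3 with h | h <;> (rw [h]; try omega)
      split_ifs with hc
      · have a1 := hed j ηw _ (h.lipw j (by omega) (by omega))
          (fun c => hcore (c, j) _ (by simp only; omega) (by simp only; omega) e6)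
          (fun c => hcore (c, j + 1) _ (by simp only; omega) (by simp only; omega) e7)
        have a2 := hHc j' (e4 hc).1 (e4 hc).2
        have a4 := mul_le_mul_of_nonneg_right h.sηw a3
        rw [e5] at *
        linarith only [huv, a1, a2, a4]
      · have a1 := hed j W.η _ (h.lipQ j) (fun c => hall (c, j) _ e6)
          (fun c => hall (c, j + 1) _ e7)
        have a2 := hH j'
        have a5 : 0 ≤ K * ((2 : ℝ) ^ |i - k| * M) := by positivity
        have a4 := mul_le_mul_of_nonneg_right W.sηΛ a5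
        rw [e5] at *
        linarith only [huv, a1, a2, a5, a4]
    rw [if_neg hik, if_neg hik]
    have hak := h.hak
    have hkb := h.hkb
    by_cases hki : k < i
    · rw [if_pos hki, if_pos hki]
      refine key (i - 1) (i - 1) _ _ (by rw [abs_of_nonneg (by omega), abs_of_nonneg (by omega)]; ring)
        (Or.inr rfl) (Or.inl (by ring)) (by omega) ?_
      rw [sub_add_cancel, add_sub_add_comm]
      exact abs_add_le _ _
    · rw [if_neg hki, if_neg hki]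
      refine key i (i + 1) _ _ (by rw [abs_of_nonpos (by omega), abs_of_nonpos (by omega)]; ring)
        (Or.inl rfl) (Or.inr rfl) (by omega) ?_
      rw [sub_sub_sub_comm]
      exact abs_sub _ _
  · simp only [TT, sz]
    have a3 : 0 ≤ K * ((2 : ℝ) ^ |i - k| * M) := by positivity
    rcases h.hcp i with hc | ⟨hc, h1, h2, h3⟩
    · rw [hc]
      split_ifs with hi
      · exact (hvc i hi.1 hi.2).trans_eq (by ring)
      · refine ((h.lawo i hi).1 _ _ _ _ (W.dl_le _ _ _) (W.dl_le _ _ _)).trans ?_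
        have a1 := mul_le_mul_of_nonneg_left (hH i) (by linarith : 0 ≤ W.Λ)
        have a2 := mul_le_mul_of_nonneg_left (hdl i) W.e0
        have a5 : 0 ≤ W.Λ * (K * ((2 : ℝ) ^ |i - k| * M)) := by positivity
        have a4 := mul_le_mul_of_nonneg_right W.sel a5
        linarith only [a1, a2, a5, a4]
    · rw [if_neg hc]
      refine (hvc _ h1 h2).trans ?_
      have a1 := mul_le_mul_of_nonneg_left (mul_le_mul_of_nonneg_right (two_zpow_le h3) hM)
        (by linarith only [hK] : 0 ≤ K)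
      linarith only [a1, hΛ, a3, mul_nonneg_of_nonpos_of_nonpos (Mathlib.Tactic.Linarith.sub_nonpos_of_le hΛ) (Mathlib.Tactic.Linarith.sub_nonpos_of_le a3)]

lemma sol_iff {s H : ℤ → ℝ} : W.Sol k V Y Q cp s H ↔ W.TT k V Y Q cp (pk s H) = pk s H := by
  constructor
  · intro h
    funext ⟨c, i⟩
    cases c
    · simp only [TT, pk]
      split_ifs with h1 h2
      · rw [h1]; exact h.an.symm
      · have := h.ed (i - 1)
        unfold Edge at this
        rw [sub_add_cancel] at this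
        linarith only [this]
      · have := h.ed i
        unfold Edge at this
        linarith only [this]
    · exact (h.vx i).symm
  · intro h
    refine ⟨fun i => (congrFun h (true, i)).symm, ?_, fun i => ?_⟩
    · have := congrFun h (false, k)
      simp only [TT, pk, if_true] at this
      exact this.symm
    · unfold Edge
      by_cases hi : k ≤ i
      · have := congrFun h (false, i + 1)
        simp only [TT, pk, add_sub_cancel_right] at this
        rw [if_neg (by omega), if_pos (by omega)] at this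
        linarith only [this]
      · have := congrFun h (false, i)
        simp only [TT, pk] at this
        rw [if_neg (by omega), if_neg (by omega)] at this
        linarith only [this]

lemma Ok.bd (h : W.Ok k a b K ηw eY V Y Q cp) (i : ℤ) (x : ℝ) (s H : ℤ → ℝ) (j : ℤ) :
    |V i x (dl W.Θ s H j)| ≤ W.B := by
  by_cases hi : a ≤ i ∧ i ≤ b
  · exact (h.lawc i hi.1 hi.2).2 _ _ (W.dl_le _ _ _)
  · exact (h.lawo i hi).2 _ _ (W.dl_le _ _ _)

lemma inv_sz_le (hK : W.Λ ≤ K) (x : Bool × ℤ) {r e : ℝ} (h : r ≤ e * 2 ^ |x.2 - k|) (he : 0 ≤ e) :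
    (W.sz k a b K x)⁻¹ * r ≤ e := by
  rw [inv_mul_le_iff₀ (sz_pos hK x)]
  have := mul_le_mul_of_nonneg_left (sz_ge (k := k) (a := a) (b := b) hK x) he
  linarith only [h, this]

lemma one_le_two_zpow (i : ℤ) : (1 : ℝ) ≤ 2 ^ |i| := one_le_zpow₀ (by norm_num) (abs_nonneg _)

theorem Ok.exists (h : W.Ok k a b K ηw eY V Y Q cp) : ∃ s H, W.Sol k V Y Q cp s H := by
  have hB := W.B1
  obtain ⟨f, hf, -⟩ := fp_exists (fun x => inv_pos.2 (sz_pos h.hK x)) h.contr
    (M0 := W.B + |Y (dl W.Θ (fun _ => 0) (fun _ => 0) k)|) (by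
      rintro ⟨c, i⟩
      refine inv_sz_le h.hK _ (le_trans ?_ (le_mul_of_one_le_right (by positivity)
        (one_le_two_zpow _))) (by positivity)
      cases c
      · simp only [TT, Pi.zero_apply, (h.antiQ _).diag]
        split_ifs
        · linarith only [hB]
        · simp; positivity
        · simp; positivity
      · exact (h.bd _ _ _ _ _).trans (le_add_of_nonneg_right (abs_nonneg _))) (by positivity)
  refine ⟨fun j => f (true, j), fun j => f (false, j), sol_iff.2 ?_⟩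
  have : pk (fun j => f (true, j)) (fun j => f (false, j)) = f := by
    funext ⟨c, i⟩; cases c <;> rfl
  rw [this, hf]

lemma Sol.bd (h : W.Ok k a b K ηw eY V Y Q cp) {s H : ℤ → ℝ} (hs : W.Sol k V Y Q cp s H) (i : ℤ) :
    |s i| ≤ W.B := by rw [hs.vx i]; exact h.bd _ _ _ _ _

lemma Sol.ebd (h : W.Ok k a b K ηw eY V Y Q cp) {s H : ℤ → ℝ} (hs : W.Sol k V Y Q cp s H) (i : ℤ) :
    |H (i + 1) - H i| ≤ 4 * (W.η * W.B) :=
  edge_le (h.lipQ i) (h.antiQ i) (hs.ed i) (hs.bd h _) (hs.bd h _)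

lemma lin_growth {g : ℤ → ℝ} {C : ℝ} (h : ∀ i, |g (i + 1) - g i| ≤ C) (k i : ℤ) :
    |g i - g k| ≤ C * 2 ^ |i - k| := by
  have hC : 0 ≤ C := (abs_nonneg _).trans (h 0)
  have key : ∀ (n : ℕ) (j : ℤ), |g (j + n) - g j| ≤ C * 2 ^ (n : ℤ) := by
    intro n j
    induction n with
    | zero => simpa using hC
    | succ n ih =>
      push_cast
      rw [zpow_add_one₀ (by norm_num), ← add_assoc]
      have a1 := h (j + n)
      have a2 := abs_sub_le (g (j + n + 1)) (g (j + n)) (g j)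
      have a3 : (1 : ℝ) ≤ 2 ^ (n : ℤ) := one_le_zpow₀ (by norm_num) (by omega)
      linarith only [ih, a1, a2, hC, a3, mul_nonneg_of_nonpos_of_nonpos (Mathlib.Tactic.Linarith.sub_nonpos_of_le hC) (Mathlib.Tactic.Linarith.sub_nonpos_of_le a3)]
  rcases le_total k i with hi | hi
  · have := key (i - k).toNat k
    rwa [Int.toNat_of_nonneg (by omega), add_sub_cancel, ← abs_of_nonneg (by omega : 0 ≤ i - k)]
      at this
  · have := key (k - i).toNat i
    rwa [Int.toNat_of_nonneg (by omega), add_sub_cancel, abs_sub_comm,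
      ← abs_of_nonneg (by omega : 0 ≤ k - i), abs_sub_comm k i] at this

theorem Ok.stab (h : W.Ok k a b K ηw eY V Y Q cp) {s H s' H' : ℤ → ℝ} (hs : W.Sol k V Y Q cp s H)
    (b1 : ∀ i, |s' i| ≤ W.B) (b2 : ∀ i, |H' (i + 1) - H' i| ≤ 4 * (W.η * W.B)) {ε : ℝ}
    (r1 : ∀ i, |V (cp i) (H' (cp i)) (dl W.Θ s' H' (cp i)) - s' i| ≤ ε * 2 ^ |i - k|)
    (r2 : |Y (dl W.Θ s' H' k) - H' k| ≤ ε)
    (r3 : ∀ i, |H' (i + 1) - H' i - 2 * Q i (s' i, s' (i + 1), (H' i + H' (i + 1)) / 2)| ≤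
      ε * 2 ^ |i - k|) (i : ℤ) :
    |H i - H' i| ≤ 4 * K * ε * 2 ^ |i - k| ∧ |s i - s' i| ≤ 16 * W.Λ * K * ε * 2 ^ |i - k| := by
  have hε : 0 ≤ ε := (abs_nonneg _).trans r2
  have hB := W.B1
  have hη := W.η0
  have key := fp_stab (g := pk s' H') (fun x => inv_pos.2 (sz_pos h.hK x)) h.contr (sol_iff.1 hs)
    (B := 2 * W.B + |H k - H' k| + 8 * (W.η * W.B)) (e := ε) (by
      rintro ⟨c, j⟩
      refine inv_sz_le h.hK _ ?_ (by positivity)
      have a0 := one_le_two_zpow (j - k)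
      cases c
      · simp only [pk]
        have a1 := lin_growth (hs.ebd h) k j
        have a2 := lin_growth b2 k j
        have a3 : |H j - H' j| ≤ |H j - H k| + |H k - H' k| + |H' j - H' k| := by
          have := abs_sub_le (H j) (H k) (H' j)
          have := abs_sub_le (H k) (H' k) (H' j)
          rw [abs_sub_comm (H' j)]; linarith
        have a4 := abs_nonneg (H k - H' k)
        linarith only [hB, a0, a1, a2, a3, a4, mul_nonneg_of_nonpos_of_nonpos (Mathlib.Tactic.Linarith.sub_nonpos_of_le hB) (Mathlib.Tactic.Linarith.sub_nonpos_of_le a0), mul_nonneg_of_nonpos_of_nonpos (Mathlib.Tactic.Linarith.sub_nonpos_of_le a0) (Mathlib.Tactic.Linarith.sub_nonpos_of_le a4)]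
      · simp only [pk]
        have a1 : |s j - s' j| ≤ 2 * W.B := (abs_sub _ _).trans (by linarith only [h, hs, b1, hs.bd h j, b1 j])
        have a4 : 0 ≤ |H k - H' k| + 8 * (W.η * W.B) := by positivity
        linarith only [a0, a1, a4, hB, mul_nonneg_of_nonpos_of_nonpos (Mathlib.Tactic.Linarith.sub_nonpos_of_le hB) (Mathlib.Tactic.Linarith.sub_nonpos_of_le a0), mul_nonneg_of_nonpos_of_nonpos (Mathlib.Tactic.Linarith.sub_nonpos_of_le a0) (Mathlib.Tactic.Linarith.sub_nonpos_of_le a4)]) (by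
      rintro ⟨c, j⟩
      refine inv_sz_le h.hK _ ?_ hε
      cases c
      · simp only [TT, pk]
        split_ifs with h1 h2
        · subst h1; simpa using r2
        · have := r3 (j - 1)
          rw [sub_add_cancel] at this
          rw [abs_sub_comm, ← sub_sub]
          refine this.trans (mul_le_mul_of_nonneg_left (two_zpow_le ?_) hε)
          rw [abs_of_nonneg (by omega), abs_of_nonneg (by omega)]; omega
        · rw [sub_right_comm]; exact r3 j
      · exact r1 j)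
  have hK : 1 ≤ K := W.Λ1.trans h.hK
  constructor
  · have := (inv_mul_le_iff₀ (sz_pos h.hK _)).1 (key (false, i))
    refine this.trans ?_
    have a3 : 0 ≤ ε * (2 : ℝ) ^ |i - k| := by positivity
    simp only [sz]; split_ifs <;> linarith only [hK, a3, mul_nonneg_of_nonpos_of_nonpos (Mathlib.Tactic.Linarith.sub_nonpos_of_le hK) (Mathlib.Tactic.Linarith.sub_nonpos_of_le a3)]
  · have := (inv_mul_le_iff₀ (sz_pos h.hK _)).1 (key (true, i))
    refine this.trans ?_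
    have := mul_le_mul_of_nonneg_right (sz_le (k := k) (a := a) (b := b) h.hK (true, i))
      (by positivity : 0 ≤ 4 * ε)
    exact this.trans_eq (by ring)

theorem Ok.uniq (h : W.Ok k a b K ηw eY V Y Q cp) {s H s' H' : ℤ → ℝ} (hs : W.Sol k V Y Q cp s H)
    (hs' : W.Sol k V Y Q cp s' H') : s = s' ∧ H = H' := by
  have key := h.stab hs (hs'.bd h) (hs'.ebd h) (ε := 0) (fun i => by rw [← hs'.vx i]; simp)
    (by rw [← hs'.an]; simp) (fun i => by rw [hs'.ed i]; simp)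
  constructor <;> funext i
  · simpa [sub_eq_zero] using (key i).2
  · simpa [sub_eq_zero] using (key i).1

end Lw

end Pool.Agent.Work.MP_05654f_an
end

-- merged part: Pool.Agent.Work.MP_05654f_an.Scat
section
/-!
Left and right limits of chains, and the scattering maps of words.
-/

namespace Pool.Agent.Work.MP_05654f_an

open Filter Topology Set

/-- Left limit. -/
def LL (H : ℤ → ℝ) (x : ℝ) : Prop := Tendsto H atBot (𝓝 x)

/-- Right limit. -/
def RL (H : ℤ → ℝ) (x : ℝ) : Prop := Tendsto H atTop (𝓝 x)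

lemma RL.refl {H : ℤ → ℝ} {x : ℝ} (h : RL H x) (c : ℤ) : LL (fun j => H (c - j)) x :=
  Tendsto.comp h (tendsto_atTop_add_const_left _ c tendsto_neg_atBot_atTop)

lemma LL.refl {H : ℤ → ℝ} {x : ℝ} (h : LL H x) (c : ℤ) : RL (fun j => H (c - j)) x :=
  Tendsto.comp h (tendsto_atBot_add_const_left _ c tendsto_neg_atTop_atBot)

lemma LL.shift {H : ℤ → ℝ} {x : ℝ} (h : LL H x) (c : ℤ) : LL (fun j => H (j + c)) x :=
  Tendsto.comp h (tendsto_atBot_add_const_right _ c tendsto_id)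

lemma LL.congr {H H' : ℤ → ℝ} {x : ℝ} (h : LL H x) {b : ℤ} (e : ∀ i ≤ b, H i = H' i) : LL H' x :=
  Tendsto.congr' ((eventually_le_atBot b).mono e) h

lemma LL.unique {H : ℤ → ℝ} {x y : ℝ} (h : LL H x) (h' : LL H y) : x = y := tendsto_nhds_unique h h'

lemma RL.unique {H : ℤ → ℝ} {x y : ℝ} (h : RL H x) (h' : RL H y) : x = y := tendsto_nhds_unique h h'

lemma eight_tendsto : Tendsto (fun j : ℤ => (8 : ℝ) ^ j) atBot (𝓝 0) := by
  have h := (tendsto_rpow_atBot_of_base_gt_one 8 (by norm_num)).comp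
    (tendsto_intCast_atBot_iff.2 tendsto_id : Tendsto (fun j : ℤ => (j : ℝ)) atBot atBot)
  refine h.congr fun j => ?_
  simp

lemma cont_of_geom {S : Set ℝ} {x f g : ℝ → ℝ} (hf : ContinuousOn f S) (hg : ContinuousOn g S)
    {A C : ℝ} (h : ∀ n : ℕ, ∀ u ∈ S, ∀ u' ∈ S,
      |x u - x u'| ≤ A * 2 ^ n * (|f u - f u'| + |g u - g u'|) + C * (1 / 8) ^ n) :
    ContinuousOn x S := by
  intro u hu
  rw [ContinuousWithinAt, Metric.tendsto_nhds]
  intro ε hε
  obtain ⟨n, hn⟩ := Lw.exists_pow_lt (C := C) (half_pos hε) (θ := 1 / 8) (by norm_num) (by norm_num)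
  have h1 : Tendsto (fun v => A * 2 ^ n * (|f v - f u| + |g v - g u|)) (𝓝[S] u)
      (𝓝 (A * 2 ^ n * (|f u - f u| + |g u - g u|))) :=
    ((((hf u hu).sub_const _).abs).add (((hg u hu).sub_const _).abs)).const_mul _
  simp only [sub_self, abs_zero, add_zero, mul_zero] at h1
  filter_upwards [h1.eventually (gt_mem_nhds (half_pos hε)), self_mem_nhdsWithin] with v h2 h3
  rw [Real.dist_eq]
  linarith only [h2, h, h3, hu, hn, h n v h3 u hu, hn n le_rfl]

namespace Lw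

variable (W : Lw)

/-- A chain with itinerary `ι` to the left of `b`. -/
def LCh (ι : ℤ → ℕ) (s H : ℤ → ℝ) (b : ℤ) : Prop :=
  (∀ i < b, W.Vx (ι i) s H i ∧ Edge W.q s H i) ∧ |s b| ≤ W.B

/-- A chain with itinerary `ι`. -/
def Ch (ι : ℤ → ℕ) (s H : ℤ → ℝ) : Prop := ∀ i, W.Vx (ι i) s H i ∧ Edge W.q s H i

variable {W} {ι ι' : ℤ → ℕ} {s H s' H' : ℤ → ℝ} {a0 b k : ℤ} {x x' y y' : ℝ}

lemma Ch.lch (h : W.Ch ι s H) (b : ℤ) : W.LCh ι s H b := ⟨fun i _ => h i, (h b).1.bd⟩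

lemma LCh.bd (h : W.LCh ι s H b) {i : ℤ} (hi : i ≤ b) : |s i| ≤ W.B := by
  rcases eq_or_lt_of_le hi with h1 | h1
  · rw [h1]; exact h.2
  · exact (h.1 i h1).1.bd

lemma LCh.mono (h : W.LCh ι s H b) {b' : ℤ} (hb : b' ≤ b) : W.LCh ι s H b' :=
  ⟨fun i hi => h.1 i (by omega), h.bd hb⟩

lemma LCh.congr (h : W.LCh ι s H b) (e : ∀ i < b, ι i = ι' i) : W.LCh ι' s H b :=
  ⟨fun i hi => by rw [← e i hi]; exact h.1 i hi, h.2⟩

lemma LCh.dl (h : W.LCh ι s H b) (h' : W.LCh ι s' H' b) : W.DL (s - s') (H - H') b :=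
  ⟨fun i hi => ⟨(h.1 i hi).2.de W.lipq (h'.1 i hi).2, (h.1 i hi).1.dv (h'.1 i hi).1⟩,
    fun _ hi => (abs_sub _ _).trans (by linarith only [h, hi, h', h.bd hi, h'.bd hi])⟩

lemma Ch.dl (h : W.Ch ι s H) (h' : W.Ch ι s' H') (b : ℤ) : W.DL (s - s') (H - H') b :=
  (h.lch b).dl (h'.lch b)

lemma Ch.cmp (h : W.Ch ι s H) (h' : W.Ch ι s' H') (k i : ℤ) :
    |H i - H' i| ≤ 2 ^ |i - k| * |H k - H' k| ∧
      |s i - s' i| ≤ 4 * W.Λ * 2 ^ |i - k| * |H k - H' k| := cmpZ (h.dl h') le_rfl i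

lemma Ch.eq (h : W.Ch ι s H) (h' : W.Ch ι s' H') (e : H k = H' k) : s = s' ∧ H = H' := by
  constructor <;> funext i
  · simpa [e, sub_eq_zero] using (h.cmp h' k i).2
  · simpa [e, sub_eq_zero] using (h.cmp h' k i).1

lemma dl_refl (Θ : ℝ × ℝ × ℝ → ℝ) (s H : ℤ → ℝ) (c i : ℤ) :
    dl Θ (fun j => s (c - j)) (fun j => H (c - j)) i = dl Θ s H (c - i) := by
  have e1 : c - (i + 1) = c - i - 1 := by ring
  have e2 : c - (i - 1) = c - i + 1 := by ring
  simp only [dl, e1, e2]; ring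

lemma dl_shift (Θ : ℝ × ℝ × ℝ → ℝ) (s H : ℤ → ℝ) (c i : ℤ) :
    dl Θ (fun j => s (j + c)) (fun j => H (j + c)) i = dl Θ s H (i + c) := by
  have e1 : i + 1 + c = i + c + 1 := by ring
  have e2 : i - 1 + c = i + c - 1 := by ring
  simp only [dl, e1, e2]

lemma edge_refl {q : ℝ × ℝ × ℝ → ℝ} (ha : Anti q) {c i : ℤ} (h : Edge q s H (c - i - 1)) :
    Edge q (fun j => s (c - j)) (fun j => H (c - j)) i := by
  have e1 : c - (i + 1) = c - i - 1 := by ring
  unfold Edge at *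
  simp only [e1]
  rw [sub_add_cancel] at h
  rw [ha, add_comm (H (c - i))]
  linarith only [h]

lemma edge_shift {q : ℝ × ℝ × ℝ → ℝ} {c i : ℤ} (h : Edge q s H (i + c)) :
    Edge q (fun j => s (j + c)) (fun j => H (j + c)) i := by
  have e1 : i + 1 + c = i + c + 1 := by ring
  unfold Edge at *
  simp only [e1]
  exact h

lemma Vx.refl {t : ℕ} {c i : ℤ} (h : W.Vx t s H (c - i)) :
    W.Vx t (fun j => s (c - j)) (fun j => H (c - j)) i := by
  unfold Vx at *; rw [dl_refl]; exact h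

lemma Vx.shift {t : ℕ} {c i : ℤ} (h : W.Vx t s H (i + c)) :
    W.Vx t (fun j => s (j + c)) (fun j => H (j + c)) i := by
  unfold Vx at *; rw [dl_shift]; exact h

lemma Ch.refl (h : W.Ch ι s H) (c : ℤ) :
    W.Ch (fun j => ι (c - j)) (fun j => s (c - j)) (fun j => H (c - j)) :=
  fun _ => ⟨(h _).1.refl, edge_refl W.anti (h _).2⟩

lemma Ch.shift (h : W.Ch ι s H) (c : ℤ) :
    W.Ch (fun j => ι (j + c)) (fun j => s (j + c)) (fun j => H (j + c)) :=
  fun _ => ⟨(h _).1.shift, edge_shift (h _).2⟩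

lemma LCh.runL (h : W.LCh ι s H b) (h1 : ∀ i < b, ι i = 1) {i j : ℤ} (hij : i ≤ j) (hj : j ≤ b) :
    |H j - H i| ≤ W.c * 8 ^ (j - b) := by
  refine le_of_geom (μ := 8) (C := W.c) (by norm_num) fun n => ?_
  have := run (a := i - n) (b := b) (fun i _ hi => by rw [← h1 i hi]; exact (h.1 i hi).1)
    (fun i _ hi => (h.1 i hi).2) (h.bd (by omega)) h.2 (i := i) (j := j) (by omega) hij hj
  have e : i - n - i = -(n : ℤ) := by ring
  rw [e, eight_neg, one_div] at this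
  linarith only [this]

lemma LCh.bound (h : W.LCh ι s H b) (h1 : ∀ i < b, ι i = 1) (hx : LL H x) {j : ℤ} (hj : j ≤ b) :
    |H j - x| ≤ W.c * 8 ^ (j - b) :=
  le_of_tendsto (Tendsto.abs (tendsto_const_nhds.sub hx))
    ((eventually_le_atBot j).mono fun _ hi => h.runL h1 hi hj)

lemma LCh.bound' (h : W.LCh ι s H b) (h1 : ∀ i < b, ι i = 1) (hx : LL H x) {j : ℤ} (hj : j ≤ b) :
    |H j - x| ≤ W.c := by
  have p2 : (8 : ℝ) ^ (j - b) ≤ 1 := zpow_le_one_of_nonpos₀ (by norm_num) (by omega)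
  have := W.c0
  exact (h.bound h1 hx hj).trans (by linarith only [p2, this, mul_nonneg_of_nonpos_of_nonpos (Mathlib.Tactic.Linarith.sub_nonpos_of_le p2) (Mathlib.Tactic.Linarith.sub_nonpos_of_le this)])

lemma LCh.exists_LL (h : W.LCh ι s H b) (h1 : ∀ i < b, ι i = 1) : ∃ x, LL H x := by
  have hc : CauchySeq fun n : ℕ => H (b - n) := by
    refine cauchySeq_of_le_geometric (1 / 8) W.c (by norm_num) fun n => ?_
    have := h.runL h1 (i := b - (n + 1 : ℕ)) (j := b - n) (by omega) (by omega)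
    have e : b - n - b = -(n : ℤ) := by ring
    rwa [e, eight_neg, ← Real.dist_eq] at this
  obtain ⟨x, hx⟩ := cauchySeq_tendsto_of_complete hc
  have hb : ∀ j ≤ b, |H j - x| ≤ W.c * 8 ^ (j - b) := by
    intro j hj
    refine le_of_tendsto (Tendsto.abs (tendsto_const_nhds.sub hx)) ?_
    filter_upwards [eventually_ge_atTop (b - j).toNat] with n hn
    exact h.runL h1 (by omega) hj
  refine ⟨x, tendsto_iff_dist_tendsto_zero.2 (squeeze_zero' (g := fun j => W.c * 8 ^ (j - b))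
    (Eventually.of_forall fun _ => dist_nonneg) ((eventually_le_atBot b).mono hb) ?_)⟩
  have := (eight_tendsto.comp (tendsto_atBot_add_const_right atBot (-b) tendsto_id)).const_mul W.c
  rw [mul_zero] at this
  exact this

lemma ltL (h : W.LCh ι s H b) (h' : W.LCh ι s' H' b) (h1 : ∀ i < a0, ι i = 1) (hx : LL H x)
    (hx' : LL H' x') (hk : k ≤ b)
    (h0 : 256 * (W.η * W.Λ) * (8 ^ (k - b) * |s b - s' b|) < H k - H' k) : x' < x := by
  have a3 : 0 ≤ W.η * W.Λ := mul_nonneg W.η0 (by linarith only [W.Λ1])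
  have hpos : 0 < H k - H' k := lt_of_le_of_lt (by positivity) h0
  set a1 := min a0 k with ha1
  obtain ⟨n0, hn⟩ := exists_pow_lt (C := 2 * W.c * 8 ^ (k - a1)) hpos (θ := 1 / 4) (by norm_num)
    (by norm_num)
  set n := max n0 (k - a1).toNat with hn'
  have k1 := persL (h.dl h') hk h0 n
  have k2 := (h.mono (b' := a1) (by omega)).bound (fun i hi => h1 i (by omega)) hx
    (j := k - n) (by omega)
  have k3 := (h'.mono (b' := a1) (by omega)).bound (fun i hi => h1 i (by omega)) hx'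
    (j := k - n) (by omega)
  have k4 := hn n (le_max_left _ _)
  have e : (8 : ℝ) ^ (k - n - a1) = 8 ^ (k - a1) * ((1 / 2) ^ n * (1 / 4) ^ n) := by
    rw [← mul_pow, show (1 / 2 * (1 / 4) : ℝ) = 1 / 8 by norm_num, ← eight_neg,
      ← zpow_add₀ (by norm_num)]
    congr 1; ring
  rw [e] at k2 k3
  simp only [Pi.sub_apply] at k1
  have k5 : (0 : ℝ) < (1 / 2) ^ n := by positivity
  have k6 := mul_lt_mul_of_pos_left k4 k5
  rw [abs_le] at k2 k3
  linarith only [k1, k2, k3, k6, k2.2, k3.1]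

lemma U (h : W.LCh ι s H b) (h' : W.LCh ι s' H' b) (h1 : ∀ i < a0, ι i = 1) (hx : LL H x)
    (hx' : LL H' x) (hk : k ≤ b) :
    |H k - H' k| ≤ 256 * (W.η * W.Λ) * (8 ^ (k - b) * |s b - s' b|) := by
  rw [abs_le]
  constructor
  · by_contra hc
    exact lt_irrefl _ (ltL h' h h1 hx' hx hk (by rw [abs_sub_comm]; linarith only [hc]))
  · by_contra hc
    exact lt_irrefl _ (ltL h h' h1 hx hx' hk (by linarith))

lemma LC (h : W.LCh ι s H b) (h' : W.LCh ι s' H' b) (h1 : ∀ i < a0, ι i = 1) (hx : LL H x)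
    (hx' : LL H' x') (hab : a0 ≤ b) {E : ℝ} (e1 : |s b - s' b| ≤ E) (e2 : |H b - H' b| ≤ E)
    (n : ℕ) : |x - x'| ≤ 2 ^ (b - a0) * 2 ^ n * E + 2 * W.c * (1 / 8) ^ n := by
  have k1 := (cmpL (μ := 2) le_rfl (by norm_num) (h.dl h') (k := b) le_rfl e2 (by simpa using e1)
    (i := a0 - n) (by omega)).1
  have k2 := (h.mono hab).bound h1 hx (j := a0 - n) (by omega)
  have k3 := (h'.mono hab).bound h1 hx' (j := a0 - n) (by omega)
  have e : a0 - n - a0 = -(n : ℤ) := by ring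
  rw [e, eight_neg] at k2 k3
  have e' : |a0 - n - b| = b - a0 + n := by rw [abs_of_nonpos (by omega)]; ring
  rw [e', zpow_add₀ (by norm_num), zpow_natCast] at k1
  simp only [Pi.sub_apply] at k1
  rw [abs_le] at *
  constructor <;> linarith only [k1, k2, k3, k1.1, k1.2, k2.1, k2.2, k3.1, k3.2]

lemma ltZ (h : W.Ch ι s H) (h' : W.Ch ι s' H') (h1 : ∀ i < a0, ι i = 1) (hx : LL H x)
    (hx' : LL H' x') (h0 : H' k < H k) : x' < x := by
  have a3 : 0 ≤ W.η * W.Λ := mul_nonneg W.η0 (by linarith [W.Λ1])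
  obtain ⟨n, hn⟩ := exists_pow_lt (C := 256 * (W.η * W.Λ) * (2 * W.B)) (sub_pos.2 h0)
    (θ := 1 / 8) (by norm_num) (by norm_num)
  refine ltL (h.lch (k + n)) (h'.lch (k + n)) h1 hx hx' (k := k) (by omega)
    (lt_of_le_of_lt ?_ (hn n le_rfl))
  have e : k - (k + n) = -(n : ℤ) := by ring
  rw [e, eight_neg, mul_assoc (256 * (W.η * W.Λ))]
  refine mul_le_mul_of_nonneg_left ?_ (by positivity)
  rw [mul_comm]
  exact mul_le_mul_of_nonneg_right (((h.dl h') _).2 _ le_rfl) (by positivity)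

lemma uniqL (h : W.Ch ι s H) (h' : W.Ch ι s' H') (h1 : ∀ i < a0, ι i = 1) (hx : LL H x)
    (hx' : LL H' x) : s = s' ∧ H = H' := by
  refine h.eq h' (k := 0) ?_
  rcases lt_trichotomy (H 0) (H' 0) with c | c | c
  · exact absurd (ltZ h' h h1 hx' hx c) (lt_irrefl _)
  · exact c
  · exact absurd (ltZ h h' h1 hx hx' c) (lt_irrefl _)

lemma exists_ch (W : Lw) (ι : ℤ → ℕ) (k : ℤ) (y : ℝ) : ∃ s H, W.Ch ι s H ∧ H k = y := by
  have hok : W.Ok k k k W.Λ 0 0 (fun i => W.LV (ι i)) (fun _ => y) (fun _ => W.q) id :=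
    ⟨le_rfl, le_rfl, le_rfl, le_rfl, le_rfl, by norm_num, by norm_num, fun _ _ _ => W.law _,
      fun _ _ => W.law _, by simp, fun _ => W.lipq, fun _ => W.anti, fun i _ _ => by omega,
      fun _ => Or.inl rfl⟩
  obtain ⟨s, H, hs⟩ := hok.exists
  exact ⟨s, H, fun i => ⟨hs.vx i, hs.ed i⟩, hs.an⟩

lemma exists_left (h1 : ∀ i < a0, ι i = 1) (x : ℝ) : ∃ s H, W.Ch ι s H ∧ LL H x := by
  choose s H hs hy using fun y => W.exists_ch ι a0 y
  choose f hf using fun y => ((hs y).lch a0).exists_LL h1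
  have hc : ContinuousOn f univ := by
    refine cont_of_geom (f := id) (g := id) continuousOn_id continuousOn_id (A := 2 * W.Λ)
      (C := 2 * W.c) fun n u _ u' _ => ?_
    have k1 := ((hs u).cmp (hs u') a0 a0).2
    simp only [sub_self, abs_zero, zpow_zero, hy, mul_one] at k1
    have hΛ := W.Λ1
    have k0 := abs_nonneg (u - u')
    have := LC ((hs u).lch a0) ((hs u').lch a0) h1 (hf u) (hf u') le_rfl k1
      (by rw [hy, hy]; linarith only [k0, hΛ, mul_nonneg_of_nonpos_of_nonpos (Mathlib.Tactic.Linarith.sub_nonpos_of_le hΛ) (Mathlib.Tactic.Linarith.sub_nonpos_of_le k0)]) n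
    simp only [sub_self, zpow_zero, id] at this ⊢
    linarith only [this]
  have hb : ∀ y, |y - f y| ≤ W.c := fun y => by
    simpa [hy] using ((hs y).lch a0).bound' h1 (hf y) le_rfl
  obtain ⟨y, -, hy'⟩ := intermediate_value_Icc (a := x - W.c) (b := x + W.c)
    (by linarith only [W.c0]) (hc.mono (subset_univ _))
    (show x ∈ Icc (f (x - W.c)) (f (x + W.c)) from
      ⟨by linarith only [hb, (abs_le.1 (hb (x - W.c))).1], by linarith only [hb, (abs_le.1 (hb (x + W.c))).2]⟩)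
  exact ⟨s y, H y, hs y, hy' ▸ hf y⟩

end Lw

/-- The itinerary of a word placed at `0` in a sea of ones. -/
def itin (P : List ℕ) (i : ℤ) : ℕ := if 0 ≤ i then P.getD i.toNat 1 else 1

lemma itin_neg (P : List ℕ) {i : ℤ} (h : i < 0) : itin P i = 1 := if_neg (by omega)

lemma itin_ge (P : List ℕ) {i : ℤ} (h : (P.length : ℤ) ≤ i) : itin P i = 1 := by
  unfold itin
  rw [if_pos (by omega), List.getD_eq_default _ _ (by omega)]

lemma itin_reverse (P : List ℕ) (i : ℤ) : itin P.reverse i = itin P (P.length - 1 - i) := by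
  rcases lt_or_ge i 0 with h | h
  · rw [itin_neg _ h, itin_ge _ (by omega)]
  rcases le_or_gt (P.length : ℤ) i with h' | h'
  · rw [itin_ge _ (by simpa using h'), itin_neg _ (by omega)]
  unfold itin
  rw [if_pos h, if_pos (by omega), List.getD_eq_getElem _ _ (by simp; omega),
    List.getD_eq_getElem _ _ (by omega), List.getElem_reverse]
  congr 1; omega

lemma itin_append_left (P Q : List ℕ) {i : ℤ} (h : i < P.length) : itin (P ++ Q) i = itin P i := by
  unfold itin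
  split_ifs with h0
  · exact List.getD_append _ _ _ _ (by omega)
  · rfl

lemma itin_append_right (P Q : List ℕ) {i : ℤ} (h : (P.length : ℤ) ≤ i) :
    itin (P ++ Q) i = itin Q (i - P.length) := by
  unfold itin
  rw [if_pos (by omega), if_pos (by omega), List.getD_append_right _ _ _ _ (by omega)]
  congr 1; omega

lemma itin_mem (P : List ℕ) (i : ℤ) : itin P i = 1 ∨ itin P i ∈ P := by
  unfold itin
  split_ifs with h0
  · rcases lt_or_ge i.toNat P.length with h | h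
    · right; rw [List.getD_eq_getElem _ _ h]; exact List.getElem_mem _
    · left; exact List.getD_eq_default _ _ h
  · left; rfl

lemma itin_replicate (m : ℕ) (i : ℤ) : itin (List.replicate m 1) i = 1 := by
  rcases itin_mem (List.replicate m 1) i with h | h
  · exact h
  · exact List.eq_of_mem_replicate h

lemma itin_single (t : ℕ) (i : ℤ) : itin [t] i = if i = 0 then t else 1 := by
  split_ifs with h
  · subst h; rfl
  rcases lt_or_gt_of_ne h with h | h
  · exact itin_neg _ h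
  · exact itin_ge _ (by simp; omega)

lemma itin_pad (P : List ℕ) (m : ℕ) (i : ℤ) : itin (P ++ List.replicate m 1) i = itin P i := by
  rcases lt_or_ge i P.length with h | h
  · exact itin_append_left _ _ h
  · rw [itin_append_right _ _ h, itin_replicate, itin_ge _ h]

namespace Lw

variable (W : Lw)

/-- Scattering relation of a word. -/
def Sc (P : List ℕ) (x x' : ℝ) : Prop := ∃ s H, W.Ch (itin P) s H ∧ LL H x ∧ RL H x'

variable {W} {P : List ℕ} {s H s' H' : ℤ → ℝ} {x x' y y' : ℝ}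

lemma Ch.rev (h : W.Ch (itin P) s H) : W.Ch (itin P.reverse) (fun j => s (P.length - 1 - j))
    (fun j => H (P.length - 1 - j)) := by
  have := h.refl (P.length - 1)
  rwa [← funext (itin_reverse P)] at this

lemma Sc.rev (h : W.Sc P x x') : W.Sc P.reverse x' x := by
  obtain ⟨s, H, h1, h2, h3⟩ := h
  exact ⟨_, _, h1.rev, h3.refl _, h2.refl _⟩

lemma Ch.exists_RL (h : W.Ch (itin P) s H) : ∃ x', RL H x' := by
  obtain ⟨x, hx⟩ := (h.rev.lch 0).exists_LL fun i hi => itin_neg _ hi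
  refine ⟨x, ?_⟩
  have := hx.refl (P.length - 1)
  simpa using this

lemma exists_sc (P : List ℕ) (x : ℝ) : ∃ x', W.Sc P x x' := by
  obtain ⟨s, H, h1, h2⟩ := exists_left (W := W) (fun i hi => itin_neg P hi) x
  obtain ⟨x', h3⟩ := h1.exists_RL
  exact ⟨x', s, H, h1, h2, h3⟩

lemma Sc.lt (h : W.Sc P x x') (h' : W.Sc P y y') (hxy : x < y) : x' < y' := by
  obtain ⟨s, H, h1, h2, h3⟩ := h
  obtain ⟨s', H', h1', h2', h3'⟩ := h'
  rcases lt_trichotomy (H 0) (H' 0) with c | c | c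
  · refine ltZ h1'.rev h1.rev (fun i hi => itin_neg _ hi) (h3'.refl _) (h3.refl _)
      (k := P.length - 1) (by simpa using c)
  · obtain ⟨-, rfl⟩ := h1.eq h1' c
    exact absurd (h2.unique h2') hxy.ne
  · exact absurd (ltZ h1 h1' (fun i hi => itin_neg _ hi) h2 h2' c) hxy.not_gt

lemma Sc.unique (h : W.Sc P x x') (h' : W.Sc P x y') : x' = y' := by
  rcases lt_trichotomy x' y' with c | c | c
  · exact absurd (h.rev.lt h'.rev c) (lt_irrefl _)
  · exact c
  · exact absurd (h'.rev.lt h.rev c) (lt_irrefl _)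

variable (W) in
/-- The scattering map of a word. -/
noncomputable def hh (P : List ℕ) : ℝ ≃o ℝ :=
  StrictMono.orderIsoOfSurjective (fun x => (exists_sc (W := W) P x).choose)
    (fun x y h => (exists_sc P x).choose_spec.lt (exists_sc P y).choose_spec h)
    (fun y => by
      obtain ⟨x, hx⟩ := exists_sc (W := W) P.reverse y
      have := hx.rev
      rw [List.reverse_reverse] at this
      exact ⟨x, (exists_sc P x).choose_spec.unique this⟩)

lemma sc_hh (P : List ℕ) (x : ℝ) : W.Sc P x (W.hh P x) := (exists_sc P x).choose_spec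

lemma Sc.eq (h : W.Sc P x x') : W.hh P x = x' := (sc_hh P x).unique h

lemma Ch.rl (h : W.Ch (itin P) s H) (hx : LL H x) : RL H (W.hh P x) := by
  obtain ⟨x', h3⟩ := h.exists_RL
  rw [Sc.eq ⟨s, H, h, hx, h3⟩]; exact h3

lemma hh_rev (P : List ℕ) (x : ℝ) : W.hh P.reverse (W.hh P x) = x := (sc_hh P x).rev.eq

lemma hh_pal (h : P.reverse = P) (x : ℝ) : W.hh P x = x := by
  have h1 := hh_rev (W := W) P x
  rw [h] at h1
  rcases lt_trichotomy (W.hh P x) x with c | c | c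
  · have := (W.hh P).strictMono c; rw [h1] at this; exact absurd c this.not_gt
  · exact c
  · have := (W.hh P).strictMono c; rw [h1] at this; exact absurd c this.not_gt

lemma Ch.boundL (h : W.Ch (itin P) s H) (hx : LL H x) {j : ℤ} (hj : j ≤ 0) :
    |H j - x| ≤ W.c * 8 ^ j := by
  simpa using (h.lch 0).bound (fun i hi => itin_neg _ hi) hx hj

lemma Ch.boundR (h : W.Ch (itin P) s H) (hx : RL H x) {a j : ℤ} (ha : ∀ i, a < i → itin P i = 1)
    (hj : a ≤ j) : |H j - x| ≤ W.c * 8 ^ (a - j) := by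
  have := ((h.refl 0).lch (-a)).bound (fun i hi => ha _ (by omega)) (hx.refl 0) (j := -j)
    (by omega)
  have e : -j - -a = a - j := by ring
  simpa [e] using this

end Lw

end Pool.Agent.Work.MP_05654f_an
end

-- merged part: Pool.Agent.Work.MP_05654f_an.Junc
section
/-!
Uniform continuity of scattering, good points, programs and the junction lemma.
-/

namespace Pool.Agent.Work.MP_05654f_an

open Filter Topology Set

namespace Lw

variable {W : Lw} {P : List ℕ} {s H s' H' : ℤ → ℝ} {x x' y y' : ℝ} {ι ι' : ℤ → ℕ} {a b : ℤ}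

lemma eight_le {j : ℤ} {n : ℕ} (h : j ≤ -(n : ℤ)) : (8 : ℝ) ^ j ≤ (1 / 8) ^ n := by
  rw [← eight_neg]; exact zpow_le_zpow_right₀ (by norm_num) h

lemma eighth_le_half (n : ℕ) : (1 / 8 : ℝ) ^ n ≤ (1 / 2) ^ n :=
  pow_le_pow_left₀ (by norm_num) (by norm_num) n

theorem var (W : Lw) (P : List ℕ) {ε : ℝ} (hε : 0 < ε) : ∃ δ > 0, ∀ s H s' H' x y,
    W.Ch (itin P) s H → W.Ch (itin P) s' H' → LL H x → LL H' y → |x - y| ≤ δ →
    ∀ i, |H i - H' i| ≤ ε := by
  have hc := W.c0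
  obtain ⟨m, hm⟩ := exists_pow_lt (C := 4 * W.c) (half_pos hε) (θ := 1 / 8) (by norm_num)
    (by norm_num)
  have hm := hm m le_rfl
  obtain ⟨n, hn⟩ := exists_pow_lt (C := 2 ^ (P.length + m) * (2 * W.c)) (half_pos (half_pos hε))
    (θ := 1 / 4) (by norm_num) (by norm_num)
  have hn := hn n le_rfl
  set A : ℝ := 2 ^ (P.length + m) * 2 ^ n with hA
  have hA1 : 1 ≤ A := one_le_mul_of_one_le_of_one_le (one_le_pow₀ (by norm_num))
    (one_le_pow₀ (by norm_num))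
  refine ⟨ε / 4 / A, by positivity, fun s H s' H' x y h h' hx hy hxy => ?_⟩
  set E := ε / 4 / A + 2 * W.c * (1 / 8) ^ n with hE
  have hE0 : 0 ≤ E := by positivity
  have hAE : A * E ≤ ε / 2 := by
    have e1 : A * (ε / 4 / A) = ε / 4 := by field_simp
    have e2 : (2 : ℝ) ^ n * (1 / 8) ^ n = (1 / 4) ^ n := by rw [← mul_pow]; norm_num
    have e3 : A * (2 * W.c * (1 / 8) ^ n) = 2 ^ (P.length + m) * (2 * W.c) * (1 / 4) ^ n := by
      rw [← e2, hA]; ring
    rw [hE, mul_add, e1, e3]; linarith only [hn]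
  have k1 : ∀ i ≤ -(n : ℤ), |H i - H' i| ≤ E := by
    intro i hi
    have a1 := h.boundL hx (j := i) (by omega)
    have a2 := h'.boundL hy (j := i) (by omega)
    have a3 := mul_le_mul_of_nonneg_left (eight_le hi) hc
    rw [abs_le] at *
    constructor <;> linarith only [hxy, a1, a2, a3, a1.1, a1.2, a2.1, a2.2, hxy.1, hxy.2]
  have k2 : ∀ i ≤ (P.length : ℤ) + m, |H i - H' i| ≤ ε / 2 := by
    intro i hi
    rcases le_total i (-(n : ℤ)) with h1 | h1
    · exact (k1 i h1).trans (by linarith only [hAE, hA1, hE0, mul_nonneg_of_nonpos_of_nonpos (Mathlib.Tactic.Linarith.sub_nonpos_of_le hA1) (Mathlib.Tactic.Linarith.sub_nonpos_of_le hE0)])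
    · have a1 := (h.cmp h' (-(n : ℤ)) i).1
      have a2 : (2 : ℝ) ^ |i - -(n : ℤ)| ≤ A := by
        rw [hA, ← pow_add, ← zpow_natCast]
        refine two_zpow_le ?_
        rw [abs_of_nonneg (by omega)]; push_cast; omega
      exact a1.trans ((mul_le_mul a2 (k1 _ le_rfl) (abs_nonneg _) (by linarith only [hA1])).trans hAE)
  intro i
  rcases le_total i ((P.length : ℤ) + m) with h1 | h1
  · exact (k2 i h1).trans (by linarith only [hε])
  · have g : ∀ i, (P.length : ℤ) < i → itin P i = 1 := fun i hi => itin_ge _ hi.le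
    have b1 := h.boundR (h.rl hx) g (j := i) (by omega)
    have b2 := h'.boundR (h'.rl hy) g (j := i) (by omega)
    have b3 := h.boundR (h.rl hx) g (j := P.length + m) (by omega)
    have b4 := h'.boundR (h'.rl hy) g (j := P.length + m) (by omega)
    have b5 := mul_le_mul_of_nonneg_left (eight_le (j := P.length - i) (n := m) (by omega)) hc
    have b6 := mul_le_mul_of_nonneg_left
      (eight_le (j := P.length - (P.length + m)) (n := m) (by omega)) hc
    have b7 := k2 _ le_rfl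
    rw [abs_le] at *
    constructor <;> linarith only [hm, b1, b2, b3, b4, b5, b6, b7, b1.1, b1.2, b2.1, b2.2, b3.1, b3.2, b4.1, b4.2, b7.1, b7.2]

variable (W) in
/-- The chain of the word `P` with left limit `x` stays in the admissible range. -/
def Good (P : List ℕ) (x : ℝ) : Prop :=
  ∃ s H ρ, W.Ch (itin P) s H ∧ LL H x ∧ ρ < 8 * W.R ∧ ∀ i, |H i| ≤ ρ

lemma Good.bd (g : W.Good P x) (h : W.Ch (itin P) s H) (hx : LL H x) (i : ℤ) : |H i| ≤ 8 * W.R := by
  obtain ⟨s', H', ρ, h', hx', h1, h2⟩ := g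
  obtain ⟨-, rfl⟩ := uniqL h h' (fun i hi => itin_neg _ hi) hx hx'
  exact (h2 i).trans h1.le

lemma Good.rev (g : W.Good P x) : W.Good P.reverse (W.hh P x) := by
  obtain ⟨s, H, ρ, h, hx, h1, h2⟩ := g
  exact ⟨_, _, ρ, h.rev, (h.rl hx).refl _, h1, fun i => h2 _⟩

lemma isOpen_good (W : Lw) (P : List ℕ) : IsOpen {x | W.Good P x} := by
  rw [Metric.isOpen_iff]
  rintro x ⟨s, H, ρ, h, hx, h1, h2⟩
  obtain ⟨δ, hδ, hv⟩ := W.var P (half_pos (sub_pos.2 h1))
  refine ⟨δ, hδ, fun y hy => ?_⟩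
  obtain ⟨s', H', h', hy'⟩ := exists_left (W := W) (fun i hi => itin_neg P hi) y
  refine ⟨s', H', ρ + (8 * W.R - ρ) / 2, h', hy', by linarith only [h1], fun i => ?_⟩
  have a1 := hv s' H' s H y x h' h hy' hx (le_of_lt hy) i
  have a2 := h2 i
  rw [abs_le] at *
  constructor <;> linarith only [a1, a2, a1.1, a1.2, a2.1, a2.2]

lemma good_single (t : ℕ) (hy : |y| ≤ 7 * W.R) : W.Good [t] y := by
  obtain ⟨s, H, h, hx⟩ := exists_left (W := W) (fun i hi => itin_neg [t] hi) y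
  have hc := W.c0
  have hR := W.cR
  have hR0 := W.R0
  refine ⟨s, H, 7 * W.R + W.c, h, hx, by linarith only [hR, hR0], fun i => ?_⟩
  have key : |H i - y| ≤ W.c := by
    rcases le_total i 0 with hi | hi
    · have p2 : (8 : ℝ) ^ i ≤ 1 := zpow_le_one_of_nonpos₀ (by norm_num) hi
      exact (h.boundL hx hi).trans (by linarith only [hc, p2, mul_nonneg_of_nonpos_of_nonpos (Mathlib.Tactic.Linarith.sub_nonpos_of_le hc) (Mathlib.Tactic.Linarith.sub_nonpos_of_le p2)])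
    · have p2 : (8 : ℝ) ^ (0 - i) ≤ 1 := zpow_le_one_of_nonpos₀ (by norm_num) (by omega)
      have := h.boundR (h.rl hx) (a := 0) (fun i hi => itin_ge _ (by simp; omega)) hi
      rw [hh_pal rfl] at this
      exact this.trans (by linarith only [hc, p2, mul_nonneg_of_nonpos_of_nonpos (Mathlib.Tactic.Linarith.sub_nonpos_of_le hc) (Mathlib.Tactic.Linarith.sub_nonpos_of_le p2)])
  rw [abs_le] at *
  constructor <;> linarith only [hy, key, key.1, key.2, hy.1, hy.2]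

variable (W) in
/-- A chain on a finite segment. -/
structure Seg (ι : ℤ → ℕ) (s H : ℤ → ℝ) (a b : ℤ) : Prop where
  vx : ∀ i, a < i → i < b → W.Vx (ι i) s H i
  ed : ∀ i, a ≤ i → i < b → Edge W.q s H i
  ba : |s a| ≤ W.B
  bb : |s b| ≤ W.B

lemma Seg.bd (h : W.Seg ι s H a b) {i : ℤ} (h1 : a ≤ i) (h2 : i ≤ b) : |s i| ≤ W.B := by
  rcases eq_or_lt_of_le h1 with c | c
  · rw [← c]; exact h.ba
  rcases eq_or_lt_of_le h2 with d | d
  · rw [d]; exact h.bb
  exact (h.vx i c d).bd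

lemma Seg.sub (h : W.Seg ι s H a b) {a' b' : ℤ} (h1 : a ≤ a') (h2 : a' ≤ b') (h3 : b' ≤ b)
    (e : ∀ i, a' < i → i < b' → ι i = ι' i) : W.Seg ι' s H a' b' :=
  ⟨fun i c d => by rw [← e i c d]; exact h.vx i (by omega) (by omega),
    fun i c d => h.ed i (by omega) (by omega), h.bd h1 (by omega), h.bd (by omega) h3⟩

lemma Seg.shift {c : ℤ} (h : W.Seg ι s H (a + c) (b + c)) :
    W.Seg (fun j => ι (j + c)) (fun j => s (j + c)) (fun j => H (j + c)) a b :=
  ⟨fun i c d => (h.vx _ (by omega) (by omega)).shift,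
    fun i c d => edge_shift (h.ed _ (by omega) (by omega)), h.ba, h.bb⟩

lemma Ch.seg (h : W.Ch ι s H) (a b : ℤ) : W.Seg ι s H a b :=
  ⟨fun i _ _ => (h i).1, fun i _ _ => (h i).2, (h a).1.bd, (h b).1.bd⟩

lemma Seg.run2 (h : W.Seg ι s H a b) (e : ∀ i, a < i → i < b → ι i = 1) {i j : ℤ} (h1 : a ≤ i)
    (h2 : i ≤ b) (h3 : a ≤ j) (h4 : j ≤ b) : |H j - H i| ≤ 2 * W.c := by
  have hV : ∀ i, a < i → i < b → W.Vx 1 s H i := fun i c d => by
    rw [← e i c d]; exact h.vx i c d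
  rcases le_total i j with c | c
  · exact Lw.run2 hV h.ed h.ba h.bb h1 c h4
  · rw [abs_sub_comm]; exact Lw.run2 hV h.ed h.ba h.bb h3 c h2

theorem junc (W : Lw) (P : List ℕ) {ε : ℝ} (hε : 0 < ε) : ∃ δ > 0, ∃ n0 : ℕ, ∀ n ≥ n0, ∀ s H y,
    W.Seg (itin P) s H (-(2 * (n : ℤ) + 2)) (P.length + 2 * n + 1) → |H (-(n + 1)) - y| ≤ δ →
    |H (P.length + n) - W.hh P y| ≤ ε ∧
      (W.Good P y → ∀ i : ℤ, -(n + 1) ≤ i → i ≤ P.length + n → |H i| ≤ 8 * W.R + ε) := by
  have hc := W.c0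
  have hB := W.B1
  obtain ⟨δ, hδ, hv⟩ := W.var P (half_pos hε)
  obtain ⟨n0, hn⟩ := exists_pow_lt (C := 2 * W.B * 2 ^ P.length + W.c)
    (lt_min (half_pos hδ) (half_pos hε)) (θ := 1 / 2) (by norm_num) (by norm_num)
  refine ⟨δ / 2, half_pos hδ, n0, fun n hn0 s H y h hy => ?_⟩
  have hn := hn n hn0
  rw [lt_min_iff] at hn
  obtain ⟨s0, H0, h0, e0⟩ := W.exists_ch (itin P) 0 (H 0)
  obtain ⟨x0, hx0⟩ := (h0.lch 0).exists_LL fun i hi => itin_neg _ hi
  obtain ⟨s1, H1, h1, hx1⟩ := exists_left (W := W) (fun i hi => itin_neg P hi) y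
  have k1 : ∀ i : ℤ, -(n + 1) ≤ i → i ≤ P.length + n →
      |H i - H0 i| ≤ 2 * W.B * 2 ^ P.length * (1 / 2) ^ n := by
    intro i i1 i2
    have p : ∀ d : ℤ, 2 * (n : ℤ) + 1 ≤ d →
        2 * W.B ≤ 2 ^ d * (0 + 2 * W.B * (2 : ℝ)⁻¹ ^ (2 * n + 1)) := fun d hd =>
      pow_aux le_rfl (by linarith only [hB]) le_rfl (by push_cast; omega)
    have := (cmpI (W := W) (ds := s - s0) (dH := H - H0) (μ := 2) le_rfl (by norm_num)
      (a := -(2 * (n : ℤ) + 2)) (b := P.length + 2 * n + 1) (k := 0) (by omega) (by omega)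
      (fun j c d => (h.ed j c d).de W.lipq (h0 j).2) (fun j c d => (h.vx j c d).dv (h0 j).1)
      (E := 0 + 2 * W.B * (2 : ℝ)⁻¹ ^ (2 * n + 1)) (by simp [e0]; positivity)
      (le_trans ((abs_sub _ _).trans (by linarith only [h, h0, h.ba, (h0 (-(2 * (n : ℤ) + 2))).1.bd]))
        (p _ (by omega)))
      (le_trans ((abs_sub _ _).trans (by linarith only [h, h0, h.bb, (h0 (P.length + 2 * n + 1)).1.bd]))
        (p _ (by omega))) (i := i) (by omega) (by omega)).1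
    refine this.trans ?_
    have a2 : (2 : ℝ) ^ |i - 0| ≤ 2 ^ (P.length + n + 1) := by
      rw [← zpow_natCast]
      refine two_zpow_le ?_
      rw [abs_le]; push_cast; omega
    refine (mul_le_mul_of_nonneg_right a2 (by positivity)).trans_eq ?_
    have e2 : (2 : ℝ) ^ (n + 1) * 2⁻¹ ^ (n + 1) = 1 := by rw [← mul_pow]; norm_num
    have e3 : (2 : ℝ)⁻¹ ^ (2 * n + 1) = 2⁻¹ ^ (n + 1) * (1 / 2) ^ n := by
      rw [one_div, ← pow_add]; congr 1; ring
    rw [e3, add_assoc, pow_add 2 P.length]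
    linear_combination (2 * W.B * 2 ^ P.length * (1 / 2) ^ n) * e2
  have k2 := h0.boundL hx0 (j := -(n + 1)) (by omega)
  have k3 := mul_le_mul_of_nonneg_left
    ((eight_le (j := -(n + 1)) (n := n) (by omega)).trans (eighth_le_half n)) hc
  have k4 := k1 (-(n + 1)) le_rfl (by omega)
  have k5 := hv s0 H0 s1 H1 x0 y h0 h1 hx0 hx1 (by
    rw [abs_le] at *
    constructor <;> linarith only [hy, hn, k2, k3, k4, k2.1, k2.2, k4.1, k4.2, hy.1, hy.2, hn.1])
  constructor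
  · have a1 := k1 (P.length + n) (by omega) le_rfl
    have a2 := k5 (P.length + n)
    have a3 := h1.boundR (h1.rl hx1) (a := P.length) (fun i hi => itin_ge _ hi.le)
      (j := P.length + n) (by omega)
    have a4 := mul_le_mul_of_nonneg_left ((eight_le (j := P.length - (P.length + n)) (n := n)
      (by omega)).trans (eighth_le_half n)) hc
    rw [abs_le] at *
    constructor <;> linarith only [hn, a1, a2, a3, a4, a1.1, a1.2, a2.1, a2.2, a3.1, a3.2, hn.2]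
  · intro g i i1 i2
    have a1 := k1 i i1 i2
    have a2 := k5 i
    have a3 := g.bd h1 hx1 i
    have a4 : 0 ≤ W.c * (1 / 2) ^ n := by positivity
    rw [abs_le] at *
    constructor <;> linarith only [hn, k2, k3, a1, a2, a3, a1.1, a1.2, a2.1, a2.2, a3.1, a3.2, hn.2]

variable (W) in
/-- The map of a program (a list of words). -/
noncomputable def it : List (List ℕ) → ℝ ≃o ℝ
  | [] => 1
  | P :: L => it L * W.hh P

variable (W) in
/-- Good points of a program. -/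
def GoodL : List (List ℕ) → ℝ → Prop
  | [], _ => True
  | P :: L, x => W.Good P x ∧ GoodL L (W.hh P x)

lemma it_cons (P : List ℕ) (L : List (List ℕ)) (x : ℝ) : W.it (P :: L) x = W.it L (W.hh P x) := rfl

lemma it_append (L L' : List (List ℕ)) : W.it (L ++ L') = W.it L' * W.it L := by
  induction L with
  | nil => simp [it]
  | cons P L ih => simp only [List.cons_append, it, ih, mul_assoc]

lemma goodL_append {L L' : List (List ℕ)} (h : W.GoodL L x) (h' : W.GoodL L' (W.it L x)) :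
    W.GoodL (L ++ L') x := by
  induction L generalizing x with
  | nil => exact h'
  | cons P L ih => exact ⟨h.1, ih h.2 h'⟩

/-- The inverse program. -/
def invL (L : List (List ℕ)) : List (List ℕ) := (L.map List.reverse).reverse

lemma invL_cons (P : List ℕ) (L : List (List ℕ)) : invL (P :: L) = invL L ++ [P.reverse] := by
  simp [invL]

lemma it_invL (L : List (List ℕ)) (x : ℝ) : W.it (invL L) (W.it L x) = x := by
  induction L generalizing x with
  | nil => rfl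
  | cons P L ih =>
    rw [invL_cons, it_append, it_cons]
    change W.hh P.reverse (W.it (invL L) (W.it L (W.hh P x))) = x
    rw [ih, hh_rev]

lemma GoodL.inv {L : List (List ℕ)} (h : W.GoodL L x) : W.GoodL (invL L) (W.it L x) := by
  induction L generalizing x with
  | nil => trivial
  | cons P L ih =>
    rw [invL_cons, it_cons]
    refine goodL_append (ih h.2) ⟨?_, trivial⟩
    rw [it_invL]; exact h.1.rev

lemma isOpen_goodL (W : Lw) (L : List (List ℕ)) : IsOpen {x | W.GoodL L x} := by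
  induction L with
  | nil => exact isOpen_univ
  | cons P L ih => exact (W.isOpen_good P).inter (ih.preimage (W.hh P).continuous)

/-- The word of a program with separating runs of length `2 n + 1`. -/
def blk (n : ℕ) (L : List (List ℕ)) : List ℕ :=
  L.flatMap fun P => P ++ List.replicate (2 * n + 1) 1

lemma blk_cons (n : ℕ) (P : List ℕ) (L : List (List ℕ)) :
    blk n (P :: L) = (P ++ List.replicate (2 * n + 1) 1) ++ blk n L := by simp [blk]

lemma blk_append (n : ℕ) (L L' : List (List ℕ)) : blk n (L ++ L') = blk n L ++ blk n L' := by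
  simp [blk]

theorem juncL (W : Lw) (L : List (List ℕ)) {ε : ℝ} (hε : 0 < ε) : ∃ δ > 0, ∃ n0 : ℕ, ∀ n ≥ n0,
    ∀ s H y, W.Seg (itin (blk n L)) s H (-(2 * (n : ℤ) + 2)) (blk n L).length →
    |H (-(n + 1)) - y| ≤ δ → |H ((blk n L).length - (n + 1)) - W.it L y| ≤ ε ∧
      (W.GoodL L y → ∀ i : ℤ, -(n + 1) < i → i ≤ (blk n L).length - (n + 1) →
        |H i| ≤ 8 * W.R + ε) := by
  induction L with
  | nil =>
    refine ⟨ε, hε, 0, fun n _ s H y _ hy => ⟨by simpa [blk, it] using hy, fun _ i i1 i2 => ?_⟩⟩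
    simp [blk] at i2; omega
  | cons P L ih =>
    obtain ⟨δ2, hδ2, n2, h2⟩ := ih
    obtain ⟨δ1, hδ1, n1, h1⟩ := W.junc P (lt_min hε hδ2)
    refine ⟨δ1, hδ1, max n1 n2, fun n hn s H y h hy => ?_⟩
    have el : ((blk n (P :: L)).length : ℤ) = (blk n L).length + (P.length + 2 * n + 1) := by
      rw [blk_cons]; simp; ring
    have el' : ((P ++ List.replicate (2 * n + 1) 1).length : ℤ) = P.length + 2 * n + 1 := by
      simp; ring
    rw [el] at h ⊢
    obtain ⟨a1, a2⟩ := h1 n (le_of_max_le_left hn) s H y (h.sub le_rfl (by omega) (by omega)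
      fun i _ d => by rw [blk_cons, itin_append_left _ _ (by omega), itin_pad]) hy
    have hs := (h.sub (a' := -(2 * (n : ℤ) + 2) + (P.length + 2 * n + 1))
      (ι' := fun i => itin (blk n L) (i - (P.length + 2 * n + 1))) (by omega) (by omega) le_rfl
      fun i c d => by
        rw [blk_cons]
        rcases lt_or_ge i (P.length + 2 * n + 1) with e | e
        · rw [itin_append_left _ _ (by omega), itin_pad, itin_ge _ (by omega),
            itin_neg _ (by omega)]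
        · rw [itin_append_right _ _ (by omega), el']).shift
    simp only [add_sub_cancel_right] at hs
    obtain ⟨b1, b2⟩ := h2 n (le_of_max_le_right hn) _ _ (W.hh P y) hs (by
      have e : -((n : ℤ) + 1) + (P.length + 2 * n + 1) = P.length + n := by ring
      rw [e]; exact a1.trans (min_le_right _ _))
    refine ⟨?_, fun g i i1 i2 => ?_⟩
    · rw [it_cons, add_sub_right_comm]; exact b1
    · rcases le_or_gt i (P.length + n) with e | e
      · exact (a2 g.1 i i1.le e).trans (by linarith only [min_le_left ε δ2])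
      · simpa using b2 g.2 (i - (P.length + 2 * n + 1)) (by omega) (by omega)

end Lw

end Pool.Agent.Work.MP_05654f_an
end

-- merged part: Pool.Agent.Work.MP_05654f_an.Close
section
/-!
The closing lemma: a sign change along a family of cores gives a non-symmetric periodic chain.
-/

namespace Pool.Agent.Work.MP_05654f_an

open Filter Topology Set

namespace Lw

variable (W : Lw)

/-- There is a non-symmetric periodic chain. -/
def Per : Prop := ∃ (p : ℕ) (s H : ℤ → ℝ), 0 < p ∧ Function.Periodic s p ∧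
  Function.Periodic H p ∧
  (∀ i, |s i| ≤ W.B ∧ |H i| ≤ W.B ∧ Edge W.q s H i ∧ OnSp W.κ W.Θ s H i) ∧
  ∀ c : ℤ, ¬∀ i, s (c - i) = s i

/-- Allowed letters. -/
def OkT (t : ℕ) : Prop := t ≤ 5 ∧ t ≠ 3 ∧ t ≠ 5

/-- Allowed programs. -/
def OkL (L : List (List ℕ)) : Prop := ∀ P ∈ L, ∀ t ∈ P, OkT t

variable {W}

lemma per_intro {p a i1 i2 : ℤ} {s H : ℤ → ℝ} (hs : ∀ i, s (i + p) = s i)
    (hH : ∀ i, H (i + p) = H i)
    (hw : ∀ i, a ≤ i → i < a + p →
      |s i| ≤ W.B ∧ |H i| ≤ W.B ∧ Edge W.q s H i ∧ OnSp W.κ W.Θ s H i)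
    {A A' : ℝ → Prop} (h1 : A (s i1)) (h1' : ∀ i, a ≤ i → i < a + p → A (s i) → i = i1)
    (h2 : A' (s i2)) (h2' : ∀ i, a ≤ i → i < a + p → A' (s i) → i = i2) (h3 : i1 < i2)
    (h4 : 2 * (i2 - i1) < p) : W.Per := by
  have hp : 0 < p := by omega
  have red : ∀ i : ℤ, ∃ r m : ℤ, a ≤ r ∧ r < a + p ∧ i = r + m * p := fun i =>
    ⟨a + (i - a) % p, (i - a) / p, by have := Int.emod_nonneg (i - a) hp.ne'; omega,
      by have := Int.emod_lt_of_pos (i - a) hp; omega,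
      by have := Int.emod_add_ediv_mul (i - a) p; omega⟩
  have ps : ∀ m : ℤ, (fun j => s (j + m * p)) = s := fun m =>
    funext (Function.Periodic.int_mul (f := s) hs m)
  have pH : ∀ m : ℤ, (fun j => H (j + m * p)) = H := fun m =>
    funext (Function.Periodic.int_mul (f := H) hH m)
  refine ⟨p.toNat, s, H, by omega, ?_, ?_, fun i => ?_, fun c hc => ?_⟩
  · rw [Int.toNat_of_nonneg hp.le]; exact hs
  · rw [Int.toNat_of_nonneg hp.le]; exact hH
  · obtain ⟨r, m, r1, r2, rfl⟩ := red i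
    obtain ⟨b1, b2, b3, b4⟩ := hw r r1 r2
    have e1 := congrFun (ps m) r
    have e2 := congrFun (pH m) r
    refine ⟨by rwa [e1], by rwa [e2], ?_, ?_⟩
    · have e3 := congrFun (ps m) (r + 1)
      have e4 := congrFun (pH m) (r + 1)
      unfold Edge at *
      rw [add_right_comm, e1, e2, e3, e4]; exact b3
    · unfold OnSp at *
      rw [← dl_shift, ps, pH, e1, e2]; exact b4
  · obtain ⟨r, m, r1, r2, e⟩ := red (c - i1)
    obtain ⟨r', m', r1', r2', e'⟩ := red (c - i2)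
    have a1 := h1' r r1 r2 (by rw [← congrFun (ps m) r, ← e, hc]; exact h1)
    have a2 := h2' r' r1' r2' (by rw [← congrFun (ps m') r', ← e', hc]; exact h2)
    have a3 : 2 * (i2 - i1) = (m - m') * p := by rw [sub_mul]; omega
    rcases le_or_gt (m - m') 0 with d | d <;> nlinarith only [h3, e, e', a1, a2, d, h4]

lemma Vx.adm {t : ℕ} {s H : ℤ → ℝ} {i : ℤ} (h : W.Vx t s H i) (ht : t ≤ 5)
    (hH : |H i| ≤ 12 * W.R) : OnSp W.κ W.Θ s H i ∧ W.Mk t (s i) := by
  have := W.adm t ht _ _ hH (W.dl_le s H i)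
  unfold Vx at h
  rwa [← h] at this

lemma DL.neg {ds dH : ℤ → ℝ} {b : ℤ} (h : W.DL ds dH b) : W.DL (-ds) (-dH) b := by
  refine ⟨fun i hi => ⟨fun m => ?_, fun m => ?_⟩, fun i hi => by simpa using h.2 i hi⟩
  · have := (h.1 i hi).1 m
    simp only [Pi.neg_apply, abs_neg, neg_sub_neg]
    rwa [abs_sub_comm]
  · simpa using (h.1 i hi).2 m

variable (W) in
/-- The equations of a core and of its two neighbours. -/
structure Core (k a b : ℤ) (tl tr : ℕ) (qw : ℝ × ℝ × ℝ → ℝ) (V : ℤ → ℝ → ℝ → ℝ) (Y : ℝ → ℝ)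
    (s H : ℤ → ℝ) : Prop where
  vx : ∀ i, a ≤ i → i ≤ b → s i = V i (H i) (dl W.Θ s H i)
  an : H k = Y (dl W.Θ s H k)
  ed : ∀ i, a ≤ i → i < b → Edge qw s H i
  vl : W.Vx tl s H (a - 1)
  vr : W.Vx tr s H (b + 1)
  el : Edge W.q s H (a - 1)
  er : Edge W.q s H b

variable (W) in
/-- A one parameter family of cores. -/
structure Fam where
  k : ℤ
  a : ℤ
  b : ℤ
  K : ℝ
  ηw : ℝ
  eY : ℝ
  tl : ℕ
  tr : ℕ
  qw : ℝ × ℝ × ℝ → ℝ
  V : ℝ → ℤ → ℝ → ℝ → ℝ
  Y : ℝ → ℝ → ℝ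
  u1 : ℝ
  u2 : ℝ
  hak : a ≤ k
  hkb : k ≤ b
  hK : W.Λ ≤ K
  ηw0 : 0 ≤ ηw
  eY0 : 0 ≤ eY
  sηw : ηw * K ≤ 1 / 32
  seY : eY * W.l * W.Λ * K ≤ 1 / 32
  htl : OkT tl
  htr : OkT tr
  hu : u1 ≤ u2
  lawc : ∀ u ∈ Icc u1 u2, ∀ i, a ≤ i → i ≤ b → Law W.δ0 K W.e W.B (V u i)
  lawY : ∀ u ∈ Icc u1 u2, ∀ δ δ', |δ| ≤ W.δ0 → |δ'| ≤ W.δ0 → |Y u δ - Y u δ'| ≤ eY * |δ - δ'|
  lipw : Lip3 ηw qw
  lipq : Lip3 W.η qw
  antiw : Anti qw
  cont : ∀ u0 ∈ Icc u1 u2, ∀ ε > 0, ∀ᶠ u in 𝓝[Icc u1 u2] u0, ∀ δ, |δ| ≤ W.δ0 →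
    (∀ i H, a ≤ i → i ≤ b → |V u0 i H δ - V u i H δ| ≤ ε) ∧ |Y u0 δ - Y u δ| ≤ ε
  bd : ∀ u ∈ Icc u1 u2, ∀ s H, W.Core k a b tl tr qw (V u) (Y u) s H →
    ∀ i, a ≤ i → i ≤ b → |H i| ≤ 6 * W.R
  adm : ∀ u ∈ Ioo u1 u2, ∀ s H, W.Core k a b tl tr qw (V u) (Y u) s H →
    ∀ i, a ≤ i → i ≤ b → OnSp W.κ W.Θ s H i ∧ ¬W.Mk 3 (s i) ∧ ¬W.Mk 5 (s i) ∧
      (i < b → Edge W.q s H i)

namespace Fam

variable (F : W.Fam)

/-- Laws of the core completed by an outer itinerary. -/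
noncomputable def VV (ι : ℤ → ℕ) (u : ℝ) (i : ℤ) : ℝ → ℝ → ℝ :=
  if F.a ≤ i ∧ i ≤ F.b then F.V u i else W.LV (ι i)

open Classical in
/-- Edge functions. -/
noncomputable def QQ (C : ℤ → Prop) (i : ℤ) : ℝ × ℝ × ℝ → ℝ := if C i then F.qw else W.q

/-- The outer itinerary of the open chain. -/
def ι0 (i : ℤ) : ℕ := if i = F.a - 1 then F.tl else if i = F.b + 1 then F.tr else 1

/-- Solutions of the open chain. -/
def Sol0 (u : ℝ) (s H : ℤ → ℝ) : Prop :=
  W.Sol F.k (F.VV F.ι0 u) (F.Y u) (F.QQ fun i => F.a ≤ i ∧ i < F.b) id s H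

/-- Limits of the open chain. -/
def Lim (u x x' : ℝ) : Prop := ∃ s H, F.Sol0 u s H ∧ LL H x ∧ RL H x'

variable {F} {ι : ℤ → ℕ} {C : ℤ → Prop} {cp : ℤ → ℤ} {u : ℝ} {s H : ℤ → ℝ}

lemma QQ_congr {C' : ℤ → Prop} {i j : ℤ} (h : C i ↔ C' j) : F.QQ C i = F.QQ C' j := by
  unfold QQ
  by_cases hc : C i
  · rw [if_pos hc, if_pos (h.1 hc)]
  · rw [if_neg hc, if_neg (mt h.2 hc)]

lemma ok (hu : u ∈ Icc F.u1 F.u2) (hC : ∀ i, F.a ≤ i → i < F.b → C i)
    (hcp : ∀ i, cp i = i ∨ (¬(F.a ≤ i ∧ i ≤ F.b) ∧ F.a ≤ cp i ∧ cp i ≤ F.b ∧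
      |cp i - F.k| ≤ |i - F.k|)) :
    W.Ok F.k F.a F.b F.K F.ηw F.eY (F.VV ι u) (F.Y u) (F.QQ C) cp := by
  refine ⟨F.hak, F.hkb, F.hK, F.ηw0, F.eY0, F.sηw, F.seY, fun i h1 h2 => ?_, fun i h => ?_,
    F.lawY u hu, fun i => ?_, fun i => ?_, fun i h1 h2 => ?_, hcp⟩
  · rw [VV, if_pos ⟨h1, h2⟩]; exact F.lawc u hu i h1 h2
  · rw [VV, if_neg h]; exact W.law _
  · unfold QQ; split_ifs; exacts [F.lipq, W.lipq]
  · unfold QQ; split_ifs; exacts [F.antiw, W.anti]
  · rw [QQ, if_pos (hC i h1 h2)]; exact F.lipw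

lemma ok0 (hu : u ∈ Icc F.u1 F.u2) : W.Ok F.k F.a F.b F.K F.ηw F.eY (F.VV F.ι0 u) (F.Y u)
    (F.QQ fun i => F.a ≤ i ∧ i < F.b) id := ok hu (fun _ a b => ⟨a, b⟩) fun _ => Or.inl rfl

lemma cont_sol {s H : ℝ → ℤ → ℝ}
    (hok : ∀ u ∈ Icc F.u1 F.u2, W.Ok F.k F.a F.b F.K F.ηw F.eY (F.VV ι u) (F.Y u) (F.QQ C) cp)
    (hs : ∀ u ∈ Icc F.u1 F.u2, W.Sol F.k (F.VV ι u) (F.Y u) (F.QQ C) cp (s u) (H u)) (i : ℤ) :
    ContinuousOn (fun u => H u i) (Icc F.u1 F.u2) ∧
      ContinuousOn (fun u => s u i) (Icc F.u1 F.u2) := by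
  have hΛ := W.Λ1
  have hK := F.hK
  set A : ℝ := 16 * W.Λ * F.K * 2 ^ |i - F.k| with hA
  have hA0 : 0 < A := by have : 0 < F.K := by linarith only [hΛ, hK]
                         positivity
  have key : ∀ u0 ∈ Icc F.u1 F.u2, ∀ ε > 0, ∀ᶠ u in 𝓝[Icc F.u1 F.u2] u0,
      |H u i - H u0 i| < ε ∧ |s u i - s u0 i| < ε := by
    intro u0 h0 ε hε
    have hε' : 0 < ε / 2 / A := by positivity
    filter_upwards [F.cont u0 h0 _ hε', self_mem_nhdsWithin] with u h1 hu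
    have := (hok u0 h0).stab (hs u0 h0) ((hs u hu).bd (hok u hu)) ((hs u hu).ebd (hok u hu))
      (ε := ε / 2 / A) (fun j => by
        rw [(hs u hu).vx j]
        refine le_trans ?_ (le_mul_of_one_le_right hε'.le (one_le_two_zpow _))
        unfold VV
        split_ifs with hc
        · exact (h1 _ (W.dl_le _ _ _)).1 _ _ hc.1 hc.2
        · simpa using hε'.le)
      (by rw [(hs u hu).an]; exact (h1 _ (W.dl_le _ _ _)).2)
      (fun j => by rw [(hs u hu).ed j, sub_self, abs_zero]; positivity) i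
    have e : A * (ε / 2 / A) = ε / 2 := by field_simp
    have p : 0 ≤ F.K * (ε / 2 / A) * 2 ^ |i - F.k| := by
      have : 0 < F.K := by linarith only [hΛ, hK]
      positivity
    rw [abs_sub_comm (H u i), abs_sub_comm (s u i)]
    constructor <;> linarith only [hε, this, e, hΛ, p, this.1, this.2, mul_nonneg_of_nonpos_of_nonpos (Mathlib.Tactic.Linarith.sub_nonpos_of_le hΛ) (Mathlib.Tactic.Linarith.sub_nonpos_of_le p)]
  constructor <;> intro u0 h0 <;> rw [ContinuousWithinAt, Metric.tendsto_nhds] <;> intro ε hε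
  · exact (key u0 h0 ε hε).mono fun u h => h.1
  · exact (key u0 h0 ε hε).mono fun u h => h.2

lemma vx_of (h : W.Sol F.k (F.VV ι u) (F.Y u) (F.QQ C) cp s H) {i : ℤ} (h1 : cp i = i)
    (h2 : ¬(F.a ≤ i ∧ i ≤ F.b)) : W.Vx (ι i) s H i := by
  have := h.vx i
  rwa [h1, VV, if_neg h2] at this

lemma ed_of (h : W.Sol F.k (F.VV ι u) (F.Y u) (F.QQ C) cp s H) {i : ℤ} (h1 : ¬C i) :
    Edge W.q s H i := by
  have := h.ed i
  rwa [QQ, if_neg h1] at this

lemma core_of (h : W.Sol F.k (F.VV ι u) (F.Y u) (F.QQ C) cp s H)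
    (h1 : ∀ i, F.a - 1 ≤ i → i ≤ F.b + 1 → cp i = i) (h2 : ∀ i, F.a ≤ i → i < F.b → C i)
    (h3 : ¬C (F.a - 1)) (h4 : ¬C F.b) (h5 : ι (F.a - 1) = F.tl) (h6 : ι (F.b + 1) = F.tr) :
    W.Core F.k F.a F.b F.tl F.tr F.qw (F.V u) (F.Y u) s H := by
  have := F.hak
  have := F.hkb
  refine ⟨fun i a b => ?_, h.an, fun i a b => ?_, ?_, ?_, ed_of h h3, ed_of h h4⟩
  · have := h.vx i
    rwa [h1 i (by omega) (by omega), VV, if_pos ⟨a, b⟩] at this
  · have := h.ed i
    rwa [QQ, if_pos (h2 i a b)] at this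
  · rw [← h5]; exact vx_of h (h1 _ le_rfl (by omega)) (by omega)
  · rw [← h6]; exact vx_of h (h1 _ (by omega) le_rfl) (by omega)

lemma Sol0.core (h : F.Sol0 u s H) : W.Core F.k F.a F.b F.tl F.tr F.qw (F.V u) (F.Y u) s H := by
  have := F.hak
  have := F.hkb
  exact core_of h (fun _ _ _ => rfl) (fun _ a b => ⟨a, b⟩) (by omega) (by omega) (if_pos rfl)
    (by rw [ι0, if_neg (by omega), if_pos rfl])

lemma Sol0.lch (hu : u ∈ Icc F.u1 F.u2) (h : F.Sol0 u s H) : W.LCh F.ι0 s H F.a :=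
  ⟨fun i hi => ⟨vx_of h rfl (by omega), ed_of h (by omega)⟩, Sol.bd (ok0 hu) h _⟩

lemma Sol0.rch (hu : u ∈ Icc F.u1 F.u2) (h : F.Sol0 u s H) (c : ℤ) :
    W.LCh (fun j => F.ι0 (c - j)) (fun j => s (c - j)) (fun j => H (c - j)) (c - F.b) :=
  ⟨fun i hi => ⟨(vx_of h rfl (by omega)).refl, edge_refl W.anti (ed_of h (by omega))⟩,
    Sol.bd (ok0 hu) h _⟩

lemma ι0_left {i : ℤ} (h : i < F.a - 1) : F.ι0 i = 1 := by
  have := F.hak
  have := F.hkb
  rw [ι0, if_neg (by omega), if_neg (by omega)]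

lemma ι0_right {i : ℤ} (h : F.b + 1 < i) : F.ι0 i = 1 := by
  have := F.hak
  have := F.hkb
  rw [ι0, if_neg (by omega), if_neg (by omega)]

lemma exists_lim (hu : u ∈ Icc F.u1 F.u2) : ∃ x x', F.Lim u x x' := by
  obtain ⟨s, H, h⟩ := (ok0 hu).exists
  obtain ⟨x, hx⟩ := ((Sol0.lch hu h).mono (b' := F.a - 1) (by omega)).exists_LL
    fun i hi => ι0_left hi
  obtain ⟨x', hx'⟩ := ((Sol0.rch hu h 0).mono (b' := 0 - F.b - 1) (by omega)).exists_LL
    fun i hi => ι0_right (by omega)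
  exact ⟨x, x', s, H, h, hx, by simpa using hx'.refl 0⟩

lemma Sol0.bdL (hu : u ∈ Icc F.u1 F.u2) (h : F.Sol0 u s H) {x : ℝ} (hx : LL H x) {j : ℤ}
    (hj : j ≤ F.a - 1) : |H j - x| ≤ W.c * 8 ^ (j - (F.a - 1)) :=
  ((h.lch hu).mono (by omega)).bound (fun _ hi => ι0_left hi) hx hj

lemma Sol0.bdR (hu : u ∈ Icc F.u1 F.u2) (h : F.Sol0 u s H) {x : ℝ} (hx : RL H x) {j : ℤ}
    (hj : F.b + 1 ≤ j) : |H j - x| ≤ W.c * 8 ^ (F.b + 1 - j) := by
  have := ((h.rch hu 0).mono (b' := 0 - F.b - 1) (by omega)).bound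
    (fun i hi => ι0_right (by omega)) (hx.refl 0) (j := -j) (by omega)
  have e : -j - (0 - F.b - 1) = F.b + 1 - j := by ring
  rw [e] at this
  simpa using this

lemma Sol0.nearL (hu : u ∈ Icc F.u1 F.u2) (h : F.Sol0 u s H) {x : ℝ} (hx : LL H x) :
    |H F.a - x| ≤ 2 * W.c := by
  have a1 := h.bdL hu hx le_rfl
  have a2 := Sol.ebd (ok0 hu) h (F.a - 1)
  have a3 := W.ηB
  simp only [sub_self, zpow_zero, sub_add_cancel] at a1 a2
  linarith only [a3, a1, a2, abs_sub_le (H F.a) (H (F.a - 1)) x]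

lemma Sol0.nearR (hu : u ∈ Icc F.u1 F.u2) (h : F.Sol0 u s H) {x : ℝ} (hx : RL H x) :
    |H F.b - x| ≤ 2 * W.c := by
  have a1 := h.bdR hu hx le_rfl
  have a2 := Sol.ebd (ok0 hu) h F.b
  have a3 := W.ηB
  simp only [sub_self, zpow_zero] at a1
  rw [abs_sub_comm] at a2
  linarith only [a2, a3, a1, abs_sub_le (H F.b) (H (F.b + 1)) x]

end Fam

lemma blk_ok {L : List (List ℕ)} (h : OkL L) (n : ℕ) (j : ℤ) : OkT (itin (blk n L) j) := by
  have h1 : OkT 1 := by simp [OkT]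
  rcases itin_mem (blk n L) j with e | e
  · rwa [e]
  · generalize itin (blk n L) j = t at e ⊢
    simp only [blk, List.mem_flatMap, List.mem_append] at e
    obtain ⟨P, hP, e | e⟩ := e
    · exact h P hP _ e
    · rwa [List.eq_of_mem_replicate e]

lemma itin_two (A : List ℕ) (n t t' : ℕ) (j : ℤ) : itin (A ++ blk n [[t], [t']]) j =
    if j < A.length then itin A j else if j = A.length then t
    else if j = A.length + 2 * n + 2 then t' else 1 := by
  have el : (([t] ++ List.replicate (2 * n + 1) 1).length : ℤ) = 2 * n + 2 := by simp; ring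
  by_cases h1 : j < A.length
  · rw [if_pos h1, itin_append_left _ _ h1]
  rw [if_neg h1, itin_append_right _ _ (by omega), blk_cons]
  by_cases h2 : j - A.length < 2 * n + 2
  · rw [itin_append_left _ _ (by omega), itin_pad, itin_single]
    split_ifs <;> first | rfl | omega
  · rw [itin_append_right _ _ (by omega), el, blk_cons, blk, List.flatMap_nil, List.append_nil,
      itin_pad, itin_single]
    split_ifs <;> first | rfl | omega

lemma length_two (A : List ℕ) (n t t' : ℕ) :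
    ((A ++ blk n [[t], [t']]).length : ℤ) = A.length + 4 * n + 4 := by
  simp [blk]; ring

end Lw

end Pool.Agent.Work.MP_05654f_an
end

-- merged part: Pool.Agent.Work.MP_05654f_an.HiDef
section
/-!
The constants of the high letters (the window), and the homoclinic alternative.
-/

namespace Pool.Agent.Work.MP_05654f_an

open Filter Topology Set

namespace Lw

variable (W : Lw)

/-- There is a non-symmetric homoclinic chain with two vertices. -/
def Hom : Prop := ∃ s H : ℤ → ℝ, (∀ i, |s i| ≤ W.B ∧ |H i| ≤ W.B) ∧ s 0 = 0 ∧ H 0 = 0 ∧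
  s 3 = 0 ∧ H 3 = 0 ∧ Edge W.q s H 0 ∧ Edge W.q s H 1 ∧ Edge W.q s H 2 ∧
  OnSp W.κ W.Θ s H 1 ∧ OnSp W.κ W.Θ s H 2 ∧ s 1 ≠ s 2

/-- Constants of the window; `ρ` is the size of its vertices. -/
structure Hi where
  D : SpD W.κ
  ν : ℝ
  K : ℝ
  eK : ℝ
  ηw : ℝ
  ε : ℝ
  θ0 : ℝ
  γ0 : ℝ
  ρ : ℝ
  a : ℕ
  qw : ℝ × ℝ × ℝ → ℝ
  γ : ℕ → ℝ
  κ0 : 0 < W.κ
  κδ : W.κ * W.δ0 ≤ 1
  ν0 : 0 < ν
  ν1 : ν ≤ 1 / 2
  hK : W.Λ ≤ K
  eK0 : 0 ≤ eK
  lawK : ∀ b, Law W.δ0 K (lam W.κ ^ b * eK) (3 * lam W.κ ^ b / lam W.κ) (D.V ν b)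
  law0 : ∀ b, Law W.δ0 W.Λ (lam W.κ ^ b * W.e) (3 * lam W.κ ^ b / lam W.κ) (D.V (1 / 2) b)
  hρ : ρ = 3 * lam W.κ ^ a / lam W.κ
  ηw0 : 0 ≤ ηw
  lipw : Lip3 ηw qw
  lipq : Lip3 W.η qw
  antiw : Anti qw
  agree : ∀ x y m, |x| ≤ 2 * ρ → |y| ≤ 2 * ρ → |m| ≤ 2 * ρ → qw (x, y, m) = W.q (x, y, m)
  seK : lam W.κ ^ a * eK ≤ W.e
  seV : W.κ * ρ ≤ W.e
  seY : W.κ * ρ * W.l * W.Λ * K ≤ 1 / 32
  sηw : 5000 * (ηw * K) ≤ ε * lam W.κ ^ 3
  ρε : ρ ≤ ε * lam W.κ ^ 2
  ρR : 4 * ρ ≤ W.R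
  notMk : ∀ s, |s| ≤ ρ → ¬W.Mk 3 s ∧ ¬W.Mk 5 s
  phase0 : ∀ x y m, |x| ≤ 2 * ρ → |y| ≤ 2 * ρ → |m| ≤ 2 * ρ → |W.Θ (x, y, m)| ≤ γ0 / 8
  phase : ∀ t, t = 0 ∨ t = 2 ∨ t = 4 → ∀ x m H δ, |x| ≤ 2 * ρ → |m| ≤ W.R → |H| ≤ W.R →
    |δ| ≤ W.δ0 → |W.Θ (x, W.LV t H δ, m) - γ t| ≤ γ0 / 8
  γ00 : 0 < γ0
  γ4 : γ0 ≤ γ 4
  γ2 : γ 4 + γ0 ≤ γ 2
  γ0' : γ 2 + γ0 ≤ γ 0
  m1 : Real.exp (-(W.κ * γ0 / 2)) ≤ θ0
  m2 : lam W.κ * Real.exp (2 * (W.κ * W.δ0)) ≤ θ0
  m3 : θ0 * D.F0 + 3 * ε ≤ (1 - ν) * D.F0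
  m4 : 6 * ε ≤ lam W.κ * D.F0
  m5 : 4608 * (W.η * W.Λ) ≤ lam W.κ * D.F0
  m6 : 3 * (W.Λ * ε) ≤ 1

end Lw

end Pool.Agent.Work.MP_05654f_an
end
end
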