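import Pool.Agent.Work.MP_05654f_an.Flow

-- merged part: Pool.Agent.Work.MP_05654f_an.LinA
section
/-!
Small compactly supported perturbations of the linear bifocus: growth estimates and the
Grobman-Hartman coordinate.
-/

namespace Pool.Agent.Work.MP_05654f_an

open Filter Topology Set

/-- A small reversible perturbation supported in the unit ball. -/
structure Pert (ε : ℝ) (g : E → E) (Dg : E → E →L[ℝ] E) : Prop where
  deriv : ∀ z, HasFDerivAt g (Dg z) z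
  lip : ∀ a b, ‖Dg a - Dg b‖ ≤ ε * ‖a - b‖
  g0 : g 0 = 0
  D0 : Dg 0 = 0
  supp : ∀ z, 1 ≤ ‖z‖ → g z = 0
  rev : ∀ z, g (sw z) = -sw (g z)

/-- An integrable weight along orbits. -/
noncomputable def kk (z : E) : ℝ := ‖z‖ / (1 + ‖z‖ ^ 2)

/-- The conclusions of the first step of the linearisation. -/
structure LinAData (l : ℂ) (C ε : ℝ) (g : E → E) (φ : ℝ → E → E) (X : E → ℂ)
    (Kf : E → ℝ → ℝ) : Prop where
  lipF : ∃ K : NNReal, LipschitzWith K fun z => Alin l z + g z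
  c1 : ContDiff ℝ 1 fun z => Alin l z + g z
  gk : ∀ a b, ‖g a - g b‖ ≤ 5 * ε * (kk a + kk b) * ‖a - b‖
  kk_lip : ∀ a b, |kk a - kk b| ≤ ‖a - b‖
  Kder : ∀ z t, HasDerivAt (Kf z) (kk (φ t z)) t
  Kbd : ∀ z s t, |Kf z t - Kf z s| ≤ C
  growth : ∀ a b t, ‖φ t a - φ t b‖ ≤ C * Real.exp (l.re * |t|) * ‖a - b‖
  lim : ∀ z, Tendsto (fun t : ℝ => Complex.exp (l * t) * (φ t z).1) atBot (𝓝 (X z))
  equiv : ∀ z t, X (φ t z) = Complex.exp (-(l * t)) * X z
  close : ∀ a b, ‖X a - X b - (a - b).1‖ ≤ C * ε * ‖a - b‖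
  X0 : X 0 = 0

lemma linA_kk_nonneg (z : E) : 0 ≤ kk z := by
  unfold kk; positivity

lemma linA_kk_lip (a b : E) : |kk a - kk b| ≤ ‖a - b‖ := by
  have h1 : |‖a‖ - ‖b‖| ≤ ‖a - b‖ := abs_norm_sub_norm_le a b
  refine le_trans ?_ h1
  unfold kk
  generalize ‖a‖ = r
  generalize ‖b‖ = s
  have hr : 0 < 1 + r ^ 2 := by positivity
  have hs : 0 < 1 + s ^ 2 := by positivity
  have e : r / (1 + r ^ 2) - s / (1 + s ^ 2) =
      (r - s) * ((1 - r * s) / ((1 + r ^ 2) * (1 + s ^ 2))) := by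
    field_simp; ring
  rw [e, abs_mul]
  refine mul_le_of_le_one_right (abs_nonneg _) ?_
  rw [abs_div, abs_of_pos (mul_pos hr hs), div_le_one (mul_pos hr hs), abs_le]
  constructor <;> linarith only [sq_nonneg (r - s), sq_nonneg (r + s), sq_nonneg (r * s), sq_nonneg r, sq_nonneg s, sq_nonneg (r * s), sq_nonneg (r - s), sq_nonneg (r + s)]

lemma linA_kk_cont : Continuous kk := by
  unfold kk
  exact continuous_norm.div (by fun_prop) fun z => by positivity

section PertLemmas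

variable {ε : ℝ} {g : E → E} {Dg : E → E →L[ℝ] E}

lemma linA_Dg_le (h : Pert ε g Dg) (z : E) : ‖Dg z‖ ≤ ε * ‖z‖ := by
  simpa [h.D0] using h.lip z 0

lemma linA_Dg_zero (h : Pert ε g Dg) {z : E} (hz : 1 < ‖z‖) : Dg z = 0 := by
  have h1 : g =ᶠ[𝓝 z] fun _ => 0 := by
    have : ∀ᶠ w in 𝓝 z, 1 < ‖w‖ := continuous_norm.continuousAt.eventually (lt_mem_nhds hz)
    exact this.mono fun w hw => h.supp w hw.le
  have h2 : HasFDerivAt g (0 : E →L[ℝ] E) z :=
    (hasFDerivAt_const (0 : E) z).congr_of_eventuallyEq h1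
  exact (h.deriv z).unique h2

lemma linA_Dg_bd (hε : 0 ≤ ε) (h : Pert ε g Dg) (z : E) : ‖Dg z‖ ≤ ε := by
  rcases le_or_gt ‖z‖ 1 with hz | hz
  · exact (linA_Dg_le h z).trans (mul_le_of_le_one_right hε hz)
  · simpa [linA_Dg_zero h hz] using hε

lemma linA_g_ball (hε : 0 ≤ ε) (h : Pert ε g Dg) {r : ℝ} {a b : E} (ha : ‖a‖ ≤ r)
    (hb : ‖b‖ ≤ r) : ‖g a - g b‖ ≤ ε * r * ‖a - b‖ := by
  refine (convex_closedBall (0 : E) r).norm_image_sub_le_of_norm_hasFDerivWithin_le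
    (f' := Dg) (fun x _ => (h.deriv x).hasFDerivWithinAt) (fun x hx => ?_)
    (by simpa using hb) (by simpa using ha)
  exact (linA_Dg_le h x).trans (mul_le_mul_of_nonneg_left (by simpa using hx) hε)

lemma linA_g_lip (hε : 0 ≤ ε) (h : Pert ε g Dg) (a b : E) : ‖g a - g b‖ ≤ ε * ‖a - b‖ :=
  convex_univ.norm_image_sub_le_of_norm_hasFDerivWithin_le
    (f' := Dg) (fun x _ => (h.deriv x).hasFDerivWithinAt) (fun x _ => linA_Dg_bd hε h x)
    (mem_univ _) (mem_univ _)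

lemma linA_g_le (hε : 0 ≤ ε) (h : Pert ε g Dg) (z : E) : ‖g z‖ ≤ ε * ‖z‖ := by
  simpa [h.g0] using linA_g_lip hε h z 0

lemma linA_g_bd (hε : 0 ≤ ε) (h : Pert ε g Dg) (z : E) : ‖g z‖ ≤ ε := by
  rcases le_or_gt ‖z‖ 1 with hz | hz
  · exact (linA_g_le hε h z).trans (mul_le_of_le_one_right hε hz)
  · simpa [h.supp z hz.le] using hε

lemma linA_le_kk {a : E} (ha : ‖a‖ ≤ 2) : ‖a‖ ≤ 5 * kk a := by
  unfold kk
  have h0 := norm_nonneg a
  have h1 : 0 < 1 + ‖a‖ ^ 2 := by positivity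
  rw [← mul_div_assoc, le_div_iff₀ h1]
  linarith only [h0, ha, mul_nonneg h0 (sub_nonneg.2 ha), mul_nonneg h0 h0, mul_nonneg_of_nonpos_of_nonpos (Mathlib.Tactic.Linarith.sub_nonpos_of_le (mul_self_nonneg ‖a‖)) (Mathlib.Tactic.Linarith.sub_nonpos_of_le ha)]

lemma linA_gk_far (hε : 0 ≤ ε) (h : Pert ε g Dg) {a : E} (b : E) (ha : 2 < ‖a‖) :
    ‖g a - g b‖ ≤ 5 * ε * (kk a + kk b) * ‖a - b‖ := by
  have hka := linA_kk_nonneg a
  have hkb := linA_kk_nonneg b
  rw [h.supp a (by linarith only [ha]), zero_sub, norm_neg]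
  rcases le_or_gt 1 ‖b‖ with hb | hb
  · rw [h.supp b hb, norm_zero]; positivity
  · have h1 : 1 ≤ ‖a - b‖ := by
      have := norm_sub_norm_le a b
      linarith
    have h2 : ‖b‖ ≤ 5 * kk b := linA_le_kk (by linarith)
    calc ‖g b‖ ≤ ε * ‖b‖ := linA_g_le hε h b
      _ ≤ ε * (5 * (kk a + kk b)) := mul_le_mul_of_nonneg_left (by linarith only [hka, h2]) hε
      _ = 5 * ε * (kk a + kk b) * 1 := by ring
      _ ≤ _ := mul_le_mul_of_nonneg_left h1 (by positivity)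

lemma linA_gk (hε : 0 ≤ ε) (h : Pert ε g Dg) (a b : E) :
    ‖g a - g b‖ ≤ 5 * ε * (kk a + kk b) * ‖a - b‖ := by
  have hka := linA_kk_nonneg a
  have hkb := linA_kk_nonneg b
  rcases lt_or_ge 2 ‖a‖ with ha | ha
  · exact linA_gk_far hε h b ha
  rcases lt_or_ge 2 ‖b‖ with hb | hb
  · rw [norm_sub_rev (g a), norm_sub_rev a, add_comm]
    exact linA_gk_far hε h a hb
  have h1 := linA_le_kk ha
  have h2 := linA_le_kk hb
  have h3 := linA_g_ball hε h (r := 5 * (kk a + kk b)) (a := a) (b := b) (by linarith only [hkb, h1])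
    (by linarith only [hka, h2])
  calc _ ≤ _ := h3
    _ = _ := by ring

lemma linA_lipF (l : ℂ) (hε : 0 ≤ ε) (h : Pert ε g Dg) :
    ∃ K : NNReal, LipschitzWith K fun z => Alin l z + g z := by
  have h1 : LipschitzWith ⟨ε, hε⟩ g :=
    LipschitzWith.of_dist_le_mul fun a b => by
      rw [dist_eq_norm, dist_eq_norm]; exact linA_g_lip hε h a b
  exact ⟨_, (Alin l).lipschitz.add h1⟩

lemma linA_c1 (l : ℂ) (hε : 0 ≤ ε) (h : Pert ε g Dg) :
    ContDiff ℝ 1 fun z => Alin l z + g z := by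
  have h1 : LipschitzWith ⟨ε, hε⟩ Dg :=
    LipschitzWith.of_dist_le_mul fun a b => by
      rw [dist_eq_norm, dist_eq_norm]; exact h.lip a b
  have h2 : ContDiff ℝ 1 g := contDiff_one_iff_hasFDerivAt.2 ⟨Dg, h1.continuous, h.deriv⟩
  exact (Alin l).contDiff.add h2

end PertLemmas

lemma linA_mono {f f' : ℝ → ℝ} (hf : ∀ t, HasDerivAt f (f' t) t) (h : ∀ t, 0 ≤ f' t) :
    Monotone f :=
  monotone_of_deriv_nonneg (fun t => (hf t).differentiableAt) fun t => by
    rw [(hf t).deriv]; exact h t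

/-- Gronwall inequality with a variable coefficient, in both time directions. -/
lemma linA_gronwall {N N' B B' : ℝ → ℝ} (hN : ∀ t, HasDerivAt N (N' t) t)
    (hB : ∀ t, HasDerivAt B (B' t) t) (h : ∀ t, |N' t| ≤ B' t * N t) (h0 : 0 ≤ N 0) (t : ℝ) :
    N t ≤ Real.exp |B t - B 0| * N 0 := by
  rcases le_total 0 t with ht | ht
  · have hm : Monotone fun s => -(N s * Real.exp (-B s)) := by
      refine linA_mono (fun s => ((hN s).mul (hB s).neg.exp).neg) fun s => ?_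
      have := (abs_le.1 (h s)).2
      have hp := Real.exp_pos (-B s)
      simp only [Pi.neg_apply]
      linarith only [this, hp, mul_nonneg_of_nonpos_of_nonpos (Mathlib.Tactic.Linarith.sub_nonpos_of_le this) (le_of_lt (Mathlib.Tactic.Linarith.sub_neg_of_lt hp))]
    have h1 : N t * Real.exp (-B t) ≤ N 0 * Real.exp (-B 0) := by
      have := hm ht
      simp only at this
      linarith
    have h2 : N t = N t * Real.exp (-B t) * Real.exp (B t) := by
      rw [mul_assoc, ← Real.exp_add]; simp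
    calc N t = _ := h2
      _ ≤ N 0 * Real.exp (-B 0) * Real.exp (B t) :=
        mul_le_mul_of_nonneg_right h1 (Real.exp_pos _).le
      _ = Real.exp (B t - B 0) * N 0 := by
        rw [mul_assoc, ← Real.exp_add, mul_comm]; congr 2; ring
      _ ≤ _ := mul_le_mul_of_nonneg_right (Real.exp_le_exp.2 (le_abs_self _)) h0
  · have hm : Monotone fun s => N s * Real.exp (B s) := by
      refine linA_mono (fun s => (hN s).mul (hB s).exp) fun s => ?_
      have := (abs_le.1 (h s)).1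
      have hp := Real.exp_pos (B s)
      linarith only [this, hp, mul_nonneg_of_nonpos_of_nonpos (Mathlib.Tactic.Linarith.sub_nonpos_of_le this) (le_of_lt (Mathlib.Tactic.Linarith.sub_neg_of_lt hp))]
    have h1 : N t * Real.exp (B t) ≤ N 0 * Real.exp (B 0) := hm ht
    have h2 : N t = N t * Real.exp (B t) * Real.exp (-B t) := by
      rw [mul_assoc, ← Real.exp_add]; simp
    calc N t = _ := h2
      _ ≤ N 0 * Real.exp (B 0) * Real.exp (-B t) :=
        mul_le_mul_of_nonneg_right h1 (Real.exp_pos _).le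
      _ = Real.exp (-(B t - B 0)) * N 0 := by
        rw [mul_assoc, ← Real.exp_add, mul_comm]; congr 2; ring
      _ ≤ _ := mul_le_mul_of_nonneg_right (Real.exp_le_exp.2 (neg_le_abs _)) h0

lemma linA_inner (x c w : ℂ) : inner ℝ x (c * x + w) = c.re * ‖x‖ ^ 2 + inner ℝ x w := by
  rw [inner_add_right]
  congr 1
  rw [Complex.inner, Complex.sq_norm, Complex.normSq_apply]
  simp
  ring

/-- The regularised modulus of a solution of `x' = c x + w`. -/
lemma linA_sqrt {x : ℝ → ℂ} {c w : ℂ} {t d : ℝ} (hd : 0 < d)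
    (hx : HasDerivAt x (c * x t + w) t) :
    ∃ A W : ℝ, HasDerivAt (fun s => √(‖x s‖ ^ 2 + d ^ 2)) (c.re * A + W) t ∧
      ‖x t‖ - d ≤ A ∧ |W| ≤ ‖w‖ := by
  have hp : 0 < ‖x t‖ ^ 2 + d ^ 2 := by positivity
  have h1 := (hx.norm_sq.add_const (d ^ 2)).sqrt hp.ne'
  set S := √(‖x t‖ ^ 2 + d ^ 2) with hS
  have hS0 : 0 < S := Real.sqrt_pos.2 hp
  have hS2 : S ^ 2 = ‖x t‖ ^ 2 + d ^ 2 := Real.sq_sqrt hp.le
  have hn := norm_nonneg (x t)
  have hxS : ‖x t‖ ≤ S := by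
    rw [hS]; exact Real.le_sqrt_of_sq_le (by linarith only [sq_nonneg d])
  have hdS : d ≤ S := by
    rw [hS]; exact Real.le_sqrt_of_sq_le (by linarith only [sq_nonneg ‖x t‖])
  refine ⟨‖x t‖ ^ 2 / S, inner ℝ (x t) w / S, ?_, ?_, ?_⟩
  · convert h1 using 1
    rw [linA_inner]
    field_simp
  · rw [le_div_iff₀ hS0]
    clear * - x t d S hS2 hxS hS0 hdS hd
    linarith only [hS2, hxS, hS0, hdS, hd, mul_nonneg (sub_nonneg.2 hxS) hS0.le, mul_nonneg (sub_nonneg.2 hdS) hd.le]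
  · rw [abs_div, abs_of_pos hS0, div_le_iff₀ hS0]
    calc _ ≤ ‖x t‖ * ‖w‖ := abs_real_inner_le_norm _ _
      _ ≤ S * ‖w‖ := mul_le_mul_of_nonneg_right hxS (norm_nonneg _)
      _ = _ := mul_comm _ _

lemma linA_psi_sq (z : E) (d : ℝ) :
    (√(‖z.2‖ ^ 2 + d ^ 2) - √(‖z.1‖ ^ 2 + d ^ 2)) ^ 2 ≤ ‖z‖ ^ 2 := by
  have h1 : ‖z.1‖ ≤ ‖z‖ := norm_fst_le z
  have h2 : ‖z.2‖ ≤ ‖z‖ := norm_snd_le z
  have key : ∀ r : ℝ, 0 ≤ r → r ≤ ‖z‖ →
      |d| ≤ √(r ^ 2 + d ^ 2) ∧ √(r ^ 2 + d ^ 2) ≤ |d| + ‖z‖ := by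
    intro r h0 hr
    constructor
    · exact Real.le_sqrt_of_sq_le (by linarith only [sq_abs d, sq_nonneg r])
    · refine Real.sqrt_le_iff.2 ⟨by positivity, ?_⟩
      linarith only [h0, hr, sq_abs d, abs_nonneg d, mul_nonneg (abs_nonneg d) (norm_nonneg z), mul_nonneg_of_nonpos_of_nonpos (Mathlib.Tactic.Linarith.sub_nonpos_of_le h0) (Mathlib.Tactic.Linarith.sub_nonpos_of_le hr), mul_nonneg_of_nonpos_of_nonpos (Mathlib.Tactic.Linarith.sub_nonpos_of_le hr) (Mathlib.Tactic.Linarith.sub_nonpos_of_le hr)]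
  obtain ⟨a1, a2⟩ := key _ (norm_nonneg z.1) h1
  obtain ⟨b1, b2⟩ := key _ (norm_nonneg z.2) h2
  exact sq_le_sq' (by linarith only [a2, b1]) (by linarith only [a1, b2])

section FlowLemmas

variable {l : ℂ} {ε : ℝ} {g : E → E} {Dg : E → E →L[ℝ] E} {φ : ℝ → E → E}

lemma linA_d1 (hφ : IsFlow (fun z => Alin l z + g z) φ) (z : E) (t : ℝ) :
    HasDerivAt (fun s => (φ s z).1) (-l * (φ t z).1 + (g (φ t z)).1) t := by
  have := (ContinuousLinearMap.fst ℝ ℂ ℂ).hasFDerivAt.comp_hasDerivAt t (hφ.deriv z t)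
  simpa [Function.comp_def] using this

lemma linA_d2 (hφ : IsFlow (fun z => Alin l z + g z) φ) (z : E) (t : ℝ) :
    HasDerivAt (fun s => (φ s z).2) (l * (φ t z).2 + (g (φ t z)).2) t := by
  have := (ContinuousLinearMap.snd ℝ ℂ ℂ).hasFDerivAt.comp_hasDerivAt t (hφ.deriv z t)
  simpa [Function.comp_def] using this

lemma linA_orbit_cont (hφ : IsFlow (fun z => Alin l z + g z) φ) (z : E) :
    Continuous fun s => φ s z :=
  continuous_iff_continuousAt.2 fun t => (hφ.deriv z t).continuousAt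

/-- The integral of the weight along an orbit. -/
noncomputable def linA_K (φ : ℝ → E → E) (z : E) (t : ℝ) : ℝ := ∫ s in (0 : ℝ)..t, kk (φ s z)

lemma linA_Kder (hφ : IsFlow (fun z => Alin l z + g z) φ) (z : E) (t : ℝ) :
    HasDerivAt (linA_K φ z) (kk (φ t z)) t :=
  ((linA_kk_cont.comp (linA_orbit_cont hφ z)).integral_hasStrictDerivAt 0 t).hasDerivAt

lemma linA_Kbd_le (hl : 0 < l.re) (hε : 0 ≤ ε) (hε' : ε ≤ l.re / 4) (h : Pert ε g Dg)
    (hφ : IsFlow (fun z => Alin l z + g z) φ) (z : E) {s t : ℝ} (hst : s ≤ t) :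
    linA_K φ z t - linA_K φ z s ≤ 10 / l.re := by
  set α := l.re with hα
  have hden : 0 < 2 * α * (t - s) + 1 := by
    have : 0 ≤ 2 * α * (t - s) := mul_nonneg (by positivity) (sub_nonneg.2 hst)
    linarith only [this]
  set d : ℝ := 1 / (2 * α * (t - s) + 1) with hd
  have hd0 : 0 < d := by positivity
  have hd1 : 2 * α * d * (t - s) ≤ 1 := by
    rw [hd, show 2 * α * (1 / (2 * α * (t - s) + 1)) * (t - s) =
      2 * α * (t - s) / (2 * α * (t - s) + 1) by ring, div_le_one hden]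
    linarith only []
  let Ψ : ℝ → ℝ := fun u => √(‖(φ u z).2‖ ^ 2 + d ^ 2) - √(‖(φ u z).1‖ ^ 2 + d ^ 2)
  have hΨ : ∀ u, ∃ D, HasDerivAt Ψ D u ∧ α / 2 * ‖φ u z‖ - 2 * α * d ≤ D := by
    intro u
    obtain ⟨A1, W1, e1, a1, w1⟩ := linA_sqrt hd0 (linA_d1 hφ z u)
    obtain ⟨A2, W2, e2, a2, w2⟩ := linA_sqrt hd0 (linA_d2 hφ z u)
    refine ⟨_, e2.sub e1, ?_⟩
    have g1 : ‖(g (φ u z)).1‖ ≤ ε * ‖φ u z‖ := (norm_fst_le _).trans (linA_g_le hε h _)
    have g2 : ‖(g (φ u z)).2‖ ≤ ε * ‖φ u z‖ := (norm_snd_le _).trans (linA_g_le hε h _)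
    have hn : ‖φ u z‖ ≤ ‖(φ u z).1‖ + ‖(φ u z).2‖ := by
      rw [Prod.norm_def]
      exact max_le (le_add_of_nonneg_right (norm_nonneg _)) (le_add_of_nonneg_left (norm_nonneg _))
    have b1 := (abs_le.1 w1).2
    have b2 := (abs_le.1 w2).1
    have hεn : ε * ‖φ u z‖ ≤ α / 4 * ‖φ u z‖ := mul_le_mul_of_nonneg_right hε' (norm_nonneg _)
    have hA : α * (‖φ u z‖ - 2 * d) ≤ α * (A1 + A2) :=
      mul_le_mul_of_nonneg_left (by linarith only [a1, a2, hn]) hl.le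
    simp only [Complex.neg_re, ← hα]
    clear * - α φ u z d A2 W2 A1 W1 g ε t s g1 g2 b1 b2 hεn hA
    linarith only [g1, g2, b1, b2, hεn, hA]
  choose D hD hD' using hΨ
  have hm : Monotone fun u => Real.arctan (Ψ u) - α / 2 * linA_K φ z u + 2 * α * d * u := by
    clear * - Ψ α φ z d D hD l g hφ hD' hl t s hst
    refine linA_mono (fun u => (((hD u).arctan.sub ((linA_Kder hφ z u).const_mul (α / 2))).add
      ((hasDerivAt_id u).const_mul (2 * α * d)))) fun u => ?_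
    have hq : Ψ u ^ 2 ≤ ‖φ u z‖ ^ 2 := linA_psi_sq (φ u z) d
    have hp : 0 < 1 + Ψ u ^ 2 := by positivity
    have hn := norm_nonneg (φ u z)
    have h1 : kk (φ u z) ≤ 1 / (1 + Ψ u ^ 2) * ‖φ u z‖ := by
      unfold kk
      rw [one_div, inv_mul_eq_div]
      exact div_le_div_of_nonneg_left hn hp (by linarith only [hq])
    have h2 : 1 / (1 + Ψ u ^ 2) ≤ 1 := by
      rw [div_le_one hp]; linarith only [sq_nonneg (Ψ u), sq_nonneg (Ψ u)]
    have h3 : 0 < 1 / (1 + Ψ u ^ 2) := by positivity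
    have h4 := mul_le_mul_of_nonneg_left (hD' u) h3.le
    have h5 : 1 / (1 + Ψ u ^ 2) * (2 * α * d) ≤ 2 * α * d :=
      mul_le_of_le_one_left (by positivity) h2
    have h6 := mul_le_mul_of_nonneg_left h1 (show 0 ≤ α / 2 by positivity)
    linarith only [h4, h5, h6]
  have h1 := hm hst
  simp only at h1
  have h2 := Real.arctan_lt_pi_div_two (Ψ t)
  have h3 := Real.neg_pi_div_two_lt_arctan (Ψ s)
  have h4 := Real.pi_le_four
  rw [le_div_iff₀ hl]
  clear * - φ z t s α d Ψ hd1 h1 h2 h3 h4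
  linarith only [hd1, h1, h2, h3, h4]

lemma linA_Kbd (hl : 0 < l.re) (hε : 0 ≤ ε) (hε' : ε ≤ l.re / 4) (h : Pert ε g Dg)
    (hφ : IsFlow (fun z => Alin l z + g z) φ) (z : E) (s t : ℝ) :
    |linA_K φ z t - linA_K φ z s| ≤ 10 / l.re := by
  have hm : Monotone (linA_K φ z) := linA_mono (linA_Kder hφ z) fun t => linA_kk_nonneg _
  rcases le_total s t with hst | hst
  · rw [abs_of_nonneg (sub_nonneg.2 (hm hst))]
    exact linA_Kbd_le hl hε hε' h hφ z hst
  · rw [abs_sub_comm, abs_of_nonneg (sub_nonneg.2 (hm hst))]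
    exact linA_Kbd_le hl hε hε' h hφ z hst

lemma linA_sq_le (v : E) : ‖v‖ ^ 2 ≤ ‖v.1‖ ^ 2 + ‖v.2‖ ^ 2 := by
  rw [Prod.norm_def]
  rcases le_total ‖v.1‖ ‖v.2‖ with h | h
  · rw [max_eq_right h]; linarith only [sq_nonneg ‖v.1‖, sq_nonneg ‖v.1‖]
  · rw [max_eq_left h]; linarith only [sq_nonneg ‖v.2‖, sq_nonneg ‖v.2‖]

lemma linA_growth (hl : 0 < l.re) (hε : 0 ≤ ε) (hε' : ε ≤ l.re / 4) (h : Pert ε g Dg)
    (hφ : IsFlow (fun z => Alin l z + g z) φ) (a b : E) (t : ℝ) :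
    ‖φ t a - φ t b‖ ≤ 2 * Real.exp 50 * Real.exp (l.re * |t|) * ‖a - b‖ := by
  set α := l.re with hα
  let v : ℝ → E := fun u => φ u a - φ u b
  let G : ℝ → E := fun u => g (φ u a) - g (φ u b)
  have d1 : ∀ u, HasDerivAt (fun s => (v s).1) (-l * (v u).1 + (G u).1) u := fun u => by
    refine ((linA_d1 hφ a u).sub (linA_d1 hφ b u)).congr_deriv ?_
    simp only [v, G, Prod.fst_sub]; ring
  have d2 : ∀ u, HasDerivAt (fun s => (v s).2) (l * (v u).2 + (G u).2) u := fun u => by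
    refine ((linA_d2 hφ a u).sub (linA_d2 hφ b u)).congr_deriv ?_
    simp only [v, G, Prod.snd_sub]; ring
  have hB : ∀ u, HasDerivAt (fun s => 2 * α * s + 20 * ε * (linA_K φ a s + linA_K φ b s))
      (2 * α * 1 + 20 * ε * (kk (φ u a) + kk (φ u b))) u := fun u =>
    ((hasDerivAt_id u).const_mul (2 * α)).add
      (((linA_Kder hφ a u).add (linA_Kder hφ b u)).const_mul (20 * ε))
  have key := linA_gronwall (N := fun s => ‖(v s).1‖ ^ 2 + ‖(v s).2‖ ^ 2)
    (fun u => (d1 u).norm_sq.add (d2 u).norm_sq) hB (fun u => ?_) (by positivity) t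
  · have k1 := abs_le.1 (linA_Kbd hl hε hε' h hφ a 0 t)
    have k2 := abs_le.1 (linA_Kbd hl hε hε' h hφ b 0 t)
    have hεα : 20 * ε * (2 * (10 / α)) ≤ 100 := by
      have : ε / α ≤ 1 / 4 := by rw [div_le_iff₀ hl]; linarith only [hε']
      calc _ = 400 * (ε / α) := by ring
        _ ≤ _ := by linarith only [this]
    have hb : |2 * α * t + 20 * ε * (linA_K φ a t + linA_K φ b t) -
        (2 * α * 0 + 20 * ε * (linA_K φ a 0 + linA_K φ b 0))| ≤ 2 * (50 + α * |t|) := by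
      clear * - α t ε φ a b hl hε l k1 k2 hεα
      have e : 2 * α * t + 20 * ε * (linA_K φ a t + linA_K φ b t) -
          (2 * α * 0 + 20 * ε * (linA_K φ a 0 + linA_K φ b 0)) = 2 * α * t +
          20 * ε * ((linA_K φ a t - linA_K φ a 0) + (linA_K φ b t - linA_K φ b 0)) := by ring
      rw [e]
      refine (abs_add_le _ _).trans ?_
      rw [abs_mul, abs_mul (20 * ε), abs_of_nonneg (show 0 ≤ 2 * α by positivity),
        abs_of_nonneg (show 0 ≤ 20 * ε by positivity)]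
      have : |linA_K φ a t - linA_K φ a 0 + (linA_K φ b t - linA_K φ b 0)| ≤ 2 * (10 / α) :=
        abs_le.2 ⟨by linarith only [k1, k2, k1.1, k2.1], by linarith only [k1, k2, k1.2, k2.2]⟩
      have := mul_le_mul_of_nonneg_left this (show 0 ≤ 20 * ε by positivity)
      linarith only [hεα, this]
    have hv0 : v 0 = a - b := by simp [v, hφ.zero]
    have n0 : ‖(v 0).1‖ ^ 2 + ‖(v 0).2‖ ^ 2 ≤ 4 * ‖a - b‖ ^ 2 := by
      clear * - v a b hv0
      rw [hv0]
      have h1 := pow_le_pow_left₀ (norm_nonneg _) (norm_fst_le (a - b)) 2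
      have h2 := pow_le_pow_left₀ (norm_nonneg _) (norm_snd_le (a - b)) 2
      linarith only [h1, h2, sq_nonneg ‖a - b‖, sq_nonneg ‖a - b‖]
    refine le_of_sq_le_sq ?_ (by positivity)
    calc ‖v t‖ ^ 2 ≤ _ := linA_sq_le _
      _ ≤ _ := key
      _ ≤ Real.exp (2 * (50 + α * |t|)) * (4 * ‖a - b‖ ^ 2) :=
        mul_le_mul (Real.exp_le_exp.2 hb) n0 (by positivity) (Real.exp_pos _).le
      _ = _ := by
        rw [show 2 * (50 + α * |t|) = 50 + 50 + (α * |t| + α * |t|) by ring, Real.exp_add,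
          Real.exp_add, Real.exp_add]
        ring
  · rw [linA_inner, linA_inner]
    have hG : ‖G u‖ ≤ 5 * ε * (kk (φ u a) + kk (φ u b)) * ‖v u‖ := linA_gk hε h _ _
    set k := 5 * ε * (kk (φ u a) + kk (φ u b)) with hk
    have hk0 : 0 ≤ k := by
      have := linA_kk_nonneg (φ u a)
      have := linA_kk_nonneg (φ u b)
      positivity
    have i1 : |inner ℝ (v u).1 (G u).1| ≤ k * ‖v u‖ ^ 2 :=
      calc _ ≤ ‖(v u).1‖ * ‖(G u).1‖ := abs_real_inner_le_norm _ _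
        _ ≤ ‖v u‖ * (k * ‖v u‖) := mul_le_mul (norm_fst_le _) ((norm_fst_le _).trans hG)
          (norm_nonneg _) (norm_nonneg _)
        _ = _ := by ring
    have i2 : |inner ℝ (v u).2 (G u).2| ≤ k * ‖v u‖ ^ 2 :=
      calc _ ≤ ‖(v u).2‖ * ‖(G u).2‖ := abs_real_inner_le_norm _ _
        _ ≤ ‖v u‖ * (k * ‖v u‖) := mul_le_mul (norm_snd_le _) ((norm_snd_le _).trans hG)
          (norm_nonneg _) (norm_nonneg _)
        _ = _ := by ring
    have i3 := mul_le_mul_of_nonneg_left (linA_sq_le (v u)) hk0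
    have j1 := abs_le.1 i1
    have j2 := abs_le.1 i2
    have p1 : 0 ≤ α * ‖(v u).1‖ ^ 2 := by positivity
    have p2 : 0 ≤ α * ‖(v u).2‖ ^ 2 := by positivity
    have e : (2 * α * 1 + 20 * ε * (kk (φ u a) + kk (φ u b))) * (‖(v u).1‖ ^ 2 + ‖(v u).2‖ ^ 2) =
        2 * (α * ‖(v u).1‖ ^ 2) + 2 * (α * ‖(v u).2‖ ^ 2) +
          4 * (k * (‖(v u).1‖ ^ 2 + ‖(v u).2‖ ^ 2)) := by rw [hk]; ring
    simp only [Complex.neg_re, ← hα]
    rw [e, abs_le]
    constructor <;> linarith only [i3, j1, j2, p2, p1, j1.1, j1.2, j2.1, j2.2]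

lemma linA_du (hφ : IsFlow (fun z => Alin l z + g z) φ) (z : E) (t : ℝ) :
    HasDerivAt (fun s : ℝ => Complex.exp (l * s) * (φ s z).1)
      (Complex.exp (l * t) * (g (φ t z)).1) t := by
  have h1 : HasDerivAt (fun s : ℝ => Complex.exp (l * s)) (Complex.exp (l * t) * l) t := by
    have := ((Complex.ofRealCLM.hasDerivAt (x := t)).const_mul l).cexp
    simpa using this
  refine (h1.mul (linA_d1 hφ z t)).congr_deriv ?_
  ring

lemma linA_norm_exp (l : ℂ) (t : ℝ) : ‖Complex.exp (l * t)‖ = Real.exp (l.re * t) := by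
  simp [Complex.norm_exp]

/-- The Grobman-Hartman coordinate. -/
noncomputable def linA_X (l : ℂ) (φ : ℝ → E → E) (z : E) : ℂ :=
  limUnder atBot fun s : ℝ => Complex.exp (l * s) * (φ s z).1

lemma linA_lim (hl : 0 < l.re) (hε : 0 ≤ ε) (h : Pert ε g Dg)
    (hφ : IsFlow (fun z => Alin l z + g z) φ) (z : E) :
    Tendsto (fun t : ℝ => Complex.exp (l * t) * (φ t z).1) atBot (𝓝 (linA_X l φ z)) := by
  refine MeasureTheory.tendsto_limUnder_of_hasDerivAt_of_integrableOn_Iic (a := 0)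
    (fun t _ => linA_du hφ z t) ?_
  have hg : Continuous g := continuous_iff_continuousAt.2 fun w => (h.deriv w).continuousAt
  have hc : Continuous fun t : ℝ => Complex.exp (l * t) * (g (φ t z)).1 :=
    (by fun_prop : Continuous fun t : ℝ => Complex.exp (l * t)).mul
      (hg.comp (linA_orbit_cont hφ z)).fst
  refine MeasureTheory.Integrable.mono' ((integrableOn_exp_mul_Iic hl 0).mul_const ε)
    hc.aestronglyMeasurable (Eventually.of_forall fun t => ?_)
  rw [norm_mul, linA_norm_exp]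
  exact mul_le_mul_of_nonneg_left ((norm_fst_le _).trans (linA_g_bd hε h _)) (Real.exp_pos _).le

lemma linA_equiv (hl : 0 < l.re) (hε : 0 ≤ ε) (h : Pert ε g Dg)
    (hφ : IsFlow (fun z => Alin l z + g z) φ) (z : E) (t : ℝ) :
    linA_X l φ (φ t z) = Complex.exp (-(l * t)) * linA_X l φ z := by
  obtain ⟨K, hK⟩ := linA_lipF l hε h
  refine tendsto_nhds_unique (linA_lim hl hε h hφ (φ t z)) ?_
  have h1 := ((linA_lim hl hε h hφ z).comp (tendsto_atBot_add_const_right atBot t tendsto_id)).const_mul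
    (Complex.exp (-(l * t)))
  refine h1.congr fun s => ?_
  simp only [Function.comp, id]
  rw [hφ.add hK, ← mul_assoc, ← Complex.exp_add]
  congr 2
  push_cast
  ring

lemma linA_close (hl : 0 < l.re) (hε : 0 ≤ ε) (hε' : ε ≤ l.re / 4) (h : Pert ε g Dg)
    (hφ : IsFlow (fun z => Alin l z + g z) φ) (a b : E) :
    ‖linA_X l φ a - linA_X l φ b - (a - b).1‖ ≤
      10 * (10 / l.re) * (2 * Real.exp 50) * ε * ‖a - b‖ := by
  let w : ℝ → ℂ := fun s => Complex.exp (l * s) * (φ s a).1 - Complex.exp (l * s) * (φ s b).1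
  have hw : ∀ s : ℝ, HasDerivAt w (Complex.exp (l * s) * (g (φ s a)).1 -
      Complex.exp (l * s) * (g (φ s b)).1) s := fun s => (linA_du hφ a s).sub (linA_du hφ b s)
  have hw0 : w 0 = (a - b).1 := by simp [w, hφ.zero]
  set c := 5 * ε * (2 * Real.exp 50) * ‖a - b‖ with hc
  have hc0 : 0 ≤ c := by positivity
  have hb : ∀ t ≤ 0, ‖w t - (a - b).1‖ ≤ 10 * (10 / l.re) * (2 * Real.exp 50) * ε * ‖a - b‖ := by
    intro t ht
    have h1 := image_norm_le_of_norm_deriv_right_le_deriv_boundary (a := t) (b := 0)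
      (f := fun s => w s - w t)
      (fun s _ => ((hw s).sub_const (w t)).continuousAt.continuousWithinAt)
      (fun s _ => ((hw s).sub_const (w t)).hasDerivWithinAt)
      (B := fun s => c * (linA_K φ a s + linA_K φ b s - (linA_K φ a t + linA_K φ b t)))
      (by simp)
      (fun s => (((linA_Kder hφ a s).add (linA_Kder hφ b s)).sub_const _).const_mul c)
      (fun s hs => ?_) (x := 0) ⟨ht, le_rfl⟩
    · rw [← hw0, norm_sub_rev]
      refine h1.trans ?_
      have k1 := (abs_le.1 (linA_Kbd hl hε hε' h hφ a t 0)).2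
      have k2 := (abs_le.1 (linA_Kbd hl hε hε' h hφ b t 0)).2
      calc _ ≤ c * (2 * (10 / l.re)) := mul_le_mul_of_nonneg_left (by linarith only [k1, k2]) hc0
        _ = _ := by rw [hc]; ring
    · rw [← mul_sub, norm_mul, linA_norm_exp, ← Prod.fst_sub]
      have hka := linA_kk_nonneg (φ s a)
      have hkb := linA_kk_nonneg (φ s b)
      have g1 := (norm_fst_le _).trans (linA_gk hε h (φ s a) (φ s b))
      have g2 := linA_growth hl hε hε' h hφ a b s
      rw [abs_of_nonpos hs.2.le] at g2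
      have g3 := g1.trans (mul_le_mul_of_nonneg_left g2 (by positivity))
      refine (mul_le_mul_of_nonneg_left g3 (Real.exp_pos _).le).trans (le_of_eq ?_)
      have e : Real.exp (l.re * s) * Real.exp (l.re * -s) = 1 := by
        rw [← Real.exp_add]; simp
      rw [hc]
      linear_combination (5 * ε * (kk (φ s a) + kk (φ s b)) * (2 * Real.exp 50) * ‖a - b‖) * e
  have hlim : Tendsto (fun t => ‖w t - (a - b).1‖) atBot
      (𝓝 ‖linA_X l φ a - linA_X l φ b - (a - b).1‖) :=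
    (((linA_lim hl hε h hφ a).sub (linA_lim hl hε h hφ b)).sub_const _).norm
  exact le_of_tendsto hlim ((eventually_le_atBot 0).mono hb)

lemma linA_X0 (hl : 0 < l.re) (hε : 0 ≤ ε) (h : Pert ε g Dg)
    (hφ : IsFlow (fun z => Alin l z + g z) φ) : linA_X l φ 0 = 0 := by
  obtain ⟨K, hK⟩ := linA_lipF l hε h
  have h0 : ∀ t, φ t 0 = 0 := fun t => by
    have := hφ.unique_Icc hK (x := fun _ => (0 : E)) (a := min 0 t) (b := max 0 t)
      (fun s _ => by
        rw [map_zero, h.g0, add_zero]; exact hasDerivAt_const s (0 : E)) (t₀ := 0) (t := t)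
      ⟨min_le_left _ _, le_max_left _ _⟩ ⟨min_le_right _ _, le_max_right _ _⟩
    simpa using this.symm
  refine tendsto_nhds_unique (linA_lim hl hε h hφ 0) ?_
  simp [h0]

end FlowLemmas

theorem linA (l : ℂ) (hl : 0 < l.re) : ∃ C ε₀ : ℝ, 1 ≤ C ∧ 0 < ε₀ ∧
    ∀ (ε : ℝ) (g : E → E) (Dg : E → E →L[ℝ] E) (φ : ℝ → E → E), 0 ≤ ε → ε ≤ ε₀ →
      Pert ε g Dg → IsFlow (fun z => Alin l z + g z) φ →
      ∃ (X : E → ℂ) (Kf : E → ℝ → ℝ), LinAData l C ε g φ X Kf := by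
  have h1 : 0 < 10 / l.re := by positivity
  have h2 : 0 < 2 * Real.exp 50 := by positivity
  have h3 : 0 < 10 * (10 / l.re) * (2 * Real.exp 50) := by positivity
  refine ⟨1 + 10 / l.re + 2 * Real.exp 50 + 10 * (10 / l.re) * (2 * Real.exp 50), l.re / 4,
    by linarith only [h1, h2, h3], by positivity, fun ε g Dg φ hε hε' h hφ => ⟨linA_X l φ, linA_K φ, ?_⟩⟩
  refine ⟨linA_lipF l hε h, linA_c1 l hε h, linA_gk hε h, linA_kk_lip, linA_Kder hφ,
    fun z s t => (linA_Kbd hl hε hε' h hφ z s t).trans (by linarith only [h2, h3]), fun a b t => ?_,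
    linA_lim hl hε h hφ, linA_equiv hl hε h hφ, fun a b => ?_, linA_X0 hl hε h hφ⟩
  · refine (linA_growth hl hε hε' h hφ a b t).trans ?_
    gcongr
    linarith only [h1, h3]
  · refine (linA_close hl hε hε' h hφ a b).trans ?_
    gcongr
    linarith only [h1, h2]

end Pool.Agent.Work.MP_05654f_an
end

-- merged part: Pool.Agent.Work.MP_05654f_an.LinB1
section
/-!
General tools for the strict differentiability of the linearising map.
-/

namespace Pool.Agent.Work.MP_05654f_an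

open Filter Topology Set

lemma linB_major {f f' : ℝ → ℂ} {B B' : ℝ → ℝ} {s u : ℝ} (hsu : s ≤ u)
    (hf : ∀ t, HasDerivAt f (f' t) t) (hB : ∀ t, HasDerivAt B (B' t) t)
    (hb : ∀ t ∈ Icc s u, ‖f' t‖ ≤ B' t) : ‖f u - f s‖ ≤ B u - B s :=
  image_norm_le_of_norm_deriv_right_le_deriv_boundary (f := fun t => f t - f s) (f' := f')
    (B := fun t => B t - B s) (B' := B')
    (fun t _ => ((hf t).sub_const _).continuousAt.continuousWithinAt)
    (fun t _ => ((hf t).sub_const _).hasDerivWithinAt) (by simp) (fun t => (hB t).sub_const _)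
    (fun t ht => hb t (Ico_subset_Icc_self ht)) (right_mem_Icc.2 hsu)

lemma linB_up {f f' : ℝ → ℂ} {c β s u : ℝ} (hsu : s ≤ u) (hβ : 0 < β) (hc : 0 ≤ c)
    (hf : ∀ t, HasDerivAt f (f' t) t) (hb : ∀ t ∈ Icc s u, ‖f' t‖ ≤ c * Real.exp (β * t)) :
    ‖f u - f s‖ ≤ c / β * Real.exp (β * u) := by
  have h := linB_major (B := fun t => c / β * Real.exp (β * t)) hsu hf (fun t => by
    refine ((((hasDerivAt_id' t).const_mul β).exp).const_mul (c / β)).congr_deriv ?_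
    field_simp) hb
  have : 0 ≤ c / β * Real.exp (β * s) := by positivity
  linarith only [h, this]

lemma linB_down {f f' : ℝ → ℂ} {c β s u : ℝ} (hsu : s ≤ u) (hβ : 0 < β) (hc : 0 ≤ c)
    (hf : ∀ t, HasDerivAt f (f' t) t) (hb : ∀ t ∈ Icc s u, ‖f' t‖ ≤ c * Real.exp (-(β * t))) :
    ‖f u - f s‖ ≤ c / β * Real.exp (-(β * s)) := by
  have h := linB_major (B := fun t => -(c / β) * Real.exp (-(β * t))) hsu hf (fun t => by
    refine ((((hasDerivAt_id' t).const_mul β).fun_neg.exp).const_mul (-(c / β))).congr_deriv ?_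
    field_simp) hb
  have : 0 ≤ c / β * Real.exp (-(β * u)) := by positivity
  linarith only [h, this]

lemma linB_homeo (f : E → E) (hf : ∀ a b, ‖f a - f b - (a - b)‖ ≤ 1 / 2 * ‖a - b‖) :
    ∃ h : E ≃ₜ E, ∀ z, h z = f z := by
  have h1 : ApproximatesLinearOn f ((ContinuousLinearEquiv.refl ℝ E : E ≃L[ℝ] E) : E →L[ℝ] E)
      univ (1 / 2) := fun a _ b _ => by simpa using hf a b
  refine ⟨ApproximatesLinearOn.toHomeomorph f h1 (Or.inr ?_), fun z => rfl⟩
  simp only [ContinuousLinearEquiv.refl_symm, ContinuousLinearEquiv.coe_refl,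
    ContinuousLinearMap.nnnorm_id, inv_one]
  norm_num

lemma linB_inv {h : E ≃ₜ E} (hf : ∀ a b, ‖h a - h b - (a - b)‖ ≤ 1 / 2 * ‖a - b‖) {p : E}
    {L : E →L[ℝ] E} (hL : HasStrictFDerivAt h L p) :
    ∃ L' : E →L[ℝ] E, HasStrictFDerivAt h.symm L' (h p) := by
  have h1 : ‖L - 1‖ ≤ 1 / 2 :=
    (hL.hasFDerivAt.sub (hasFDerivAt_id p)).le_of_lip' (by norm_num)
      (Eventually.of_forall fun x => by
        have := hf x p
        rwa [show h x - h p - (x - p) = h x - x - (h p - p) by abel] at this)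
  have h2 : ‖1 - L‖ < 1 := by rw [norm_sub_rev]; linarith only [h1]
  set U := ContinuousLinearEquiv.unitsEquiv ℝ E (Units.oneSub (1 - L) h2)
  have e : (U : E →L[ℝ] E) = L := by
    refine ContinuousLinearMap.ext fun x => ?_
    simp [U, ContinuousLinearEquiv.unitsEquiv_apply]
  rw [← e] at hL
  exact ⟨_, hL.to_local_left_inverse (Eventually.of_forall fun x => h.symm_apply_apply x)⟩

lemma linB_strict_iff {V W : Type} [NormedAddCommGroup V] [NormedSpace ℝ V]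
    [NormedAddCommGroup W] [NormedSpace ℝ W] {f : V → W} {L : V →L[ℝ] W} {p : V} :
    HasStrictFDerivAt f L p ↔ ∀ η > 0, ∀ᶠ q : V × V in 𝓝 (p, p),
      ‖f q.1 - f q.2 - L (q.1 - q.2)‖ ≤ η * ‖q.1 - q.2‖ := by
  rw [hasStrictFDerivAt_iff_isLittleO, Asymptotics.isLittleO_iff]

/-- Strict differentiability is transported from the fixed point along the dynamics. -/
lemma linB_conj {V : Type} [NormedAddCommGroup V] [NormedSpace ℝ V] [CompleteSpace V]
    {S : E → ℂ} {P : E →L[ℝ] ℂ} (hS : HasStrictFDerivAt S P 0) {f : V → ℂ} {p : V}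
    (c : ℝ → ℂ) (u : ℝ → V → E) (hf : ∀ T z, f z = c T * S (u T z))
    (hu : ∀ T, ∃ L : V →L[ℝ] E, HasStrictFDerivAt (u T) L p)
    (h0 : Tendsto (fun T => u T p) atTop (𝓝 0)) {B : ℝ} (hB0 : 0 < B)
    (hB : ∀ T, 0 ≤ T → ∀ a b, ‖c T‖ * ‖u T a - u T b‖ ≤ B * ‖a - b‖) :
    ∃ L : V →L[ℝ] ℂ, HasStrictFDerivAt f L p := by
  refine strict_of_approx f p fun η hη => ?_
  have h1 := (linB_strict_iff.1 hS (η / 2 / B) (by positivity)).eventually_nhds
  obtain ⟨T, hT, T0⟩ := (((h0.prodMk_nhds h0).eventually h1).and (eventually_ge_atTop 0)).exists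
  obtain ⟨L, hL⟩ := hu T
  have h2 := linB_strict_iff.1 ((P.hasStrictFDerivAt.comp p hL).const_smul (c T)) (η / 2)
    (by positivity)
  refine ⟨c T • P.comp L, ?_⟩
  have h3 : Tendsto (fun q : V × V => (u T q.1, u T q.2)) (𝓝 (p, p)) (𝓝 (u T p, u T p)) :=
    (hL.continuousAt.prodMap' hL.continuousAt).tendsto
  filter_upwards [h2, h3.eventually hT] with q a1 a2
  have e : f q.1 - f q.2 - (c T • P.comp L) (q.1 - q.2) =
      c T * (S (u T q.1) - S (u T q.2) - P (u T q.1 - u T q.2)) +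
      ((c T • fun z => P (u T z)) q.1 - (c T • fun z => P (u T z)) q.2 -
        (c T • P.comp L) (q.1 - q.2)) := by
    rw [hf T, hf T, map_sub P]
    simp only [Pi.smul_apply, smul_eq_mul]
    ring
  rw [e]
  refine (norm_add_le _ _).trans ((add_le_add (b := η / 2 * ‖q.1 - q.2‖) ?_ a1).trans
    (le_of_eq (by ring)))
  rw [norm_mul]
  calc _ ≤ ‖c T‖ * (η / 2 / B * ‖u T q.1 - u T q.2‖) := by gcongr
    _ = η / 2 / B * (‖c T‖ * ‖u T q.1 - u T q.2‖) := by ring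
    _ ≤ η / 2 / B * (B * ‖q.1 - q.2‖) := mul_le_mul_of_nonneg_left (hB T T0 _ _) (by positivity)
    _ = η / 2 * ‖q.1 - q.2‖ := by field_simp

lemma linB_kk_le (z : E) : kk z ≤ ‖z‖ :=
  div_le_self (norm_nonneg _) (le_add_of_nonneg_right (sq_nonneg _))

lemma linB_kk_half (z : E) : kk z ≤ 1 / 2 := by
  rw [kk, div_le_iff₀ (by positivity)]
  linarith only [sq_nonneg (‖z‖ - 1), sq_nonneg (‖z‖ - (1 : ℝ))]

lemma linB_kk_sqrt {z : E} {q : ℝ} (hq : 0 ≤ q) (h : ‖z‖ ≤ q ^ 2) : kk z ≤ q := by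
  rcases le_total 1 q with h1 | h1
  · linarith only [h1, linB_kk_half z]
  · linarith only [h, hq, h1, linB_kk_le z, mul_nonneg_of_nonpos_of_nonpos (Mathlib.Tactic.Linarith.sub_nonpos_of_le hq) (Mathlib.Tactic.Linarith.sub_nonpos_of_le h1)]

/-- Second differences of the perturbation. -/
lemma Pert.second {ε : ℝ} {g : E → E} {Dg : E → E →L[ℝ] E} (hP : Pert ε g Dg) (a b u : E) :
    ‖g (a + u) - g a - (g (b + u) - g b)‖ ≤ ε * ‖a - b‖ * ‖u‖ := by
  have h := convex_univ.norm_image_sub_le_of_norm_hasFDerivWithin_le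
    (f := fun s => g (a + s) - g (b + s)) (f' := fun s => Dg (a + s) - Dg (b + s))
    (C := ε * ‖a - b‖) (fun s _ => by
      have h1 := (hP.deriv (a + s)).comp s ((hasFDerivAt_id s).const_add a)
      have h2 := (hP.deriv (b + s)).comp s ((hasFDerivAt_id s).const_add b)
      rw [ContinuousLinearMap.comp_id] at h1 h2
      exact (h1.sub h2).hasFDerivWithinAt)
    (fun s _ => by simpa using hP.lip (a + s) (b + s)) (mem_univ 0) (mem_univ u)
  simp only [add_zero, sub_zero] at h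
  rwa [show g (a + u) - g a - (g (b + u) - g b) = g (a + u) - g (b + u) - (g a - g b) by abel]

lemma linB_norm_sw (a b : E) : ‖sw a - sw b‖ = ‖a - b‖ := by
  simp only [sw, Prod.norm_def, Prod.mk_sub_mk, Prod.fst_sub, Prod.snd_sub, max_comm]

/-- The reversor as a linear map. -/
noncomputable def linBsw : E →L[ℝ] E :=
  (ContinuousLinearMap.snd ℝ ℂ ℂ).prod (ContinuousLinearMap.fst ℝ ℂ ℂ)

lemma linB_norm_exp (l : ℂ) (t : ℝ) : ‖Complex.exp (l * t)‖ = Real.exp (l.re * t) := by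
  rw [Complex.norm_exp]; simp

lemma linB_norm_exp_neg (l : ℂ) (t : ℝ) :
    ‖Complex.exp (-(l * t))‖ = Real.exp (-(l.re * t)) := by
  rw [Complex.norm_exp]; simp

variable {l : ℂ} {g : E → E} {φ : ℝ → E → E}

lemma linB_d1 (hφ : IsFlow (fun z => Alin l z + g z) φ) (z : E) (t : ℝ) :
    HasDerivAt (fun s : ℝ => Complex.exp (l * s) * (φ s z).1)
      (Complex.exp (l * t) * (g (φ t z)).1) t := by
  have h1 : HasDerivAt (fun s : ℝ => Complex.exp (l * s)) (Complex.exp (l * t) * l) t := by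
    simpa using ((hasDerivAt_id (t : ℂ)).const_mul l).cexp.comp_ofReal
  refine (h1.mul ((ContinuousLinearMap.fst ℝ ℂ ℂ).hasFDerivAt.comp_hasDerivAt t
    (hφ.deriv z t))).congr_deriv ?_
  simp
  ring

lemma linB_d2 (hφ : IsFlow (fun z => Alin l z + g z) φ) (z : E) (t : ℝ) :
    HasDerivAt (fun s : ℝ => Complex.exp (-(l * s)) * (φ s z).2)
      (Complex.exp (-(l * t)) * (g (φ t z)).2) t := by
  have h1 : HasDerivAt (fun s : ℝ => Complex.exp (-(l * s))) (Complex.exp (-(l * t)) * -l) t := by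
    simpa using ((hasDerivAt_id (t : ℂ)).const_mul l).neg.cexp.comp_ofReal
  refine (h1.mul ((ContinuousLinearMap.snd ℝ ℂ ℂ).hasFDerivAt.comp_hasDerivAt t
    (hφ.deriv z t))).congr_deriv ?_
  simp
  ring

end Pool.Agent.Work.MP_05654f_an
end

-- merged part: Pool.Agent.Work.MP_05654f_an.LinB2
section
/-!
The Koenigs correction of the Grobman-Hartman coordinate.
-/

namespace Pool.Agent.Work.MP_05654f_an

open Filter Topology Set

lemma linB_pair {S S' : E → ℂ} {k : ℝ} (h : ∀ a b, ‖S a - S b - (a - b).1‖ ≤ k * ‖a - b‖)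
    (h' : ∀ a b, ‖S' a - S' b - (a - b).1‖ ≤ k * ‖a - b‖) (a b : E) :
    ‖((S a, S' (sw a)) : E) - (S b, S' (sw b)) - (a - b)‖ ≤ k * ‖a - b‖ := by
  refine norm_prod_le_iff.2 ⟨h a b, ?_⟩
  have := h' (sw a) (sw b)
  rwa [linB_norm_sw] at this

/-- The data used in the second step of the linearisation. -/
structure LinBCtx (l : ℂ) (C ε : ℝ) (g : E → E) (Dg : E → E →L[ℝ] E) (φ : ℝ → E → E)
    (X : E → ℂ) (Kf : E → ℝ → ℝ) (H : E ≃ₜ E) : Prop where
  hl : 0 < l.re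
  e0 : 0 ≤ ε
  C1 : 1 ≤ C
  eC : 100 * (C * ε) ≤ 1
  eα : 16 * ε ≤ l.re
  P : Pert ε g Dg
  F : IsFlow (fun z => Alin l z + g z) φ
  A : LinAData l C ε g φ X Kf
  hH : ∀ z, H z = (X z, X (sw z))

namespace LinBCtx

variable {l : ℂ} {C ε : ℝ} {g : E → E} {Dg : E → E →L[ℝ] E} {φ : ℝ → E → E} {X : E → ℂ}
  {Kf : E → ℝ → ℝ} {H : E ≃ₜ E} (c : LinBCtx l C ε g Dg φ X Kf H)
include c

lemma rev (t : ℝ) (z : E) : φ t (sw z) = sw (φ (-t) z) := by
  obtain ⟨K, hK⟩ := c.A.lipF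
  refine c.F.rev hK linBsw (fun z => ?_) t z
  change Alin l (sw z) + g (sw z) = -sw (Alin l z + g z)
  rw [c.P.rev]
  ext <;> simp [sw] <;> ring

lemma add (s t : ℝ) (z : E) : φ (s + t) z = φ s (φ t z) := by
  obtain ⟨K, hK⟩ := c.A.lipF
  exact c.F.add hK s t z

lemma strict (t : ℝ) (p : E) : ∃ L : E →L[ℝ] E, HasStrictFDerivAt (φ t) L p := by
  obtain ⟨K, hK⟩ := c.A.lipF
  obtain ⟨L, hL⟩ := c.F.strict hK c.A.c1 t p
  exact ⟨_, hL⟩

lemma close (a b : E) : ‖H a - H b - (a - b)‖ ≤ 1 / 2 * ‖a - b‖ := by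
  rw [c.hH, c.hH]
  refine (linB_pair c.A.close c.A.close a b).trans ?_
  gcongr
  linarith only [c, c.eC]

lemma up (a b : E) : ‖H a - H b‖ ≤ 2 * ‖a - b‖ := by
  have := norm_add_le (H a - H b - (a - b)) (a - b)
  rw [sub_add_cancel] at this
  linarith only [this, c, c.close a b, norm_nonneg (a - b)]

lemma lo (a b : E) : ‖a - b‖ ≤ 2 * ‖H a - H b‖ := by
  have := norm_sub_le (H a - H b) (H a - H b - (a - b))
  rw [sub_sub_cancel] at this
  linarith only [this, c, c.close a b]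

lemma upX (a b : E) : ‖X a - X b‖ ≤ 2 * ‖a - b‖ := by
  have := (norm_fst_le (H a - H b)).trans (c.up a b)
  simpa [c.hH] using this

lemma upX0 (a : E) : ‖X a‖ ≤ 2 * ‖a‖ := by simpa [c.A.X0] using c.upX a 0

lemma upY (a b : E) : ‖X (sw a) - X (sw b)‖ ≤ 2 * ‖a - b‖ := by
  rw [← linB_norm_sw]; exact c.upX _ _

lemma upY0 (a : E) : ‖X (sw a)‖ ≤ 2 * ‖a‖ := by
  have := c.upY a 0
  rwa [show sw 0 = 0 from rfl, c.A.X0, sub_zero, sub_zero] at this

lemma equivY (z : E) (t : ℝ) : X (sw (φ t z)) = Complex.exp (l * t) * X (sw z) := by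
  have := c.rev (-t) z
  rw [neg_neg] at this
  rw [← this, c.A.equiv]
  simp

lemma H0 : H 0 = 0 := by
  rw [c.hH, show sw 0 = 0 from rfl, c.A.X0]; rfl

lemma orb {a b : E} {t k : ℝ} (h1 : Real.exp (-(l.re * t)) * ‖X a - X b‖ ≤ k)
    (h2 : Real.exp (l.re * t) * ‖X (sw a) - X (sw b)‖ ≤ k) : ‖φ t a - φ t b‖ ≤ 2 * k := by
  refine (c.lo _ _).trans (mul_le_mul_of_nonneg_left ?_ zero_le_two)
  rw [c.hH, c.hH, c.A.equiv, c.A.equiv, c.equivY, c.equivY]
  refine norm_prod_le_iff.2 ⟨?_, ?_⟩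
  · rwa [Prod.fst_sub, ← mul_sub, norm_mul, linB_norm_exp_neg]
  · rwa [Prod.snd_sub, ← mul_sub, norm_mul, linB_norm_exp]

lemma φ0 (t : ℝ) : φ t 0 = 0 := by
  apply H.injective
  rw [c.H0, c.hH, c.A.equiv, c.equivY, show sw 0 = 0 from rfl, c.A.X0]
  simp

lemma Xs (x y : ℂ) : X (H.symm (x, y)) = x := by
  have := H.apply_symm_apply (x, y)
  rw [c.hH] at this
  exact congrArg Prod.fst this

lemma Ys (x y : ℂ) : X (sw (H.symm (x, y))) = y := by
  have := H.apply_symm_apply (x, y)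
  rw [c.hH] at this
  exact congrArg Prod.snd this

lemma s0 : H.symm (0, 0) = 0 := by
  rw [Homeomorph.symm_apply_eq, c.H0]; rfl

lemma φs (x y : ℂ) (t : ℝ) : φ t (H.symm (x, y)) =
    H.symm (Complex.exp (-(l * t)) * x, Complex.exp (l * t) * y) := by
  rw [Homeomorph.eq_symm_apply, c.hH, c.A.equiv, c.equivY, c.Xs, c.Ys]

lemma orbs (x x' : ℂ) (t : ℝ) : ‖φ t (H.symm (x, 0)) - φ t (H.symm (x', 0))‖ ≤
    2 * (Real.exp (-(l.re * t)) * ‖x - x'‖) :=
  c.orb (by rw [c.Xs, c.Xs]) (by rw [c.Ys, c.Ys, sub_zero, norm_zero, mul_zero]; positivity)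

lemma orbs0 (x : ℂ) (t : ℝ) : ‖φ t (H.symm (x, 0))‖ ≤ 2 * (Real.exp (-(l.re * t)) * ‖x‖) := by
  simpa [c.s0, c.φ0] using c.orbs x 0 t

lemma orbu (y y' : ℂ) (t : ℝ) : ‖φ t (H.symm (0, y)) - φ t (H.symm (0, y'))‖ ≤
    2 * (Real.exp (l.re * t) * ‖y - y'‖) :=
  c.orb (by rw [c.Xs, c.Xs, sub_zero, norm_zero, mul_zero]; positivity) (by rw [c.Ys, c.Ys])

lemma dψ (x x' : ℂ) (t : ℝ) : ‖Complex.exp (l * t) * (g (φ t (H.symm (x, 0)))).1 -
    Complex.exp (l * t) * (g (φ t (H.symm (x', 0)))).1‖ ≤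
    10 * ε * ‖x - x'‖ * (kk (φ t (H.symm (x, 0))) + kk (φ t (H.symm (x', 0)))) := by
  rw [← mul_sub, norm_mul, linB_norm_exp, ← Prod.fst_sub]
  have k0 : ∀ z, 0 ≤ kk z := fun z => by unfold kk; positivity
  have := k0 (φ t (H.symm (x, 0)))
  have := k0 (φ t (H.symm (x', 0)))
  have := c.e0
  calc _ ≤ Real.exp (l.re * t) * (5 * ε * (kk (φ t (H.symm (x, 0))) + kk (φ t (H.symm (x', 0)))) *
        (2 * (Real.exp (-(l.re * t)) * ‖x - x'‖))) := by
        gcongr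
        refine (norm_fst_le _).trans ((c.A.gk _ _).trans ?_)
        gcongr
        exact c.orbs x x' t
    _ = _ := by rw [Real.exp_neg]; field_simp; ring

lemma dψ' {x x' : ℂ} {ρ : ℝ} (hx : ‖x‖ ≤ ρ) (hx' : ‖x'‖ ≤ ρ) (t : ℝ) :
    ‖Complex.exp (l * t) * (g (φ t (H.symm (x, 0)))).1 -
      Complex.exp (l * t) * (g (φ t (H.symm (x', 0)))).1‖ ≤
    40 * ε * ρ * ‖x - x'‖ * Real.exp (-(l.re * t)) := by
  refine (c.dψ x x' t).trans ?_
  have h1 := (linB_kk_le _).trans (c.orbs0 x t)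
  have h2 := (linB_kk_le _).trans (c.orbs0 x' t)
  have := c.e0
  calc _ ≤ 10 * ε * ‖x - x'‖ * (2 * (Real.exp (-(l.re * t)) * ρ) +
        2 * (Real.exp (-(l.re * t)) * ρ)) := by
        clear * - ε x x' φ t H l ρ h1 hx h2 hx' this
        gcongr
        · exact h1.trans (by gcongr)
        · exact h2.trans (by gcongr)
    _ = _ := by ring

lemma exists_ψ : ∃ ψ : ℂ → ℂ, ∀ x, Tendsto
    (fun t : ℝ => Complex.exp (l * t) * (φ t (H.symm (x, 0))).1) atTop (𝓝 (ψ x)) := by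
  have h : ∀ x, CauchySeq fun t : ℝ => Complex.exp (l * t) * (φ t (H.symm (x, 0))).1 := by
    intro x
    have := c.e0
    refine cauchySeq_of_le_tendsto_0'
      (fun s => 40 * ε * ‖x‖ * ‖x‖ / l.re * Real.exp (-(l.re * s))) (fun s u hsu => ?_) ?_
    · rw [dist_comm, dist_eq_norm]
      refine linB_down hsu c.hl (by positivity) (linB_d1 c.F _) fun t _ => ?_
      simpa [c.s0, c.φ0, c.P.g0] using c.dψ' (x := x) (x' := 0) le_rfl (by simp) t
    · simpa using (Real.tendsto_exp_neg_atTop_nhds_zero.comp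
        (tendsto_id.const_mul_atTop c.hl)).const_mul (40 * ε * ‖x‖ * ‖x‖ / l.re)
  choose ψ hψ using fun x => cauchySeq_tendsto_of_complete (h x)
  exact ⟨ψ, hψ⟩

variable {ψ : ℂ → ℂ} (hψ : ∀ x, Tendsto
    (fun t : ℝ => Complex.exp (l * t) * (φ t (H.symm (x, 0))).1) atTop (𝓝 (ψ x)))
include hψ

lemma ψ0 : ψ 0 = 0 := by
  have := hψ 0
  simp only [c.s0, c.φ0, Prod.fst_zero, mul_zero] at this
  exact tendsto_nhds_unique this tendsto_const_nhds

lemma ψequiv (x : ℂ) (t : ℝ) :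
    ψ (Complex.exp (-(l * t)) * x) = Complex.exp (-(l * t)) * ψ x := by
  refine tendsto_nhds_unique (hψ _) ?_
  refine (((hψ x).comp (tendsto_atTop_add_const_right _ t tendsto_id)).const_mul
    (Complex.exp (-(l * t)))).congr fun s => ?_
  have e := c.φs x 0 t
  rw [mul_zero] at e
  simp only [Function.comp, id, c.add, e, ← mul_assoc, ← Complex.exp_add]
  congr 2
  push_cast
  ring

lemma ψlim {x x' : ℂ} {k : ℝ} (h : ∀ u : ℝ, 0 ≤ u →
    ‖(Complex.exp (l * u) * (φ u (H.symm (x, 0))).1 -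
        Complex.exp (l * u) * (φ u (H.symm (x', 0))).1) -
      (Complex.exp (l * (0 : ℝ)) * (φ 0 (H.symm (x, 0))).1 -
        Complex.exp (l * (0 : ℝ)) * (φ 0 (H.symm (x', 0))).1)‖ ≤ k) :
    ‖ψ x - ψ x' - (H.symm (x, 0) - H.symm (x', 0)).1‖ ≤ k := by
  have := le_of_tendsto (((hψ x).sub (hψ x')).sub_const _).norm
    ((eventually_ge_atTop 0).mono h)
  simpa [c.F.zero] using this

lemma ψglob (x x' : ℂ) :
    ‖ψ x - ψ x' - (H.symm (x, 0) - H.symm (x', 0)).1‖ ≤ 20 * (C * ε) * ‖x - x'‖ := by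
  refine c.ψlim hψ fun u hu => ?_
  refine (linB_major hu (fun t => (linB_d1 c.F _ t).sub (linB_d1 c.F _ t))
    (fun t => ((c.A.Kder _ t).add (c.A.Kder _ t)).const_mul _) fun t _ => c.dψ x x' t).trans ?_
  have h1 := (abs_le.1 (c.A.Kbd (H.symm (x, 0)) 0 u)).2
  have h2 := (abs_le.1 (c.A.Kbd (H.symm (x', 0)) 0 u)).2
  have := c.e0
  rw [← mul_sub]
  calc _ ≤ 10 * ε * ‖x - x'‖ * (2 * C) := by
        gcongr
        simp only [Pi.add_apply]
        linarith only [h1, h2]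
    _ = _ := by ring

lemma ψloc {x x' : ℂ} {ρ : ℝ} (hx : ‖x‖ ≤ ρ) (hx' : ‖x'‖ ≤ ρ) :
    ‖ψ x - ψ x' - (H.symm (x, 0) - H.symm (x', 0)).1‖ ≤ 3 * ρ * ‖x - x'‖ := by
  refine c.ψlim hψ fun u hu => ?_
  have ρ0 := (norm_nonneg _).trans hx
  have := c.e0
  refine (linB_down hu c.hl (by positivity) (fun t => (linB_d1 c.F _ t).sub (linB_d1 c.F _ t))
    fun t _ => c.dψ' hx hx' t).trans ?_
  rw [mul_zero, neg_zero, Real.exp_zero, mul_one, div_le_iff₀ c.hl]
  have h1 : 0 ≤ ρ * ‖x - x'‖ := by positivity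
  linarith only [c, h1, this, mul_le_mul_of_nonneg_left c.eα h1, mul_nonneg_of_nonpos_of_nonpos (Mathlib.Tactic.Linarith.sub_nonpos_of_le this) (Mathlib.Tactic.Linarith.sub_nonpos_of_le h1)]

lemma Xclose (a b : E) : ‖ψ (X a) - ψ (X b) - (a - b).1‖ ≤ 1 / 2 * ‖a - b‖ := by
  have h1 := c.ψglob hψ (X a) (X b)
  have h2 := c.A.close a b
  have h3 := c.A.close (H.symm (X a, 0)) (H.symm (X b, 0))
  have h4 := c.orbs (X a) (X b) 0
  rw [c.Xs, c.Xs] at h3
  simp only [c.F.zero, mul_zero, neg_zero, Real.exp_zero, one_mul] at h4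
  have h5 := c.upX a b
  have k0 : 0 ≤ C * ε := mul_nonneg (by linarith only [c, c.C1]) c.e0
  have e : ψ (X a) - ψ (X b) - (a - b).1 =
      (ψ (X a) - ψ (X b) - (H.symm (X a, 0) - H.symm (X b, 0)).1) + (X a - X b - (a - b).1) -
        (X a - X b - (H.symm (X a, 0) - H.symm (X b, 0)).1) := by ring
  rw [e]
  refine (norm_sub_le _ _).trans ((add_le_add ((norm_add_le _ _).trans (add_le_add h1 h2))
    h3).trans ?_)
  have h6 := mul_le_mul_of_nonneg_left h5 k0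
  have h7 := mul_le_mul_of_nonneg_left h4 k0
  have h8 := mul_le_mul_of_nonneg_right c.eC (norm_nonneg (a - b))
  have := norm_nonneg (a - b)
  linarith only [h6, h7, h8, this]

end LinBCtx

end Pool.Agent.Work.MP_05654f_an
end

-- merged part: Pool.Agent.Work.MP_05654f_an.LinB3
section
/-!
Strict differentiability of the corrected coordinate at the equilibrium.
-/

namespace Pool.Agent.Work.MP_05654f_an

open Filter Topology Set

namespace LinBCtx

variable {l : ℂ} {C ε : ℝ} {g : E → E} {Dg : E → E →L[ℝ] E} {φ : ℝ → E → E} {X : E → ℂ}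
  {Kf : E → ℝ → ℝ} {H : E ≃ₜ E} (c : LinBCtx l C ε g Dg φ X Kf H)
include c

lemma fibre {w : E} {ρ : ℝ} (hw : ‖w‖ ≤ ρ) (t : ℝ) :
    ‖φ t w - φ t (H.symm (X w, 0))‖ ≤ 2 * (Real.exp (l.re * t) * (2 * ρ)) :=
  c.orb (by
    have := (norm_nonneg _).trans hw
    rw [c.Xs, sub_self, norm_zero, mul_zero]; positivity) (by
    rw [c.Ys, sub_zero]
    gcongr
    linarith only [hw, c, c.upY0 w])

lemma tangent {w w' : E} {r : ℝ} (r0 : 0 ≤ r) (r1 : r ≤ 1) (hw : ‖w‖ ≤ r ^ 2)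
    (hw' : ‖w'‖ ≤ r ^ 2) :
    ‖(w - H.symm (X w, 0) - (w' - H.symm (X w', 0))).1‖ ≤ 31 * r * ‖w - w'‖ := by
  set p := H.symm (X w, 0) with hp
  set p' := H.symm (X w', 0) with hp'
  set N := ‖w - w'‖ with hN
  have N0 : 0 ≤ N := norm_nonneg _
  have e0 := c.e0
  have hl := c.hl
  have r2 : r ^ 2 ≤ 1 := pow_le_one₀ r0 r1
  set D : ℝ → E := fun t => φ t w - φ t p - (φ t w' - φ t p') with hD
  set G : ℝ → E := fun t => g (φ t w) - g (φ t p) - (g (φ t w') - g (φ t p')) with hG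
  have d1 : ∀ t : ℝ, HasDerivAt (fun s : ℝ => Complex.exp (l * s) * (D s).1)
      (Complex.exp (l * t) * (G t).1) t := fun t => by
    simpa only [hD, hG, Prod.fst_sub, mul_sub] using
      ((linB_d1 c.F w t).fun_sub (linB_d1 c.F p t)).fun_sub
        ((linB_d1 c.F w' t).fun_sub (linB_d1 c.F p' t))
  have d2 : ∀ t : ℝ, HasDerivAt (fun s : ℝ => Complex.exp (-(l * s)) * (D s).2)
      (Complex.exp (-(l * t)) * (G t).2) t := fun t => by
    simpa only [hD, hG, Prod.snd_sub, mul_sub] using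
      ((linB_d2 c.F w t).fun_sub (linB_d2 c.F p t)).fun_sub
        ((linB_d2 c.F w' t).fun_sub (linB_d2 c.F p' t))
  have l1 : Tendsto (fun s : ℝ => Complex.exp (l * s) * (D s).1) atBot (𝓝 0) := by
    have := ((c.A.lim w).sub (c.A.lim p)).sub ((c.A.lim w').sub (c.A.lim p'))
    rw [hp, hp', c.Xs, c.Xs, sub_self, sub_self, sub_self] at this
    simpa only [hD, Prod.fst_sub, mul_sub] using this
  have b1 : ∀ {k β t : ℝ}, 0 < β → 0 ≤ k →
      (∀ s ≤ t, Real.exp (l.re * s) * ‖G s‖ ≤ k * Real.exp (β * s)) →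
      Real.exp (l.re * t) * ‖(D t).1‖ ≤ k / β * Real.exp (β * t) := by
    clear * - l G D l1 d1
    intro k β t hβ hk h
    have := le_of_tendsto (tendsto_const_nhds.sub l1).norm ((eventually_le_atBot t).mono
      fun s hs => linB_up hs hβ hk d1 fun u hu => le_trans (by
        rw [norm_mul, linB_norm_exp]
        exact mul_le_mul_of_nonneg_left (norm_fst_le _) (Real.exp_pos _).le) (h u hu.2))
    rwa [sub_zero, norm_mul, linB_norm_exp] at this
  have pp : ∀ t, ‖φ t p - φ t p'‖ ≤ 2 * (Real.exp (-(l.re * t)) * (2 * N)) := fun t =>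
    (c.orbs _ _ t).trans (by gcongr; exact c.upX _ _)
  have hGb : ∀ t, ‖G t‖ ≤ 5 * ε * (kk (φ t w) + kk (φ t p + (φ t w' - φ t p'))) * ‖D t‖ +
      16 * ε * r ^ 2 * N := by
    clear * - G g φ w p w' p' hG X H ε D r N l C Kf Dg c pp e0 hw'
    intro t
    have e : G t = (g (φ t w) - g (φ t p + (φ t w' - φ t p'))) +
        (g (φ t p + (φ t w' - φ t p')) - g (φ t p) -
          (g (φ t p' + (φ t w' - φ t p')) - g (φ t p'))) := by
      rw [add_sub_cancel (φ t p')]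
      simp only [hG]
      abel
    rw [e]
    refine (norm_add_le _ _).trans (add_le_add ((c.A.gk _ _).trans (le_of_eq ?_))
      ((c.P.second _ _ _).trans ?_))
    · rw [← sub_sub]
    · calc _ ≤ ε * (2 * (Real.exp (-(l.re * t)) * (2 * N))) *
            (2 * (Real.exp (l.re * t) * (2 * r ^ 2))) := by
            gcongr
            · exact pp t
            · exact c.fibre hw' t
        _ = _ := by rw [Real.exp_neg]; field_simp; ring
  have ex1 : ∀ t ≤ 0, Real.exp (l.re * t) ≤ 1 := fun t ht =>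
    Real.exp_le_one_iff.2 (mul_nonpos_of_nonneg_of_nonpos hl.le ht)
  have bdd : BddAbove ((fun t => ‖D t‖) '' Iic 0) := by
    refine ⟨8, ?_⟩
    rintro _ ⟨t, ht, rfl⟩
    have h1 := c.fibre (hw.trans r2) t
    have h2 := c.fibre (hw'.trans r2) t
    have h3 := ex1 t ht
    exact (norm_sub_le _ _).trans (by linarith only [h1, h2, h3])
  set M := sSup ((fun t => ‖D t‖) '' Iic 0) with hM
  have M1 : ∀ t ≤ 0, ‖D t‖ ≤ M := fun t ht => le_csSup bdd ⟨t, ht, rfl⟩
  have M0 : 0 ≤ M := (norm_nonneg _).trans (M1 0 le_rfl)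
  have D0 : ‖D 0‖ ≤ 5 * N := by
    have h1 := pp 0
    simp only [c.F.zero, mul_zero, neg_zero, Real.exp_zero, one_mul] at h1
    simp only [hD, c.F.zero]
    rw [sub_sub_sub_comm]
    exact (norm_sub_le _ _).trans (by linarith only [h1])
  have G1 : ∀ t ≤ 0, ‖G t‖ ≤ l.re * (N + 5 / 16 * M) := by
    clear * - G ε φ w p w' p' D r N l M hGb e0 M1 C g Dg X Kf H c r2 hl M0
    intro t ht
    refine (hGb t).trans ?_
    have k0 : ∀ z, 0 ≤ kk z := fun z => by unfold kk; positivity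
    have h1 : 5 * ε * (kk (φ t w) + kk (φ t p + (φ t w' - φ t p'))) * ‖D t‖ ≤
        5 * ε * (1 / 2 + 1 / 2) * M := by
      have := k0 (φ t w)
      have := k0 (φ t p + (φ t w' - φ t p'))
      gcongr
      · exact linB_kk_half _
      · exact linB_kk_half _
      · exact M1 t ht
    have h2 : 16 * ε * r ^ 2 * N ≤ l.re * 1 * N := by gcongr; exact c.eα
    linarith only [h1, h2, c, M0, mul_le_mul_of_nonneg_right c.eα M0]
  have M2 : M ≤ 6 * N + 5 / 16 * M := by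
    clear * - D N M l b1 hl w w' M0 G G1 N0 d2 D0 c
    refine csSup_le ⟨_, 0, self_mem_Iic, rfl⟩ ?_
    rintro _ ⟨t, ht, rfl⟩
    refine norm_prod_le_iff.2 ⟨?_, ?_⟩
    · have := b1 (k := l.re * (N + 5 / 16 * M)) (t := t) hl (by positivity) fun s hs => by
        rw [mul_comm]
        gcongr
        exact G1 s (hs.trans ht)
      rw [mul_div_cancel_left₀ _ hl.ne', mul_comm] at this
      linarith only [N0, this, le_of_mul_le_mul_right this (Real.exp_pos _)]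
    · have h1 := linB_down (c := l.re * (N + 5 / 16 * M)) ht hl (by positivity) d2 fun s hs => by
        rw [norm_mul, linB_norm_exp_neg, mul_comm]
        gcongr
        exact (norm_snd_le _).trans (G1 s hs.2)
      rw [mul_div_cancel_left₀ _ hl.ne'] at h1
      have h2 := norm_sub_le (Complex.exp (-(l * (0 : ℝ))) * (D 0).2)
        (Complex.exp (-(l * (0 : ℝ))) * (D 0).2 - Complex.exp (-(l * t)) * (D t).2)
      rw [sub_sub_cancel, norm_mul, norm_mul, linB_norm_exp_neg, linB_norm_exp_neg, mul_zero,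
        neg_zero, Real.exp_zero, one_mul] at h2
      have h3 := (norm_snd_le _).trans D0
      have h4 : 1 ≤ Real.exp (-(l.re * t)) :=
        Real.one_le_exp (neg_nonneg.2 (mul_nonpos_of_nonneg_of_nonpos hl.le ht))
      refine le_of_mul_le_mul_left ?_ (Real.exp_pos (-(l.re * t)))
      linarith only [h1, h2, h3, h4, N0, mul_le_mul_of_nonneg_right h4 N0]
  have M3 : M ≤ 9 * N := by linarith only [N0, M2]
  have fin := b1 (k := 241 * ε * r * N) (β := l.re / 2) (t := 0) (by positivity) (by positivity)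
    fun s hs => by
      clear * - l s hl hs ex1 r φ w C ε g Dg X Kf H c hw p w' p' hw' r0 G N D hGb e0 M M1 M3 r1
      set q := Real.exp (-(l.re / 2 * s)) with hq
      have q1 : 1 ≤ q := Real.one_le_exp (neg_nonneg.2
        (mul_nonpos_of_nonneg_of_nonpos (by positivity) hs))
      have q2 : Real.exp (-(l.re * s)) = q ^ 2 := by
        rw [hq, ← Real.exp_nat_mul]; congr 1; push_cast; ring
      have q3 : Real.exp (l.re / 2 * s) = Real.exp (l.re * s) * q := by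
        rw [hq, ← Real.exp_add]; congr 1; ring
      have q4 : Real.exp (l.re * s) ≤ q ^ 2 := (ex1 s hs).trans (one_le_pow₀ q1)
      have rr : 0 ≤ r ^ 2 := sq_nonneg r
      have a1 : ‖φ s w‖ ≤ 2 * (q ^ 2 * (2 * r ^ 2)) := by
        have := c.orb (a := w) (b := 0) (t := s) (k := q ^ 2 * (2 * r ^ 2))
          (by rw [q2]; gcongr; linarith only [c, hw, c.upX w 0, sub_zero w ▸ hw])
          (by gcongr; linarith only [c, hw, c.upY w 0, sub_zero w ▸ hw])
        rwa [c.φ0, sub_zero] at this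
      have a2 : ‖φ s p‖ ≤ 2 * (q ^ 2 * (2 * r ^ 2)) :=
        (c.orbs0 _ s).trans (by rw [q2]; gcongr; linarith only [hw, c, c.upX0 w])
      have a3 : ‖φ s w' - φ s p'‖ ≤ 2 * (q ^ 2 * (2 * r ^ 2)) :=
        (c.fibre hw' s).trans (by gcongr)
      have k1 : kk (φ s w) ≤ 2 * r * q := linB_kk_sqrt (by positivity) (by linarith only [a1])
      have k2 : kk (φ s p + (φ s w' - φ s p')) ≤ 3 * r * q := linB_kk_sqrt (by positivity)
        ((norm_add_le _ _).trans (by linarith only [a2, a3, mul_nonneg (sq_nonneg q) rr, sq_nonneg ((3 : ℝ) * r * q)]))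
      rw [q3, mul_left_comm]
      refine mul_le_mul_of_nonneg_left ((hGb s).trans ?_) (Real.exp_pos _).le
      have h1 : 5 * ε * (kk (φ s w) + kk (φ s p + (φ s w' - φ s p'))) * ‖D s‖ ≤
          5 * ε * (2 * r * q + 3 * r * q) * (9 * N) := by
        gcongr
        exact (M1 s hs).trans M3
      have h2 : 16 * ε * r ^ 2 * N ≤ 16 * ε * (r * q) * N := by
        gcongr
        linarith only [r0, r1, q1, mul_nonneg_of_nonpos_of_nonpos (Mathlib.Tactic.Linarith.sub_nonpos_of_le r0) (Mathlib.Tactic.Linarith.sub_nonpos_of_le r1), mul_nonneg_of_nonpos_of_nonpos (Mathlib.Tactic.Linarith.sub_nonpos_of_le r0) (Mathlib.Tactic.Linarith.sub_nonpos_of_le q1)]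
      linarith only [h1, h2]
  simp only [mul_zero, Real.exp_zero, one_mul, mul_one, hD, c.F.zero] at fin
  refine fin.trans ?_
  rw [div_le_iff₀ (by positivity)]
  clear * - ε r N l C g Dg φ X Kf H c r0 N0 e0
  linarith only [c, r0, N0, e0, mul_le_mul_of_nonneg_left c.eα (mul_nonneg r0 N0), mul_nonneg (mul_nonneg r0 N0) e0]

variable {ψ : ℂ → ℂ} (hψ : ∀ x, Tendsto
    (fun t : ℝ => Complex.exp (l * t) * (φ t (H.symm (x, 0))).1) atTop (𝓝 (ψ x)))
include hψ

lemma strict0 : HasStrictFDerivAt (fun z => ψ (X z)) (ContinuousLinearMap.fst ℝ ℂ ℂ) 0 := by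
  refine linB_strict_iff.2 fun η hη => ?_
  set r := min 1 (η / 43) with hr
  have r0 : 0 < r := lt_min one_pos (by positivity)
  have r1 : r ≤ 1 := min_le_left _ _
  have r2 : r ≤ η / 43 := min_le_right _ _
  have hb := Metric.closedBall_mem_nhds (0 : E) (pow_pos r0 2)
  filter_upwards [prod_mem_nhds hb hb] with q hq
  have h1 : ‖q.1‖ ≤ r ^ 2 := by simpa using hq.1
  have h2 : ‖q.2‖ ≤ r ^ 2 := by simpa using hq.2
  have h3 := c.tangent r0.le r1 h1 h2
  have h4 := c.ψloc hψ (x := X q.1) (x' := X q.2) (ρ := 2 * r) (by clear * - X q r h1 l C ε g Dg φ Kf H c r0 r1 hψ; linarith only [h1, c, r0, r1, c.upX0 q.1, mul_nonneg_of_nonpos_of_nonpos (le_of_lt (Mathlib.Tactic.Linarith.sub_neg_of_lt r0)) (Mathlib.Tactic.Linarith.sub_nonpos_of_le r1)])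
    (by linarith only [h2, c, r0, r1, c.upX0 q.2, mul_nonneg_of_nonpos_of_nonpos (le_of_lt (Mathlib.Tactic.Linarith.sub_neg_of_lt r0)) (Mathlib.Tactic.Linarith.sub_nonpos_of_le r1)])
  have e : ψ (X q.1) - ψ (X q.2) - ContinuousLinearMap.fst ℝ ℂ ℂ (q.1 - q.2) =
      (ψ (X q.1) - ψ (X q.2) - (H.symm (X q.1, 0) - H.symm (X q.2, 0)).1) -
        (q.1 - H.symm (X q.1, 0) - (q.2 - H.symm (X q.2, 0))).1 := by
    simp only [ContinuousLinearMap.coe_fst', Prod.fst_sub]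
    ring
  rw [e]
  refine (norm_sub_le _ _).trans ((add_le_add h4 h3).trans ?_)
  have h5 := mul_le_mul_of_nonneg_left (c.upX q.1 q.2) r0.le
  have h6 := mul_le_mul_of_nonneg_right r2 (norm_nonneg (q.1 - q.2))
  linarith only [h5, h6]

end LinBCtx

end Pool.Agent.Work.MP_05654f_an
end

-- merged part: Pool.Agent.Work.MP_05654f_an.LinB
section
/-!
A linearising homeomorphism that is strictly differentiable along the unstable manifold.
-/

namespace Pool.Agent.Work.MP_05654f_an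

open Filter Topology Set

namespace LinBCtx

variable {l : ℂ} {C ε : ℝ} {g : E → E} {Dg : E → E →L[ℝ] E} {φ : ℝ → E → E} {X : E → ℂ}
  {Kf : E → ℝ → ℝ} {H : E ≃ₜ E} (c : LinBCtx l C ε g Dg φ X Kf H)
include c

lemma limY (z : E) : Tendsto (fun t : ℝ => Complex.exp (-(l * t)) * (φ t z).2) atTop
    (𝓝 (X (sw z))) := by
  refine ((c.A.lim (sw z)).comp tendsto_neg_atTop_atBot).congr fun t => ?_
  simp only [Function.comp, c.rev, neg_neg, Complex.ofReal_neg, mul_neg]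
  rfl

lemma strictY {p : E} (hp : X (sw p) ≠ 0) :
    ∃ L : E →L[ℝ] ℂ, HasStrictFDerivAt (fun z => X (sw z)) L p := by
  have y0 : 0 < ‖X (sw p)‖ := norm_pos_iff.2 hp
  have hc : Continuous fun z => ‖X (sw z)‖ :=
    (H.continuous.snd.congr fun z => by rw [c.hH]).norm
  obtain ⟨T, hT⟩ := eventually_atTop.1 ((Real.tendsto_exp_atTop.comp
    (tendsto_id.const_mul_atTop c.hl)).eventually_ge_atTop (4 / ‖X (sw p)‖))
  obtain ⟨L, hL⟩ := c.strict T p
  refine ⟨_, (((ContinuousLinearMap.snd ℝ ℂ ℂ).hasStrictFDerivAt.comp p hL).const_smul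
    (Complex.exp (-(l * T)))).congr_of_eventuallyEq ?_⟩
  filter_upwards [hc.continuousAt.eventually_const_lt (half_lt_self y0)] with z hz
  have h1 : ∀ u, T ≤ u → ‖Complex.exp (-(l * u)) * (φ u z).2 -
      Complex.exp (-(l * T)) * (φ T z).2‖ ≤ 0 := fun u hu => by
    have := linB_major (B := fun _ => 0) hu (linB_d2 c.F z) (fun t => hasDerivAt_const t 0)
      fun t ht => by
        have a1 : 4 / ‖X (sw p)‖ ≤ Real.exp (l.re * t) := hT t ht.1
        have a2 := c.upY0 (φ t z)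
        rw [c.equivY, norm_mul, linB_norm_exp] at a2
        rw [div_le_iff₀ y0] at a1
        rw [c.P.supp _ (by clear * - φ t z X p l hz y0 a1 a2 c; (refine le_of_not_gt fun h_nl => ?_; linarith only [h_nl, hz, y0, a1, a2, Real.exp_pos (l.re * t), mul_nonneg_of_nonpos_of_nonpos (le_of_lt (Mathlib.Tactic.Linarith.sub_neg_of_lt y0)) (Mathlib.Tactic.Linarith.sub_nonpos_of_le a1), mul_nonneg_of_nonpos_of_nonpos (le_of_lt (Mathlib.Tactic.Linarith.sub_neg_of_lt y0)) (Mathlib.Tactic.Linarith.sub_nonpos_of_le a2), mul_pos_of_neg_of_neg (Mathlib.Tactic.Linarith.sub_neg_of_lt y0) (Mathlib.Tactic.Linarith.sub_neg_of_lt h_nl), mul_nonneg_of_nonpos_of_nonpos (le_of_lt (Mathlib.Tactic.Linarith.sub_neg_of_lt hz)) (Mathlib.Tactic.Linarith.sub_nonpos_of_le a1)]))]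
        simp
    simpa using this
  have h2 := le_of_tendsto ((c.limY z).sub_const _).norm ((eventually_ge_atTop T).mono h1)
  rw [norm_le_zero_iff, sub_eq_zero] at h2
  rw [h2]
  rfl

lemma back {p : E} (hp : X p = 0) : Tendsto (fun T : ℝ => φ (-T) p) atTop (𝓝 0) := by
  refine squeeze_zero_norm (a := fun T => 2 * (Real.exp (-(l.re * T)) * ‖X (sw p)‖))
    (fun T => ?_) ?_
  · have := c.orb (a := p) (b := 0) (t := -T) (k := Real.exp (-(l.re * T)) * ‖X (sw p)‖)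
      (by rw [hp, c.A.X0, sub_zero, norm_zero, mul_zero]; positivity)
      (by rw [show sw 0 = 0 from rfl, c.A.X0, sub_zero, mul_neg])
    rwa [c.φ0, sub_zero] at this
  · simpa using ((Real.tendsto_exp_neg_atTop_nhds_zero.comp
      (tendsto_id.const_mul_atTop c.hl)).mul_const ‖X (sw p)‖).const_mul 2

variable {ψ : ℂ → ℂ} (hψ : ∀ x, Tendsto
    (fun t : ℝ => Complex.exp (l * t) * (φ t (H.symm (x, 0))).1) atTop (𝓝 (ψ x)))
include hψ

lemma strictX {p : E} (hp : X p = 0) :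
    ∃ L : E →L[ℝ] ℂ, HasStrictFDerivAt (fun z => ψ (X z)) L p := by
  refine linB_conj (c.strict0 hψ) (fun T => Complex.exp (-(l * T))) (fun T => φ (-T))
    (fun T z => ?_) (fun T => c.strict _ p) (c.back hp) (B := 4) (by norm_num) fun T T0 a b => ?_
  · rw [← c.ψequiv hψ, ← c.A.equiv, ← c.add, add_neg_cancel, c.F.zero]
  · have h1 : Real.exp (-(l.re * T)) ≤ Real.exp (l.re * T) :=
      Real.exp_le_exp.2 (by linarith only [c, T0, mul_nonneg c.hl.le T0])
    have h2 := c.orb (a := a) (b := b) (t := -T) (k := Real.exp (l.re * T) * (2 * ‖a - b‖))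
      (by rw [mul_neg, neg_neg]; gcongr; exact c.upX a b)
      (by rw [mul_neg]; gcongr; exact c.upY a b)
    rw [linB_norm_exp_neg]
    refine (mul_le_mul_of_nonneg_left h2 (Real.exp_pos _).le).trans (le_of_eq ?_)
    rw [Real.exp_neg]
    field_simp
    ring

lemma strictψ {p : E} (hp : X p = 0) (hq : X (sw p) ≠ 0) :
    ∃ L : ℂ →L[ℝ] ℂ, HasStrictFDerivAt ψ L (X (sw p)) := by
  have hG := linB_pair (c.Xclose hψ) (S' := X) fun a b => (c.A.close a b).trans (by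
    gcongr
    linarith only [c, c.eC])
  obtain ⟨G, hG'⟩ := linB_homeo _ hG
  obtain ⟨L1, h1⟩ := c.strictX hψ hp
  obtain ⟨L2, h2⟩ := c.strictY hq
  obtain ⟨L3, h3⟩ := linB_inv (h := G) (fun a b => by rw [hG', hG']; exact hG a b)
    ((h1.prodMk h2).congr_of_eventuallyEq (Eventually.of_forall fun z => (hG' z).symm))
  have e1 : ∀ y, G.symm (0, y) = H.symm (0, y) := fun y => by
    rw [Homeomorph.symm_apply_eq, hG', c.Xs, c.Ys, c.ψ0 hψ]
  have e2 : H.symm (0, X (sw p)) = p := by rw [Homeomorph.symm_apply_eq, c.hH, hp]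
  rw [hG', hp, c.ψ0 hψ] at h3
  have h4 : HasStrictFDerivAt (fun y => H.symm (0, y)) _ (X (sw p)) :=
    (h3.comp (X (sw p)) (ContinuousLinearMap.inr ℝ ℂ ℂ).hasStrictFDerivAt).congr_of_eventuallyEq
      (Eventually.of_forall e1)
  have h5 := c.strict0 hψ
  rw [← linBsw.map_zero] at h5
  refine linB_conj (h5.comp 0 linBsw.hasStrictFDerivAt)
    (fun T => Complex.exp (l * T)) (fun T y => φ (-T) (H.symm (0, y))) (fun T y => ?_)
    (fun T => ?_) (by simpa only [e2] using c.back hp) (B := 2) (by norm_num) fun T _ a b => ?_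
  · change ψ y = _ * ψ (X (sw _))
    rw [c.equivY, c.Ys, Complex.ofReal_neg, mul_neg, c.ψequiv hψ, ← mul_assoc, ← Complex.exp_add]
    simp
  · obtain ⟨L, hL⟩ := c.strict (-T) (H.symm (0, X (sw p)))
    exact ⟨_, HasStrictFDerivAt.comp (f := fun y => H.symm (0, y)) (X (sw p)) hL h4⟩
  · rw [linB_norm_exp]
    refine (mul_le_mul_of_nonneg_left (c.orbu a b _) (Real.exp_pos _).le).trans (le_of_eq ?_)
    rw [mul_neg, Real.exp_neg]
    field_simp

end LinBCtx

theorem linB (l : ℂ) (hl : 0 < l.re) : ∃ ε₀ : ℝ, 0 < ε₀ ∧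
    ∀ (ε : ℝ) (g : E → E) (Dg : E → E →L[ℝ] E) (φ : ℝ → E → E), 0 ≤ ε → ε ≤ ε₀ →
      Pert ε g Dg → IsFlow (fun z => Alin l z + g z) φ →
      ∃ h : E ≃ₜ E, h 0 = 0 ∧ (∀ z, h (sw z) = sw (h z)) ∧
        (∀ t z, h (φ t z) = expA l t (h z)) ∧
        (∀ a b, ‖h a - h b - (a - b)‖ ≤ 1 / 2 * ‖a - b‖) ∧
        ∀ p, (h p).1 = 0 → (h p).2 ≠ 0 → ∃ L : E →L[ℝ] E, HasStrictFDerivAt h L p := by
  obtain ⟨C, ε₁, C1, e1, hA⟩ := linA l hl
  refine ⟨min ε₁ (min (1 / (100 * C)) (l.re / 16)), by positivity,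
    fun ε g Dg φ e0 hε hP hφ => ?_⟩
  obtain ⟨X, Kf, A⟩ := hA ε g Dg φ e0 (hε.trans (min_le_left _ _)) hP hφ
  obtain ⟨e2, e3⟩ := le_min_iff.1 (hε.trans (min_le_right _ _))
  rw [le_div_iff₀ (by positivity)] at e2
  obtain ⟨H, hH⟩ := linB_homeo (fun z => (X z, X (sw z))) fun a b =>
    (linB_pair A.close A.close a b).trans (by gcongr; linarith only [e2])
  have c : LinBCtx l C ε g Dg φ X Kf H :=
    ⟨hl, e0, C1, by linarith only [e2], by linarith only [e3], hP, hφ, A, hH⟩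
  obtain ⟨ψ, hψ⟩ := c.exists_ψ
  have hc := linB_pair (c.Xclose hψ) (c.Xclose hψ)
  obtain ⟨h, hh⟩ := linB_homeo _ hc
  have h0 : h 0 = 0 := by rw [hh, show sw 0 = 0 from rfl, A.X0, c.ψ0 hψ]; rfl
  refine ⟨h, h0, fun z => by rw [hh, hh]; rfl, fun t z => ?_,
    fun a b => by rw [hh, hh]; exact hc a b, fun p h1 h2 => ?_⟩
  · have := c.ψequiv hψ (X (sw z)) (-t)
    rw [Complex.ofReal_neg, mul_neg, neg_neg] at this
    rw [hh, hh, A.equiv, c.equivY, c.ψequiv hψ, this]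
    rfl
  rw [hh] at h1 h2
  have a1 : X p = 0 := by
    have : h (H.symm (X p, 0)) = h 0 := by
      rw [h0, hh, c.Xs, c.Ys, c.ψ0 hψ]
      exact Prod.ext h1 rfl
    rw [← c.Xs (X p) 0, h.injective this, A.X0]
  have a2 : X (sw p) ≠ 0 := fun e => h2 (by rw [e, c.ψ0 hψ])
  obtain ⟨L1, b1⟩ := c.strictX hψ a1
  obtain ⟨L2, b2⟩ := c.strictY a2
  obtain ⟨L3, b3⟩ := c.strictψ hψ a1 a2
  exact ⟨_, (b1.prodMk (b3.comp p b2)).congr_of_eventuallyEq
    (Eventually.of_forall fun z => (hh z).symm)⟩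

end Pool.Agent.Work.MP_05654f_an
end

-- merged part: Pool.Agent.Work.MP_05654f_an.LinC
section
/-!
The linearising chart for a reversible vector field near a bifocus.
-/

namespace Pool.Agent.Work.MP_05654f_an

open Filter Topology Set

/-- A linearising chart `h` for `F` near `0`. -/
structure LinChart (F : E → E) (l : ℂ) (δ : ℝ) (h : E ≃ₜ E) (c δ' : ℝ) : Prop where
  cpos : 0 < c
  δpos : 0 < δ'
  zero : h 0 = 0
  swap : ∀ z, h (sw z) = sw (h z)
  sol : ∀ w t, ‖expA l t w‖ ≤ c →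
    HasDerivAt (fun s => h.symm (expA l s w)) (F (h.symm (expA l t w))) t
  small : ∀ w, ‖w‖ ≤ c → ‖h.symm w‖ ≤ δ
  strict : ∀ p, (h p).1 = 0 → (h p).2 ≠ 0 →
    ∃ L : E ≃L[ℝ] E, HasStrictFDerivAt h (L : E →L[ℝ] E) p
  conj : ∀ (x : ℝ → E) (a b : ℝ), (∀ t ∈ Icc a b, HasDerivAt x (F (x t)) t ∧ ‖x t‖ ≤ δ') →
    ∀ t₀ ∈ Icc a b, ∀ t ∈ Icc a b, h (x t) = expA l (t - t₀) (h (x t₀))

lemma LinC_norm_sw (z : E) : ‖sw z‖ = ‖z‖ := by simp [sw, Prod.norm_def, max_comm]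

lemma LinC_smul_sw (r : ℝ) (z : E) : r • sw z = sw (r • z) := rfl

lemma LinC_cut : ∃ χ : E → ℝ, ContDiff ℝ 2 χ ∧ HasCompactSupport χ ∧ (∀ z, ‖z‖ ≤ 1 / 2 → χ z = 1) ∧
    (∀ z, 1 ≤ ‖z‖ → χ z = 0) ∧ (∀ z, χ (sw z) = χ z) ∧ ∀ z, ‖χ z‖ ≤ 1 := by
  let b : ContDiffBump (0 : ℂ) := ⟨1 / 2, 1, by norm_num, by norm_num⟩
  have h0 : ∀ z : E, 1 ≤ ‖z‖ → b z.1 * b z.2 = 0 := fun z hz => by
    rcases le_max_iff.1 hz with h | h
    · rw [b.zero_of_le_dist (by simpa using h), zero_mul]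
    · rw [b.zero_of_le_dist (x := z.2) (by simpa using h), mul_zero]
  refine ⟨fun z => b z.1 * b z.2, (b.contDiff.comp contDiff_fst).mul (b.contDiff.comp contDiff_snd),
    HasCompactSupport.intro (isCompact_closedBall 0 1) fun z hz => h0 z ?_, fun z hz => ?_, h0,
    fun z => mul_comm _ _, fun z => ?_⟩
  · exact (not_le.1 (by simpa using hz)).le
  · change b z.1 * b z.2 = 1
    rw [b.one_of_mem_closedBall (mem_closedBall_zero_iff.2 ((norm_fst_le z).trans hz)),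
      b.one_of_mem_closedBall (mem_closedBall_zero_iff.2 ((norm_snd_le z).trans hz)), mul_one]
  · rw [Real.norm_of_nonneg (mul_nonneg b.nonneg b.nonneg)]
    exact mul_le_one₀ b.le_one b.nonneg b.le_one

lemma LinC_pert (N : E → E) (hN : ContDiff ℝ 2 N) (N0 : N 0 = 0) (D0 : fderiv ℝ N 0 = 0)
    (rev : ∀ z, N (sw z) = -sw (N z)) {ε δ : ℝ} (hε : 0 < ε) (hδ : 0 < δ) :
    ∃ r, 0 < r ∧ r ≤ δ ∧ ∃ g Dg, Pert ε g Dg ∧ (∃ K, LipschitzWith K g) ∧
      ∀ z, ‖z‖ ≤ 1 / 2 → g z = r⁻¹ • N (r • z) := by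
  obtain ⟨χ, c2, cs, c1, c0, cw, cb⟩ := LinC_cut
  have d1 : ContDiff ℝ 1 (fderiv ℝ N) := hN.fderiv_right (by norm_num)
  obtain ⟨K, t, ht, hK⟩ := (d1.contDiffAt (x := 0)).exists_lipschitzOnWith
  obtain ⟨ρ, ρ0, hρ⟩ := Metric.nhds_basis_closedBall.mem_iff.1 ht
  obtain ⟨L1, hL1⟩ := c2.lipschitzWith_of_hasCompactSupport cs (by norm_num)
  obtain ⟨L2, hL2⟩ := (c2.fderiv_right (m := 1) (by norm_num)).lipschitzWith_of_hasCompactSupport
    (cs.fderiv ℝ) (by norm_num)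
  obtain ⟨Q, hQ⟩ : ∃ Q : ℝ, Q = (2 + 4 * L1 + 4 * L2) * K + 1 := ⟨_, rfl⟩
  have Q0 : 0 < Q := by clear * - Q L1 L2 K hQ; rw [hQ]; positivity
  obtain ⟨r, hr⟩ : ∃ r, r = min δ (min (ρ / 2) (ε / Q)) := ⟨_, rfl⟩
  have r0 : 0 < r := by rw [hr]; positivity
  have r1 : r ≤ ρ / 2 := hr ▸ (min_le_right _ _).trans (min_le_left _ _)
  have r2 : r * Q ≤ ε := (le_div_iff₀ Q0).1 (hr ▸ (min_le_right _ _).trans (min_le_right _ _))
  refine ⟨r, r0, hr ▸ min_le_left _ _, ?_⟩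
  obtain ⟨n, hn⟩ : ∃ n : E → E, n = fun z => r⁻¹ • N (r • z) := ⟨_, rfl⟩
  obtain ⟨A, hA⟩ : ∃ A : E → E →L[ℝ] E, A = fun z => fderiv ℝ N (r • z) := ⟨_, rfl⟩
  have n0 : n 0 = 0 := by simp [hn, N0]
  have A0 : A 0 = 0 := by simp [hA, D0]
  have dn : ∀ z, HasFDerivAt n (A z) z := fun z => by
    clear * - r N z hN n A hn hA r0
    have := ((hN.differentiable (by norm_num) (r • z)).hasFDerivAt.comp z
      ((hasFDerivAt_id z).const_smul r)).const_smul r⁻¹
    rw [hn, hA]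
    refine this.congr_fderiv (ContinuousLinearMap.ext fun v => ?_)
    simp [smul_smul, r0.ne']
  obtain ⟨k, hk⟩ : ∃ k : ℝ, k = K * r := ⟨_, rfl⟩
  have k0 : 0 ≤ k := by rw [hk]; positivity
  have hε' : (2 + 4 * L1 + 4 * L2) * k ≤ ε := by clear * - L1 L2 k ε K r hk r0 Q hQ r2; rw [hk]; rw [hQ] at r2; linarith only [r0, r2]
  have a1 : ∀ a b : E, ‖a‖ ≤ 2 → ‖b‖ ≤ 2 → ‖A a - A b‖ ≤ k * ‖a - b‖ := fun a b ha hb => by
    clear * - t r hρ ρ r0 r1 N a b K hK ha hb A k hA hk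
    have m : ∀ a : E, ‖a‖ ≤ 2 → r • a ∈ t := fun a ha => hρ (by
      rw [mem_closedBall_zero_iff, norm_smul, Real.norm_of_nonneg r0.le]
      linarith only [r1, r0, ha, mul_nonneg_of_nonpos_of_nonpos (le_of_lt (Mathlib.Tactic.Linarith.sub_neg_of_lt r0)) (Mathlib.Tactic.Linarith.sub_nonpos_of_le ha)])
    have := hK.norm_sub_le (m a ha) (m b hb)
    rwa [← smul_sub, norm_smul, Real.norm_of_nonneg r0.le, ← mul_assoc, ← hk, ← congrFun hA a,
      ← congrFun hA b] at this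
  have a2 : ∀ a : E, ‖a‖ ≤ 2 → ‖A a‖ ≤ 2 * k := fun a ha => by
    clear * - A a k a1 ha A0 k0
    have := a1 a 0 ha (by simp)
    rw [A0, sub_zero, sub_zero] at this
    linarith only [this, k0, ha, mul_nonneg_of_nonpos_of_nonpos (Mathlib.Tactic.Linarith.sub_nonpos_of_le k0) (Mathlib.Tactic.Linarith.sub_nonpos_of_le ha)]
  have a3 : ∀ a b : E, ‖a‖ ≤ 2 → ‖b‖ ≤ 2 → ‖n a - n b‖ ≤ 2 * k * ‖a - b‖ := fun a b ha hb =>
    (convex_closedBall (0 : E) 2).norm_image_sub_le_of_norm_hasFDerivWithin_le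
      (fun x _ => (dn x).hasFDerivWithinAt) (fun x hx => a2 x (mem_closedBall_zero_iff.1 hx))
      (mem_closedBall_zero_iff.2 hb) (mem_closedBall_zero_iff.2 ha)
  have a4 : ∀ a : E, ‖a‖ ≤ 2 → ‖n a‖ ≤ 4 * k := fun a ha => by
    clear * - n a k a3 ha n0 k0
    have := a3 a 0 ha (by simp)
    rw [n0, sub_zero, sub_zero] at this
    linarith only [this, k0, ha, mul_nonneg_of_nonpos_of_nonpos (Mathlib.Tactic.Linarith.sub_nonpos_of_le k0) (Mathlib.Tactic.Linarith.sub_nonpos_of_le ha)]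
  have b1 : ∀ a, ‖fderiv ℝ χ a‖ ≤ L1 := fun a => norm_fderiv_le_of_lipschitz ℝ hL1
  obtain ⟨Dg, hDg⟩ : ∃ Dg : E → E →L[ℝ] E,
    Dg = fun z => χ z • A z + (fderiv ℝ χ z).smulRight (n z) := ⟨_, rfl⟩
  have l1 : (0 : ℝ) ≤ L1 := L1.2
  have l2 : (0 : ℝ) ≤ L2 := L2.2
  have e0 : ∀ a : E, 1 < ‖a‖ → Dg a = 0 := fun a ha => by
    clear * - a χ ha c0 Dg A n hDg
    have : χ =ᶠ[𝓝 a] fun _ => 0 :=
      ((isOpen_lt continuous_const continuous_norm).eventually_mem ha).mono fun z hz => c0 z hz.le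
    refine ContinuousLinearMap.ext fun v => ?_
    simp [hDg, c0 a ha.le, this.fderiv_eq]
  have e1 : ∀ a b : E, 2 < ‖a‖ → ‖Dg a - Dg b‖ ≤ ε * ‖a - b‖ := fun a b ha => by
    clear * - Dg a b ε e0 ha hε χ A k cb a2 n L1 b1 a4 l1 hDg L2 hε' l2 k0
    rw [e0 a (by linarith only [ha]), zero_sub, norm_neg]
    rcases lt_or_ge 1 ‖b‖ with h | h
    · rw [e0 b h, norm_zero]; positivity
    have f1 := norm_sub_norm_le a b
    have f2 := mul_le_mul (cb b) (a2 b (by linarith only [h])) (norm_nonneg _) zero_le_one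
    have f3 := mul_le_mul (b1 b) (a4 b (by linarith only [h])) (norm_nonneg _) l1
    rw [hDg]
    refine (norm_add_le _ _).trans ?_
    rw [norm_smul, ContinuousLinearMap.norm_smulRight_apply]
    linarith only [hε', f2, f3, l2, k0, hε, ha, h, f1, mul_nonneg l2 k0, mul_pos_of_neg_of_neg (Mathlib.Tactic.Linarith.sub_neg_of_lt hε) (Mathlib.Tactic.Linarith.sub_neg_of_lt ha), mul_nonneg_of_nonpos_of_nonpos (le_of_lt (Mathlib.Tactic.Linarith.sub_neg_of_lt hε)) (Mathlib.Tactic.Linarith.sub_nonpos_of_le h), mul_nonneg_of_nonpos_of_nonpos (le_of_lt (Mathlib.Tactic.Linarith.sub_neg_of_lt hε)) (Mathlib.Tactic.Linarith.sub_nonpos_of_le f1)]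
  refine ⟨fun z => χ z • n z, Dg, ⟨fun z => hDg ▸
    (c2.differentiable (by norm_num) z).hasFDerivAt.smul (dn z), fun a b => ?_, by simp [n0],
    ContinuousLinearMap.ext fun v => by clear * - Dg v χ A n hDg A0 n0 c0; simp [hDg, n0, A0], fun z hz => by simp [c0 z hz], fun z => ?_⟩, ?_,
    fun z hz => by simp [c1 z hz, hn]⟩
  · rcases lt_or_ge 2 ‖a‖ with ha | ha
    · exact e1 a b ha
    rcases lt_or_ge 2 ‖b‖ with hb | hb
    · rw [norm_sub_rev, norm_sub_rev a]; exact e1 b a hb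
    have e : Dg a - Dg b = χ a • (A a - A b) + (χ a - χ b) • A b +
        (fderiv ℝ χ a).smulRight (n a - n b) + (fderiv ℝ χ a - fderiv ℝ χ b).smulRight (n b) := by
      clear * - Dg a b χ A n hDg
      refine ContinuousLinearMap.ext fun v => ?_
      simp only [hDg, add_apply, sub_apply,
        smul_apply, ContinuousLinearMap.smulRight_apply, smul_sub, sub_smul]
      abel
    have f1 := mul_le_mul (cb a) (a1 a b ha hb) (norm_nonneg _) zero_le_one
    have f2 := mul_le_mul (hL1.norm_sub_le a b) (a2 b hb) (norm_nonneg _) (by positivity)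
    have f3 := mul_le_mul (b1 a) (a3 a b ha hb) (norm_nonneg _) l1
    have f4 := mul_le_mul (hL2.norm_sub_le a b) (a4 b hb) (norm_nonneg _) (by positivity)
    rw [e]
    refine norm_add₄_le.trans ?_
    rw [norm_smul, norm_smul, ContinuousLinearMap.norm_smulRight_apply,
      ContinuousLinearMap.norm_smulRight_apply]
    have := mul_le_mul_of_nonneg_right hε' (norm_nonneg (a - b))
    have := mul_nonneg k0 (norm_nonneg (a - b))
    linarith
  · rw [cw, hn]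
    simp only [LinC_smul_sw, rev, smul_neg]
  · have : ContDiff ℝ 2 n := hn ▸ (hN.comp (contDiff_id.const_smul r)).const_smul r⁻¹
    exact (c2.smul this).lipschitzWith_of_hasCompactSupport cs.smul_right (by norm_num)

theorem exists_linChart (F : E → E) (hF : ContDiff ℝ 2 F) (l : ℂ) (hl : 0 < l.re)
    (F0 : F 0 = 0) (hD : HasFDerivAt F (Alin l) 0) (rev : ∀ z, F (sw z) = -sw (F z))
    (δ : ℝ) (hδ : 0 < δ) : ∃ (h : E ≃ₜ E) (c δ' : ℝ), LinChart F l δ h c δ' := by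
  obtain ⟨ε, ε0, hB⟩ := linB l hl
  obtain ⟨r, r0, rδ, g, Dg, hP, ⟨K, hK⟩, hg⟩ := LinC_pert (fun z => F z - Alin l z)
    (hF.sub (Alin l).contDiff) (by simp [F0])
    (by clear * - F l hD; simpa using (hD.fun_sub (Alin l).hasFDerivAt).fderiv)
    (fun z => by rw [rev]; ext <;> simp [sw] <;> ring) ε0 hδ
  have lip := (Alin l).lipschitz.add hK
  obtain ⟨φ, hφ⟩ := exists_flow lip
  obtain ⟨H, H0, Hs, Hc, Hl, Hd⟩ := hB ε g Dg φ ε0.le le_rfl hP hφ
  have key : ∀ u : E, ‖u‖ ≤ 1 / 2 → r • (Alin l u + g u) = F (r • u) := fun u hu => by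
    clear * - r l u g F hg hu r0
    rw [hg u hu, smul_add, smul_inv_smul₀ r0.ne', map_smul, add_sub_cancel]
  have Hn : ∀ w : E, ‖w‖ ≤ 1 / 4 → ‖H.symm w‖ ≤ 1 / 2 := fun w hw => by
    have h1 := Hl (H.symm w) 0
    rw [H0, sub_zero, sub_zero, H.apply_symm_apply] at h1
    have := norm_sub_norm_le (H.symm w) w
    rw [norm_sub_rev] at this
    linarith only [hw, h1, this]
  refine ⟨(Homeomorph.smulOfNeZero r r0.ne').symm.trans H, 1 / 4, r / 2, by norm_num, by positivity,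
    by clear * - r r0 H H0 Hs; simpa using H0, fun z => Hs (r⁻¹ • z), fun w t hw => ?_, fun w hw => ?_,
    fun p h1 h2 => ?_, fun x a b hx t₀ h0 t ht => ?_⟩
  · have e : ∀ s, H.symm (expA l s w) = φ s (H.symm w) := fun s => by
      rw [H.symm_apply_eq, Hc, H.apply_symm_apply]
    change HasDerivAt (fun s => r • H.symm (expA l s w)) (F (r • H.symm (expA l t w))) t
    rw [← key _ (Hn _ hw)]
    simp only [e]
    exact (hφ.deriv _ t).const_smul r
  · change ‖r • H.symm w‖ ≤ δ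
    rw [norm_smul, Real.norm_of_nonneg r0.le]
    clear * - r H w δ hδ rδ r0 Hn hw
    linarith only [hδ, rδ, r0, Hn, hw, Hn w hw, mul_nonneg_of_nonpos_of_nonpos (le_of_lt (Mathlib.Tactic.Linarith.sub_neg_of_lt r0)) (Mathlib.Tactic.Linarith.sub_nonpos_of_le (Hn w hw))]
  · obtain ⟨L, hL⟩ := Hd (r⁻¹ • p) h1 h2
    have h3 : ‖L - ContinuousLinearMap.id ℝ E‖ ≤ 1 / 2 :=
      (hL.hasFDerivAt.sub (hasFDerivAt_id _)).le_of_lip' (by norm_num)
        (Eventually.of_forall fun x => by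
          have := Hl x (r⁻¹ • p)
          rwa [sub_sub_sub_comm] at this)
    have h4 := hL.comp p ((hasStrictFDerivAt_id p).const_smul r⁻¹)
    refine ⟨(LinearEquiv.ofInjectiveEndo
      (L.comp (r⁻¹ • ContinuousLinearMap.id ℝ E) : E →L[ℝ] E).toLinearMap
      ((injective_iff_map_eq_zero _).2 fun v hv => ?_)).toContinuousLinearEquiv, h4⟩
    have h5 := (L - ContinuousLinearMap.id ℝ E).le_of_opNorm_le h3 (r⁻¹ • v)
    rw [sub_apply, show L (r⁻¹ • v) = 0 from hv, zero_sub, norm_neg,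
      ContinuousLinearMap.id_apply] at h5
    exact (smul_eq_zero_iff_right (inv_ne_zero r0.ne')).1
      (norm_le_zero_iff.1 (by linarith only [h5]))
  · change H (r⁻¹ • x t) = expA l (t - t₀) (H (r⁻¹ • x t₀))
    rw [← Hc, ← hφ.unique_Icc lip (x := fun t => r⁻¹ • x t) (fun s hs => ?_) h0 ht]
    have h1 : ‖r⁻¹ • x s‖ ≤ 1 / 2 := by
      rw [norm_smul, Real.norm_of_nonneg (inv_pos.2 r0).le, inv_mul_le_iff₀ r0]
      linarith only [hx, hs, (hx s hs).2]
    have h2 := key _ h1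
    rw [smul_inv_smul₀ r0.ne'] at h2
    have := (hx s hs).1.const_smul r⁻¹
    rwa [← h2, inv_smul_smul₀ r0.ne'] at this

end Pool.Agent.Work.MP_05654f_an
end
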