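import Pool.Agent.Work.MP_05654f_an.HiDef

-- merged part: Pool.Agent.Work.MP_05654f_an.Close2
section
/-!
The closed periodic system and the closing theorem.
-/

namespace Pool.Agent.Work.MP_05654f_an

open Filter Topology Set

namespace Lw

namespace Fam

variable {W : Lw} (F : W.Fam) (A : List ℕ) (n : ℕ)

/-- The period of the closed system. -/
def per : ℤ := F.b - F.a + 1 + (6 * n + 7 + A.length)

/-- The position in the period. -/
def rr (i : ℤ) : ℤ := (i - F.a) % F.per A n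

/-- The outer letters of one period. -/
def oo (j : ℤ) : ℕ := if j = 0 then F.tr else if j = 6 * n + 6 + A.length then F.tl else
  itin (A ++ blk n [[3], [5]]) (j - (2 * n + 2))

/-- The outer itinerary of the closed system. -/
def ι1 (i : ℤ) : ℕ := F.oo A n (F.rr A n i - (F.b - F.a + 1))

/-- The frozen copies. -/
def cp1 (i : ℤ) : ℤ := if F.rr A n i ≤ F.b - F.a then F.a + F.rr A n i else i

/-- Solutions of the closed system. -/
def Sol1 (u : ℝ) (s H : ℤ → ℝ) : Prop :=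
  W.Sol F.k (F.VV (F.ι1 A n) u) (F.Y u) (F.QQ fun i => F.rr A n i < F.b - F.a) (F.cp1 A n) s H

variable {F A n} {u : ℝ} {s H : ℤ → ℝ}

lemma per_pos : 0 < F.per A n := by have := F.hak; have := F.hkb; unfold per; omega

lemma rr_bd (i : ℤ) : 0 ≤ F.rr A n i ∧ F.rr A n i < F.per A n :=
  ⟨Int.emod_nonneg _ per_pos.ne', Int.emod_lt_of_pos _ per_pos⟩

lemma rr_add (i : ℤ) : F.rr A n (i + F.per A n) = F.rr A n i := by
  unfold rr; rw [add_sub_right_comm, Int.add_emod_right]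

lemma rr_in {i : ℤ} (h1 : F.a ≤ i) (h2 : i < F.a + F.per A n) : F.rr A n i = i - F.a :=
  Int.emod_eq_of_lt (by omega) (by omega)

lemma rr_left {i : ℤ} (h1 : F.a - F.per A n ≤ i) (h2 : i < F.a) :
    F.rr A n i = i - F.a + F.per A n := by
  rw [← rr_add, rr_in (by omega) (by omega)]; ring

lemma ok1 (hu : u ∈ Icc F.u1 F.u2) (hn : F.b - F.a ≤ n) : W.Ok F.k F.a F.b F.K F.ηw F.eY
    (F.VV (F.ι1 A n) u) (F.Y u) (F.QQ fun i => F.rr A n i < F.b - F.a) (F.cp1 A n) := by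
  have hak := F.hak
  have hkb := F.hkb
  have hp : F.per A n = F.b - F.a + 1 + (6 * n + 7 + A.length) := rfl
  refine ok hu (fun i h1 h2 => by rw [rr_in h1 (by omega)]; omega) fun i => ?_
  unfold cp1
  split_ifs with h
  · by_cases hi : F.a ≤ i ∧ i ≤ F.b
    · left; rw [rr_in hi.1 (by omega)]; ring
    · right
      have h0 := (rr_bd (F := F) (A := A) (n := n) i).1
      refine ⟨hi, by omega, by omega, ?_⟩
      have : F.a + F.per A n ≤ i ∨ i ≤ F.b - F.per A n := by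
        by_contra hc
        rcases le_or_gt F.a i with d | d
        · rw [rr_in d (by omega)] at h; omega
        · rw [rr_left (by omega) d] at h; omega
      rw [abs_le]; constructor <;> cases abs_cases (i - F.k) <;> omega
  · left; rfl

lemma Sol1.vx' (h : F.Sol1 A n u s H) {i : ℤ} (hi : F.b - F.a < F.rr A n i) :
    W.Vx (F.ι1 A n i) s H i := by
  have hak := F.hak
  have hkb := F.hkb
  have hp : F.per A n = F.b - F.a + 1 + (6 * n + 7 + A.length) := rfl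
  refine vx_of h (if_neg (by omega)) fun hc => ?_
  rw [rr_in hc.1 (by omega)] at hi; omega

lemma Sol1.vx'' (h : F.Sol1 A n u s H) {i : ℤ} (h1 : F.b < i) (h2 : i < F.a + F.per A n) :
    W.Vx (F.oo A n (i - F.b - 1)) s H i := by
  have hak := F.hak
  have hkb := F.hkb
  have := h.vx' (i := i) (by rw [rr_in (by omega) h2]; omega)
  rw [ι1, rr_in (by omega) h2] at this
  convert this using 2; ring

lemma Sol1.ed' (h : F.Sol1 A n u s H) {i : ℤ} (h1 : F.b ≤ i) (h2 : i < F.a + F.per A n) :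
    Edge W.q s H i := by
  have hak := F.hak
  have hkb := F.hkb
  exact ed_of h (by rw [rr_in (by omega) h2]; omega)

lemma Sol1.core (h : F.Sol1 A n u s H) :
    W.Core F.k F.a F.b F.tl F.tr F.qw (F.V u) (F.Y u) s H := by
  have hak := F.hak
  have hkb := F.hkb
  have hp : F.per A n = F.b - F.a + 1 + (6 * n + 7 + A.length) := rfl
  have e1 : F.rr A n (F.a - 1) = F.per A n - 1 := by rw [rr_left (by omega) (by omega)]; ring
  refine core_of h (fun i h1 h2 => ?_) (fun i h1 h2 => by rw [rr_in h1 (by omega)]; omega)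
    (by rw [e1]; omega) (by rw [rr_in (by omega) (by omega)]; omega) ?_ ?_
  · unfold cp1
    split_ifs with hc
    · rcases eq_or_lt_of_le h1 with d | d
      · rw [← d, e1] at hc; omega
      · rw [rr_in (by omega) (by omega)]; ring
    · rfl
  · rw [ι1, e1, oo, if_neg (by omega), if_pos (by omega)]
  · rw [ι1, rr_in (by omega) (by omega), oo, if_pos (by omega)]

lemma Sol1.dl (hu : u ∈ Icc F.u1 F.u2) (hn : F.b - F.a ≤ n) (h : F.Sol1 A n u s H) (b : ℤ) :
    W.DL ((fun j => s (j + F.per A n)) - s) ((fun j => H (j + F.per A n)) - H) b := by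
  have hok := ok1 (A := A) hu hn
  refine ⟨fun i _ => ⟨?_, ?_⟩, fun i _ => (abs_sub _ _).trans
    (by linarith only [hok, h, Sol.bd hok h i, Sol.bd hok h (i + F.per A n)])⟩
  · refine Edge.de (hok.lipQ i) (edge_shift ?_) (h.ed i)
    have := h.ed (i + F.per A n)
    rwa [QQ_congr (C' := fun i => F.rr A n i < F.b - F.a) (j := i) (by rw [rr_add])] at this
  · by_cases hi : F.rr A n i ≤ F.b - F.a
    · intro m a1 _ _ _ _ _
      have e : F.cp1 A n (i + F.per A n) = F.cp1 A n i := by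
        simp only [cp1, rr_add, if_pos hi]
      have hm : 0 ≤ m := (abs_nonneg _).trans a1
      have := W.Λ1; have := W.e0; have := W.l0
      simp only [Pi.sub_apply]
      rw [h.vx i, h.vx (i + F.per A n), e, sub_self, abs_zero]
      positivity
    · have a1 := h.vx' (i := i + F.per A n) (by rw [rr_add]; omega)
      rw [ι1, rr_add] at a1
      exact a1.shift.dv (h.vx' (by omega))

lemma near (hu : u ∈ Icc F.u1 F.u2) (hn : F.b - F.a ≤ n) (h : F.Sol1 A n u s H) {s0 H0 : ℤ → ℝ}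
    (h0 : F.Sol0 u s0 H0) {i : ℤ} (hi : |i - F.k| ≤ n + 2 + (F.b - F.a)) :
    |H i - H0 i| ≤ 8 * F.K * W.B * 2 ^ (F.b - F.a) * (1 / 2) ^ n := by
  have hak := F.hak
  have hkb := F.hkb
  have hp : F.per A n = F.b - F.a + 1 + (6 * n + 7 + A.length) := rfl
  have hok := ok1 (A := A) hu hn
  have hB := W.B1
  have hK : 1 ≤ F.K := W.Λ1.trans F.hK
  have far : ∀ j, ¬(F.a - 2 * n - 2 ≤ j ∧ j ≤ F.b + 2 * n + 2) →
      2 * W.B ≤ 2 * W.B * 2⁻¹ ^ (2 * n + 2) * 2 ^ |j - F.k| := by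
    intro j hj
    have := pow_aux (μ := 2) (C := 2 * W.B) (E := 0) (d := |j - F.k|) (n := 2 * n + 2) le_rfl
      (by linarith only [hB]) le_rfl (by push_cast; cases abs_cases (j - F.k) <;> omega)
    linarith only [this]
  have hε : ∀ j, 0 ≤ 2 * W.B * 2⁻¹ ^ (2 * n + 2) * 2 ^ |j - F.k| := fun j => by positivity
  have zone : ∀ j, F.a - 2 * n - 2 ≤ j → j ≤ F.b + 2 * n + 2 → F.cp1 A n j = j ∧
      F.VV (F.ι1 A n) u j = F.VV F.ι0 u j ∧ (F.rr A n j < F.b - F.a ↔ F.a ≤ j ∧ j < F.b) := by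
    intro j h1 h2
    rcases lt_or_ge j F.a with d | d
    · have e := rr_left (F := F) (A := A) (n := n) (i := j) (by omega) d
      refine ⟨if_neg (by omega), ?_, by omega⟩
      rw [VV, VV, if_neg (by omega), if_neg (by omega), ι1, e, oo, ι0, itin_two]
      congr 1
      split_ifs <;> first | rfl | omega
    · have e := rr_in (F := F) (A := A) (n := n) d (by omega)
      refine ⟨by unfold cp1; split_ifs <;> omega, ?_, by omega⟩
      unfold VV
      split_ifs with hc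
      · rfl
      · rw [ι1, e, oo, ι0, itin_neg _ (by omega)]
        congr 1
        split_ifs <;> first | rfl | omega
  have := (hok.stab h (Sol.bd (ok0 hu) h0) (Sol.ebd (ok0 hu) h0)
    (ε := 2 * W.B * 2⁻¹ ^ (2 * n + 2)) (fun j => by
      by_cases hj : F.a - 2 * n - 2 ≤ j ∧ j ≤ F.b + 2 * n + 2
      · obtain ⟨e1, e2, -⟩ := zone j hj.1 hj.2
        have e3 := h0.vx j
        rw [id] at e3
        rw [e1, e2, ← e3, sub_self, abs_zero]; exact hε j
      · refine le_trans ((abs_sub _ _).trans ?_) (far j hj)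
        linarith only [hok, hu, h0, hok.bd (F.cp1 A n j) (H0 (F.cp1 A n j)) s0 H0 (F.cp1 A n j), Sol.bd (ok0 hu) h0 j])
    (by rw [← h0.an, sub_self, abs_zero]; positivity) (fun j => by
      by_cases hj : F.a - 2 * n - 2 ≤ j ∧ j ≤ F.b + 2 * n + 2
      · obtain ⟨-, -, e3⟩ := zone j hj.1 hj.2
        have e4 := h0.ed j
        rw [QQ_congr (C := fun i => F.rr A n i < F.b - F.a) (C' := fun i => F.a ≤ i ∧ i < F.b)
          (i := j) (j := j) e3, e4, sub_self, abs_zero]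
        exact hε j
      · refine le_trans ((abs_sub _ _).trans ?_) (far j hj)
        have a1 := Sol.ebd (ok0 hu) h0 j
        have a2 := (hok.lipQ j).size (hok.antiQ j) (s0 j) (s0 (j + 1)) ((H0 j + H0 (j + 1)) / 2)
        have a3 : |s0 j - s0 (j + 1)| ≤ 2 * W.B := (abs_sub _ _).trans
          (by linarith only [hu, h0, Sol.bd (ok0 hu) h0 j, Sol.bd (ok0 hu) h0 (j + 1)])
        have a4 := mul_le_mul_of_nonneg_left a3 W.η0
        have a5 := W.sηΛ
        have a6 : W.η ≤ W.η * W.Λ := le_mul_of_one_le_right W.η0 W.Λ1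
        rw [abs_mul, abs_two]
        linarith only [hB, a1, a2, a4, a5, a6, mul_nonneg_of_nonpos_of_nonpos (Mathlib.Tactic.Linarith.sub_nonpos_of_le hB) (Mathlib.Tactic.Linarith.sub_nonpos_of_le a5), mul_nonneg_of_nonpos_of_nonpos (Mathlib.Tactic.Linarith.sub_nonpos_of_le hB) (Mathlib.Tactic.Linarith.sub_nonpos_of_le a6)]) i).1
  refine this.trans ((mul_le_mul_of_nonneg_left (two_zpow_le hi) (by positivity)).trans_eq ?_)
  have e2 : (2 : ℝ) ^ (n + 2) * 2⁻¹ ^ (n + 2) = 1 := by rw [← mul_pow]; norm_num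
  have e3 : (2 : ℝ)⁻¹ ^ (2 * n + 2) = 2⁻¹ ^ (n + 2) * (1 / 2) ^ n := by
    rw [one_div, ← pow_add]; congr 1; ring
  have e4 : (2 : ℝ) ^ ((n : ℤ) + 2) = 2 ^ (n + 2) := by rw [← zpow_natCast]; push_cast; rfl
  rw [zpow_add₀ (by norm_num), e3, e4]
  linear_combination (8 * F.K * W.B * 2 ^ (F.b - F.a) * (1 / 2) ^ n) * e2

lemma Sol1.seg (hu : u ∈ Icc F.u1 F.u2) (hn : F.b - F.a ≤ n) (h : F.Sol1 A n u s H) :
    W.Seg (fun i => itin (A ++ blk n [[3], [5]]) (i - (F.b + 2 * n + 3))) s H (F.b + 1)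
      (F.a - 1 + F.per A n) := by
  have hp : F.per A n = F.b - F.a + 1 + (6 * n + 7 + A.length) := rfl
  refine ⟨fun i h1 h2 => ?_, fun i h1 h2 => h.ed' (by omega) (by omega), Sol.bd (ok1 hu hn) h _,
    Sol.bd (ok1 hu hn) h _⟩
  have := h.vx'' (i := i) (by omega) (by omega)
  rw [oo, if_neg (by omega), if_neg (by omega)] at this
  convert this using 2; ring

lemma Sol1.per (hu : u ∈ Ioo F.u1 F.u2) (hn : F.b - F.a ≤ n) (h : F.Sol1 A n u s H)
    (hA : ∀ j, OkT (itin A j)) (hd : H (F.k + F.per A n) = H F.k)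
    (hg : ∀ i, F.b + n + 2 < i → i ≤ F.a - n - 2 + F.per A n → |H i| ≤ 12 * W.R) : W.Per := by
  have hak := F.hak
  have hkb := F.hkb
  have hp : F.per A n = F.b - F.a + 1 + (6 * n + 7 + A.length) := rfl
  have hu' := Ioo_subset_Icc_self hu
  have hok := ok1 (A := A) hu' hn
  have key := cmpZ (h.dl hu' hn) (k := F.k) (E := 0) (by simp [hd])
  have ps : ∀ i, s (i + F.per A n) = s i := fun i => by simpa [sub_eq_zero] using (key i).2
  have pH : ∀ i, H (i + F.per A n) = H i := fun i => by simpa [sub_eq_zero] using (key i).1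
  have hc := W.c0
  have hR := W.cR
  have hηB := W.ηB
  have hRB := W.RB
  have hcore := F.bd u hu' s H h.core
  have hlow : ∀ i, F.b < i → i < F.a + F.per A n → |H i| ≤ 12 * W.R := by
    intro i h1 h2
    by_cases c1 : i ≤ F.b + n + 2
    · have a1 := ((h.seg hu' hn).sub (ι' := fun _ => 1) (b' := F.b + 2 * n + 3) le_rfl (by omega)
        (by omega) fun j _ _ => itin_neg _ (by omega)).run2 (fun _ _ _ => rfl) (i := F.b + 1)
        (j := i) le_rfl (by omega) (by omega) (by omega)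
      have a2 := Sol.ebd hok h F.b
      have a3 := hcore F.b (by omega) le_rfl
      rw [abs_le] at *
      constructor <;> linarith only [hc, hR, hηB, a1, a2, a3, a1.1, a1.2, a2.1, a2.2, a3.1, a3.2]
    by_cases c2 : i ≤ F.a - n - 2 + F.per A n
    · exact hg i (by omega) c2
    · have a1 := ((h.seg hu' hn).sub (ι' := fun _ => 1) (a' := F.a - 1 + F.per A n - (2 * n + 2))
        (by omega) (by omega) le_rfl fun j _ _ => by
          rw [itin_two]; split_ifs <;> first | rfl | omega).run2 (fun _ _ _ => rfl)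
        (i := F.a - 1 + F.per A n) (j := i) (by omega) le_rfl (by omega) (by omega)
      have a2 := Sol.ebd hok h (F.a - 1)
      have a3 := hcore F.a le_rfl (by omega)
      rw [pH] at a1
      rw [sub_add_cancel] at a2
      rw [abs_le] at *
      constructor <;> linarith only [hc, hR, hηB, a1, a2, a3, a1.1, a1.2, a2.1, a2.2, a3.1, a3.2]
  have hoo : ∀ j, F.oo A n j ≤ 5 ∧ (F.oo A n j = 3 → j = 2 * n + 2 + A.length) ∧
      (F.oo A n j = 5 → j = 4 * n + 4 + A.length) := by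
    intro j
    have a1 := F.htl
    have a2 := F.htr
    have a3 := hA (j - (2 * n + 2))
    unfold OkT at a1 a2 a3
    rw [oo, itin_two]
    split_ifs <;> omega
  have hadm : ∀ i, F.b < i → i < F.a + F.per A n →
      OnSp W.κ W.Θ s H i ∧ W.Mk (F.oo A n (i - F.b - 1)) (s i) := fun i h1 h2 =>
    (h.vx'' h1 h2).adm (hoo _).1 (hlow i h1 h2)
  refine per_intro (a := F.a) (i1 := F.b + 2 * n + 3 + A.length)
    (i2 := F.b + 4 * n + 5 + A.length) ps pH (fun i h1 h2 => ?_) (A := W.Mk 3) (A' := W.Mk 5)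
    ?_ (fun i h1 h2 h3 => ?_) ?_ (fun i h1 h2 h3 => ?_) (by omega) (by omega)
  · refine ⟨Sol.bd hok h i, ?_⟩
    rcases le_or_gt i F.b with d | d
    · obtain ⟨a1, -, -, a2⟩ := F.adm u hu s H h.core i h1 d
      refine ⟨(hcore i h1 d).trans (by linarith only [hc, hR, hRB]), ?_, a1⟩
      rcases eq_or_lt_of_le d with e | e
      · exact h.ed' e.ge h2
      · exact a2 e
    · exact ⟨(hlow i d h2).trans hRB, h.ed' d.le h2, (hadm i d h2).1⟩
  · have := (hadm (F.b + 2 * n + 3 + A.length) (by omega) (by omega)).2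
    rw [oo, itin_two, if_neg (by omega), if_neg (by omega), if_neg (by omega),
      if_pos (by omega)] at this
    exact this
  · rcases le_or_gt i F.b with d | d
    · exact absurd h3 (F.adm u hu s H h.core i h1 d).2.1
    · have := (hoo _).2.1 (W.mk_inj _ (hoo _).1 3 (by norm_num) _ (hadm i d h2).2 h3)
      omega
  · have := (hadm (F.b + 4 * n + 5 + A.length) (by omega) (by omega)).2
    rw [oo, itin_two, if_neg (by omega), if_neg (by omega), if_neg (by omega), if_neg (by omega),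
      if_pos (by omega)] at this
    exact this
  · rcases le_or_gt i F.b with d | d
    · exact absurd h3 (F.adm u hu s H h.core i h1 d).2.2.1
    · have := (hoo _).2.2 (W.mk_inj _ (hoo _).1 5 (by norm_num) _ (hadm i d h2).2 h3)
      omega

end Fam

theorem closing {W : Lw} (F : W.Fam) {x x' : ℝ → ℝ} (hx : ∀ u ∈ Icc F.u1 F.u2, F.Lim u (x u) (x' u))
    {L : List (List ℕ)} (hL : OkL L)
    (hs : (W.it L (x' F.u1) - x F.u1) * (W.it L (x' F.u2) - x F.u2) < 0)
    (hg : ∀ u ∈ Icc F.u1 F.u2, W.it L (x' u) = x u → W.GoodL L (x' u)) : W.Per := by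
  have hak := F.hak
  have hkb := F.hkb
  have hc := W.c0
  have hR := W.cR
  have hR0 := W.R0
  choose! s0 H0 hs0 hl hr using hx
  have c0 := Fam.cont_sol (fun u hu => Fam.ok0 hu) hs0
  have cx : ContinuousOn x (Icc F.u1 F.u2) :=
    cont_of_geom (c0 F.a).2 (c0 F.a).1 fun n u hu u' hu' =>
      LC ((hs0 u hu).lch hu) ((hs0 u' hu').lch hu') (fun i hi => Fam.ι0_left hi) (hl u hu)
        (hl u' hu') (by omega) (le_add_of_nonneg_right (abs_nonneg _))
        (le_add_of_nonneg_left (abs_nonneg _)) n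
  have cx' : ContinuousOn x' (Icc F.u1 F.u2) :=
    cont_of_geom (c0 (0 - (0 - F.b))).2 (c0 (0 - (0 - F.b))).1 fun n u hu u' hu' =>
      LC ((hs0 u hu).rch hu 0) ((hs0 u' hu').rch hu' 0) (a0 := 0 - F.b - 1)
        (fun i hi => Fam.ι0_right (by omega)) ((hr u hu).refl 0)
        ((hr u' hu').refl 0) (by omega) (le_add_of_nonneg_right (abs_nonneg _))
        (le_add_of_nonneg_left (abs_nonneg _)) n
  set f : ℝ → ℝ := fun u => W.it L (x' u) - x u with hf
  have cf : ContinuousOn f (Icc F.u1 F.u2) := ((W.it L).continuous.comp_continuousOn cx').sub cx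
  have hcl := cx'.preimage_isClosed_of_isClosed isClosed_Icc (W.isOpen_goodL L).isClosed_compl
  obtain ⟨τ0, hτ0, hτ⟩ := (isCompact_Icc.of_isClosed_subset hcl inter_subset_left).exists_forall_le'
    (f := fun u => |f u|) (cf.abs.mono inter_subset_left) (a := 0)
    fun u hu => abs_pos.2 fun e => hu.2 (hg u hu.1 (sub_eq_zero.1 e))
  change f F.u1 * f F.u2 < 0 at hs
  have f1 : 0 < |f F.u1| := abs_pos.2 fun e => by simp [e] at hs
  have f2 : 0 < |f F.u2| := abs_pos.2 fun e => by simp [e] at hs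
  obtain ⟨τ, τpos, t0, t1, t2, t3⟩ : ∃ τ, 0 < τ ∧ τ ≤ τ0 ∧ τ ≤ |f F.u1| ∧ τ ≤ |f F.u2| ∧
      τ ≤ W.R / 2 := ⟨min (min τ0 |f F.u1|) (min |f F.u2| (W.R / 2)),
    lt_min (lt_min hτ0 f1) (lt_min f2 (by linarith only [hR0])), (min_le_left _ _).trans (min_le_left _ _),
    (min_le_left _ _).trans (min_le_right _ _), (min_le_right _ _).trans (min_le_left _ _),
    (min_le_right _ _).trans (min_le_right _ _)⟩
  obtain ⟨δ, hδ, n0, hj⟩ := W.juncL (L ++ [[3], [5]]) (ε := τ / 4) (by linarith only [τpos])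
  obtain ⟨n1, hn1⟩ := exists_pow_lt (C := 8 * F.K * W.B * 2 ^ (F.b - F.a) + W.c)
    (lt_min hδ (by linarith only [τpos] : 0 < τ / 4)) (θ := 1 / 2) (by norm_num) (by norm_num)
  set n := max (max n0 n1) (F.b - F.a).toNat with hn
  have hn2 : F.b - F.a ≤ n := by omega
  have hn3 := hn1 n (by omega)
  rw [lt_min_iff, add_mul] at hn3
  set A := blk n L with hA
  have hp : F.per A n = F.b - F.a + 1 + (6 * n + 7 + A.length) := rfl
  choose! s H h using fun u hu => (Fam.ok1 (F := F) (A := A) (u := u) hu hn2).exists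
  have hit : ∀ y, W.it (L ++ [[3], [5]]) y = W.it L y := fun y => by
    rw [it_append]
    change W.hh [5] (W.hh [3] (W.it L y)) = _
    rw [hh_pal rfl, hh_pal rfl]
  have main : ∀ u ∈ Icc F.u1 F.u2,
      |H u (F.a - n - 2 + F.per A n) - H u (F.a - n - 2) - f u| ≤ τ / 2 ∧
      (W.GoodL (L ++ [[3], [5]]) (x' u) → ∀ i, F.b + n + 2 < i → i ≤ F.a - n - 2 + F.per A n →
        |H u i| ≤ 12 * W.R) := by
    intro u hu
    have a1 := Fam.near hu hn2 (h u hu) (hs0 u hu) (i := F.a - n - 2)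
      (by rw [abs_le]; omega)
    have a2 := Fam.near hu hn2 (h u hu) (hs0 u hu) (i := F.b + n + 2)
      (by rw [abs_le]; omega)
    have a3 := (hs0 u hu).bdL hu (hl u hu) (j := F.a - n - 2) (by omega)
    have a4 := (hs0 u hu).bdR hu (hr u hu) (j := F.b + n + 2) (by omega)
    have a5 := mul_le_mul_of_nonneg_left ((eight_le (j := F.a - n - 2 - (F.a - 1)) (n := n)
      (by omega)).trans (eighth_le_half n)) hc
    have a6 := mul_le_mul_of_nonneg_left ((eight_le (j := F.b + 1 - (F.b + n + 2)) (n := n)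
      (by omega)).trans (eighth_le_half n)) hc
    have el := length_two A n 3 5
    have hseg := ((Fam.Sol1.seg hu hn2 (h u hu)).sub
      (a' := -(2 * (n : ℤ) + 2) + (F.b + 2 * n + 3))
      (b' := (A ++ blk n [[3], [5]]).length + (F.b + 2 * n + 3)) (by omega) (by omega) (by omega)
      fun _ _ _ => rfl).shift
    simp only [add_sub_cancel_right] at hseg
    have e1 : -((n : ℤ) + 1) + (F.b + 2 * n + 3) = F.b + n + 2 := by ring
    have e2 : ((A ++ blk n [[3], [5]]).length : ℤ) - (n + 1) + (F.b + 2 * n + 3) =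
        F.a - n - 2 + F.per A n := by omega
    have := hj n (by omega) (fun j => s u (j + (F.b + 2 * n + 3)))
      (fun j => H u (j + (F.b + 2 * n + 3))) (x' u) (by rw [blk_append]; exact hseg) (by
        simp only [e1]
        rw [abs_le] at *
        constructor <;> linarith only [hn3, a2, a4, a6, a2.1, a2.2, a4.1, a4.2, hn3.1])
    rw [blk_append, hit] at this
    simp only [← hA, e2] at this
    obtain ⟨b1, b2⟩ := this
    refine ⟨?_, fun g i i1 i2 => ?_⟩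
    · simp only [hf]
      rw [abs_le] at *
      constructor <;> linarith only [hn3, a1, a3, a5, b1, a1.1, a1.2, a3.1, a3.2, b1.1, b1.2, hn3.2]
    · have := b2 g (i - (F.b + 2 * n + 3)) (by omega) (by omega)
      rw [sub_add_cancel] at this
      linarith only [τpos, t3, this]
  set d : ℝ → ℝ := fun u => H u (F.k + F.per A n) - H u F.k with hd
  have c1 := Fam.cont_sol (fun u hu => Fam.ok1 (A := A) hu hn2) h
  have cd : ContinuousOn d (Icc F.u1 F.u2) := (c1 _).1.sub (c1 _).1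
  have sp : ∀ u ∈ Icc F.u1 F.u2, τ ≤ f u → 0 < d u := fun u hu e =>
    persZ (Fam.Sol1.dl hu hn2 (h u hu)) (k := F.a - n - 2)
      (by simp only [Pi.sub_apply]; linarith only [τpos, e, main, hu, (abs_le.1 (main u hu).1).1]) F.k
  have sn : ∀ u ∈ Icc F.u1 F.u2, f u ≤ -τ → d u < 0 := fun u hu e => by
    have := persZ (fun b => (Fam.Sol1.dl hu hn2 (h u hu) b).neg) (k := F.a - n - 2)
      (by simp only [Pi.sub_apply, Pi.neg_apply]; linarith only [τpos, e, main, hu, (abs_le.1 (main u hu).1).2]) F.k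
    simpa [hd] using this
  have m1 := left_mem_Icc.2 F.hu
  have m2 := right_mem_Icc.2 F.hu
  obtain ⟨u, hu, e⟩ : ∃ u ∈ Icc F.u1 F.u2, d u = 0 := by
    rcases mul_neg_iff.1 hs with g | g
    · rw [abs_of_pos g.1] at t1
      rw [abs_of_neg g.2] at t2
      exact intermediate_value_Icc' F.hu cd ⟨(sn _ m2 (by linarith only [t2])).le, (sp _ m1 t1).le⟩
    · rw [abs_of_neg g.1] at t1
      rw [abs_of_pos g.2] at t2
      exact intermediate_value_Icc F.hu cd ⟨(sn _ m1 (by linarith only [t1])).le, (sp _ m2 t2).le⟩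
  have hfu : |f u| < τ := by
    rw [abs_lt]
    constructor
    · by_contra g; exact (sn u hu (by linarith only [g])).ne e
    · by_contra g; exact (sp u hu (by linarith only [g])).ne' e
  have hin : u ∈ Ioo F.u1 F.u2 :=
    ⟨lt_of_le_of_ne hu.1 fun g => by rw [← g] at hfu; linarith only [t1, hfu],
      lt_of_le_of_ne hu.2 fun g => by rw [g] at hfu; linarith only [t2, hfu]⟩
  have g1 : W.GoodL L (x' u) := by
    by_contra g
    linarith only [t0, hfu, hτ, hu, g, hτ u ⟨hu, g⟩]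
  have g2 : |W.it L (x' u)| ≤ 7 * W.R := by
    have a1 := (hs0 u hu).nearL hu (hl u hu)
    have a2 := F.bd u hu _ _ (hs0 u hu).core F.a le_rfl (by omega)
    simp only [hf] at hfu
    rw [abs_lt] at hfu
    rw [abs_le] at *
    constructor <;> linarith only [hR, τpos, t3, a1, a2, hfu, a1.1, a1.2, a2.1, a2.2, hfu.1, hfu.2]
  exact Fam.Sol1.per hin hn2 (h u hu) (blk_ok hL n) (sub_eq_zero.1 e) ((main u hu).2
    (goodL_append g1 ⟨good_single 3 g2, good_single 5 (by rwa [hh_pal rfl]), trivial⟩))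

end Lw

end Pool.Agent.Work.MP_05654f_an
end

-- merged part: Pool.Agent.Work.MP_05654f_an.Move
section
/-!
Without periodic chains there are small movers and small non-identity words.
-/

namespace Pool.Agent.Work.MP_05654f_an

open Filter Topology Set

namespace Lw

variable {W : Lw} {ι : ℤ → ℕ} {s H : ℤ → ℝ} {n t1 t2 : ℕ} {y σ : ℝ}

/-- Letters other than `1` occur only at multiples of `M`. -/
def Sparse (M : ℤ) (ι : ℤ → ℕ) : Prop := ∀ i, ι i ≠ 1 → M ∣ i

lemma Sparse.one {M m i : ℤ} (h : Sparse M ι) (hM : 0 < M) (h1 : m * M < i) (h2 : i < (m + 1) * M) :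
    ι i = 1 := by
  by_contra hc
  obtain ⟨t, rfl⟩ := h i hc
  have a1 : m < t := by by_contra g; linarith only [h1, g, hM, mul_nonneg_of_nonpos_of_nonpos (Mathlib.Tactic.Linarith.sub_nonpos_of_le (Int.add_one_le_iff.mpr hM)) (Mathlib.Tactic.Linarith.sub_nonpos_of_le (le_of_not_gt g))]
  have a2 : t < m + 1 := by by_contra g; linarith only [h2, a1, hM, mul_nonneg_of_nonpos_of_nonpos (Mathlib.Tactic.Linarith.sub_nonpos_of_le (Int.add_one_le_iff.mpr hM)) (Mathlib.Tactic.Linarith.sub_nonpos_of_le (Int.add_one_le_iff.mpr a1))]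
  omega

lemma zs {M : ℤ} (h : W.Ch ι s H) (hM : 0 < M) (hs : Sparse M ι) {i j : ℤ} (hij : |i - j| ≤ 3 * M) :
    |H i - H j| ≤ 12 * W.c := by
  have hc := W.c0
  have k0 : ∀ m i j : ℤ, m * M ≤ i → i ≤ (m + 1) * M → m * M ≤ j → j ≤ (m + 1) * M →
      |H j - H i| ≤ 2 * W.c := fun m i j a b c d =>
    (h.seg _ _).run2 (fun _ e f => hs.one hM e f) a b c d
  have k1 : ∀ i j : ℤ, i ≤ j → j ≤ i + M → |H j - H i| ≤ 4 * W.c := by
    intro i j a b
    have e1 := Int.emod_add_ediv_mul i M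
    have e2 := Int.emod_nonneg i hM.ne'
    have e3 := Int.emod_lt_of_pos i hM
    have e4 : (i / M + 1) * M = i / M * M + M := by ring
    have e5 : (i / M + 1 + 1) * M = i / M * M + M + M := by ring
    rcases le_total j ((i / M + 1) * M) with d | d
    · exact (k0 (i / M) i j (by omega) (by omega) (by omega) d).trans (by linarith only [hc])
    · have b1 := k0 (i / M) i ((i / M + 1) * M) (by omega) (by omega) (by omega) le_rfl
      have b2 := k0 (i / M + 1) ((i / M + 1) * M) j le_rfl (by omega) d (by omega)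
      linarith only [b1, b2, abs_sub_le (H j) (H ((i / M + 1) * M)) (H i)]
  have k2 : ∀ i j : ℤ, i ≤ j → j ≤ i + 3 * M → |H j - H i| ≤ 12 * W.c := by
    intro i j a b
    have b1 := k1 i (min (i + M) j) (by omega) (by omega)
    have b2 := k1 (min (i + M) j) (min (i + 2 * M) j) (by omega) (by omega)
    have b3 := k1 (min (i + 2 * M) j) j (by omega) (by omega)
    linarith only [b1, b2, b3, abs_sub_le (H j) (H (min (i + 2 * M) j)) (H i),
      abs_sub_le (H (min (i + 2 * M) j)) (H (min (i + M) j)) (H i)]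
  rw [abs_le] at hij
  rcases le_total i j with d | d
  · rw [abs_sub_comm]; exact k2 i j d (by omega)
  · exact k2 j i d (by omega)

/-- The periodic itinerary with three separated letters. -/
def ιw (n t1 t2 : ℕ) (i : ℤ) : ℕ := itin (blk n [[0], [t1], [t2]]) (i % (6 * n + 6))

lemma itin_wd (n t1 t2 : ℕ) (j : ℤ) : itin (blk n [[0], [t1], [t2]]) j =
    if j = 0 then 0 else if j = 2 * n + 2 then t1 else if j = 4 * n + 4 then t2 else 1 := by
  have el : (([0] ++ List.replicate (2 * n + 1) 1).length : ℤ) = 2 * n + 2 := by simp; ring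
  rw [blk_cons, itin_two, itin_pad, itin_single, el]
  split_ifs <;> first | rfl | omega

lemma ιw_add (i m : ℤ) : ιw n t1 t2 (i + m * (6 * n + 6)) = ιw n t1 t2 i := by
  unfold ιw; rw [Int.add_mul_emod_self_right]

lemma ιw_in {i : ℤ} (h1 : 0 ≤ i) (h2 : i < 6 * n + 6) :
    ιw n t1 t2 i = itin (blk n [[0], [t1], [t2]]) i := by
  unfold ιw; rw [Int.emod_eq_of_lt h1 h2]

lemma ιw_sparse : Sparse (2 * n + 2) (ιw n t1 t2) := by
  intro i h
  have e1 := Int.emod_add_ediv_mul i (6 * n + 6)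
  rw [ιw, itin_wd] at h
  split_ifs at h with a b c
  · exact ⟨3 * (i / (6 * n + 6)), by linarith only [e1, a]⟩
  · exact ⟨3 * (i / (6 * n + 6)) + 1, by linarith only [e1, b]⟩
  · exact ⟨3 * (i / (6 * n + 6)) + 2, by linarith only [e1, c]⟩
  · exact absurd rfl h

/-- The two admissible orders. -/
def Ord (t1 t2 : ℕ) : Prop := (t1 = 2 ∧ t2 = 4) ∨ (t1 = 4 ∧ t2 = 2)

lemma ιw_ok (h : Ord t1 t2) (i : ℤ) : OkT (ιw n t1 t2 i) := by
  unfold OkT Ord at *
  rw [ιw, itin_wd]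
  split_ifs <;> omega

lemma ιw_refl (i : ℤ) : ιw n t1 t2 (6 * n + 6 - i) = ιw n t2 t1 i := by
  have e1 := Int.emod_add_ediv_mul i (6 * n + 6)
  have e2 := Int.emod_nonneg i (by omega : (6 * n + 6 : ℤ) ≠ 0)
  have e3 := Int.emod_lt_of_pos i (by omega : (0 : ℤ) < 6 * n + 6)
  rw [ιw.eq_1 n t2 t1, itin_wd]
  by_cases h : i % (6 * n + 6) = 0
  · have : (6 * n + 6 - i : ℤ) = 0 + (1 - i / (6 * n + 6)) * (6 * n + 6) := by linarith only [e1, h, e2]
    rw [this, ιw_add, ιw_in le_rfl (by omega), itin_wd, if_pos rfl, if_pos h]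
  · have : (6 * n + 6 - i : ℤ) = 6 * n + 6 - i % (6 * n + 6) + (-(i / (6 * n + 6))) * (6 * n + 6) := by
      linarith only [e1]
    rw [this, ιw_add, ιw_in (by omega) (by omega), itin_wd]
    split_ifs <;> first | rfl | omega

/-- The prefix of `m` periods. -/
def pw (n t1 t2 m : ℕ) : List ℕ := (List.range (m * (6 * n + 6))).map fun j : ℕ => ιw n t1 t2 j

lemma itin_pw (m : ℕ) (i : ℤ) : itin (pw n t1 t2 m) i =
    if 0 ≤ i ∧ i < m * (6 * n + 6) then ιw n t1 t2 i else 1 := by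
  have el : ((pw n t1 t2 m).length : ℤ) = m * (6 * n + 6) := by simp [pw]
  split_ifs with h
  · unfold itin
    rw [if_pos h.1, List.getD_eq_getElem _ _ (by omega)]
    simp only [pw, List.getElem_map, List.getElem_range]
    rw [Int.toNat_of_nonneg h.1]
  · rcases lt_or_ge i 0 with d | d
    · exact itin_neg _ d
    · exact itin_ge _ (by omega)

lemma pw_ok (h : Ord t1 t2) (m : ℕ) : ∀ t ∈ pw n t1 t2 m, OkT t := by
  intro t ht
  obtain ⟨j, -, rfl⟩ := List.mem_map.1 ht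
  exact ιw_ok h _

lemma pw_sparse (m : ℕ) : Sparse (2 * n + 2) (itin (pw n t1 t2 m)) := by
  intro i h
  rw [itin_pw] at h
  split_ifs at h
  · exact ιw_sparse i h
  · exact absurd rfl h

lemma pw_tail (m : ℕ) {i : ℤ} (h : m * (6 * n + 6) - (2 * n + 2) < i) :
    itin (pw n t1 t2 m) i = 1 := by
  rcases lt_or_ge i (m * (6 * n + 6)) with d | d
  · exact (pw_sparse m).one (m := 3 * m - 1) (by omega) (by linarith only [h]) (by linarith only [d])
  · rw [itin_pw, if_neg (by omega)]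

lemma hh_pw0 : W.hh (pw n t1 t2 0) y = y := hh_pal (by simp [pw]) y

lemma approx (m : ℕ) (h : W.Ch ι s H) (hy : LL H y)
    (e : ∀ i < (m : ℤ) * (6 * n + 6), ι i = itin (pw n t1 t2 m) i) :
    |H (m * (6 * n + 6) - (n + 1)) - W.hh (pw n t1 t2 m) y| ≤ 2 * W.c * (1 / 8) ^ n := by
  obtain ⟨s', H', h', hy'⟩ := exists_left (W := W) (fun i hi => itin_neg (pw n t1 t2 m) hi) y
  have a1 := U ((h.lch _).congr e) (h'.lch _) (fun i hi => itin_neg _ hi) hy hy'
    (k := m * (6 * n + 6) - (n + 1)) (by omega)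
  have a2 := h'.boundR (h'.rl hy') (fun i hi => pw_tail m hi) (j := m * (6 * n + 6) - (n + 1))
    (by omega)
  have e1 : (m : ℤ) * (6 * n + 6) - (n + 1) - m * (6 * n + 6) = -((n + 1 : ℕ) : ℤ) := by
    push_cast; ring
  have e2 : (m : ℤ) * (6 * n + 6) - (2 * n + 2) - (m * (6 * n + 6) - (n + 1)) =
      -((n + 1 : ℕ) : ℤ) := by push_cast; ring
  rw [e1, eight_neg, pow_succ] at a1
  rw [e2, eight_neg, pow_succ] at a2
  have a3 := (h.lch ((m : ℤ) * (6 * n + 6))).2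
  have a4 := (h'.lch ((m : ℤ) * (6 * n + 6))).2
  have a5 : |s (m * (6 * n + 6)) - s' (m * (6 * n + 6))| ≤ 2 * W.B :=
    (abs_sub _ _).trans (by linarith only [a3, a4])
  have a6 : 0 ≤ W.η * W.Λ * (1 / 8) ^ n := by
    have := W.η0; have := W.Λ1; positivity
  have a7 := mul_le_mul_of_nonneg_left a5 a6
  have a8 : 0 ≤ W.η * W.Λ * (1 / 8) ^ n * W.B := by have := W.B1; positivity
  have a9 := abs_sub_le (H (m * (6 * n + 6) - (n + 1))) (H' (m * (6 * n + 6) - (n + 1)))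
    (W.hh (pw n t1 t2 m) y)
  unfold c at *
  linarith only [a1, a2, a7, a8, a9]

lemma approx' (m : ℕ) (h : W.Ch ι s H) (hy : LL H y)
    (e : ∀ i < (m : ℤ) * (6 * n + 6), ι i = itin (pw n t1 t2 m) i) :
    |H (m * (6 * n + 6) - (n + 1)) - W.hh (pw n t1 t2 m) y| ≤ 2 * W.c := by
  have : (1 / 8 : ℝ) ^ n ≤ 1 := pow_le_one₀ (by norm_num) (by norm_num)
  have := W.c0
  exact (approx m h hy e).trans (by nlinarith)

lemma pw_agree {j m : ℕ} (h : j ≤ m) (i : ℤ) (hi : i < (j : ℤ) * (6 * n + 6)) :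
    itin (pw n t1 t2 m) i = itin (pw n t1 t2 j) i := by
  have : (j : ℤ) * (6 * n + 6) ≤ m * (6 * n + 6) :=
    mul_le_mul_of_nonneg_right (by exact_mod_cast h) (by omega)
  rw [itin_pw, itin_pw]
  split_ifs <;> first | rfl | omega

lemma step (W : Lw) (t1 t2 : ℕ) {ε : ℝ} (hε : 0 < ε) : ∃ n0 : ℕ, ∀ n ≥ n0, ∀ m y,
    |W.hh (pw n t1 t2 (m + 1)) y - W.hh (pw n t1 t2 m) y| ≤ ε := by
  obtain ⟨δ, hδ, n0, hj⟩ := W.juncL [[0], [t1], [t2]] (half_pos hε)
  obtain ⟨n1, hn1⟩ := exists_pow_lt (C := 4 * W.c) (half_pos hε) (θ := 1 / 8) (by norm_num)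
    (by norm_num)
  refine ⟨max n0 n1, fun n hn m y => ?_⟩
  obtain ⟨s, H, h, hy⟩ := exists_left (W := W) (fun i hi => itin_neg (pw n t1 t2 (m + 1)) hi) y
  have a1 := approx (m + 1) h hy fun _ _ => rfl
  have a2 := approx (t1 := t1) (t2 := t2) m h hy (pw_agree (by omega))
  have el : ((blk n [[0], [t1], [t2]]).length : ℤ) = 6 * n + 6 := by simp [blk]; ring
  have a3 := (hj n (by omega) (fun j => s (j + m * (6 * n + 6))) (fun j => H (j + m * (6 * n + 6)))
    (H (-(n + 1) + m * (6 * n + 6))) (((h.shift (m * (6 * n + 6))).seg _ _).sub le_rfl (by omega)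
      le_rfl fun i c d => by
        rcases lt_or_ge i 0 with g | g
        · rw [itin_neg _ g, pw_agree (j := m) (by omega) _ (by omega), pw_tail m (by omega)]
        · rw [itin_pw, if_pos ⟨by positivity, by push_cast; linarith only [el, d]⟩, ιw_add,
            ιw_in g (by omega)]) (by simpa using hδ.le)).1
  change |_ - W.hh [t2] (W.hh [t1] (W.hh [0] _))| ≤ _ at a3
  rw [hh_pal rfl, hh_pal rfl, hh_pal rfl, el] at a3
  have e1 : (6 * n + 6 - (n + 1) + m * (6 * n + 6) : ℤ) = (m + 1 : ℕ) * (6 * n + 6) - (n + 1) := by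
    push_cast; ring
  have e2 : (-(n + 1) + m * (6 * n + 6) : ℤ) = m * (6 * n + 6) - (n + 1) := by ring
  rw [e1, e2] at a3
  have a4 := hn1 n (by omega)
  rw [abs_le] at *
  constructor <;> linarith only [a1, a2, a3, a4, a1.1, a1.2, a2.1, a2.2, a3.1, a3.2]

lemma goodw (m : ℕ) (h : ∀ j ≤ m, |W.hh (pw n t1 t2 j) y| ≤ 7 * W.R) : W.Good (pw n t1 t2 m) y := by
  obtain ⟨s, H, hc, hy⟩ := exists_left (W := W) (fun i hi => itin_neg (pw n t1 t2 m) hi) y
  have c0 := W.c0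
  have cR := W.cR
  have R0 := W.R0
  refine ⟨s, H, 7 * W.R + 14 * W.c, hc, hy, by linarith only [cR, R0], fun i => ?_⟩
  rcases le_or_gt i 0 with d | d
  · have p2 : (8 : ℝ) ^ i ≤ 1 := zpow_le_one_of_nonpos₀ (by norm_num) d
    have a1 : |H i - y| ≤ W.c := (hc.boundL hy d).trans (by linarith only [c0, p2, mul_nonneg_of_nonpos_of_nonpos (Mathlib.Tactic.Linarith.sub_nonpos_of_le c0) (Mathlib.Tactic.Linarith.sub_nonpos_of_le p2)])
    have a2 := h 0 (by omega)
    rw [hh_pw0] at a2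
    rw [abs_le] at *
    constructor <;> linarith only [c0, a1, a2, a1.1, a1.2, a2.1, a2.2]
  rcases le_or_gt ((m : ℤ) * (6 * n + 6)) i with d' | d'
  · have p2 : (8 : ℝ) ^ ((m : ℤ) * (6 * n + 6) - (2 * n + 2) - i) ≤ 1 :=
      zpow_le_one_of_nonpos₀ (by norm_num) (by omega)
    have a1 : |H i - W.hh (pw n t1 t2 m) y| ≤ W.c :=
      (hc.boundR (hc.rl hy) (fun i hi => pw_tail m hi) (j := i) (by omega)).trans (by linarith only [c0, p2, mul_nonneg_of_nonpos_of_nonpos (Mathlib.Tactic.Linarith.sub_nonpos_of_le c0) (Mathlib.Tactic.Linarith.sub_nonpos_of_le p2)])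
    have a2 := h m le_rfl
    rw [abs_le] at *
    constructor <;> linarith only [c0, a1, a2, a1.1, a1.2, a2.1, a2.2]
  have e1 := Int.emod_add_ediv_mul i (6 * n + 6)
  have e2 := Int.emod_nonneg i (by omega : (6 * n + 6 : ℤ) ≠ 0)
  have e3 := Int.emod_lt_of_pos i (by omega : (0 : ℤ) < 6 * n + 6)
  have e4 : 0 ≤ i / (6 * n + 6) := Int.ediv_nonneg d.le (by omega)
  have e5 : i / (6 * n + 6) < m := Int.ediv_lt_of_lt_mul (by omega) d'
  obtain ⟨j, hj⟩ : ∃ j : ℕ, (j : ℤ) = i / (6 * n + 6) + 1 := ⟨(i / (6 * n + 6) + 1).toNat, by omega⟩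
  have a1 := approx' (t1 := t1) (t2 := t2) j hc hy (pw_agree (by omega))
  have a2 := zs hc (by omega) (pw_sparse m) (i := i) (j := j * (6 * n + 6) - (n + 1)) (by
    rw [hj, add_mul, abs_le]; omega)
  have a3 := h j (by omega)
  rw [abs_le] at *
  constructor <;> linarith only [a1, a2, a3, a1.1, a1.2, a2.1, a2.2, a3.1, a3.2]

lemma Ch.shiftw (h : W.Ch (ιw n t1 t2) s H) (m : ℤ) : W.Ch (ιw n t1 t2)
    (fun j => s (j + m * (6 * n + 6))) (fun j => H (j + m * (6 * n + 6))) := by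
  simpa only [ιw_add] using h.shift (m * (6 * n + 6))

lemma drift_ne (hN : ¬W.Per) (hO : Ord t1 t2) (h : W.Ch (ιw n t1 t2) s H) (h0 : |H 0| ≤ 10 * W.R) :
    H (6 * n + 6) ≠ H 0 := by
  intro e
  obtain ⟨e1, e2⟩ := (h.shiftw 1).eq h (k := 0) (by simpa using e)
  have cR := W.cR
  have R0 := W.R0
  have hb : ∀ i : ℤ, 0 ≤ i → i < 0 + (6 * n + 6) → |H i| ≤ 12 * W.R := by
    intro i a b
    have := zs h (by omega) ιw_sparse (i := i) (j := 0) (by rw [abs_le]; omega)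
    rw [abs_le] at *
    constructor <;> linarith only [h0, cR, R0, this, this.1, this.2, h0.1, h0.2]
  have ha : ∀ i : ℤ, 0 ≤ i → i < 0 + (6 * n + 6) →
      OnSp W.κ W.Θ s H i ∧ W.Mk (ιw n t1 t2 i) (s i) := fun i a b =>
    (h i).1.adm (ιw_ok hO i).1 (hb i a b)
  refine hN (per_intro (a := 0) (p := 6 * n + 6) (i1 := 0) (i2 := 2 * n + 2)
    (fun i => by simpa using congrFun e1 i) (fun i => by simpa using congrFun e2 i)
    (fun i a b => ⟨(h i).1.bd, (hb i a b).trans W.RB, (h i).2, (ha i a b).1⟩) (A := W.Mk 0)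
    (A' := W.Mk t1) ?_ (fun i a b d => ?_) ?_ (fun i a b d => ?_) (by omega) (by omega))
  · have := (ha 0 le_rfl (by omega)).2
    rwa [ιw_in le_rfl (by omega), itin_wd, if_pos rfl] at this
  · have := W.mk_inj _ (ιw_ok hO i).1 0 (by norm_num) _ (ha i a b).2 d
    rw [ιw_in a (by omega), itin_wd] at this
    unfold Ord at hO
    split_ifs at this <;> omega
  · have := (ha (2 * n + 2) (by omega) (by omega)).2
    rwa [ιw_in (by omega) (by omega), itin_wd, if_neg (by omega), if_pos rfl] at this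
  · have := W.mk_inj _ (ιw_ok hO i).1 t1 (by unfold Ord at hO; omega) _ (ha i a b).2 d
    rw [ιw_in a (by omega), itin_wd] at this
    unfold Ord at hO
    split_ifs at this <;> omega

variable (W) in
/-- Uniform drift in the direction `σ`. -/
def Drift (n t1 t2 : ℕ) (σ : ℝ) : Prop := ∃ τ > 0, ∀ s H, W.Ch (ιw n t1 t2) s H →
  |H 0| ≤ 10 * W.R → τ ≤ σ * (H (6 * n + 6) - H 0)

lemma exists_drift (hN : ¬W.Per) (hO : Ord t1 t2) (n : ℕ) :
    ∃ σ, (σ = 1 ∨ σ = -1) ∧ W.Drift n t1 t2 σ := by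
  choose s H hs hy using fun y => W.exists_ch (ιw n t1 t2) 0 y
  have R0 := W.R0
  set g : ℝ → ℝ := fun y => H y (6 * n + 6) - y with hg
  have cg : ContinuousOn g (Icc (-(10 * W.R)) (10 * W.R)) := by
    refine ContinuousOn.sub (cont_of_geom (f := id) (g := id) continuousOn_id continuousOn_id
      (A := 2 ^ |(6 * n + 6 : ℤ) - 0|) (C := 0) fun k u _ u' _ => ?_) continuousOn_id
    have a1 := ((hs u).cmp (hs u') 0 (6 * n + 6)).1
    rw [hy, hy] at a1
    have a2 : (1 : ℝ) ≤ 2 ^ k := one_le_pow₀ (by norm_num)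
    have a3 : 0 ≤ (2 : ℝ) ^ |(6 * n + 6 : ℤ) - 0| * |u - u'| := by positivity
    simp only [id]
    linarith only [a1, a3, a2, mul_nonneg_of_nonpos_of_nonpos (Mathlib.Tactic.Linarith.sub_nonpos_of_le a2) (Mathlib.Tactic.Linarith.sub_nonpos_of_le a3)]
  have g0 : ∀ y ∈ Icc (-(10 * W.R)) (10 * W.R), g y ≠ 0 := fun y h e =>
    drift_ne hN hO (hs y) (by rw [hy]; exact abs_le.2 h) (by rw [hy]; exact sub_eq_zero.1 e)
  have m0 : (0 : ℝ) ∈ Icc (-(10 * W.R)) (10 * W.R) := ⟨by linarith, by linarith⟩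
  obtain ⟨σ, hσ, hpos⟩ : ∃ σ : ℝ, (σ = 1 ∨ σ = -1) ∧
      ∀ y ∈ Icc (-(10 * W.R)) (10 * W.R), 0 < σ * g y := by
    rcases lt_or_gt_of_ne (g0 0 m0) with d | d
    · refine ⟨-1, Or.inr rfl, fun y h => ?_⟩
      by_contra hc
      obtain ⟨z, hz, e⟩ := isPreconnected_Icc.intermediate_value m0 h cg
        (show (0 : ℝ) ∈ Icc (g 0) (g y) from ⟨d.le, by linarith⟩)
      exact g0 z hz e
    · refine ⟨1, Or.inl rfl, fun y h => ?_⟩
      by_contra hc
      obtain ⟨z, hz, e⟩ := isPreconnected_Icc.intermediate_value h m0 cg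
        (show (0 : ℝ) ∈ Icc (g y) (g 0) from ⟨by linarith, d.le⟩)
      exact g0 z hz e
  obtain ⟨τ, hτ, h⟩ := isCompact_Icc.exists_forall_le' (f := fun y => σ * g y)
    (continuousOn_const.mul cg) hpos
  refine ⟨σ, hσ, τ, hτ, fun s' H' h' h0 => ?_⟩
  have := h (H' 0) (abs_le.1 h0)
  simp only [hg] at this
  rwa [((hs (H' 0)).eq h' (hy _)).2] at this

lemma exists_dir (hN : ¬W.Per) (hσ : σ = 1 ∨ σ = -1) (n : ℕ) :
    ∃ t1 t2, Ord t1 t2 ∧ W.Drift n t1 t2 σ := by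
  obtain ⟨σ1, h1, τ1, p1, d1⟩ := exists_drift hN (Or.inl ⟨rfl, rfl⟩) n
  obtain ⟨σ2, h2, τ2, p2, d2⟩ := exists_drift hN (Or.inr ⟨rfl, rfl⟩) n
  by_cases e1 : σ = σ1
  · exact ⟨2, 4, Or.inl ⟨rfl, rfl⟩, τ1, p1, e1 ▸ d1⟩
  by_cases e2 : σ = σ2
  · exact ⟨4, 2, Or.inr ⟨rfl, rfl⟩, τ2, p2, e2 ▸ d2⟩
  exfalso
  have e3 : σ1 = σ2 := by
    rcases hσ with h | h <;> rcases h1 with a | a <;> rcases h2 with b | b <;> simp_all
  obtain ⟨s, H, h, h0⟩ := W.exists_ch (ιw n 2 4) 0 0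
  have cR := W.cR
  have R0 := W.R0
  have a1 := d1 s H h (by rw [h0]; simp; linarith only [R0])
  have a2 := zs h (by omega) ιw_sparse (i := 6 * n + 6) (j := 0) (by rw [abs_le]; omega)
  have a3 := h.refl (6 * n + 6)
  simp only [ιw_refl] at a3
  have a4 := d2 _ _ a3 (by simp only [sub_zero]; rw [h0, sub_zero] at a2; linarith only [cR, R0, a2])
  simp only [sub_zero, sub_self] at a4
  rw [← e3] at a4
  linarith only [p1, p2, a1, a4]

lemma escape (hσ : σ = 1 ∨ σ = -1) (hd : W.Drift n t1 t2 σ) (hy : |y| ≤ 6 * W.R) :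
    ∃ J : ℕ, 0 < σ * (W.hh (pw n t1 t2 J) y - y) ∧
      ∀ j ≤ J, -W.R ≤ σ * (W.hh (pw n t1 t2 j) y - y) := by
  classical
  obtain ⟨τ, hτ, hd⟩ := hd
  have cR := W.cR
  have R0 := W.R0
  have c0 := W.c0
  obtain ⟨s, H, h, hl⟩ := exists_left (W := W) (ι := fun i => if 0 ≤ i then ιw n t1 t2 i else 1)
    (a0 := 0) (fun i hi => if_neg (by omega)) y
  obtain ⟨s0, H0, h0, e0⟩ := W.exists_ch (ιw n t1 t2) 0 (H 0 - σ * (W.R / 50))
  have hab : ∀ i, 0 ≤ i → 0 < σ * (H i - H0 i) := by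
    have v : ∀ i, -1 < i → W.Vx (ιw n t1 t2 i) s H i := fun i hi => by
      have := (h i).1
      beta_reduce at this
      rwa [if_pos (by omega)] at this
    have sm : ∀ d : ℝ, d ≤ 2 * W.B → 256 * (W.η * W.Λ) * (8 ^ ((-1 : ℤ) - 0) * d) < W.R / 50 := by
      intro d hd
      have a6 : 0 ≤ W.η * W.Λ := by have := W.η0; have := W.Λ1; positivity
      have a7 := mul_le_mul_of_nonneg_left hd a6
      have a8 : 0 ≤ W.η * W.Λ * W.B := by have := W.B1; positivity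
      unfold c at *
      norm_num
      linarith only [cR, R0, a7]
    intro i hi
    rcases hσ with rfl | rfl
    · have := persR (W := W) (ds := s - s0) (dH := H - H0) (a := -1) (k := 0)
        ⟨fun j _ => (h j).2.de W.lipq (h0 j).2, fun j hj => (v j hj).dv (h0 j).1,
          fun j _ => (abs_sub _ _).trans (by linarith only [h, h0, (h j).1.bd, (h0 j).1.bd])⟩ (by omega)
        (lt_of_lt_of_eq (sm _ ((abs_sub _ _).trans (by linarith only [h, h0, (h (-1)).1.bd, (h0 (-1)).1.bd])))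
          (by simp [e0])) hi
      simpa using this
    · have := persR (W := W) (ds := s0 - s) (dH := H0 - H) (a := -1) (k := 0)
        ⟨fun j _ => (h0 j).2.de W.lipq (h j).2, fun j hj => (h0 j).1.dv (v j hj),
          fun j _ => (abs_sub _ _).trans (by linarith only [h, h0, (h j).1.bd, (h0 j).1.bd])⟩ (by omega)
        (lt_of_lt_of_eq (sm _ ((abs_sub _ _).trans (by linarith only [h, h0, (h (-1)).1.bd, (h0 (-1)).1.bd])))
          (by simp [e0])) hi
      simpa using this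
  have hs : ∀ x : ℝ, ∀ C, |x| ≤ C → -C ≤ σ * x ∧ σ * x ≤ C := fun x C hx => by
    rw [abs_le] at hx
    rcases hσ with rfl | rfl <;> constructor <;> linarith only [hx, hx.1, hx.2]
  have hσ2 : σ * σ = 1 := by rcases hσ with rfl | rfl <;> norm_num
  have b0 : |H 0 - y| ≤ W.c := (h.lch 0).bound' (fun i hi => if_neg (by omega)) hl le_rfl
  set o : ℕ → ℝ := fun j => σ * H0 (j * (6 * n + 6)) with ho
  have o0 : σ * y - W.c - W.R / 50 ≤ o 0 := by
    have := (hs _ _ b0).1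
    simp only [ho, Nat.cast_zero, zero_mul, e0]
    linarith only [this, R0, hσ2, Mathlib.Tactic.Linarith.mul_zero_eq (Mathlib.Tactic.Linarith.sub_neg_of_lt R0) (sub_eq_zero_of_eq hσ2)]
  have hy' := hs _ _ hy
  have grow : ∀ j : ℕ, (∀ j' < j, o j' ≤ 10 * W.R) → o 0 + j * τ ≤ o j := by
    intro j
    induction j with
    | zero => intro _; simp
    | succ j ih =>
      intro hj
      have a1 := ih fun j' h' => hj j' (by omega)
      have a2 := hj j (by omega)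
      have a3 : 0 ≤ (j : ℝ) * τ := by positivity
      have a5 : -(10 * W.R) ≤ o j := by linarith only [cR, R0, o0, hy', a1, a3, hy'.1]
      have a4 := hd _ _ (h0.shiftw j) (by
        simp only [zero_add, ho] at a5 a2 ⊢
        rw [abs_le]
        rcases hσ with rfl | rfl <;> constructor <;> linarith only [cR, R0, a3, o0, hy', a1, a2])
      have e : (6 * n + 6 + j * (6 * n + 6) : ℤ) = (j + 1 : ℕ) * (6 * n + 6) := by push_cast; ring
      simp only [zero_add, e] at a4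
      have a6 : τ ≤ o (j + 1) - o j := by simp only [ho]; linarith only [a4]
      push_cast
      linarith only [a1, a4]
  have ex : ∃ j, 10 * W.R < o j := by
    by_contra hc
    push Not at hc
    obtain ⟨j, hj⟩ := exists_nat_gt (20 * W.R / τ)
    rw [div_lt_iff₀ hτ] at hj
    linarith only [cR, R0, o0, hy', hj, grow, hc, grow j fun j' _ => hc j', hc j, hy'.1]
  have cmpa : ∀ j : ℕ, o j - 14 * W.c < σ * W.hh (pw n t1 t2 j) y := by
    intro j
    have a1 := approx' (t1 := t1) (t2 := t2) (n := n) j h hl fun i hi => by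
      rw [itin_pw]; split_ifs <;> first | rfl | omega
    have a2 := zs (M := 2 * n + 2) h (by omega) (fun i hi => by
      beta_reduce at hi
      split_ifs at hi
      · exact ιw_sparse i hi
      · exact absurd rfl hi) (i := j * (6 * n + 6)) (j := j * (6 * n + 6) - (n + 1))
      (by rw [abs_le]; omega)
    have a3 := hab (j * (6 * n + 6)) (by positivity)
    have a4 := (hs _ _ a1).2
    have a5 := (hs _ _ a2).2
    simp only [ho]
    linarith only [a3, a4, a5]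
  refine ⟨Nat.find ex, by linarith only [ex, cR, R0, hy', cmpa, cmpa (Nat.find ex), Nat.find_spec ex, hy'.2], fun j hj => ?_⟩
  have a1 := grow j fun j' h' => le_of_not_gt (Nat.find_min ex (by omega))
  have a3 : 0 ≤ (j : ℝ) * τ := by positivity
  linarith only [cR, R0, o0, a1, a3, cmpa, cmpa j]

lemma step2 (W : Lw) {ε : ℝ} (hε : 0 < ε) : ∃ n : ℕ, ∀ t1 t2, Ord t1 t2 → ∀ m y,
    |W.hh (pw n t1 t2 (m + 1)) y - W.hh (pw n t1 t2 m) y| ≤ ε := by
  obtain ⟨n1, h1⟩ := W.step 2 4 hε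
  obtain ⟨n2, h2⟩ := W.step 4 2 hε
  refine ⟨max n1 n2, ?_⟩
  rintro t1 t2 (⟨rfl, rfl⟩ | ⟨rfl, rfl⟩)
  · exact h1 _ (le_max_left _ _)
  · exact h2 _ (le_max_right _ _)

theorem movers (hN : ¬W.Per) {σ : ℝ} (hσ : σ = 1 ∨ σ = -1) {y : ℝ} (hy : |y| ≤ 6 * W.R) {ε : ℝ}
    (hε : 0 < ε) : ∃ P : List ℕ, (∀ t ∈ P, OkT t) ∧ W.Good P y ∧ 0 < σ * (W.hh P y - y) ∧
      σ * (W.hh P y - y) ≤ ε := by
  classical
  have R0 := W.R0
  obtain ⟨n, hn⟩ := W.step2 (lt_min hε R0)
  obtain ⟨t1, t2, hO, hd⟩ := exists_dir hN hσ n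
  obtain ⟨J, h1, h2⟩ := escape hσ hd hy
  have ex : ∃ m, 0 < σ * (W.hh (pw n t1 t2 m) y - y) := ⟨J, h1⟩
  have hJ : Nat.find ex ≤ J := Nat.find_min' ex h1
  have hsp := Nat.find_spec ex
  have hmin : ∀ j < Nat.find ex, σ * (W.hh (pw n t1 t2 j) y - y) ≤ 0 := fun j hj =>
    le_of_not_gt (Nat.find_min ex hj)
  generalize Nat.find ex = m at *
  have key : σ * (W.hh (pw n t1 t2 m) y - y) ≤ min ε W.R := by
    cases m with
    | zero => rw [hh_pw0] at hsp; simp at hsp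
    | succ m =>
      have a1 := hn t1 t2 hO m y
      have a2 := hmin m (by omega)
      rw [abs_le] at a1
      rcases hσ with rfl | rfl <;> linarith only [a1, a2, a1.1, a1.2]
  refine ⟨_, pw_ok hO m, goodw m fun j hj => ?_, hsp, key.trans (min_le_left _ _)⟩
  have a1 := h2 j (by omega)
  have a2 : σ * (W.hh (pw n t1 t2 j) y - y) ≤ W.R := by
    rcases eq_or_lt_of_le hj with e | e
    · rw [e]; exact key.trans (min_le_right _ _)
    · linarith only [R0, hmin, e, hmin j e]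
  rw [abs_le] at *
  rcases hσ with rfl | rfl <;> constructor <;> linarith only [hy, a1, a2, hy.1, hy.2]

theorem ruler0 (hN : ¬W.Per) {ε : ℝ} (hε : 0 < ε) : ∃ P : List ℕ, (∀ t ∈ P, OkT t) ∧
    (∀ y, |y| ≤ 6 * W.R → W.Good P y ∧ |W.hh P y - y| ≤ ε) ∧
    ∃ y, |y| ≤ 6 * W.R ∧ W.hh P y ≠ y := by
  classical
  have R0 := W.R0
  obtain ⟨n, hn⟩ := W.step2 (lt_min hε R0)
  obtain ⟨t1, t2, hO, hd⟩ := exists_dir hN (Or.inl rfl) n
  obtain ⟨J, h1, -⟩ := escape (y := 0) (Or.inl rfl) hd (by simp; linarith)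
  have ex : ∃ m, ∃ y, |y| ≤ 6 * W.R ∧ W.hh (pw n t1 t2 m) y ≠ y :=
    ⟨J, 0, by simp; linarith, fun e => by simp [e] at h1⟩
  have hsp := Nat.find_spec ex
  have hmin : ∀ j < Nat.find ex, ∀ y, |y| ≤ 6 * W.R → W.hh (pw n t1 t2 j) y = y :=
    fun j hj y hy => by
      by_contra hc
      exact Nat.find_min ex hj ⟨y, hy, hc⟩
  generalize Nat.find ex = m at *
  refine ⟨_, pw_ok hO m, fun y hy => ?_, hsp⟩
  have key : |W.hh (pw n t1 t2 m) y - y| ≤ min ε W.R := by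
    cases m with
    | zero => rw [hh_pw0]; simpa using ⟨hε.le, R0.le⟩
    | succ m =>
      have a1 := hn t1 t2 hO m y
      rwa [hmin m (by omega) y hy] at a1
  refine ⟨goodw m fun j hj => ?_, key.trans (min_le_left _ _)⟩
  rcases eq_or_lt_of_le hj with e | e
  · have := key.trans (min_le_right _ _)
    rw [e]
    rw [abs_le] at *
    constructor <;> linarith only [hy, this, hy.1, hy.2, this.1, this.2]
  · rw [hmin j e y hy]; linarith only [R0, hy]

theorem close1 (hN : ¬W.Per) {L : List (List ℕ)} (hL : OkL L) {u1 u2 : ℝ} (h1 : -(6 * W.R) ≤ u1)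
    (h12 : u1 ≤ u2) (h2 : u2 ≤ 6 * W.R) (hs : (W.it L u1 - u1) * (W.it L u2 - u2) < 0) :
    ∃ u ∈ Icc u1 u2, W.it L u = u ∧ ¬W.GoodL L u := by
  by_contra hc
  push Not at hc
  have R0 := W.R0
  have h1' : OkT 1 := by simp [OkT]
  have hb : ∀ u ∈ Icc u1 u2, |u| ≤ 6 * W.R := fun u hu =>
    abs_le.2 ⟨h1.trans hu.1, hu.2.trans h2⟩
  let F : W.Fam :=
    { k := 0, a := 0, b := 0, K := W.Λ, ηw := W.η, eY := 0, tl := 1, tr := 1, qw := W.q
      V := fun _ _ => W.LV 1, Y := fun u _ => u, u1 := u1, u2 := u2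
      hak := le_rfl, hkb := le_rfl, hK := le_rfl, ηw0 := W.η0, eY0 := le_rfl
      sηw := by linarith only [W.sηΛ], seY := by norm_num, htl := h1', htr := h1', hu := h12
      lawc := fun _ _ _ _ _ => W.law 1, lawY := by simp, lipw := W.lipq, lipq := W.lipq
      antiw := W.anti
      cont := fun u0 _ ε hε => by
        refine Filter.Eventually.filter_mono nhdsWithin_le_nhds ?_
        filter_upwards [Metric.closedBall_mem_nhds u0 hε] with u hu δ _
        refine ⟨fun _ _ _ _ => by simpa using hε.le, ?_⟩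
        rwa [Metric.mem_closedBall, Real.dist_eq, abs_sub_comm] at hu
      bd := fun u hu s H h i a b => by
        obtain rfl : i = 0 := by omega
        rw [h.an]; exact hb u hu
      adm := fun u hu s H h i a b => by
        obtain rfl : i = 0 := by omega
        have v : W.Vx 1 s H 0 := h.vx 0 le_rfl le_rfl
        obtain ⟨a1, a2⟩ := v.adm (by norm_num) (by
          rw [h.an]; linarith only [R0, hb, hu, hb u (Ioo_subset_Icc_self hu)])
        refine ⟨a1, fun g => ?_, fun g => ?_, fun g => absurd g (lt_irrefl _)⟩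
        · simpa using W.mk_inj 1 (by norm_num) 3 (by norm_num) _ a2 g
        · simpa using W.mk_inj 1 (by norm_num) 5 (by norm_num) _ a2 g }
  refine hN (closing F (x := id) (x' := id) (fun u _ => ?_) hL hs hc)
  obtain ⟨σ, hσ⟩ := W.exists_const 1 u
  refine ⟨fun _ => σ, fun _ => u, ⟨fun i => ?_, rfl, fun i => ?_⟩, tendsto_const_nhds,
    tendsto_const_nhds⟩
  · have e : F.VV F.ι0 u i = W.LV 1 := by
      unfold Fam.VV Fam.ι0
      split_ifs <;> rfl
    rw [id, e]; exact (hσ i).1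
  · have e : F.QQ (fun i => F.a ≤ i ∧ i < F.b) i = W.q := by
      unfold Fam.QQ
      split_ifs <;> rfl
    rw [e]; exact (hσ i).2

end Lw

end Pool.Agent.Work.MP_05654f_an
end

-- merged part: Pool.Agent.Work.MP_05654f_an.Count
section
/-!
Counting with a small fixed point free element.
-/

namespace Pool.Agent.Work.MP_05654f_an

open Filter Topology Set

/-- A pseudogroup of increasing maps with domains of validity. -/
structure CountPG (Mem : (ℝ ≃o ℝ) → Set ℝ → Prop) (r : ℝ) : Prop where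
  op : ∀ f A, Mem f A → IsOpen A
  one : Mem 1 univ
  mul : ∀ f A g B, Mem f A → Mem g B → Mem (g * f) (A ∩ f ⁻¹' B)
  inv : ∀ f A, Mem f A → Mem f⁻¹ ((f⁻¹ : ℝ ≃o ℝ) ⁻¹' A)
  close : ∀ f A u1 u2, Mem f A → -r ≤ u1 → u1 ≤ u2 → u2 ≤ r → (f u1 - u1) * (f u2 - u2) < 0 →
    ∃ u ∈ Icc u1 u2, f u = u ∧ u ∉ A
  up : ∀ y, |y| ≤ r → ∀ ε > 0, ∃ k A, Mem k A ∧ y ∈ A ∧ y < k y ∧ k y ≤ y + ε
  down : ∀ y, |y| ≤ r → ∀ ε > 0, ∃ k A, Mem k A ∧ y ∈ A ∧ k y < y ∧ y - ε ≤ k y

lemma count_mul (f g : ℝ ≃o ℝ) (x : ℝ) : (f * g) x = f (g x) := rfl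

lemma count_inv1 (f : ℝ ≃o ℝ) (x : ℝ) : (f⁻¹ : ℝ ≃o ℝ) (f x) = x := f.symm_apply_apply x

lemma count_inv2 (f : ℝ ≃o ℝ) (x : ℝ) : f ((f⁻¹ : ℝ ≃o ℝ) x) = x := f.apply_symm_apply x

/-- Conjugation by the reflection. -/
def countCj (f : ℝ ≃o ℝ) : ℝ ≃o ℝ where
  toEquiv := (Equiv.neg ℝ).trans (f.toEquiv.trans (Equiv.neg ℝ))
  map_rel_iff' := by intro a b; simp

lemma countCj_apply (f : ℝ ≃o ℝ) (x : ℝ) : countCj f x = -f (-x) := rfl

lemma countCj_cj (f : ℝ ≃o ℝ) : countCj (countCj f) = f := by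
  ext x; simp [countCj_apply]

lemma countCj_mul (f g : ℝ ≃o ℝ) : countCj (f * g) = countCj f * countCj g := by
  ext x; simp [countCj_apply, count_mul]

lemma countCj_one : countCj 1 = 1 := by
  ext x; simp [countCj_apply]

lemma countCj_inv (f : ℝ ≃o ℝ) : countCj f⁻¹ = (countCj f)⁻¹ := by
  rw [eq_inv_iff_mul_eq_one, ← countCj_mul, inv_mul_cancel, countCj_one]

lemma count_orb {g : ℝ ≃o ℝ} {y : ℝ} (h : y ≤ g y) : Monotone fun j : ℕ => (g ^ j) y :=
  monotone_nat_of_le_succ fun j => by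
    rw [pow_succ, count_mul]; exact (g ^ j).monotone h

lemma count_escape {g : ℝ ≃o ℝ} {a b : ℝ} (hab : a ≤ b) (h : ∀ y ∈ Icc a b, y < g y) :
    ∃ M : ℕ, b < (g ^ M) a := by
  by_contra hc
  push Not at hc
  obtain ⟨x, hx, hm⟩ := isCompact_Icc.exists_isMinOn (nonempty_Icc.2 hab)
    (f := fun y => g y - y) (g.continuous.sub continuous_id).continuousOn
  have hδ : 0 < g x - x := sub_pos.2 (h x hx)
  have ho := count_orb (h a ⟨le_rfl, hab⟩).le
  have key : ∀ j : ℕ, a + j * (g x - x) ≤ (g ^ j) a := by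
    intro j
    induction j with
    | zero => simp
    | succ j ih =>
      have h1 : a ≤ (g ^ j) a := ho (Nat.zero_le j)
      have h2 : g x - x ≤ g ((g ^ j) a) - (g ^ j) a := hm ⟨h1, hc j⟩
      rw [pow_succ', count_mul]
      push_cast
      linarith only [ih, h2]
  obtain ⟨n, hn⟩ := exists_nat_gt ((b - a) / (g x - x))
  rw [div_lt_iff₀ hδ] at hn
  linarith [key n, hc n]

lemma count_sign {g : ℝ ≃o ℝ} {S : Set ℝ} (hS : IsPreconnected S) (h : ∀ y ∈ S, g y ≠ y) :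
    (∀ y ∈ S, y < g y) ∨ ∀ y ∈ S, g y < y := by
  by_contra hc
  push Not at hc
  obtain ⟨⟨x, hx, h1⟩, y, hy, h2⟩ := hc
  obtain ⟨z, hz, e⟩ := hS.intermediate_value₂ hx hy g.continuous.continuousOn continuousOn_id h1 h2
  exact h z hz e

namespace CountPG

variable {Mem : (ℝ ≃o ℝ) → Set ℝ → Prop} {r : ℝ}

lemma cj (H : CountPG Mem r) : CountPG (fun f A => Mem (countCj f) (Neg.neg ⁻¹' A)) r where
  op f A h := by
    have := (H.op _ _ h).preimage continuous_neg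
    simpa [preimage_preimage] using this
  one := by rw [countCj_one]; exact H.one
  mul f A g B h h' := by
    rw [countCj_mul]
    convert H.mul _ _ _ _ h h' using 1
    ext x; simp [countCj_apply]
  inv f A h := by
    have := H.inv _ _ h
    rw [← countCj_inv] at this
    convert this using 1
    ext x; simp [countCj_apply]
  close f A u1 u2 h h1 h12 h2 hs := by
    obtain ⟨u, hu, e, hA⟩ := H.close _ _ (-u2) (-u1) h (by linarith) (by linarith) (by linarith)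
      (by simp only [countCj_apply, neg_neg]; linarith)
    rw [countCj_apply] at e
    exact ⟨-u, ⟨by linarith [hu.2], by linarith [hu.1]⟩, by linarith only [e], hA⟩
  up y hy ε hε := by
    obtain ⟨k, A, h, h1, h2, h3⟩ := H.down (-y) (by rwa [abs_neg]) ε hε
    refine ⟨countCj k, Neg.neg ⁻¹' A, ?_, h1, ?_, ?_⟩
    · simpa [countCj_cj, preimage_preimage] using h
    · rw [countCj_apply]; linarith
    · rw [countCj_apply]; linarith
  down y hy ε hε := by
    obtain ⟨k, A, h, h1, h2, h3⟩ := H.up (-y) (by rwa [abs_neg]) ε hε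
    refine ⟨countCj k, Neg.neg ⁻¹' A, ?_, h1, ?_, ?_⟩
    · simpa [countCj_cj, preimage_preimage] using h
    · rw [countCj_apply]; linarith
    · rw [countCj_apply]; linarith

lemma pow (H : CountPG Mem r) {g : ℝ ≃o ℝ} {A : Set ℝ} (hg : Mem g A) {lo hi : ℝ}
    (h1 : ∀ y ∈ Icc lo hi, y ≤ g y) (h2 : ∀ y ∈ Icc lo hi, g y ∈ Icc lo hi → y ∈ A) (M : ℕ) :
    ∃ B, Mem (g ^ M) B ∧ ∀ y ∈ Icc lo hi, (g ^ M) y ∈ Icc lo hi → y ∈ B := by
  induction M with
  | zero => exact ⟨univ, H.one, fun _ _ _ => trivial⟩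
  | succ M ih =>
    obtain ⟨B, hB, h3⟩ := ih
    refine ⟨A ∩ g ⁻¹' B, by rw [pow_succ]; exact H.mul _ _ _ _ hg hB, fun y hy h4 => ?_⟩
    have h5 : (g ^ 1) y ≤ (g ^ (M + 1)) y := count_orb (h1 y hy) (by omega)
    rw [pow_one] at h5
    have h6 : g y ∈ Icc lo hi := ⟨hy.1.trans (h1 y hy), h5.trans h4.2⟩
    rw [pow_succ, count_mul] at h4
    exact ⟨h2 y hy h6, h3 _ h6 h4⟩

lemma zpow (H : CountPG Mem r) {g : ℝ ≃o ℝ} {A : Set ℝ} (hg : Mem g A) {lo hi : ℝ}
    (h1 : ∀ y ∈ Icc lo hi, y ≤ g y) (h2 : ∀ y ∈ Icc lo hi, g y ∈ Icc lo hi → y ∈ A) (m : ℤ) :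
    ∃ B, Mem (g ^ m) B ∧ ∀ y ∈ Icc lo hi, (g ^ m) y ∈ Icc lo hi → y ∈ B := by
  obtain ⟨n, rfl | rfl⟩ := Int.eq_nat_or_neg m
  · rw [zpow_natCast]; exact H.pow hg h1 h2 n
  · obtain ⟨B, hB, h3⟩ := H.pow hg h1 h2 n
    rw [zpow_neg, zpow_natCast]
    exact ⟨_, H.inv _ _ hB, fun y hy h4 => h3 _ h4 (by rwa [count_inv2])⟩

lemma core (H : CountPG Mem r) {g : ℝ ≃o ℝ} {A : Set ℝ} (hg : Mem g A) {z y1 : ℝ} (hz : -r ≤ z)
    (hzy : z < y1) (hy : y1 ≤ r) (e : g z = z) (h1 : ∀ y ∈ Ioc z y1, y < g y)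
    (h2 : ∀ y ∈ Icc z y1, g y ∈ Icc z y1 → y ∈ A) : False := by
  obtain ⟨k, K, hk, hzK, k1, k2⟩ := H.up z (abs_le.2 ⟨hz, by linarith only [hzy, hy]⟩) ((y1 - z) / 2)
    (by linarith only [hzy])
  have ev : ∀ᶠ u in 𝓝 z, u ∈ K ∧ k u < y1 ∧ u < y1 :=
    ((H.op _ _ hk).eventually_mem hzK).and
      ((k.continuous.continuousAt.eventually (gt_mem_nhds (by linarith only [k1, k2]))).and (gt_mem_nhds hzy))
  obtain ⟨δ, hδ, hb⟩ := Metric.eventually_nhds_iff.1 ev
  set y := z + δ / 2 with hyd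
  have hb' : ∀ u ∈ Icc z y, u ∈ K ∧ k u < y1 ∧ u < y1 := fun u hu => hb (by
    rw [Real.dist_eq, abs_lt]; constructor <;> linarith only [hδ, hu, hyd, hu.1, hu.2])
  have hzy' : z < y := by linarith only [hδ, hyd]
  obtain ⟨-, y2, y3⟩ := hb' y ⟨hzy'.le, le_rfl⟩
  obtain ⟨M, hM⟩ := count_escape y3.le fun u hu => h1 u ⟨hzy'.trans_le hu.1, hu.2⟩
  obtain ⟨B, hB, h3⟩ := H.pow hg (lo := z) (hi := y1) (fun u hu => by
    rcases eq_or_lt_of_le hu.1 with c | c
    · rw [← c, e]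
    · exact (h1 u ⟨c, hu.2⟩).le) h2 M
  have eM : ∀ j : ℕ, (g ^ j) z = z := fun j => by
    induction j with
    | zero => rfl
    | succ j ih => rw [pow_succ, count_mul, e, ih]
  have a1 : (k⁻¹ : ℝ ≃o ℝ) z < z := by
    have := (k⁻¹ : ℝ ≃o ℝ).strictMono k1
    rwa [count_inv1] at this
  have a2 : y < (k⁻¹ : ℝ ≃o ℝ) ((g ^ M) y) := by
    have := (k⁻¹ : ℝ ≃o ℝ).strictMono (y2.trans hM)
    rwa [count_inv1] at this
  obtain ⟨u, hu, eu, hn⟩ := H.close _ _ z y (H.mul _ _ _ _ hB (H.inv _ _ hk)) hz hzy'.le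
    (by linarith only [hy, y3]) (by
      rw [count_mul, count_mul, eM]
      exact mul_neg_of_neg_of_pos (by linarith only [a1]) (by linarith only [a2]))
  rw [count_mul] at eu
  have e2 : (g ^ M) u = k u := by rw [← eu, count_inv2, eu]
  obtain ⟨u1, u2, u3⟩ := hb' u hu
  refine hn ⟨h3 u ⟨hu.1, u3.le⟩ ?_, ?_⟩
  · rw [e2]; exact ⟨k1.le.trans (k.monotone hu.1), u2.le⟩
  · change (k⁻¹ : ℝ ≃o ℝ) ((g ^ M) u) ∈ K
    rw [eu]; exact u1

lemma free1 (H : CountPG Mem r) {g : ℝ ≃o ℝ} {A : Set ℝ} (hg : Mem g A)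
    (hA : ∀ y, |y| ≤ r → y ∈ A) {y0 y1 : ℝ} (h0 : -r ≤ y0) (h01 : y0 ≤ y1) (h1 : y1 ≤ r)
    (e : g y0 = y0) : g y1 = y1 := by
  by_contra hne
  have hc : IsCompact (Icc y0 y1 ∩ {y | g y = y}) :=
    isCompact_Icc.inter_right (isClosed_eq g.continuous continuous_id)
  obtain ⟨z, ⟨hz, ez⟩, hm⟩ := hc.exists_isGreatest ⟨y0, ⟨le_rfl, h01⟩, e⟩
  have ez' : g z = z := ez
  have hzy : z < y1 := lt_of_le_of_ne hz.2 fun c => hne (c ▸ ez')
  have hA' : ∀ y ∈ Icc z y1, y ∈ A := fun y hy =>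
    hA y (abs_le.2 ⟨by linarith only [h0, hz, hy, hz.1, hy.1], hy.2.trans h1⟩)
  rcases count_sign (g := g) (isPreconnected_Ioc (a := z) (b := y1)) (fun y hy c =>
    absurd (hm ⟨⟨hz.1.trans hy.1.le, hy.2⟩, c⟩) (not_le.2 hy.1)) with c | c
  · exact H.core hg (h0.trans hz.1) hzy h1 ez' c fun y hy _ => hA' y hy
  · refine H.core (H.inv _ _ hg) (h0.trans hz.1) hzy h1 ?_ (fun y hy => ?_) fun y _ hy => hA' _ hy
    · rw [← ez', count_inv1, ez']
    · have := (g⁻¹ : ℝ ≃o ℝ).strictMono (c y hy)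
      rwa [count_inv1] at this

lemma free (H : CountPG Mem r) {g : ℝ ≃o ℝ} {A : Set ℝ} (hg : Mem g A)
    (hA : ∀ y, |y| ≤ r → y ∈ A) {y0 y1 : ℝ} (h0 : |y0| ≤ r) (h1 : |y1| ≤ r)
    (e : g y0 = y0) : g y1 = y1 := by
  rw [abs_le] at h0 h1
  rcases le_total y0 y1 with c | c
  · exact H.free1 hg hA h0.1 c h1.2 e
  · have := H.cj.free1 (g := countCj g) (A := Neg.neg ⁻¹' A)
      (by simpa [countCj_cj, preimage_preimage] using hg)
      (fun y hy => hA (-y) (by rwa [abs_neg])) (y0 := -y0) (y1 := -y1) (by linarith only [h0]) (by linarith)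
      (by linarith) (by rw [countCj_apply, neg_neg, e])
    rw [countCj_apply, neg_neg] at this
    linarith only [this]

lemma small {R ε : ℝ} (H : CountPG Mem (6 * R)) (hε : 0 < ε) (hεR : ε ≤ R) {g : ℝ ≃o ℝ}
    {A : Set ℝ} (hg : Mem g A) (h1 : ∀ y, |y| ≤ 6 * R → y ∈ A ∧ |g y - y| ≤ ε)
    (h2 : ∃ y, |y| ≤ 6 * R ∧ g y ≠ y) : ∃ g' A', Mem g' A' ∧
      (∀ y ∈ Icc (-(4 * R)) (4 * R), y < g' y ∧ g' y ≤ y + ε) ∧
      ∀ y ∈ Icc (-(4 * R)) (4 * R), g' y ∈ Icc (-(4 * R)) (4 * R) → y ∈ A' := by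
  obtain ⟨y1, hy1, hne⟩ := h2
  have sub : ∀ y ∈ Icc (-(4 * R)) (4 * R), |y| ≤ 6 * R := fun y hy =>
    abs_le.2 ⟨by linarith only [hε, hεR, hy, hy.1], by linarith only [hε, hεR, hy, hy.2]⟩
  rcases count_sign (g := g) (isPreconnected_Icc (a := -(6 * R)) (b := 6 * R)) (fun y hy c =>
    hne (H.free hg (fun y hy => (h1 y hy).1) (abs_le.2 hy) hy1 c)) with c | c
  · refine ⟨g, A, hg, fun y hy => ⟨c y (abs_le.1 (sub y hy)), ?_⟩,
      fun y hy _ => (h1 y (sub y hy)).1⟩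
    linarith only [h1, sub, hy, (abs_le.1 (h1 y (sub y hy)).2).2]
  · refine ⟨_, _, H.inv _ _ hg, fun y hy => ⟨?_, ?_⟩, fun y _ hy => (h1 _ (sub _ hy)).1⟩
    · have := (g⁻¹ : ℝ ≃o ℝ).strictMono (c y (abs_le.1 (sub y hy)))
      rwa [count_inv1] at this
    · have a1 := (abs_le.1 (h1 (y + ε)
        (abs_le.2 ⟨by linarith only [hε, hεR, hy, hy.1], by linarith only [hε, hεR, hy, hy.2]⟩)).2).1
      have := (g⁻¹ : ℝ ≃o ℝ).monotone (show y ≤ g (y + ε) by linarith)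
      rwa [count_inv1] at this

end CountPG

lemma count_zadd (g : ℝ ≃o ℝ) (m n : ℤ) (x : ℝ) : (g ^ m) ((g ^ n) x) = (g ^ (m + n)) x := by
  rw [zpow_add, count_mul]

lemma count_phi {g : ℝ ≃o ℝ} {ρ : ℝ} (hρ : 0 ≤ ρ) (h : ∀ y ∈ Icc (-ρ) ρ, y < g y) :
    (StrictMono fun m : ℤ => (g ^ m) 0) ∧
      ∃ φ : ℝ → ℤ, ∀ y, |y| ≤ ρ → (g ^ φ y) 0 ≤ y ∧ y < (g ^ (φ y + 1)) 0 := by
  have hs : StrictMono fun m : ℤ => (g ^ m) 0 := strictMono_int_of_lt_succ fun m => by
    rw [zpow_add_one, count_mul]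
    exact (g ^ m).strictMono (h 0 ⟨by linarith, hρ⟩)
  refine ⟨hs, ?_⟩
  obtain ⟨M, hM⟩ := count_escape hρ fun y hy => h y ⟨by linarith [hy.1], hy.2⟩
  obtain ⟨M', hM'⟩ := count_escape (show -ρ ≤ 0 by linarith)
    fun y hy => h y ⟨hy.1, by linarith [hy.2]⟩
  have a1 : (g ^ (-(M' : ℤ))) 0 < -ρ := by
    have := ((g ^ M')⁻¹ : ℝ ≃o ℝ).strictMono hM'
    rwa [count_inv1, ← zpow_natCast, ← zpow_neg] at this
  rw [← zpow_natCast] at hM
  have : ∀ y, ∃ m : ℤ, |y| ≤ ρ → (g ^ m) 0 ≤ y ∧ y < (g ^ (m + 1)) 0 := by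
    intro y
    by_cases hy : |y| ≤ ρ
    · rw [abs_le] at hy
      obtain ⟨m, h1, h2⟩ := Int.exists_greatest_of_bdd (P := fun m : ℤ => (g ^ m) 0 ≤ y)
        ⟨M, fun z hz => (hs.lt_iff_lt.1 (lt_of_le_of_lt (hz.trans hy.2) hM)).le⟩
        ⟨-(M' : ℤ), by linarith only [a1, hy, hy.1]⟩
      refine ⟨m, fun _ => ⟨h1, ?_⟩⟩
      by_contra c
      have := h2 _ (not_lt.1 c)
      omega
    · exact ⟨0, fun c => absurd c hy⟩
  choose φ hφ using this
  exact ⟨φ, hφ⟩

lemma count_dist {g : ℝ ≃o ℝ} {ρ ε a b : ℝ} (hε : 0 ≤ ε)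
    (h : ∀ y ∈ Icc (-ρ) ρ, y < g y ∧ g y ≤ y + ε) (ha : -ρ ≤ a) (hab : a ≤ b) (hb : b ≤ ρ)
    {n : ℕ} (hn : b < (g ^ n) a) : b ≤ a + n * ε := by
  have ho := count_orb (h a ⟨ha, hab.trans hb⟩).1.le
  have key : ∀ j : ℕ, (g ^ j) a ≤ a + j * ε ∨ b ≤ a + j * ε := by
    intro j
    induction j with
    | zero => left; simp
    | succ j ih =>
      push_cast
      rcases ih with c | c
      · rcases le_total ((g ^ j) a) b with d | d
        · left
          have h1 : a ≤ (g ^ j) a := ho (Nat.zero_le j)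
          rw [pow_succ', count_mul]
          linarith only [c, h, ha, h1, d, hb, (h _ ⟨ha.trans h1, d.trans hb⟩).2]
        · right; linarith only [hε, c, d]
      · right; linarith only [hε, c]
  rcases key n with c | c
  · linarith only [hn, c]
  · exact c

namespace Lw

variable (W : Lw)

/-- No good program separates the pair `(a, b)` from the pair `(a', b')`. -/
def Par (a b a' b' : ℝ) : Prop := ∀ L, OkL L →
  (∀ y, |y| ≤ 4 * W.R → |W.it L y| ≤ 4 * W.R → W.GoodL L y) →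
  ¬(W.it L a - b) * (W.it L a' - b') < 0

/-- An integer valued ruler compatible with `Par`. -/
def Rul (φ : ℝ → ℤ) : Prop := ∀ a b a' b', |a| ≤ 4 * W.R → |b| ≤ 4 * W.R → |a'| ≤ 4 * W.R →
  |b'| ≤ 4 * W.R → W.Par a b a' b' → |(φ b - φ a) - (φ b' - φ a')| ≤ 1

variable {W}

lemma count_pg (hN : ¬W.Per) : CountPG
    (fun f A => IsOpen A ∧ ∃ L, OkL L ∧ W.it L = f ∧ ∀ y ∈ A, W.GoodL L y) (6 * W.R) where
  op _ _ h := h.1
  one := ⟨isOpen_univ, [], fun _ h => by simp at h, rfl, fun _ _ => trivial⟩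
  mul := by
    rintro _ A _ B ⟨hA, L, h1, rfl, h2⟩ ⟨hB, L', h1', rfl, h2'⟩
    refine ⟨hA.inter (hB.preimage (W.it L).continuous), L ++ L', fun P hP => ?_, it_append _ _,
      fun y hy => goodL_append (h2 y hy.1) (h2' _ hy.2)⟩
    rcases List.mem_append.1 hP with c | c
    · exact h1 P c
    · exact h1' P c
  inv := by
    rintro _ A ⟨hA, L, h1, rfl, h2⟩
    refine ⟨hA.preimage (OrderIso.continuous _), invL L, fun P hP t ht => ?_, ?_, fun y hy => ?_⟩
    · obtain ⟨Q, hQ, rfl⟩ := List.mem_map.1 (List.mem_reverse.1 hP)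
      exact h1 Q hQ t (List.mem_reverse.1 ht)
    · rw [eq_inv_iff_mul_eq_one]
      ext x
      exact it_invL L x
    · have := (h2 _ hy).inv
      rwa [count_inv2] at this
  close := by
    rintro _ A u1 u2 ⟨-, L, h1, rfl, h2⟩ a b c d
    obtain ⟨u, hu, e, hn⟩ := close1 hN h1 a b c d
    exact ⟨u, hu, e, fun h => hn (h2 u h)⟩
  up y hy ε hε := by
    obtain ⟨P, h1, h2, h3, h4⟩ := movers hN (Or.inl rfl) hy hε
    refine ⟨W.hh P, {x | W.Good P x}, ⟨W.isOpen_good P, [P], by simpa [OkL] using h1,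
      one_mul _, fun x hx => ⟨hx, trivial⟩⟩, h2, by linarith only [h3], by linarith⟩
  down y hy ε hε := by
    obtain ⟨P, h1, h2, h3, h4⟩ := movers hN (Or.inr rfl) hy hε
    refine ⟨W.hh P, {x | W.Good P x}, ⟨W.isOpen_good P, [P], by simpa [OkL] using h1,
      one_mul _, fun x hx => ⟨hx, trivial⟩⟩, h2, by linarith, by linarith⟩

lemma count_ruler (hN : ¬W.Per) {ε : ℝ} (hε : 0 < ε) (hεR : ε ≤ W.R) : ∃ φ, W.Rul φ ∧
    ∀ a b, |a| ≤ 4 * W.R → |b| ≤ 4 * W.R → |a - b| ≤ ((|φ a - φ b| + 1 : ℤ) : ℝ) * ε := by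
  have H := count_pg hN
  have R0 := W.R0
  obtain ⟨P, h1, h2, h3⟩ := ruler0 hN hε
  obtain ⟨g, A, hg, g1, g2⟩ := H.small hε hεR (g := W.hh P) (A := {x | W.Good P x})
    ⟨W.isOpen_good P, [P], by simpa [OkL] using h1, one_mul _, fun x hx => ⟨hx, trivial⟩⟩ h2 h3
  obtain ⟨hs, φ, hφ⟩ := count_phi (g := g) (ρ := 4 * W.R) (by linarith only [hε, hεR]) fun y hy => (g1 y hy).1
  have lo : ∀ (m : ℤ) a b, |a| ≤ 4 * W.R → |b| ≤ 4 * W.R → m + φ a + 1 ≤ φ b → (g ^ m) a < b := by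
    intro m a b ha hb h
    have a1 := (g ^ m).strictMono (hφ a ha).2
    rw [count_zadd] at a1
    exact a1.trans_le ((hs.monotone (by omega)).trans (hφ b hb).1)
  have hi : ∀ (m : ℤ) a b, |a| ≤ 4 * W.R → |b| ≤ 4 * W.R → φ b + 1 ≤ m + φ a → b < (g ^ m) a := by
    intro m a b ha hb h
    have a1 := (g ^ m).monotone (hφ a ha).1
    rw [count_zadd] at a1
    exact (hφ b hb).2.trans_le ((hs.monotone h).trans a1)
  refine ⟨φ, fun a b a' b' ha hb ha' hb' hp => ?_, ?_⟩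
  · have key : ∀ m : ℤ, ¬((g ^ m) a - b) * ((g ^ m) a' - b') < 0 := by
      intro m
      obtain ⟨B, ⟨-, L, k1, k2, k3⟩, k4⟩ := H.zpow hg (fun y hy => (g1 y hy).1.le) g2 m
      rw [← k2] at k4 ⊢
      exact hp L k1 fun y c d => k3 y (k4 y (abs_le.1 c) (abs_le.1 d))
    rw [abs_le]
    constructor
    · by_contra c
      refine key (φ b' - φ a' - 1) (mul_neg_of_pos_of_neg ?_ ?_)
      · exact sub_pos.2 (hi _ a b ha hb (by omega))
      · exact sub_neg.2 (lo _ a' b' ha' hb' (by omega))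
    · by_contra c
      refine key (φ b - φ a - 1) (mul_neg_of_neg_of_pos ?_ ?_)
      · exact sub_neg.2 (lo _ a b ha hb (by omega))
      · exact sub_pos.2 (hi _ a' b' ha' hb' (by omega))
  · have key : ∀ a b, |a| ≤ 4 * W.R → |b| ≤ 4 * W.R → a ≤ b →
        b - a ≤ ((|φ a - φ b| + 1 : ℤ) : ℝ) * ε := by
      intro a b ha hb hab
      obtain ⟨n, hn⟩ := Int.eq_ofNat_of_zero_le (show 0 ≤ |φ a - φ b| + 1 by positivity)
      have a1 := hi n a b ha hb (by have := neg_abs_le (φ a - φ b); omega)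
      rw [zpow_natCast] at a1
      have a2 := count_dist hε.le g1 (abs_le.1 ha).1 hab (abs_le.1 hb).2 a1
      rw [hn, Int.cast_natCast]
      linarith only [a2]
    intro a b ha hb
    rcases le_total a b with c | c
    · rw [abs_sub_comm, abs_of_nonneg (sub_nonneg.2 c)]
      exact key a b ha hb c
    · rw [abs_of_nonneg (sub_nonneg.2 c), abs_sub_comm (φ a)]
      exact key b a hb ha c

theorem count (hN : ¬W.Per) {a b : ℝ} (ha : |a| ≤ 4 * W.R) (hb : |b| ≤ 4 * W.R) (C : ℤ)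
    (h : ∀ φ, W.Rul φ → |φ a - φ b| ≤ C) : a = b := by
  have R0 := W.R0
  have key : ∀ ε > 0, |a - b| ≤ 0 + ε := by
    intro ε hε
    have hC : (0 : ℝ) < |(C : ℝ)| + 1 := by positivity
    obtain ⟨φ, h1, h2⟩ := count_ruler hN (ε := min W.R (ε / (|(C : ℝ)| + 1))) (by positivity)
      (min_le_left _ _)
    have a1 := h2 a b ha hb
    have a2 : ((|φ a - φ b| + 1 : ℤ) : ℝ) ≤ |(C : ℝ)| + 1 := by
      have : |φ a - φ b| + 1 ≤ |C| + 1 := by linarith only [h, h1, h φ h1, le_abs_self C]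
      exact_mod_cast this
    have a3 : ((|φ a - φ b| + 1 : ℤ) : ℝ) * min W.R (ε / (|(C : ℝ)| + 1)) ≤
        (|(C : ℝ)| + 1) * (ε / (|(C : ℝ)| + 1)) :=
      mul_le_mul a2 (min_le_right _ _) (by positivity) hC.le
    rw [mul_div_cancel₀ _ hC.ne'] at a3
    linarith only [a1, a3]
  exact sub_eq_zero.1 (abs_nonpos_iff.1 (le_of_forall_pos_le_add key))

end Lw

end Pool.Agent.Work.MP_05654f_an
end

-- merged part: Pool.Agent.Work.MP_05654f_an.Win
section
/-!
Windows of high letters with one moving vertex.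
-/

namespace Pool.Agent.Work.MP_05654f_an

open Filter Topology Set

lemma exp_le_three {x : ℝ} (h : x ≤ 1) : Real.exp x ≤ 3 :=
  (Real.exp_le_exp.2 h).trans (Real.exp_one_lt_d9.le.trans (by norm_num))

lemma exp_lip {x y : ℝ} (hx : x ≤ 1) (hy : y ≤ 1) : |Real.exp x - Real.exp y| ≤ 3 * |x - y| := by
  have key : ∀ x y : ℝ, x ≤ 1 → y ≤ x → |Real.exp x - Real.exp y| ≤ 3 * |x - y| := by
    intro x y hx h
    have h1 := Real.add_one_le_exp (y - x)
    have h2 : Real.exp y = Real.exp x * Real.exp (y - x) := by rw [← Real.exp_add]; congr 1; ring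
    have h3 := exp_le_three hx
    have h4 := Real.exp_pos x
    rw [abs_of_nonneg (sub_nonneg.2 (Real.exp_le_exp.2 h)), abs_of_nonneg (sub_nonneg.2 h), h2]
    linarith only [h, h3, h1, h4, mul_nonneg_of_nonpos_of_nonpos (Mathlib.Tactic.Linarith.sub_nonpos_of_le h) (Mathlib.Tactic.Linarith.sub_nonpos_of_le h3), mul_nonneg_of_nonpos_of_nonpos (Mathlib.Tactic.Linarith.sub_nonpos_of_le h1) (le_of_lt (Mathlib.Tactic.Linarith.sub_neg_of_lt h4))]
  rcases le_total y x with h | h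
  · exact key x y hx h
  · rw [abs_sub_comm, abs_sub_comm x]; exact key y x hy h

lemma lin_var {g : ℤ → ℝ} {C : ℝ} {a b : ℤ} (h : ∀ i, a ≤ i → i < b → |g (i + 1) - g i| ≤ C)
    (hC : 0 ≤ C) (hab : b ≤ a + 3) {i j : ℤ} (h1 : a ≤ i) (h2 : i ≤ b) (h3 : a ≤ j) (h4 : j ≤ b) :
    |g i - g j| ≤ 3 * C := by
  have key : ∀ (d : ℕ) (i : ℤ), a ≤ i → i + d ≤ b → |g (i + d) - g i| ≤ d * C := by
    intro d i h1
    induction d with
    | zero => intro _; simp
    | succ d ih =>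
      intro h2
      push_cast at h2 ⊢
      have a1 := ih (by omega)
      have a2 := h (i + d) (by omega) (by omega)
      rw [← add_assoc]
      linarith only [a1, a2, abs_sub_le (g (i + d + 1)) (g (i + d)) (g i)]
  have key2 : ∀ i j : ℤ, a ≤ j → j ≤ i → i ≤ b → |g i - g j| ≤ 3 * C := by
    intro i j h1 h2 h3
    have := key (i - j).toNat j h1 (by omega)
    rw [show j + ((i - j).toNat : ℤ) = i by omega] at this
    have h5 : (((i - j).toNat : ℕ) : ℝ) ≤ 3 := by exact_mod_cast (by omega : (i - j).toNat ≤ 3)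
    linarith only [this, hC, h5, mul_nonneg_of_nonpos_of_nonpos (Mathlib.Tactic.Linarith.sub_nonpos_of_le hC) (Mathlib.Tactic.Linarith.sub_nonpos_of_le h5)]
  rcases le_total j i with d | d
  · exact key2 i j h3 d h2
  · rw [abs_sub_comm]; exact key2 j i h1 d h4

/-- The position of the moving vertex. -/
noncomputable def zt (κ t : ℝ) : ℂ := (t : ℂ) ^ ((κ : ℂ) - Complex.I)

lemma zt_cont {κ : ℝ} (hκ : 0 < κ) : Continuous (zt κ) :=
  Complex.continuous_ofReal_cpow_const (by simpa using hκ)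

lemma zt_zero (κ : ℝ) : zt κ 0 = 0 := by
  unfold zt
  rw [Complex.ofReal_zero, Complex.zero_cpow]
  intro h
  simpa using congrArg Complex.im h

lemma zt_exp (κ u : ℝ) : zt κ (Real.exp (-u)) = Zu κ u := by
  unfold zt Zu
  rw [Complex.cpow_def_of_ne_zero (by exact_mod_cast (Real.exp_pos _).ne'),
    ← Complex.ofReal_log (Real.exp_pos _).le, Real.log_exp]
  congr 1; push_cast; ring

lemma Zu_zero (κ : ℝ) : Zu κ 0 = 1 := by simp [Zu]

/-- The law of the moving vertex. -/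
noncomputable def mvV (κ : ℝ) (z : ℂ) : ℝ → ℝ → ℝ := fun _ δ => Real.exp (κ * δ) * z.re

/-- The anchor given by the moving vertex. -/
noncomputable def mvY (κ : ℝ) (z : ℂ) : ℝ → ℝ := fun δ => Real.exp (κ * δ) * z.im

namespace Lw

namespace Hi

variable {W : Lw} (G : W.Hi)

include G in
lemma lam1 : lam W.κ < 1 := lam_lt_one G.κ0

include G in
lemma κδ' {δ : ℝ} (h : |δ| ≤ W.δ0) : W.κ * |δ| ≤ 1 :=
  (mul_le_mul_of_nonneg_left h G.κ0.le).trans G.κδ

include G in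
lemma exp_le {δ : ℝ} (h : |δ| ≤ W.δ0) : Real.exp (W.κ * δ) ≤ 3 ∧ Real.exp (-(W.κ * δ)) ≤ 3 := by
  have a1 := G.κδ' h
  have a2 := mul_le_mul_of_nonneg_left (le_abs_self δ) G.κ0.le
  have a3 := mul_le_mul_of_nonneg_left (neg_abs_le δ) G.κ0.le
  exact ⟨exp_le_three (by linarith only [a1, a2]), exp_le_three (by linarith)⟩

include G in
lemma pow_le {b b' : ℕ} (h : b ≤ b') : lam W.κ ^ b' ≤ lam W.κ ^ b :=
  pow_le_pow_of_le_one (lam_pos _).le G.lam1.le h

include G in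
lemma sz_le {b b' : ℕ} (h : b ≤ b') : 3 * lam W.κ ^ b' / lam W.κ ≤ 3 * lam W.κ ^ b / lam W.κ :=
  div_le_div_of_nonneg_right (by linarith only [h, G.pow_le h]) (lam_pos _).le

lemma sz_ρ {b : ℕ} (h : G.a ≤ b) : 3 * lam W.κ ^ b / lam W.κ ≤ G.ρ := by
  rw [G.hρ]; exact G.sz_le h

lemma ρ0 : 0 < G.ρ := by rw [G.hρ]; have := lam_pos W.κ; positivity

lemma K1 : 1 ≤ G.K := W.Λ1.trans G.hK

lemma ε0 : 0 < G.ε := by
  have a1 := G.ρ0.trans_le G.ρε
  exact (mul_pos_iff_of_pos_right (pow_pos (lam_pos _) 2)).1 a1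

lemma ε1 : 6 * G.ε ≤ 1 := by
  have := G.m4; have := G.lam1; have := G.D.F0le; have := G.D.F0pos; have := lam_pos W.κ
  nlinarith

lemma ηK : 5000 * (G.ηw * G.K) ≤ G.ε := by
  have a1 : lam W.κ ^ 3 ≤ 1 := pow_le_one₀ (lam_pos _).le G.lam1.le
  have := G.sηw; have := G.ε0
  nlinarith

lemma ηwK : G.ηw ≤ G.ηw * G.K := le_mul_of_one_le_right G.ηw0 G.K1

lemma crude : 12 * (G.ηw * G.ρ) ≤ G.ε * lam W.κ ^ (G.a + 2) ∧ 12 * (G.ηw * G.ρ) ≤ G.ρ := by
  have a0 := lam_pos W.κ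
  have a1 := G.ηwK
  have a2 := G.sηw
  have a3 := G.ηw0
  constructor
  · rw [G.hρ, ← mul_div_assoc, ← mul_div_assoc, div_le_iff₀ a0]
    have a4 : 0 < lam W.κ ^ G.a := by positivity
    have : G.ε * lam W.κ ^ (G.a + 2) * lam W.κ = G.ε * lam W.κ ^ 3 * lam W.κ ^ G.a := by ring
    rw [this]; linarith only [a1, a4, a2, a3, mul_nonneg_of_nonpos_of_nonpos (Mathlib.Tactic.Linarith.sub_nonpos_of_le a1) (le_of_lt (Mathlib.Tactic.Linarith.sub_neg_of_lt a4)), mul_nonneg_of_nonpos_of_nonpos (Mathlib.Tactic.Linarith.sub_nonpos_of_le a2) (le_of_lt (Mathlib.Tactic.Linarith.sub_neg_of_lt a4)), mul_nonneg_of_nonpos_of_nonpos (Mathlib.Tactic.Linarith.sub_nonpos_of_le a3) (le_of_lt (Mathlib.Tactic.Linarith.sub_neg_of_lt a4))]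
  · have := G.ηK; have := G.ε1; have := G.ρ0
    nlinarith

lemma ρB : 2 * G.ρ ≤ W.B := by have := G.ρR; have := W.RB; have := G.ρ0; linarith

lemma lawHi {b : ℕ} (h : G.a ≤ b) : Law W.δ0 G.K W.e W.B (G.D.V G.ν b) :=
  (G.lawK b).mono le_rfl ((mul_le_mul_of_nonneg_right (G.pow_le h) G.eK0).trans G.seK)
    ((G.sz_ρ h).trans (by linarith only [G.ρB, G.ρ0]))

/-- Admissible positions of a vertex moving inwards from the branch `b`. -/
def Zok (b : ℕ) (z : ℂ) : Prop := ∃ w : ℂ, z = (((-lam W.κ) ^ b : ℝ) : ℂ) * w ∧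
  w.im ∈ Icc (-(lam W.κ * G.D.F0)) G.D.F0 ∧ ‖w‖ ≤ 1 / lam W.κ

variable {G}

lemma Zok.norm {b : ℕ} {z : ℂ} (h : G.Zok b z) : 3 * ‖z‖ ≤ 3 * lam W.κ ^ b / lam W.κ := by
  obtain ⟨w, rfl, -, h⟩ := h
  have a0 := lam_pos W.κ
  rw [norm_mul, Complex.norm_real, Real.norm_eq_abs, abs_pow, abs_neg, abs_of_pos a0,
    mul_div_assoc, div_eq_mul_one_div]
  exact mul_le_mul_of_nonneg_left (mul_le_mul_of_nonneg_left h (by positivity)) (by norm_num)

lemma zok_path (b : ℕ) {h0 : ℝ} (hh : h0 ∈ Icc (-(lam W.κ * G.D.F0)) G.D.F0) {t : ℝ}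
    (ht : t ∈ Icc 0 (Real.exp (-(G.D.U h0 + b * Real.pi)))) : G.Zok b (zt W.κ t) := by
  have a0 := lam_pos W.κ
  have a1 := G.D.F0pos
  rcases eq_or_lt_of_le ht.1 with e | e
  · refine ⟨0, by rw [← e, zt_zero, mul_zero], ⟨?_, a1.le⟩, by simp; positivity⟩
    simp; positivity
  · have a2 : Real.log t ≤ -(G.D.U h0 + b * Real.pi) := (Real.log_le_iff_le_exp e).2 ht.2
    have a3 := G.D.path h0 hh (-Real.log t - b * Real.pi) (by linarith only [a2])
    refine ⟨_, ?_, a3⟩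
    rw [← Zu_add, sub_add_cancel, ← zt_exp, neg_neg, Real.exp_log e]

lemma exp_mul_le (G : W.Hi) {δ x C : ℝ} (h : |δ| ≤ W.δ0) (hx : 3 * |x| ≤ C) :
    |Real.exp (W.κ * δ) * x| ≤ C := by
  rw [abs_mul, abs_of_pos (Real.exp_pos _)]
  exact (mul_le_mul_of_nonneg_right (G.exp_le h).1 (abs_nonneg _)).trans hx

lemma exp_mul_lip (G : W.Hi) {δ δ' x : ℝ} (h : |δ| ≤ W.δ0) (h' : |δ'| ≤ W.δ0)
    (hx : 3 * |x| ≤ G.ρ) :
    |Real.exp (W.κ * δ) * x - Real.exp (W.κ * δ') * x| ≤ W.κ * G.ρ * |δ - δ'| := by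
  have a2 := mul_le_mul_of_nonneg_left (le_abs_self δ) G.κ0.le
  have a3 := mul_le_mul_of_nonneg_left (le_abs_self δ') G.κ0.le
  have a4 := exp_lip (a2.trans (G.κδ' h)) (a3.trans (G.κδ' h'))
  rw [← mul_sub, abs_mul, abs_of_pos G.κ0] at a4
  rw [← sub_mul, abs_mul]
  have a5 := mul_le_mul_of_nonneg_right a4 (abs_nonneg x)
  have a6 : 0 ≤ W.κ * |δ - δ'| := mul_nonneg G.κ0.le (abs_nonneg _)
  linarith only [a5, hx, a6, mul_nonneg_of_nonpos_of_nonpos (Mathlib.Tactic.Linarith.sub_nonpos_of_le hx) (Mathlib.Tactic.Linarith.sub_nonpos_of_le a6)]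

variable (G) in
/-- The laws of a window with letters `c` and moving vertex `k`. -/
noncomputable def WV (c : ℤ → ℕ) (k : ℤ) (z : ℂ) (i : ℤ) : ℝ → ℝ → ℝ :=
  if i = k then mvV W.κ z else G.D.V G.ν (c i)

variable (G) in
/-- The equations of a window. -/
def WC (c : ℤ → ℕ) (n k : ℤ) (tl tr : ℕ) (z : ℂ) (s H : ℤ → ℝ) : Prop :=
  W.Core k 1 n tl tr G.qw (G.WV c k z) (mvY W.κ z) s H

variable (G) in
/-- The expected phase of a vertex of the window. -/
def ph (n : ℤ) (tl tr : ℕ) (i : ℤ) : ℝ := if i = 1 then G.γ tl else if i = n then G.γ tr else 0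

variable (G) in
/-- Basic hypotheses on a window. -/
structure Wok (c : ℤ → ℕ) (n k : ℤ) (tl tr : ℕ) : Prop where
  k1 : 1 ≤ k
  kn : k ≤ n
  n2 : 2 ≤ n
  n4 : n ≤ 4
  ca : ∀ i, 1 ≤ i → i ≤ n → G.a ≤ c i
  htl : tl = 0 ∨ tl = 2 ∨ tl = 4
  htr : tr = 0 ∨ tr = 2 ∨ tr = 4

variable (G) in
/-- Hypotheses for an admissible path of the moving vertex. -/
structure Pok (c : ℤ → ℕ) (n k : ℤ) (tl tr : ℕ) : Prop extends G.Wok c n k tl tr where
  rk : ∀ i, 1 ≤ i → i ≤ n → i ≠ k → c i < c k ∨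
    ((c i = c k ∨ c i = c k + 1) ∧ G.ph n tl tr k + G.γ0 ≤ G.ph n tl tr i)
  off : ∀ z s H, G.Zok (c k) z → G.WC c n k tl tr z s H → ∀ i, 1 ≤ i → i ≤ n → i ≠ k →
    |H i - H k| ≤ G.ε * lam W.κ ^ c i

variable {c : ℤ → ℕ} {n k : ℤ} {tl tr : ℕ} {z : ℂ} {s H : ℤ → ℝ}

lemma WC.vx' (h : G.WC c n k tl tr z s H) {i : ℤ} (h1 : 1 ≤ i) (h2 : i ≤ n) (h3 : i ≠ k) :
    s i = G.D.V G.ν (c i) (H i) (dl W.Θ s H i) := by
  have := h.vx i h1 h2
  rwa [WV, if_neg h3] at this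

lemma WC.sbd (hz : G.Zok (c k) z) (h : G.WC c n k tl tr z s H) {i : ℤ} (h1 : 1 ≤ i) (h2 : i ≤ n) :
    |s i| ≤ 3 * lam W.κ ^ c i / lam W.κ := by
  by_cases e : i = k
  · have := h.vx i h1 h2
    rw [WV, if_pos e] at this
    rw [this, e]
    exact G.exp_mul_le (W.dl_le _ _ _) (le_trans (by linarith only [Complex.abs_re_le_norm z]) hz.norm)
  · rw [h.vx' h1 h2 e]; exact (G.lawK _).2 _ _ (W.dl_le _ _ _)

lemma WC.Hk (hz : G.Zok (c k) z) (h : G.WC c n k tl tr z s H) :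
    |H k| ≤ 3 * lam W.κ ^ c k / lam W.κ := by
  rw [h.an]
  exact G.exp_mul_le (W.dl_le _ _ _) (le_trans (by linarith only [Complex.abs_im_le_norm z]) hz.norm)

lemma var_le (G : W.Hi) (hn : n ≤ 4) (hs : ∀ i, 1 ≤ i → i ≤ n → |s i| ≤ G.ρ)
    (he : ∀ i, 1 ≤ i → i < n → Edge G.qw s H i) {i j : ℤ} (h1 : 1 ≤ i) (h2 : i ≤ n) (h3 : 1 ≤ j)
    (h4 : j ≤ n) : |H i - H j| ≤ 12 * (G.ηw * G.ρ) := by
  have a0 := G.ηw0
  have a1 := G.ρ0
  refine (lin_var (C := 4 * (G.ηw * G.ρ)) (fun i b1 b2 => ?_) (by positivity) (by omega)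
    h1 h2 h3 h4).trans_eq (by ring)
  have a2 := (he i b1 b2).size G.lipw G.antiw
  have a3 : |s i - s (i + 1)| ≤ 2 * G.ρ :=
    (abs_sub _ _).trans (by linarith only [hs, b1, b2, hs i b1 b2.le, hs (i + 1) (by omega) (by omega)])
  linarith only [a2, a0, a3, mul_nonneg_of_nonpos_of_nonpos (Mathlib.Tactic.Linarith.sub_nonpos_of_le a0) (Mathlib.Tactic.Linarith.sub_nonpos_of_le a3)]

lemma WC.sρ (P : G.Wok c n k tl tr) (hz : G.Zok (c k) z) (h : G.WC c n k tl tr z s H) (i : ℤ)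
    (h1 : 1 ≤ i) (h2 : i ≤ n) : |s i| ≤ G.ρ := (h.sbd hz h1 h2).trans (G.sz_ρ (P.ca i h1 h2))

lemma WC.var (P : G.Wok c n k tl tr) (hz : G.Zok (c k) z) (h : G.WC c n k tl tr z s H) {i j : ℤ}
    (h1 : 1 ≤ i) (h2 : i ≤ n) (h3 : 1 ≤ j) (h4 : j ≤ n) : |H i - H j| ≤ 12 * (G.ηw * G.ρ) :=
  G.var_le P.n4 (h.sρ P hz) h.ed h1 h2 h3 h4

lemma WC.Hρ (P : G.Wok c n k tl tr) (hz : G.Zok (c k) z) (h : G.WC c n k tl tr z s H) (i : ℤ)
    (h1 : 1 ≤ i) (h2 : i ≤ n) : |H i| ≤ 2 * G.ρ := by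
  have a1 := h.var P hz h1 h2 P.k1 P.kn
  have a2 := (h.Hk hz).trans (G.sz_ρ (P.ca k P.k1 P.kn))
  have a3 := G.crude.2
  have := abs_add_le (H i - H k) (H k)
  rw [sub_add_cancel] at this
  linarith only [a1, a2, a3, this]

lemma abs_half_le {x y m : ℝ} (h1 : |x| ≤ m) (h2 : |y| ≤ m) : |(x + y) / 2| ≤ m := by
  rw [abs_le] at *
  constructor <;> linarith only [h1, h2, h1.1, h1.2, h2.1, h2.2]

lemma WC.phase (P : G.Wok c n k tl tr) (hz : G.Zok (c k) z) (h : G.WC c n k tl tr z s H) {i : ℤ}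
    (h1 : 1 ≤ i) (h2 : i ≤ n) : |dl W.Θ s H i - G.ph n tl tr i| ≤ G.γ0 / 4 := by
  have n2 := P.n2
  have ρ0 := G.ρ0
  have ρR := G.ρR
  have ρB := G.ρB
  have cR := W.cR
  have ηB := W.ηB
  have hs : ∀ i, 1 ≤ i → i ≤ n → |s i| ≤ 2 * G.ρ := fun i a b => by linarith only [ρ0, P, hz, h, a, b, h.sρ P hz i a b]
  have inner : ∀ j, 1 ≤ j → j ≤ n → |W.Θ (s i, s j, (H i + H j) / 2)| ≤ G.γ0 / 8 := fun j a b =>
    G.phase0 _ _ _ (hs i h1 h2) (hs j a b) (abs_half_le (h.Hρ P hz i h1 h2) (h.Hρ P hz j a b))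
  have outer : ∀ j t, (t = 0 ∨ t = 2 ∨ t = 4) → W.Vx t s H j → |H j - H i| ≤ 4 * (W.η * W.B) →
      |W.Θ (s i, s j, (H i + H j) / 2) - G.γ t| ≤ G.γ0 / 8 := by
    intro j t ht v e
    have a1 := h.Hρ P hz i h1 h2
    have a2 : |H j| ≤ W.R := by
      have := abs_add_le (H j - H i) (H i)
      rw [sub_add_cancel] at this
      linarith only [ρ0, ρR, cR, ηB, e, a1, this]
    rw [v]
    exact G.phase t ht _ _ _ _ (hs i h1 h2) (abs_half_le (by linarith only [ρ0, ρR, a1]) a2) a2 (W.dl_le _ _ _)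
  unfold dl ph
  split_ifs with e1 e2
  · subst e1
    have a1 := outer (1 - 1) tl P.htl h.vl (by
      rw [abs_sub_comm]
      exact edge_le W.lipq W.anti h.el h.vl.bd ((hs 1 h1 h2).trans ρB))
    have a2 := inner (1 + 1) (by omega) (by omega)
    rw [abs_le] at *
    constructor <;> linarith only [a1, a2, a1.1, a1.2, a2.1, a2.2]
  · subst e2
    have a1 := outer (i + 1) tr P.htr h.vr
      (edge_le W.lipq W.anti h.er (by linarith only [ρB, hs, h1, h2, hs i h1 h2]) h.vr.bd)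
    have a2 := inner (i - 1) (by omega) (by omega)
    rw [abs_le] at *
    constructor <;> linarith only [a1, a2, a1.1, a1.2, a2.1, a2.2]
  · have a1 := inner (i - 1) (by omega) (by omega)
    have a2 := inner (i + 1) (by omega) (by omega)
    rw [abs_le] at *
    constructor <;> linarith only [a1, a2, a1.1, a1.2, a2.1, a2.2]

lemma scaled_le (G : W.Hi) {δ x C : ℝ} {b : ℕ} (h : |δ| ≤ W.δ0) (hx : |x| ≤ C * lam W.κ ^ b) :
    |Real.exp (-(W.κ * δ)) * (x / (-lam W.κ) ^ b)| ≤ 3 * C := by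
  have a0 := lam_pos W.κ
  rw [abs_mul, abs_div, abs_pow, abs_neg, abs_of_pos a0, abs_of_pos (Real.exp_pos _)]
  have a1 : |x| / lam W.κ ^ b ≤ C := by rwa [div_le_iff₀ (by positivity)]
  exact mul_le_mul (G.exp_le h).2 a1 (by positivity) (by norm_num)

lemma range_of (G : W.Hi) {x y : ℝ} (h1 : -(G.θ0 * G.D.F0 / lam W.κ) ≤ x) (h2 : x ≤ G.θ0 * G.D.F0)
    (hy : |y| ≤ 3 * G.ε) :
    x + y ∈ Icc (-((1 - G.ν) * G.D.F0 / lam W.κ)) ((1 - G.ν) * G.D.F0) := by
  have a0 := lam_pos W.κ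
  have a1 := G.m3
  have a2 : 3 * G.ε ≤ 3 * G.ε / lam W.κ := by
    rw [le_div_iff₀ a0]; have := G.lam1; have := G.ε0; nlinarith
  have a3 := div_le_div_of_nonneg_right a1 a0.le
  rw [add_div] at a3
  rw [abs_le] at hy
  constructor <;> linarith only [h1, hy, a2, a3, h2, a1, hy.1, hy.2]

lemma θ0_pos (G : W.Hi) : 0 < G.θ0 := (Real.exp_pos _).trans_le G.m1

lemma range_of' (G : W.Hi) {x y : ℝ} (h : |x| ≤ G.θ0 * G.D.F0) (hy : |y| ≤ 3 * G.ε) :
    x + y ∈ Icc (-((1 - G.ν) * G.D.F0 / lam W.κ)) ((1 - G.ν) * G.D.F0) := by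
  have a0 := lam_pos W.κ
  have a1 : 0 < G.θ0 * G.D.F0 := mul_pos G.θ0_pos G.D.F0pos
  have a2 : G.θ0 * G.D.F0 ≤ G.θ0 * G.D.F0 / lam W.κ := by
    rw [le_div_iff₀ a0]; have := G.lam1; linarith only [a1, this, mul_pos_of_neg_of_neg (Mathlib.Tactic.Linarith.sub_neg_of_lt a1) (Mathlib.Tactic.Linarith.sub_neg_of_lt this)]
  rw [abs_le] at h
  exact G.range_of (by linarith only [h, a2, h.1]) h.2 hy

lemma WC.range (P : G.Pok c n k tl tr) (hz : G.Zok (c k) z) (h : G.WC c n k tl tr z s H) {i : ℤ}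
    (h1 : 1 ≤ i) (h2 : i ≤ n) (h3 : i ≠ k) :
    Real.exp (-(W.κ * dl W.Θ s H i)) * (H i / (-lam W.κ) ^ c i) ∈
      Icc (-((1 - G.ν) * G.D.F0 / lam W.κ)) ((1 - G.ν) * G.D.F0) := by
  have a0 := lam_pos W.κ
  have a1 := G.lam1
  have F0 := G.D.F0pos
  have b1 := G.scaled_le (W.dl_le s H i) (P.off z s H hz h i h1 h2 h3)
  have p1 := h.phase P.toWok hz h1 h2
  have p2 := h.phase P.toWok hz P.k1 P.kn
  have an := h.an
  obtain ⟨w, rfl, hw, -⟩ := hz
  simp only [mvY, Complex.im_ofReal_mul] at an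
  set θ := Real.exp (-(W.κ * dl W.Θ s H i)) * Real.exp (W.κ * dl W.Θ s H k) with hθ
  have θpos : 0 < θ := by positivity
  have e : Real.exp (-(W.κ * dl W.Θ s H i)) * (H i / (-lam W.κ) ^ c i) =
      θ * ((-lam W.κ) ^ c k / (-lam W.κ) ^ c i * w.im) +
        Real.exp (-(W.κ * dl W.Θ s H i)) * ((H i - H k) / (-lam W.κ) ^ c i) := by
    conv_rhs => rw [an]
    rw [hθ]; ring
  have hw' : |w.im| ≤ G.D.F0 := abs_le.2 ⟨by linarith only [hw, a1, F0, hw.1, mul_pos_of_neg_of_neg (Mathlib.Tactic.Linarith.sub_neg_of_lt a1) (Mathlib.Tactic.Linarith.sub_neg_of_lt F0)], hw.2⟩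
  have hne : (-lam W.κ) ≠ 0 := by linarith only [a0]
  rw [e]
  rcases P.rk i h1 h2 h3 with d | ⟨d, g⟩
  · refine G.range_of' ?_ b1
    obtain ⟨m, hm⟩ := Nat.exists_eq_add_of_lt d
    have c1 : θ ≤ Real.exp (2 * (W.κ * W.δ0)) := by
      rw [hθ, ← Real.exp_add, Real.exp_le_exp]
      have q1 := mul_le_mul_of_nonneg_left (abs_le.1 (W.dl_le s H i)).1 G.κ0.le
      have q2 := mul_le_mul_of_nonneg_left (abs_le.1 (W.dl_le s H k)).2 G.κ0.le
      linarith only [q1, q2]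
    have c2 : |(-lam W.κ) ^ c k / (-lam W.κ) ^ c i| ≤ lam W.κ := by
      rw [hm, add_assoc, pow_add, mul_div_cancel_left₀ _ (pow_ne_zero _ hne), abs_pow, abs_neg,
        abs_of_pos a0]
      simpa using G.pow_le (b := 1) (b' := m + 1) (by omega)
    rw [abs_mul, abs_of_pos θpos, abs_mul]
    have c3 := mul_le_mul c2 hw' (abs_nonneg _) a0.le
    have c4 := mul_le_mul c1 c3 (by positivity) (Real.exp_pos _).le
    have c5 := mul_le_mul_of_nonneg_right G.m2 F0.le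
    linarith only [c4, c5]
  · have c1 : θ ≤ G.θ0 := by
      refine le_trans ?_ G.m1
      rw [hθ, ← Real.exp_add, Real.exp_le_exp]
      have q : G.γ0 / 2 ≤ dl W.Θ s H i - dl W.Θ s H k := by
        rw [abs_le] at p1 p2; linarith only [p1, p2, g, p1.1, p2.2]
      have := mul_le_mul_of_nonneg_left q G.κ0.le
      linarith only [this]
    rcases d with d | d
    · refine G.range_of' ?_ b1
      rw [d, div_self (pow_ne_zero _ hne), one_mul, abs_mul, abs_of_pos θpos]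
      exact mul_le_mul c1 hw' (abs_nonneg _) G.θ0_pos.le
    · have c2 : (-lam W.κ) ^ c k / (-lam W.κ) ^ c i * w.im = -w.im / lam W.κ := by
        rw [d, pow_succ]; field_simp
      rw [c2, ← mul_div_assoc]
      have c3 := mul_le_mul_of_nonneg_right c1 F0.le
      refine G.range_of ?_ ?_ b1
      · rw [← neg_div]
        refine div_le_div_of_nonneg_right ?_ a0.le
        (refine le_of_not_gt fun h_nl => ?_; linarith only [h_nl, c3, a0, a1, θpos, hw, hw.2, mul_pos_of_neg_of_neg (Mathlib.Tactic.Linarith.sub_neg_of_lt a0) (Mathlib.Tactic.Linarith.sub_neg_of_lt h_nl), mul_pos_of_neg_of_neg (Mathlib.Tactic.Linarith.sub_neg_of_lt a1) (Mathlib.Tactic.Linarith.sub_neg_of_lt h_nl), mul_nonneg_of_nonpos_of_nonpos (le_of_lt (Mathlib.Tactic.Linarith.sub_neg_of_lt θpos)) (Mathlib.Tactic.Linarith.sub_nonpos_of_le hw.right)])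
      · rw [div_le_iff₀ a0]
        (refine le_of_not_gt fun h_nl => ?_; linarith only [h_nl, a0, c3, a1, θpos, hw, hw.1, mul_nonneg_of_nonpos_of_nonpos (le_of_lt (Mathlib.Tactic.Linarith.sub_neg_of_lt a0)) (Mathlib.Tactic.Linarith.sub_nonpos_of_le c3), mul_pos_of_neg_of_neg (Mathlib.Tactic.Linarith.sub_neg_of_lt a0) (Mathlib.Tactic.Linarith.sub_neg_of_lt h_nl), mul_pos_of_neg_of_neg (Mathlib.Tactic.Linarith.sub_neg_of_lt a1) (Mathlib.Tactic.Linarith.sub_neg_of_lt h_nl), mul_nonneg_of_nonpos_of_nonpos (le_of_lt (Mathlib.Tactic.Linarith.sub_neg_of_lt θpos)) (Mathlib.Tactic.Linarith.sub_nonpos_of_le hw.left)])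

end Hi

end Lw

end Pool.Agent.Work.MP_05654f_an
end

-- merged part: Pool.Agent.Work.MP_05654f_an.Win2
section
/-!
Paths of the moving vertex, limits of half windows and lines.
-/

namespace Pool.Agent.Work.MP_05654f_an

open Filter Topology Set

namespace Lw

namespace Hi

variable {W : Lw} {G : W.Hi} {c c' : ℤ → ℕ} {n k m : ℤ} {tl tr t : ℕ} {z : ℂ} {s H : ℤ → ℝ}
  {x y : ℝ}

lemma okT_ctx (h : t = 0 ∨ t = 2 ∨ t = 4) : OkT t := by unfold OkT; omega

lemma sηw' (G : W.Hi) : G.ηw * G.K ≤ 1 / 32 := by linarith only [G.ηK, G.ε1]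

lemma re_le (hz : G.Zok (c k) z) (h : G.a ≤ c k) : 3 * |z.re| ≤ G.ρ ∧ 3 * |z.im| ≤ G.ρ :=
  ⟨by linarith only [hz, h, Complex.abs_re_le_norm z, hz.norm, G.sz_ρ h],
    by linarith only [hz, h, Complex.abs_im_le_norm z, hz.norm, G.sz_ρ h]⟩

/-- The family of cores along a path of the moving vertex. -/
noncomputable def fam (P : G.Pok c n k tl tr) {h0 : ℝ}
    (hh : h0 ∈ Icc (-(lam W.κ * G.D.F0)) G.D.F0) : W.Fam where
  k := k
  a := 1
  b := n
  K := G.K
  ηw := G.ηw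
  eY := W.κ * G.ρ
  tl := tl
  tr := tr
  qw := G.qw
  V := fun u => G.WV c k (zt W.κ u)
  Y := fun u => mvY W.κ (zt W.κ u)
  u1 := 0
  u2 := Real.exp (-(G.D.U h0 + c k * Real.pi))
  hak := P.k1
  hkb := P.kn
  hK := G.hK
  ηw0 := G.ηw0
  eY0 := mul_nonneg G.κ0.le G.ρ0.le
  sηw := G.sηw'
  seY := G.seY
  htl := okT_ctx P.htl
  htr := okT_ctx P.htr
  hu := (Real.exp_pos _).le
  lawc := fun u hu i h1 h2 => by
    unfold WV
    split_ifs
    · have a1 := (re_le (zok_path (c k) hh hu) (P.ca k P.k1 P.kn)).1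
      refine ⟨fun H H' δ δ' d d' => (G.exp_mul_lip d d' a1).trans ?_, fun H δ d =>
        G.exp_mul_le d (by linarith [G.ρB, G.ρ0])⟩
      have a2 := mul_le_mul_of_nonneg_right G.seV (abs_nonneg (δ - δ'))
      have a3 : 0 ≤ G.K * |H - H'| := mul_nonneg (by linarith [G.K1]) (abs_nonneg _)
      linarith
    · exact G.lawHi (P.ca i h1 h2)
  lawY := fun u hu δ δ' d d' =>
    G.exp_mul_lip d d' (re_le (zok_path (c k) hh hu) (P.ca k P.k1 P.kn)).2
  lipw := G.lipw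
  lipq := G.lipq
  antiw := G.antiw
  cont := fun u0 _ ε hε => by
    refine Filter.Eventually.filter_mono nhdsWithin_le_nhds ?_
    filter_upwards [Metric.tendsto_nhds.1 ((zt_cont G.κ0).tendsto u0) (ε / 3) (by linarith)]
      with u hu δ d
    rw [dist_comm, dist_eq_norm] at hu
    have a1 := Complex.abs_re_le_norm (zt W.κ u0 - zt W.κ u)
    have a2 := Complex.abs_im_le_norm (zt W.κ u0 - zt W.κ u)
    rw [Complex.sub_re] at a1
    rw [Complex.sub_im] at a2
    refine ⟨fun i H _ _ => ?_, ?_⟩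
    · unfold WV
      split_ifs
      · simp only [mvV]
        rw [← mul_sub]; exact G.exp_mul_le d (by linarith)
      · simpa using hε.le
    · simp only [mvY]
      rw [← mul_sub]; exact G.exp_mul_le d (by linarith)
  bd := fun u hu s H h i h1 h2 => by
    have := WC.Hρ P.toWok (zok_path (c k) hh hu) h i h1 h2
    linarith [G.ρR, W.R0]
  adm := fun u hu s H h i h1 h2 => by
    have hz := zok_path (c k) hh (Ioo_subset_Icc_self hu)
    have hs := WC.sρ P.toWok hz h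
    have hH := WC.Hρ P.toWok hz h
    have ρ0 := G.ρ0
    refine ⟨?_, (G.notMk _ (hs i h1 h2)).1, (G.notMk _ (hs i h1 h2)).2, fun h3 => ?_⟩
    · by_cases e : i = k
      · subst e
        refine ⟨-Real.log u, ?_⟩
        have a1 := h.vx i h1 h2
        have a2 := h.an
        rw [WV, if_pos rfl] at a1
        rw [Sp_eq, ← zt_exp, neg_neg, Real.exp_log hu.1]
        refine Complex.ext ?_ ?_
        · rw [Complex.re_ofReal_mul]; simpa [mvV] using a1
        · rw [Complex.im_ofReal_mul]; simpa [mvY] using a2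
      · have a1 := (G.D.V_eq G.κ0 G.ν0 G.ν1 _ (G.κδ' (W.dl_le s H i))
          (WC.range P hz h h1 h2 e)).2
        rw [← WC.vx' h h1 h2 e] at a1
        exact ⟨_, a1⟩
    · have a1 := h.ed i h1 h3
      unfold Edge at *
      rwa [G.agree _ _ _ (by linarith [hs i h1 h2]) (by linarith [hs (i + 1) (by omega) (by omega)])
        (abs_half_le (hH i h1 h2) (hH (i + 1) (by omega) (by omega)))] at a1

lemma lim_unique {F : W.Fam} {u x x' y y' : ℝ} (hu : u ∈ Icc F.u1 F.u2) (h : F.Lim u x x')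
    (h' : F.Lim u y y') : x = y ∧ x' = y' := by
  obtain ⟨s, H, h1, h2, h3⟩ := h
  obtain ⟨s', H', h1', h2', h3'⟩ := h'
  obtain ⟨-, rfl⟩ := (Fam.ok0 hu).uniq h1 h1'
  exact ⟨h2.unique h2', h3.unique h3'⟩

lemma lim_bd (P : G.Pok c n k tl tr) {h0 : ℝ} (hh : h0 ∈ Icc (-(lam W.κ * G.D.F0)) G.D.F0)
    {u x x' : ℝ} (hu : u ∈ Icc (fam P hh).u1 (fam P hh).u2) (h : (fam P hh).Lim u x x') :
    |x| ≤ 4 * W.R ∧ |x'| ≤ 4 * W.R := by
  obtain ⟨s, H, h1, h2, h3⟩ := h
  have a1 : |H 1 - x| ≤ 2 * W.c := h1.nearL hu h2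
  have a2 : |H n - x'| ≤ 2 * W.c := h1.nearR hu h3
  have n2 := P.n2
  have a3 := WC.Hρ P.toWok (zok_path (c k) hh hu) h1.core 1 le_rfl (by omega)
  have a4 := WC.Hρ P.toWok (zok_path (c k) hh hu) h1.core n (by omega) le_rfl
  have := G.ρR; have := W.cR; have := W.R0
  simp only [abs_le] at *
  refine ⟨⟨?_, ?_⟩, ?_, ?_⟩ <;> linarith [a1.1, a1.2, a2.1, a2.2, a3.1, a3.2, a4.1, a4.2]

lemma path (hN : ¬W.Per) (P : G.Pok c n k tl tr) {h0 : ℝ}
    (hh : h0 ∈ Icc (-(lam W.κ * G.D.F0)) G.D.F0) {x x' y y' : ℝ}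
    (h1 : (fam P hh).Lim (fam P hh).u2 x x') (h2 : (fam P hh).Lim (fam P hh).u1 y y') {φ : ℝ → ℤ}
    (hφ : W.Rul φ) : |(φ x - φ x') - (φ y - φ y')| ≤ 1 := by
  have m1 := left_mem_Icc.2 (fam P hh).hu
  have m2 := right_mem_Icc.2 (fam P hh).hu
  refine hφ x' x y' y (lim_bd P hh m2 h1).2 (lim_bd P hh m2 h1).1 (lim_bd P hh m1 h2).2
    (lim_bd P hh m1 h2).1 fun L hL hg hs => ?_
  choose! X X' hX using fun u hu => Fam.exists_lim (F := fam P hh) (u := u) hu
  obtain ⟨e1, e2⟩ := lim_unique m2 h1 (hX _ m2)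
  obtain ⟨e3, e4⟩ := lim_unique m1 h2 (hX _ m1)
  refine hN (closing (fam P hh) hX hL (by rw [← e1, ← e2, ← e3, ← e4, mul_comm]; exact hs)
    fun u hu e => hg _ (lim_bd P hh hu (hX u hu)).2 ?_)
  rw [e]; exact (lim_bd P hh hu (hX u hu)).1

variable (G) in
/-- A half window: context `t`, letters `c 1, ..., c m`, then the vertex zero. -/
structure HW (t : ℕ) (c : ℤ → ℕ) (m : ℤ) (s H : ℤ → ℝ) : Prop where
  lch : W.LCh (fun i => if i = 0 then t else 1) s H 1
  vx : ∀ i, 1 ≤ i → i ≤ m → s i = G.D.V G.ν (c i) (H i) (dl W.Θ s H i)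
  ed : ∀ i, 1 ≤ i → i ≤ m → Edge G.qw s H i
  s0 : s (m + 1) = 0
  H0 : H (m + 1) = 0

variable (G) in
/-- `x` is the left limit of a half window. -/
def IsX (t : ℕ) (c : ℤ → ℕ) (m : ℤ) (x : ℝ) : Prop := ∃ s H, G.HW t c m s H ∧ LL H x

variable (G) in
/-- The left limit of a half window. -/
noncomputable def X (t : ℕ) (c : ℤ → ℕ) (m : ℤ) : ℝ := Classical.epsilon (G.IsX t c m)

lemma HW.congr (h : G.HW t c m s H) (e : ∀ i, 1 ≤ i → i ≤ m → c i = c' i) : G.HW t c' m s H :=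
  ⟨h.lch, fun i a b => by rw [← e i a b]; exact h.vx i a b, h.ed, h.s0, h.H0⟩

lemma X_congr (e : ∀ i, 1 ≤ i → i ≤ m → c i = c' i) : G.X t c m = G.X t c' m := by
  unfold X
  congr 1
  funext x
  exact propext ⟨fun ⟨s, H, h, h'⟩ => ⟨s, H, h.congr e, h'⟩,
    fun ⟨s, H, h, h'⟩ => ⟨s, H, h.congr fun i a b => (e i a b).symm, h'⟩⟩

lemma law_zero {Λ : ℝ} (h : 0 ≤ Λ) : Law W.δ0 Λ W.e W.B fun _ _ => 0 :=
  ⟨fun _ _ _ _ _ _ => by have := W.e0; simp; positivity,
    fun _ _ _ => by simp; linarith only [W.B1]⟩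

lemma okX (G : W.Hi) (t : ℕ) (hm : 0 ≤ m) (hc : ∀ i, 1 ≤ i → i ≤ m → G.a ≤ c i) :
    W.Ok (m + 1) 1 (m + 1) G.K G.ηw 0
      (fun i => if i ≤ 0 then W.LV (if i = 0 then t else 1) else
        if i ≤ m then G.D.V G.ν (c i) else fun _ _ => 0) (fun _ => 0)
      (fun i => if 1 ≤ i ∧ i ≤ m then G.qw else W.q) id := by
  refine ⟨by omega, le_rfl, G.hK, G.ηw0, le_rfl, G.sηw', by norm_num, fun i h1 h2 => ?_,
    fun i h => ?_, by simp, fun i => ?_, fun i => ?_, fun i h1 h2 => ?_, fun _ => Or.inl rfl⟩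
  · rw [if_neg (by omega)]
    split_ifs with d
    · exact G.lawHi (hc i h1 d)
    · exact law_zero (by linarith only [G.K1])
  · by_cases d : i ≤ 0
    · rw [if_pos d]; exact W.law _
    · rw [if_neg d, if_neg (by omega)]; exact law_zero (by linarith only [W.Λ1])
  · split_ifs; exacts [G.lipq, W.lipq]
  · split_ifs; exacts [G.antiw, W.anti]
  · rw [if_pos ⟨h1, by omega⟩]; exact G.lipw

lemma HW.sol (h : G.HW t c m s H) (hm : 0 ≤ m) :
    W.Sol (m + 1) (fun i => if i ≤ 0 then W.LV (if i = 0 then t else 1) else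
        if i ≤ m then G.D.V G.ν (c i) else fun _ _ => 0) (fun _ => 0)
      (fun i => if 1 ≤ i ∧ i ≤ m then G.qw else W.q) id
      (fun i => if i ≤ m + 1 then s i else 0) (fun i => if i ≤ m + 1 then H i else 0) := by
  refine ⟨fun i => ?_, by simp [h.H0], fun i => ?_⟩
  · simp only [id]
    by_cases d : i ≤ m
    · have e : dl W.Θ (fun i => if i ≤ m + 1 then s i else 0)
          (fun i => if i ≤ m + 1 then H i else 0) i = dl W.Θ s H i := by
        simp only [dl, if_pos (show i ≤ m + 1 by omega), if_pos (show i - 1 ≤ m + 1 by omega),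
          if_pos (show i + 1 ≤ m + 1 by omega)]
      rw [e, if_pos (by omega), if_pos (show i ≤ m + 1 by omega), if_pos d]
      split_ifs with g1 g2
      · simpa [Vx, g2] using (h.lch.1 i (by omega)).1
      · simpa [Vx, g2] using (h.lch.1 i (by omega)).1
      · exact h.vx i (by omega) d
    · rw [if_neg (show ¬i ≤ 0 by omega), if_neg d]
      split_ifs with g
      · rw [show i = m + 1 by omega, h.s0]
      · rfl
  · unfold Edge
    by_cases d : i ≤ m
    · simp only [if_pos (show i ≤ m + 1 by omega), if_pos (show i + 1 ≤ m + 1 by omega)]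
      split_ifs with g
      · exact h.ed i g.1 g.2
      · exact (h.lch.1 i (by omega)).2
    · simp only [if_neg (show ¬i + 1 ≤ m + 1 by omega), if_neg (show ¬(1 ≤ i ∧ i ≤ m) by omega)]
      split_ifs with g
      · rw [show i = m + 1 by omega, h.s0, h.H0, W.anti.diag]; simp
      · rw [W.anti.diag]; simp

lemma exists_hw (G : W.Hi) (t : ℕ) (hm : 0 ≤ m) (hc : ∀ i, 1 ≤ i → i ≤ m → G.a ≤ c i) :
    ∃ s H, G.HW t c m s H ∧ LL H (G.X t c m) := by
  refine Classical.epsilon_spec (p := G.IsX t c m) ?_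
  obtain ⟨s, H, h⟩ := (G.okX t hm hc).exists
  have h1 : W.LCh (fun i => if i = 0 then t else 1) s H 1 := by
    refine ⟨fun i hi => ⟨?_, ?_⟩, h.bd (G.okX t hm hc) 1⟩
    · have := h.vx i
      simp only [id] at this
      rwa [if_pos (by omega)] at this
    · have := h.ed i
      rwa [if_neg (by omega)] at this
  obtain ⟨x, hx⟩ := (h1.mono (b' := 0) (by omega)).exists_LL fun i hi => if_neg (by omega)
  refine ⟨x, s, H, ⟨h1, fun i a b => ?_, fun i a b => ?_, ?_, h.an⟩, hx⟩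
  · have := h.vx i
    simp only [id] at this
    rwa [if_neg (by omega), if_pos b] at this
  · have := h.ed i
    rwa [if_pos ⟨a, b⟩] at this
  · have := h.vx (m + 1)
    simp only [id] at this
    rwa [if_neg (by omega), if_neg (by omega)] at this

lemma HW.eq (h : G.HW t c m s H) (hx : LL H x) (hm : 0 ≤ m)
    (hc : ∀ i, 1 ≤ i → i ≤ m → G.a ≤ c i) : x = G.X t c m := by
  obtain ⟨s', H', h', hx'⟩ := G.exists_hw t hm hc
  have e := ((G.okX t hm hc).uniq (h.sol hm) (h'.sol hm)).2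
  refine (hx.congr (b := m + 1) fun i hi => ?_).unique hx'
  simpa [hi] using congrFun e i

lemma lim_zero (P : G.Pok c n k tl tr) {h0 : ℝ} (hh : h0 ∈ Icc (-(lam W.κ * G.D.F0)) G.D.F0) :
    (fam P hh).Lim (fam P hh).u1 (G.X tl c (k - 1)) (G.X tr (fun i => c (n + 1 - i)) (n - k)) := by
  have m1 := left_mem_Icc.2 (fam P hh).hu
  obtain ⟨x, x', s, H, h, hl, hr⟩ := Fam.exists_lim m1
  have hc : G.WC c n k tl tr (zt W.κ 0) s H := h.core
  have k1 := P.k1
  have kn := P.kn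
  have n2 := P.n2
  have s0 : s k = 0 := by
    have := hc.vx k k1 kn
    rw [WV, if_pos rfl, zt_zero] at this
    simpa [mvV] using this
  have H0 : H k = 0 := by simpa [mvY, zt_zero] using hc.an
  have e1 : x = G.X tl c (k - 1) := by
    refine HW.eq (s := s) ⟨(h.lch m1).congr fun i hi => ?_,
      fun i a b => hc.vx' a (by omega) (by omega), fun i a b => hc.ed i a (by omega),
      by rwa [sub_add_cancel], by rwa [sub_add_cancel]⟩ hl (by omega)
      fun i a b => P.ca i a (by omega)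
    change (if i = 1 - 1 then tl else if i = n + 1 then tr else 1) = _
    change i < 1 at hi
    split_ifs <;> first | rfl | omega
  have e2 : x' = G.X tr (fun i => c (n + 1 - i)) (n - k) := by
    have a1 := h.rch m1 (n + 1)
    change W.LCh _ _ _ (n + 1 - n) at a1
    rw [add_sub_cancel_left] at a1
    have e : n + 1 - (n - k + 1) = k := by ring
    refine HW.eq (s := fun j => s (n + 1 - j)) ⟨a1.congr fun i hi => ?_, fun i a b => ?_,
      fun i a b => edge_refl G.antiw (hc.ed _ (by omega) (by omega)), by simp only [e, s0],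
      by simp only [e, H0]⟩ (hr.refl _) (by omega) fun i a b => P.ca _ (by omega) (by omega)
    · change (if n + 1 - i = 1 - 1 then tl else if n + 1 - i = n + 1 then tr else 1) = _
      split_ifs <;> first | rfl | omega
    · rw [dl_refl]; exact hc.vx' (by omega) (by omega) (by omega)
  exact ⟨s, H, h, e1 ▸ hl, e2 ▸ hr⟩

theorem line (hN : ¬W.Per) (P : G.Pok c n n tl tr) (P' : G.Pok c n k tl tr) (hk : k < n)
    {φ : ℝ → ℤ} (hφ : W.Rul φ) :
    |(φ (G.X tl c (n - 1)) - φ (G.X tr (fun i => c (n + 1 - i)) (n - n))) -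
      (φ (G.X tl c (k - 1)) - φ (G.X tr (fun i => c (n + 1 - i)) (n - k)))| ≤ 2 := by
  have a0 := lam_pos W.κ
  have a1 := G.lam1
  have F0 := G.D.F0pos
  have aF : 0 < lam W.κ * G.D.F0 := by positivity
  have hh : (0 : ℝ) ∈ Icc (-(lam W.κ * G.D.F0)) G.D.F0 := ⟨by linarith only [aF], F0.le⟩
  have m2 := right_mem_Icc.2 (fam P hh).hu
  obtain ⟨x, x', s, H, h, hl, hr⟩ := Fam.exists_lim m2
  have hz := zok_path (c n) hh m2
  have ez : zt W.κ (fam P hh).u2 = (((-lam W.κ) ^ c n : ℝ) : ℂ) := by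
    change zt W.κ (Real.exp _) = _
    rw [zt_exp, Zu_add, G.D.U0, Zu_zero, mul_one]
  have hc : G.WC c n n tl tr (zt W.κ (fam P hh).u2) s H := h.core
  have Hn : H n = 0 := by
    have := hc.an
    rw [ez] at this
    rw [this, mvY, Complex.ofReal_im, mul_zero]
  set h1 := Real.exp (-(W.κ * dl W.Θ s H k)) * (H k / (-lam W.κ) ^ c k) with hh1
  have b1 : |h1| ≤ 3 * G.ε := G.scaled_le (W.dl_le s H k) (by
    simpa [Hn] using P.off _ s H hz hc k P'.k1 P'.kn hk.ne)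
  have hh' : h1 ∈ Icc (-(lam W.κ * G.D.F0)) G.D.F0 := by
    have := G.m4; have := G.ε0
    rw [abs_le] at b1
    constructor <;> nlinarith [b1.1, b1.2]
  have ez' : zt W.κ (fam P' hh').u2 = (((-lam W.κ) ^ c k : ℝ) : ℂ) * Zu W.κ (G.D.U h1) := by
    change zt W.κ (Real.exp _) = _
    rw [zt_exp, Zu_add]
  have v1 := (G.D.V_eq G.κ0 G.ν0 G.ν1 _ (G.κδ' (W.dl_le s H k))
    (WC.range P hz hc P'.k1 P'.kn hk.ne)).1
  rw [← hc.vx' P'.k1 P'.kn hk.ne, ← hh1] at v1
  have h' : (fam P' hh').Sol0 (fam P' hh').u2 s H := by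
    refine ⟨fun i => ?_, ?_, h.ed⟩
    · have := h.vx i
      change s i = (if 1 ≤ i ∧ i ≤ n then G.WV c n _ i else _) (H i) _ at this
      change s i = (if 1 ≤ i ∧ i ≤ n then G.WV c k _ i else _) (H i) (dl W.Θ s H i)
      split_ifs at this ⊢ with d
      · unfold WV at this ⊢
        by_cases e1 : i = k
        · rw [if_pos e1, ez', e1, v1, mvV, Complex.re_ofReal_mul, mul_assoc]
        by_cases e2 : i = n
        · rw [if_pos e2, ez] at this
          have v2 := (G.D.V_eq G.κ0 G.ν0 G.ν1 (c n) (H := 0) (G.κδ' (W.dl_le s H n)) (by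
            have : 0 ≤ (1 - G.ν) * G.D.F0 := mul_nonneg (by linarith only [a0, a1, G.ν1]) F0.le
            simp only [zero_div, mul_zero]
            exact ⟨neg_nonpos.2 (by positivity), this⟩)).1
          rw [if_neg e1, this, e2, Hn, v2]
          simp only [mvV, Complex.ofReal_re, zero_div, mul_zero, G.D.U0, Zu_zero, Complex.one_re,
            mul_one, id]
        · rw [if_neg e1]; rwa [if_neg e2] at this
      · exact this
    · change H k = mvY W.κ (zt W.κ (fam P' hh').u2) (dl W.Θ s H k)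
      have hne : (-lam W.κ) ^ c k ≠ 0 := pow_ne_zero _ (by linarith only [a0])
      rw [ez', mvY, Complex.im_ofReal_mul, G.D.im h1 ⟨by
        refine le_trans (neg_le_neg ?_) hh'.1
        rw [le_div_iff₀ a0]; linarith only [a1, F0, aF, mul_pos_of_neg_of_neg (Mathlib.Tactic.Linarith.sub_neg_of_lt a1) (Mathlib.Tactic.Linarith.sub_neg_of_lt F0), mul_pos_of_neg_of_neg (Mathlib.Tactic.Linarith.sub_neg_of_lt a1) (Mathlib.Tactic.Linarith.sub_neg_of_lt aF)], hh'.2⟩, hh1, Real.exp_neg]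
      field_simp
  have r1 := path hN P hh ⟨s, H, h, hl, hr⟩ (lim_zero P hh) hφ
  have r2 := path hN P' hh' ⟨s, H, h', hl, hr⟩ (lim_zero P' hh') hφ
  rw [abs_le] at *
  omega

end Hi

end Lw

end Pool.Agent.Work.MP_05654f_an
end

-- merged part: Pool.Agent.Work.MP_05654f_an.Win3
section
/-!
Reference chains, the relation between lines, and null words.
-/

namespace Pool.Agent.Work.MP_05654f_an

open Filter Topology Set

namespace Lw

namespace Hi

variable {W : Lw} {G : W.Hi} {c r : ℤ → ℕ} {n k m : ℤ} {tl tr t b : ℕ} {z : ℂ}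
  {s H s' H' : ℤ → ℝ}

variable (G) in
/-- The equations strictly inside a window. -/
structure Mid (r : ℤ → ℕ) (n : ℤ) (s H : ℤ → ℝ) : Prop where
  vx : ∀ i, 1 < i → i < n → s i = G.D.V G.ν (r i) (H i) (dl W.Θ s H i)
  ed : ∀ i, 1 ≤ i → i < n → Edge G.qw s H i

variable (G) in
/-- Admissible middle words. -/
structure Rok (r : ℤ → ℕ) (n : ℤ) : Prop where
  n2 : 2 ≤ n
  n4 : n ≤ 4
  ra : ∀ i, 1 < i → i < n → G.a ≤ r i ∧ r i ≤ G.a + 1

variable (G) in
/-- The middle word has a reference chain with offsets at most `D`. -/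
def Small (r : ℤ → ℕ) (n : ℤ) (D : ℝ) : Prop :=
  ∃ s H, G.Mid r n s H ∧ s 1 = 0 ∧ s n = 0 ∧ |H 1| ≤ D ∧ |H n| ≤ D

/-- The reversed word. -/
def rv (r : ℤ → ℕ) (n : ℤ) : ℤ → ℕ := fun i => r (n + 1 - i)

/-- The word `r` preceded by the letter `b`. -/
def cw (b : ℕ) (r : ℤ → ℕ) : ℤ → ℕ := fun i => if i = 1 then b else r i

lemma rv_rv (r : ℤ → ℕ) (n : ℤ) : rv (rv r n) n = r := by funext i; simp [rv]

lemma Rok.rev (h : G.Rok r n) : G.Rok (rv r n) n :=
  ⟨h.n2, h.n4, fun i a b => h.ra _ (by omega) (by omega)⟩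

lemma Small.rev {D : ℝ} (h : G.Small r n D) : G.Small (rv r n) n D := by
  obtain ⟨s, H, h, a1, a2, a3, a4⟩ := h
  refine ⟨fun j => s (n + 1 - j), fun j => H (n + 1 - j), ⟨fun i a b => ?_, fun i a b =>
    edge_refl G.antiw (h.ed _ (by omega) (by omega))⟩, by simpa, by simpa, by simpa, by simpa⟩
  rw [dl_refl]; exact h.vx _ (by omega) (by omega)

lemma Small.mono {D D' : ℝ} (h : G.Small r n D) (hD : D ≤ D') : G.Small r n D' := by
  obtain ⟨s, H, h, a1, a2, a3, a4⟩ := h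
  exact ⟨s, H, h, a1, a2, a3.trans hD, a4.trans hD⟩

lemma off_ref (R : G.Rok r n) (h : G.Mid r n s H) (h' : G.Mid r n s' H') (a1 : s' 1 = 0)
    (a2 : s' n = 0) (k1 : 1 ≤ k) (kn : k ≤ n) {E : ℝ} (e1 : |H k - H' k| ≤ E) (e2 : |s 1| ≤ E)
    (e3 : |s n| ≤ E) : |H n - H' n - (H 1 - H' 1)| ≤ 192 * (G.ηw * G.K) * E := by
  have hE : 0 ≤ E := (abs_nonneg _).trans e2
  have K1 := G.K1
  have n4 := R.n4
  have n2 := R.n2
  have up : ∀ d : ℤ, 0 ≤ d → E ≤ 2 ^ d * E := fun d hd =>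
    le_mul_of_one_le_left hE (one_le_zpow₀ (by norm_num) hd)
  have key : ∀ i, 1 ≤ i → i ≤ n → |(H - H') i| ≤ 32 * (G.K * E) ∧ |(s - s') i| ≤ 32 * (G.K * E) := by
    intro i b1 b2
    have := cmp (Λ := G.K) (e2 := 2 * (W.e * W.l)) (η2 := 2 * G.ηw) (μ := 2) K1 le_rfl
      (by linarith only [W.sel]) (by linarith only [G.sηw']) (ds := s - s') (dH := H - H') k1 kn
      (fun i c d => (h.ed i c d).de G.lipw (h'.ed i c d))
      (fun i c d => W.dv (G.lawHi (R.ra i c d).1) (h.vx i c d) (h'.vx i c d)) e1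
      (by simpa [a1] using e2.trans (up _ (by omega)))
      (by simpa [a2] using e3.trans (up _ (by omega))) b1 b2
    have p : (2 : ℝ) ^ |i - k| ≤ 2 ^ (3 : ℤ) := two_zpow_le (by rw [abs_le]; omega)
    have p1 := mul_le_mul_of_nonneg_right p hE
    have p2 := mul_le_mul_of_nonneg_left p1 (by linarith only [K1] : 0 ≤ G.K)
    have p3 : E ≤ G.K * E := le_mul_of_one_le_left hE K1
    norm_num at p1 p2
    constructor <;> linarith only [hE, this, p3, p1, p2, this.1, this.2]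
  have a0 := G.ηw0
  refine (lin_var (g := H - H') (C := 2 * G.ηw * (32 * (G.K * E))) (a := 1) (b := n)
    (fun i c d => (h.ed i c d).de G.lipw (h'.ed i c d) _ (key i c d.le).2
      (key (i + 1) (by omega) (by omega)).2 (key i c d.le).1 (key (i + 1) (by omega) (by omega)).1)
    (by positivity) (by omega) (by omega) le_rfl le_rfl (by omega)).trans_eq (by ring)

lemma ηK_mul (G : W.Hi) (b : ℕ) :
    5000 * (G.ηw * G.K) * (lam W.κ ^ b / lam W.κ) ≤ G.ε * lam W.κ ^ (b + 2) := by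
  have a0 := lam_pos W.κ
  refine (mul_le_mul_of_nonneg_right G.sηw (by positivity)).trans_eq ?_
  field_simp
  ring

lemma pow_le_div (G : W.Hi) (b : ℕ) : lam W.κ ^ b ≤ lam W.κ ^ b / lam W.κ := by
  have a0 := lam_pos W.κ
  have := G.lam1
  have : 0 < lam W.κ ^ b := by positivity
  rw [le_div_iff₀ a0]; nlinarith

lemma crude_off (P : G.Wok c n k tl tr) (hz : G.Zok (c k) z) (h : G.WC c n k tl tr z s H) {i : ℤ}
    (h1 : 1 ≤ i) (h2 : i ≤ n) (h3 : c i ≤ G.a + 2) : |H i - H k| ≤ G.ε * lam W.κ ^ c i :=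
  (h.var P hz h1 h2 P.k1 P.kn).trans (G.crude.1.trans
    (mul_le_mul_of_nonneg_left (G.pow_le h3) G.ε0.le))

lemma pok_rel (R : G.Rok r n) (hb : G.a + 2 ≤ b) (S : G.Small r n (G.ε / 4 * lam W.κ ^ (b + 1)))
    (htl : tl = 0 ∨ tl = 2 ∨ tl = 4) (htr : tr = 0 ∨ tr = 2 ∨ tr = 4)
    (hγ : G.γ tl + G.γ0 ≤ G.γ tr) (hk : k = 1 ∨ k = n) :
    G.Pok (fun i => if i = 1 then b else if i = n then b + 1 else r i) n k tl tr := by
  have n2 := R.n2
  have n4 := R.n4
  have P : G.Wok (fun i => if i = 1 then b else if i = n then b + 1 else r i) n k tl tr := by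
    refine ⟨by omega, by omega, n2, n4, fun i h1 h2 => ?_, htl, htr⟩
    split_ifs with d1 d2
    · omega
    · omega
    · exact (R.ra i (by omega) (by omega)).1
  refine ⟨P, fun i h1 h2 h3 => ?_, fun z s H hz h i h1 h2 h3 => ?_⟩
  · by_cases d1 : i = 1
    · left; rw [if_pos d1, if_neg (by omega), if_pos (by omega)]; omega
    by_cases d2 : i = n
    · right
      rw [if_neg d1, if_pos d2, if_pos (by omega), ph, ph, if_pos (by omega), if_neg d1, if_pos d2]
      exact ⟨Or.inr rfl, hγ⟩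
    · left
      have := (R.ra i (by omega) (by omega)).2
      rw [if_neg d1, if_neg d2]
      split_ifs <;> omega
  by_cases d : i ≠ 1 ∧ i ≠ n
  · refine crude_off P hz h h1 h2 ?_
    have := (R.ra i (by omega) (by omega)).2
    simp only [if_neg d.1, if_neg d.2]; omega
  obtain ⟨s', H', h', a1, a2, a3, a4⟩ := S
  have l0 := lam_pos W.κ
  have ε0 := G.ε0
  have ε1 := G.ε1
  have q1 := G.pow_le_div b
  have q2 := G.pow_le (b := b) (b' := b + 1) (by omega)
  have q3 := G.pow_le (b := b + 1) (b' := b + 2) (by omega)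
  have q4 : 0 < lam W.κ ^ (b + 1) := by positivity
  have q5 : G.ε / 4 * lam W.κ ^ (b + 1) ≤ lam W.κ ^ b / lam W.κ := by linarith only [q1, q2, q4, ε1, mul_nonneg_of_nonpos_of_nonpos (Mathlib.Tactic.Linarith.sub_nonpos_of_le ε1) (le_of_lt (Mathlib.Tactic.Linarith.sub_neg_of_lt q4))]
  have sz : ∀ j, j = 1 ∨ j = n → 3 * lam W.κ ^ (if j = 1 then b else if j = n then b + 1 else r j) /
      lam W.κ ≤ 3 * (lam W.κ ^ b / lam W.κ) := fun j hj => by
    rw [← mul_div_assoc]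
    exact G.sz_le (by split_ifs <;> omega)
  have b1 := (h.sbd hz le_rfl (by omega)).trans (sz 1 (Or.inl rfl))
  have b2 := (h.sbd hz (by omega) le_rfl).trans (sz n (Or.inr rfl))
  have b3 := (h.Hk hz).trans (sz k hk)
  have b4 : |H' k| ≤ G.ε / 4 * lam W.κ ^ (b + 1) := by rcases hk with rfl | rfl <;> assumption
  have q6 : 0 ≤ lam W.κ ^ b / lam W.κ := by positivity
  have b5 := off_ref R (s := s) (H := H) ⟨fun j e1 e2 => by
      have := h.vx' (i := j) (by omega) (by omega) (by omega)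
      rwa [if_neg (by omega), if_neg (by omega)] at this, h.ed⟩ h' a1 a2 P.k1 P.kn
    (E := 4 * (lam W.κ ^ b / lam W.κ)) ((abs_sub _ _).trans (by linarith only [q5, b3, b4])) (by linarith only [q1, q2, q4, b1])
    (by linarith only [q1, q2, q4, b2])
  have b6 := G.ηK_mul b
  have b7 : |H n - H 1| ≤ G.ε * lam W.κ ^ (b + 1) := by
    have q7 := mul_le_mul_of_nonneg_left q3 ε0.le
    have q8 : 0 ≤ G.ε * lam W.κ ^ (b + 1) := by positivity
    rw [abs_le] at *
    constructor <;> linarith only [a3, a4, b5, b6, q7, b5.1, b5.2, a3.1, a3.2, a4.1, a4.2]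
  by_cases d1 : i = 1
  · obtain rfl : k = n := by omega
    rw [if_pos d1, d1, abs_sub_comm]
    exact b7.trans (mul_le_mul_of_nonneg_left q2 ε0.le)
  · obtain rfl : k = 1 := by omega
    obtain rfl : i = n := by omega
    rwa [if_neg d1, if_pos rfl]

variable (G) in
/-- The left limit of a context followed by zero. -/
noncomputable def X0 (t : ℕ) : ℝ := G.X t (fun _ => 0) 0

lemma X_zero (hm : m = 0) : G.X t c m = G.X0 t := by
  subst hm; exact X_congr fun i a b => by omega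

lemma rel (hN : ¬W.Per) (R : G.Rok r n) (hb : G.a + 2 ≤ b)
    (S : G.Small r n (G.ε / 4 * lam W.κ ^ (b + 1))) (htl : tl = 0 ∨ tl = 2 ∨ tl = 4)
    (htr : tr = 0 ∨ tr = 2 ∨ tr = 4) (hγ : G.γ tl + G.γ0 ≤ G.γ tr) {φ : ℝ → ℤ} (hφ : W.Rul φ) :
    |(φ (G.X tl (cw b r) (n - 1)) - φ (G.X0 tl)) +
      (φ (G.X tr (cw (b + 1) (rv r n)) (n - 1)) - φ (G.X0 tr))| ≤ 2 := by
  have n2 := R.n2
  have := line hN (pok_rel R hb S htl htr hγ (Or.inr rfl)) (pok_rel R hb S htl htr hγ (Or.inl rfl))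
    (by omega) hφ
  rw [X_zero (sub_self n), X_zero (sub_self 1), X_congr (c' := cw b r) (m := n - 1),
    X_congr (t := tr) (c' := cw (b + 1) (rv r n)) (m := n - 1)] at this
  · rw [abs_le] at *; omega
  · intro i h1 h2
    simp only [cw, rv]
    split_ifs <;> first | rfl | omega
  · intro i h1 h2
    simp only [cw]
    split_ifs <;> first | rfl | omega

lemma HW.sbd (h : G.HW t c m s H) {i : ℤ} (h1 : 1 ≤ i) (h2 : i ≤ m) :
    |s i| ≤ 3 * lam W.κ ^ c i / lam W.κ := by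
  rw [h.vx i h1 h2]; exact (G.lawK _).2 _ _ (W.dl_le _ _ _)

lemma HW.bd (h : G.HW t c m s H) (hm : m ≤ 3) (hc : ∀ i, 1 ≤ i → i ≤ m → G.a ≤ c i) {i : ℤ}
    (h1 : 1 ≤ i) (h2 : i ≤ m + 1) : |s i| ≤ G.ρ ∧ |H i| ≤ 12 * (G.ηw * G.ρ) := by
  have hs : ∀ i, 1 ≤ i → i ≤ m + 1 → |s i| ≤ G.ρ := fun i h1 h2 => by
    rcases eq_or_lt_of_le h2 with e | e
    · rw [e, h.s0, abs_zero]; exact G.ρ0.le
    · exact (h.sbd h1 (by omega)).trans (G.sz_ρ (hc i h1 (by omega)))
  have := G.var_le (n := m + 1) (by omega) hs (fun i a b => h.ed i a (by omega)) h1 h2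
    (j := m + 1) (by omega) le_rfl
  rw [h.H0, sub_zero] at this
  exact ⟨hs i h1 h2, this⟩

lemma X_bd (h0 : 0 ≤ m) (hm : m ≤ 3) (hc : ∀ i, 1 ≤ i → i ≤ m → G.a ≤ c i) :
    |G.X t c m| ≤ 4 * W.R := by
  obtain ⟨s, H, h, hx⟩ := G.exists_hw t h0 hc
  have a1 := (h.bd hm hc le_rfl (by omega)).2.trans G.crude.2
  have a2 := (h.lch.mono (b' := 0) (by omega)).bound' (fun i hi => if_neg (by omega)) hx le_rfl
  have a3 := edge_le W.lipq W.anti (h.lch.1 0 (by omega)).2 (h.lch.bd (by omega)) h.lch.2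
  have := G.ρR; have := W.cR; have := W.R0; have := W.ηB
  simp only [zero_add] at a3
  rw [abs_le] at *
  constructor <;> linarith [a1.1, a1.2, a2.1, a2.2, a3.1, a3.2]

lemma cw_ge (R : G.Rok r n) (hb : G.a ≤ b) (i : ℤ) (h1 : 1 ≤ i) (h2 : i ≤ n - 1) :
    G.a ≤ cw b r i := by
  unfold cw
  split_ifs
  · exact hb
  · exact (R.ra i (by omega) (by omega)).1

lemma Xcw_bd (R : G.Rok r n) (hb : G.a ≤ b) : |G.X t (cw b r) (n - 1)| ≤ 4 * W.R :=
  X_bd (by have := R.n2; omega) (by have := R.n4; omega) (cw_ge R hb)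

lemma X0_bd : |G.X0 t| ≤ 4 * W.R := X_bd le_rfl (by norm_num) fun i a b => by omega

lemma rel3 (hN : ¬W.Per) (R : G.Rok r n) (hb : G.a + 2 ≤ b)
    (S : G.Small r n (G.ε / 4 * lam W.κ ^ (b + 1))) {φ : ℝ → ℤ} (hφ : W.Rul φ) :
    |(φ (G.X 2 (cw b r) (n - 1)) - φ (G.X0 2)) +
      (φ (G.X 2 (cw (b + 1) (rv r n)) (n - 1)) - φ (G.X0 2))| ≤ 6 := by
  have a1 := rel (tl := 4) (tr := 2) hN R hb S (by simp) (by simp) G.γ2 hφ
  have a2 := rel (tl := 4) (tr := 0) hN R hb S (by simp) (by simp)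
    (by linarith only [G.γ2, G.γ0', G.γ00]) hφ
  have a3 := rel (tl := 2) (tr := 0) hN R hb S (by simp) (by simp) G.γ0' hφ
  rw [abs_le] at *
  omega

lemma stepX (hN : ¬W.Per) (R : G.Rok r n) (hb : G.a + 2 ≤ b)
    (S : G.Small r n (G.ε / 4 * lam W.κ ^ (b + 2))) :
    G.X 2 (cw b r) (n - 1) = G.X 2 (cw (b + 2) r) (n - 1) := by
  refine count hN (Xcw_bd R (by omega)) (Xcw_bd R (by omega)) 12 fun φ hφ => ?_
  have a1 := rel3 hN R hb (S.mono (mul_le_mul_of_nonneg_left (G.pow_le (by omega))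
    (by linarith only [G.ε0]))) hφ
  have a2 := rel3 hN R.rev (b := b + 1) (by omega) S.rev hφ
  rw [rv_rv, show b + 1 + 1 = b + 2 from rfl] at a2
  rw [abs_le] at *
  omega

lemma HW.mid (h : G.HW t (cw b r) (n - 1) s H) : G.Mid r n s H ∧ s n = 0 ∧ H n = 0 := by
  refine ⟨⟨fun i a b => ?_, fun i a b => h.ed i a (by omega)⟩, by simpa using h.s0,
    by simpa using h.H0⟩
  have := h.vx i a.le (by omega)
  rwa [cw, if_neg (by omega)] at this

lemma null (hN : ¬W.Per) (R : G.Rok r n) (S : G.Small r n 0) (hb : G.a + 2 ≤ b) :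
    G.X 2 (cw b r) (n - 1) = G.X0 2 := by
  have l0 := lam_pos W.κ
  have n2 := R.n2
  have k1 : ∀ i : ℕ, G.X 2 (cw b r) (n - 1) = G.X 2 (cw (b + 2 * i) r) (n - 1) := by
    intro i
    induction i with
    | zero => rfl
    | succ i ih =>
      rw [ih]
      exact stepX hN R (by omega) (S.mono (by have := G.ε0; positivity))
  have k2 : ∀ b', G.a ≤ b' → ∀ j : ℕ, |G.X 2 (cw b' r) (n - 1) - G.X0 2| ≤
      2 ^ ((1 : ℤ) - 0) * 2 ^ j * (3 * lam W.κ ^ b' / lam W.κ) + 2 * W.c * (1 / 8) ^ j := by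
    intro b' hb' j
    obtain ⟨s, H, h, hx⟩ := G.exists_hw 2 (by omega) (cw_ge R hb')
    obtain ⟨s0, H0, h0, hx0⟩ := G.exists_hw 2 (c := fun _ => 0) le_rfl fun i a b => by omega
    obtain ⟨s', H', h', a1, a2, a3, a4⟩ := S
    have b1 : |s 1| ≤ 3 * lam W.κ ^ b' / lam W.κ := h.sbd le_rfl (by omega)
    obtain ⟨m1, m2, m3⟩ := h.mid
    rw [abs_nonpos_iff] at a3 a4
    have hE : 0 ≤ 3 * lam W.κ ^ b' / lam W.κ := by positivity
    have b2 := off_ref R m1 h' a1 a2 (k := n) (by omega) le_rfl (by simpa [m3, a4] using hE) b1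
      (by simpa [m2] using hE)
    rw [m3, a3, a4, sub_zero, sub_zero, zero_sub, abs_neg] at b2
    have e1 : s0 1 = 0 := h0.s0
    have e2 : H0 1 = 0 := h0.H0
    refine LC h.lch h0.lch (a0 := 0) (fun i hi => if_neg (by omega)) hx hx0 (by omega)
      (by rwa [e1, sub_zero]) ?_ j
    rw [e2, sub_zero]
    have := G.ηK; have := G.ε1
    nlinarith
  by_contra hc
  have d0 := half_pos (abs_pos.2 (sub_ne_zero.2 hc))
  obtain ⟨j, hj⟩ := exists_pow_lt (C := 2 * W.c) d0 (θ := 1 / 8) (by norm_num) (by norm_num)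
  obtain ⟨i, hi⟩ := exists_pow_lt (C := 2 ^ ((1 : ℤ) - 0) * 2 ^ j * (3 / lam W.κ)) d0 l0.le G.lam1
  have a1 := k2 (b + 2 * i) (by omega) j
  rw [← k1 i] at a1
  have a2 := mul_le_mul_of_nonneg_left (G.sz_le (b := i) (b' := b + 2 * i) (by omega))
    (by positivity : (0 : ℝ) ≤ 2 ^ ((1 : ℤ) - 0) * 2 ^ j)
  have a3 := hi i le_rfl
  have a4 := hj j le_rfl
  have e : (2 : ℝ) ^ ((1 : ℤ) - 0) * 2 ^ j * (3 / lam W.κ) * lam W.κ ^ i =
    2 ^ ((1 : ℤ) - 0) * 2 ^ j * (3 * lam W.κ ^ i / lam W.κ) := by ring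
  linarith only [a1, a2, a3, a4, e]

lemma exists_ref (R : G.Rok r n) (k1 : 1 ≤ k) (kn : k ≤ n) :
    ∃ s H, G.Mid r n s H ∧ s 1 = 0 ∧ s n = 0 ∧ H k = 0 := by
  have hok : W.Ok k 1 n G.K G.ηw 0
      (fun i => if 1 < i ∧ i < n then G.D.V G.ν (r i) else fun _ _ => 0) (fun _ => 0)
      (fun _ => G.qw) id := by
    refine ⟨k1, kn, G.hK, G.ηw0, le_rfl, G.sηw', by norm_num, fun i h1 h2 => ?_,
      fun i h => ?_, by simp, fun _ => G.lipq, fun _ => G.antiw, fun _ _ _ => G.lipw,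
      fun _ => Or.inl rfl⟩
    · split_ifs with d
      · exact G.lawHi (R.ra i d.1 d.2).1
      · exact law_zero (by linarith only [G.K1])
    · rw [if_neg (by omega)]; exact law_zero (by linarith only [W.Λ1])
  obtain ⟨s, H, h⟩ := hok.exists
  refine ⟨s, H, ⟨fun i a b => ?_, fun i _ _ => h.ed i⟩, ?_, ?_, h.an⟩
  · have := h.vx i
    simp only [id] at this
    rwa [if_pos ⟨a, b⟩] at this
  · simpa using h.vx 1
  · simpa using h.vx n

lemma small_two (G : W.Hi) (r : ℤ → ℕ) : G.Small r 2 0 :=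
  ⟨fun _ => 0, fun _ => 0, ⟨fun i a b => by omega, fun i _ _ => by simp [Edge, G.antiw.diag]⟩,
    rfl, rfl, by simp, by simp⟩

lemma small_three (R : G.Rok r 3) : G.Small r 3 0 := by
  obtain ⟨s, H, h, a1, a2, a3⟩ := exists_ref R (k := 1) le_rfl (by norm_num)
  refine ⟨s, H, h, a1, a2, by simp [a3], ?_⟩
  have e1 : H 2 - H 1 = 2 * G.qw (s 1, s 2, (H 1 + H 2) / 2) := h.ed 1 le_rfl (by norm_num)
  have e2 : H 3 - H 2 = 2 * G.qw (s 2, s 3, (H 2 + H 3) / 2) := h.ed 2 (by norm_num) (by norm_num)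
  rw [G.antiw (s 3), a2] at e2
  rw [a1, a3] at e1
  have := G.lipw 0 (s 2) ((0 + H 2) / 2) 0 (s 2) ((H 2 + H 3) / 2) |H 3| (by simp) (by simp) (by
    rw [abs_le]; constructor <;> linarith only [le_abs_self (H 3), neg_abs_le (H 3), abs_nonneg (H 3)])
  have e3 : G.qw (0, s 2, (0 + H 2) / 2) - G.qw (0, s 2, (H 2 + H 3) / 2) = H 3 / 2 := by linarith only [e1, e2]
  rw [e3, abs_div, abs_two] at this
  have := G.ηK; have := G.ε1; have := G.ηwK; have := abs_nonneg (H 3)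
  nlinarith

end Hi

end Lw

end Pool.Agent.Work.MP_05654f_an
end
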