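import Pool.Agent.Work.MP_05654f_an.LinC
import Pool.Agent.Work.MP_05654f_an.Defs
import Pool.Agent.Work.MP_05654f_an.HiDef
import Pool.Agent.Work.MP_05654f_an.Win3

-- merged part: Pool.Agent.Work.MP_05654f_an.Glue
section
-- merged part: Pool.Agent.Work.MP_05654f_an.GeoDefs
section
/-!
Data along the homoclinic loop: a global flow, the linearising chart, the section and the
involution `Jm`.
-/

namespace Pool.Agent.Work.MP_05654f_an

open Filter Topology Set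

/-- All the data used to define the global map along `γ`. -/
structure GeoData (F : E → E) (l : ℂ) (γ : ℝ → E) (U : Set E) where
  Fh : E → E
  K : NNReal
  Φ : ℝ → E → E
  M : ℝ
  h : E ≃ₜ E
  δ : ℝ
  c : ℝ
  δ' : ℝ
  T : ℝ
  lip : LipschitzWith K Fh
  c1 : ContDiff ℝ 1 Fh
  revh : ∀ z, Fh (sw z) = -sw (Fh z)
  flow : IsFlow Fh Φ
  agree : ∀ z, ‖z‖ ≤ M → Fh z = F z
  bound : ∀ t, ‖γ t‖ + 1 ≤ M
  δM : δ ≤ M
  ballU : ∀ z, ‖z‖ ≤ δ → z ∈ U
  chart : LinChart F l δ h c δ'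
  Tpos : 0 < T
  tail : ∀ t, t ≤ -T → ‖γ t‖ ≤ δ' / 2 ∧ ‖h (γ t)‖ ≤ c / 4
  x0 : (h (γ (-T))).1 = 0
  y0 : (h (γ (-T))).2 ≠ 0

namespace GeoData

variable {F : E → E} {l : ℂ} {γ : ℝ → E} {U : Set E} (D : GeoData F l γ U)

/-- The ratio of the real and the imaginary part of the eigenvalue. -/
noncomputable def kap (l : ℂ) : ℝ := l.re / (-l.im)

/-- The unstable coordinate of the exit point. -/
noncomputable def y : ℂ := (D.h (γ (-D.T))).2

/-- The exit section, with coordinates (phase, product invariant). -/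
noncomputable def sec (w : ℝ × ℂ) : E :=
  D.h.symm (w.2 / (D.y * Real.exp (kap l * w.1)), D.y * Real.exp (kap l * w.1))

/-- The phase of a coordinate close to `D.y`; it is invariant under the linear flow. -/
noncomputable def ang (x : ℂ) : ℝ :=
  (Complex.log (x / D.y)).re / kap l + (Complex.log (x / D.y)).im

/-- The global map followed by the reversor, in the coordinates of the exit section. -/
noncomputable def Jm (w : ℝ × ℂ) : ℝ × ℂ :=
  (D.ang (D.h (D.Φ (2 * D.T) (D.sec w))).1,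
    (D.h (D.Φ (2 * D.T) (D.sec w))).1 * (D.h (D.Φ (2 * D.T) (D.sec w))).2)

end GeoData

/-- The standing hypotheses in normal coordinates. -/
structure Hyp (F : E → E) (l : ℂ) (γ : ℝ → E) (U : Set E) : Prop where
  c2 : ContDiff ℝ 2 F
  re : 0 < l.re
  im : l.im < 0
  F0 : F 0 = 0
  der : HasFDerivAt F (Alin l) 0
  rev : ∀ z, F (sw z) = -sw (F z)
  hom : IsHomoclinic F 0 γ
  sym : ∀ t, sw (γ t) = γ (-t)
  nd : Nondegenerate F 0 γ
  nhd : U ∈ 𝓝ˢ (insert 0 (range γ))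

end Pool.Agent.Work.MP_05654f_an
end

-- merged part: Pool.Agent.Work.MP_05654f_an.GeoA0
section
/-!
Existence of the data along the loop.
-/

namespace Pool.Agent.Work.MP_05654f_an

open Filter Topology Set

variable {F : E → E} {l : ℂ} {γ : ℝ → E} {U : Set E}

theorem exists_geoData0 (H : Hyp F l γ U) : Nonempty (GeoData F l γ U) := by
  obtain ⟨sol, ⟨t1, ht1⟩, top, bot⟩ := H.hom
  have cγ : Continuous γ := continuous_iff_continuousAt.2 fun t => (sol t).continuousAt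
  obtain ⟨B, hB⟩ := (Tendsto.isCompact_insert_range_of_cocompact
    (by rw [cocompact_eq_atBot_atTop]; exact tendsto_sup.2 ⟨bot, top⟩) cγ).isBounded.exists_norm_le
  replace hB : ∀ t, ‖γ t‖ ≤ B := fun t => hB _ (mem_insert_of_mem _ (mem_range_self t))
  obtain ⟨δ, δ0, hδ⟩ := Metric.nhds_basis_closedBall.mem_iff.1
    (mem_nhdsSet_iff_forall.1 H.nhd 0 (mem_insert _ _))
  obtain ⟨h, c, δ', hc⟩ := exists_linChart F H.c2 l H.re H.F0 H.der H.rev δ δ0
  obtain ⟨χ, c2, -, c1, c0, cw, -⟩ := LinC_cut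
  have B0 : 0 ≤ B := (norm_nonneg _).trans (hB 0)
  obtain ⟨M, hM⟩ : ∃ M, M = B + 1 + δ := ⟨_, rfl⟩
  have M0 : 0 < 2 * M := by linarith only [δ0, B0, hM]
  have nm : ∀ z : E, ‖(2 * M)⁻¹ • z‖ = ‖z‖ / (2 * M) := fun z => by
    rw [norm_smul, Real.norm_of_nonneg (inv_pos.2 M0).le, inv_mul_eq_div]
  have cF : ContDiff ℝ 2 fun z => χ ((2 * M)⁻¹ • z) • F z :=
    (c2.comp (contDiff_id.const_smul _)).smul H.c2
  obtain ⟨K, hK⟩ := cF.lipschitzWith_of_hasCompactSupport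
    (HasCompactSupport.intro (isCompact_closedBall 0 (2 * M)) fun z hz => by
      rw [c0, zero_smul]
      rw [nm, one_le_div M0]
      exact (not_le.1 (by simpa using hz)).le) (by norm_num)
  obtain ⟨Φ, hΦ⟩ := exists_flow hK
  have ag : ∀ z : E, ‖z‖ ≤ M → χ ((2 * M)⁻¹ • z) • F z = F z := fun z hz => by
    rw [c1, one_smul]
    rw [nm, div_le_iff₀ M0]
    linarith only [hz]
  have bot' : Tendsto (fun t => ‖h (γ t)‖) atBot (𝓝 0) := by
    simpa [hc.zero] using ((h.continuous.tendsto 0).comp bot).norm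
  obtain ⟨T, hT⟩ := eventually_atBot.1 (((by simpa using bot.norm :
    Tendsto (fun t => ‖γ t‖) atBot (𝓝 0)).eventually_le_const (half_pos hc.δpos)).and
      ((bot'.eventually_le_const (by linarith only [hc, hc.cpos] : 0 < c / 4)).and (eventually_lt_atBot 0)))
  have x0 : (h (γ T)).1 = 0 := by
    refine norm_le_zero_iff.1 (ge_of_tendsto bot' (eventually_atBot.2 ⟨T, fun t ht => ?_⟩))
    refine le_trans ?_ (norm_fst_le _)
    rw [hc.conj γ t T (fun s hs => ⟨sol s, by linarith only [hT, hs, hc, (hT s hs.2).1, hc.δpos]⟩) T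
      (right_mem_Icc.2 ht) t (left_mem_Icc.2 ht), expA, norm_mul, Complex.norm_exp]
    refine le_mul_of_one_le_left (norm_nonneg _) (Real.one_le_exp ?_)
    rw [Complex.neg_re, Complex.re_mul_ofReal]
    linarith only [ht, H, H.re, mul_nonneg_of_nonpos_of_nonpos (Mathlib.Tactic.Linarith.sub_nonpos_of_le ht) (le_of_lt (Mathlib.Tactic.Linarith.sub_neg_of_lt H.re))]
  refine ⟨⟨_, K, Φ, M, h, δ, c, δ', -T, hK, cF.of_le (by norm_num), fun z => ?_, hΦ, ag,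
    fun t => by linarith only [δ0, hM, hB, hB t], by linarith only [B0, hM], fun z hz => hδ (mem_closedBall_zero_iff.2 hz), hc,
    neg_pos.2 (hT T le_rfl).2.2, fun t ht => ?_, by rwa [neg_neg], fun y0 => ht1 ?_⟩⟩
  · simp only [LinC_smul_sw, cw, H.rev, smul_neg]
  · exact (hT t (by rwa [neg_neg] at ht)).imp id And.left
  · rw [neg_neg] at y0
    have e : γ T = 0 := h.injective (by rw [hc.zero]; exact Prod.ext x0 y0)
    have e1 := hΦ.unique_Icc hK (x := γ) (fun s _ => by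
      rw [ag _ (by linarith only [δ0, hM, hB, hB s])]; exact sol s) left_mem_uIcc (right_mem_uIcc (a := T) (b := t1))
    have e2 := hΦ.unique_Icc hK (x := fun _ => 0) (fun s _ => by
      rw [H.F0, smul_zero]; exact hasDerivAt_const s _) left_mem_uIcc
        (right_mem_uIcc (a := T) (b := t1))
    rw [e1, e, ← e2, H.F0]

end Pool.Agent.Work.MP_05654f_an
end

-- merged part: Pool.Agent.Work.MP_05654f_an.GeoA1
section
/-!
Local structure of the flow near the exit point.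
-/

namespace Pool.Agent.Work.MP_05654f_an

open Filter Topology Set

variable {F : E → E} {l : ℂ} {γ : ℝ → E} {U : Set E}

/-- The reversor as a continuous linear map. -/
noncomputable def geoA_swL : E →L[ℝ] E :=
  (ContinuousLinearMap.snd ℝ ℂ ℂ).prod (ContinuousLinearMap.fst ℝ ℂ ℂ)

@[simp] lemma geoA_swL_apply (z : E) : geoA_swL z = sw z := rfl

namespace GeoData

variable (H : Hyp F l γ U) (D : GeoData F l γ U)

/-- The invariants of the linear flow. -/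
noncomputable def geoA_pi (w : E) : ℝ × ℂ := (D.ang w.2, w.1 * w.2)

/-- The section in the linearising chart. -/
noncomputable def geoA_sg (w : ℝ × ℂ) : E :=
  (w.2 / (D.y * Real.exp (kap l * w.1)), D.y * Real.exp (kap l * w.1))

/-- The time needed to reach the section. -/
noncomputable def geoA_tm (w : E) : ℝ := (Complex.log (w.2 / D.y)).im / (-l.im)

lemma geoA_hp : D.h (γ (-D.T)) = (0, D.y) := Prod.ext D.x0 rfl

lemma geoA_sg0 : D.geoA_sg 0 = (0, D.y) := by simp [geoA_sg]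

lemma geoA_sec0 : D.sec 0 = γ (-D.T) := by
  change D.h.symm (D.geoA_sg 0) = _
  rw [geoA_sg0, ← geoA_hp, Homeomorph.symm_apply_apply]

lemma geoA_rev (t : ℝ) (z : E) : D.Φ t (sw z) = sw (D.Φ (-t) z) :=
  D.flow.rev D.lip geoA_swL D.revh t z

lemma geoA_add (s t : ℝ) (z : E) : D.Φ s (D.Φ t z) = D.Φ (s + t) z :=
  (D.flow.add D.lip s t z).symm

lemma geoA_pi0 : D.geoA_pi (0, D.y) = 0 := by
  have : D.y ≠ 0 := D.y0
  simp [geoA_pi, ang, this]

lemma geoA_tm0 : D.geoA_tm (0, D.y) = 0 := by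
  have : D.y ≠ 0 := D.y0
  simp [geoA_tm, this]

lemma geoA_log : HasStrictFDerivAt (fun w : E => Complex.log (w.2 / D.y))
    (D.y⁻¹ • ContinuousLinearMap.snd ℝ ℂ ℂ) (0, D.y) := by
  have hy : D.y ≠ 0 := D.y0
  have h1 : HasStrictFDerivAt (fun w : E => w.2 / D.y) (D.y⁻¹ • ContinuousLinearMap.snd ℝ ℂ ℂ)
      (0, D.y) := by
    convert (D.y⁻¹ • ContinuousLinearMap.snd ℝ ℂ ℂ).hasStrictFDerivAt using 1
    funext w
    simp [div_eq_inv_mul]
  have h2 := (Complex.hasStrictFDerivAt_log_real (x := ((0, D.y) : E).2 / D.y)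
    (by simp [hy])).comp (0, D.y) h1
  refine h2.congr_fderiv (ContinuousLinearMap.ext fun v => ?_)
  simp [hy]

lemma geoA_tm_cont : ContinuousAt D.geoA_tm (0, D.y) :=
  (Complex.continuous_im.continuousAt.comp D.geoA_log.continuousAt).div_const _

lemma geoA_pi_strict : ∃ A : E →L[ℝ] ℝ × ℂ, HasStrictFDerivAt D.geoA_pi A (0, D.y) ∧
    ∀ v, A v = ((v.2 / D.y).re / kap l + (v.2 / D.y).im, v.1 * D.y) := by
  have h1 := ((Complex.reCLM.hasStrictFDerivAt.comp _ D.geoA_log).mul_const (kap l)⁻¹).add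
    (Complex.imCLM.hasStrictFDerivAt.comp _ D.geoA_log)
  have h2 := (hasStrictFDerivAt_fst (𝕜 := ℝ) (p := ((0, D.y) : E))).mul
    (hasStrictFDerivAt_snd (𝕜 := ℝ) (p := ((0, D.y) : E)))
  refine ⟨_, h1.prodMk h2, fun v => ?_⟩
  simp [div_eq_inv_mul, mul_comm]

lemma geoA_sg_smooth : ContDiff ℝ 1 D.geoA_sg := by
  have hy : D.y ≠ 0 := D.y0
  have h1 : ContDiff ℝ 1 fun w : ℝ × ℂ => D.y * (Real.exp (kap l * w.1) : ℂ) :=
    contDiff_const.mul (Complex.ofRealCLM.contDiff.comp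
      (f := fun w : ℝ × ℂ => Real.exp (kap l * w.1)) (by fun_prop))
  exact (contDiff_snd.mul (h1.inv fun w => by simp [hy])).prodMk h1

lemma geoA_sg_strict : ∃ B : ℝ × ℂ →L[ℝ] E, HasStrictFDerivAt D.geoA_sg B 0 ∧
    (B (1, 0)).2 = D.y * kap l := by
  have h0 := D.geoA_sg_smooth.contDiffAt.hasStrictFDerivAt (x := 0) one_ne_zero
  refine ⟨_, h0, ?_⟩
  have h1 : HasDerivAt (fun s : ℝ => ((s, 0) : ℝ × ℂ)) (1, 0) 0 :=
    (hasDerivAt_id (0 : ℝ)).prodMk (hasDerivAt_const _ _)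
  have h2 := (ContinuousLinearMap.snd ℝ ℂ ℂ).hasFDerivAt.comp_hasDerivAt (0 : ℝ)
    (h0.hasFDerivAt.comp_hasDerivAt (0 : ℝ) h1)
  have h3 : HasDerivAt (fun s : ℝ => D.y * (Real.exp (kap l * s) : ℂ)) (D.y * kap l) 0 := by
    have := (((hasDerivAt_id (0 : ℝ)).const_mul (kap l)).exp.ofReal_comp).const_mul D.y
    simpa using this
  exact h2.unique h3

include H

lemma geoA_kap : 0 < kap l := div_pos H.re (neg_pos.2 H.im)

lemma geoA_pi_sg (w : ℝ × ℂ) : D.geoA_pi (D.geoA_sg w) = w := by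
  have hy : D.y ≠ 0 := D.y0
  have hk := (geoA_kap H).ne'
  refine Prod.ext ?_ ?_
  · simp only [geoA_pi, geoA_sg, ang, mul_div_cancel_left₀ _ hy]
    rw [← Complex.ofReal_log (Real.exp_pos _).le, Real.log_exp, Complex.ofReal_re,
      Complex.ofReal_im]
    field_simp
    ring
  · simp only [geoA_pi, geoA_sg]
    rw [div_mul_cancel₀]
    simp [hy]

lemma geoA_sg_pi {w : E} (hw : w.2 ≠ 0) :
    D.geoA_sg (D.geoA_pi w) = expA l (D.geoA_tm w) w := by
  have hy : D.y ≠ 0 := D.y0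
  have hk := (geoA_kap H).ne'
  have hi := H.im.ne
  have e : D.y * (Real.exp (kap l * D.ang w.2) : ℂ) = Complex.exp (l * D.geoA_tm w) * w.2 := by
    have h1 : w.2 = D.y * Complex.exp (Complex.log (w.2 / D.y)) := by
      rw [Complex.exp_log (div_ne_zero hw hy)]
      field_simp
    conv_rhs => rw [h1]
    rw [mul_left_comm, ← Complex.exp_add, Complex.ofReal_exp]
    congr 2
    refine Complex.ext ?_ ?_
    · simp only [ang, geoA_tm, Complex.ofReal_re, Complex.add_re, Complex.mul_re,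
        Complex.ofReal_im, mul_zero, sub_zero]
      rw [mul_add, mul_div_cancel₀ _ hk, kap]
      ring
    · simp only [geoA_tm, Complex.ofReal_re, Complex.add_im, Complex.mul_im,
        Complex.ofReal_im, mul_zero, zero_add]
      field_simp
      ring
  refine Prod.ext ?_ e
  simp only [geoA_sg, geoA_pi, expA, e, Complex.exp_neg]
  have := Complex.exp_ne_zero (l * D.geoA_tm w)
  field_simp

lemma geoA_pi_expA : ∀ᶠ q : ℝ × E in 𝓝 (0, (0, D.y)),
    D.geoA_pi (expA l q.1 q.2) = D.geoA_pi q.2 := by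
  have hy : D.y ≠ 0 := D.y0
  have hk := (geoA_kap H).ne'
  have c1 : ContinuousAt (fun q : ℝ × E => (l * q.1 + Complex.log (q.2.2 / D.y)).im)
      (0, (0, D.y)) :=
    Complex.continuous_im.continuousAt.comp (ContinuousAt.add (by fun_prop)
      (ContinuousAt.comp (f := (Prod.snd : ℝ × E → E)) (x := (0, (0, D.y)))
        D.geoA_log.continuousAt continuousAt_snd))
  have c2 : ContinuousAt (fun q : ℝ × E => q.2.2) (0, (0, D.y)) := by fun_prop
  filter_upwards [c1.eventually (Ioo_mem_nhds (a := -Real.pi) (b := Real.pi)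
    (by simpa [hy] using Real.pi_pos) (by simpa [hy] using Real.pi_pos)),
    c2.eventually_ne hy] with q h1 h2
  refine Prod.ext ?_ ?_
  · have e : Complex.log (Complex.exp (l * q.1) * q.2.2 / D.y) =
        l * q.1 + Complex.log (q.2.2 / D.y) := by
      rw [← Complex.log_exp h1.1 h1.2.le, Complex.exp_add, Complex.exp_log (div_ne_zero h2 hy),
        mul_div_assoc]
    have hr := H.re.ne'
    simp only [geoA_pi, expA, ang, e, Complex.add_re, Complex.add_im, Complex.mul_re,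
      Complex.mul_im, Complex.ofReal_re, Complex.ofReal_im, mul_zero, sub_zero, zero_add, kap]
    field_simp
    ring
  · simp only [geoA_pi, expA, Complex.exp_neg]
    have := Complex.exp_ne_zero (l * q.1)
    field_simp

lemma geoA_flow (s t : ℝ) : D.Φ s (γ t) = γ (s + t) := by
  have := D.flow.unique_Icc D.lip (x := γ) (a := min t (s + t)) (b := max t (s + t))
    (fun u _ => by
      rw [D.agree _ (by linarith only [D.bound u])]
      exact H.hom.1 u) (t₀ := t) (t := s + t) ⟨min_le_left _ _, le_max_left _ _⟩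
    ⟨min_le_right _ _, le_max_right _ _⟩
  rw [this, add_sub_cancel_right]

omit H in
lemma geoA_loc : ∀ᶠ q : ℝ × E in 𝓝 (0, γ (-D.T)), D.h (D.Φ q.1 q.2) = expA l q.1 (D.h q.2) := by
  have hc := (D.flow.continuous D.lip).continuousAt (x := (0, γ (-D.T)))
  obtain ⟨ε, hε, h⟩ := Metric.continuousAt_iff.1 hc (min (D.δ' / 2) 1)
    (lt_min (half_pos D.chart.δpos) one_pos)
  filter_upwards [Metric.ball_mem_nhds _ hε] with q hq
  rw [Metric.mem_ball, Prod.dist_eq, max_lt_iff, Real.dist_eq, sub_zero] at hq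
  have := D.chart.conj (fun t => D.Φ t q.2) (-|q.1|) |q.1| (fun t ht => by
    have h1 := h (x := (t, q.2)) (by
      rw [Prod.dist_eq, max_lt_iff, Real.dist_eq, sub_zero]
      exact ⟨(abs_le.2 ht).trans_lt hq.1, hq.2⟩)
    rw [D.flow.zero, dist_eq_norm, lt_min_iff] at h1
    have h2 := norm_sub_norm_le (D.Φ t q.2) (γ (-D.T))
    refine ⟨?_, by linarith only [h1, h2, (D.tail _ le_rfl).1, h1.1]⟩
    rw [← D.agree _ (by linarith only [h1, h2, D.bound (-D.T), h1.2])]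
    exact D.flow.deriv _ _) 0 ⟨by simp, abs_nonneg _⟩ q.1 ⟨neg_abs_le _, le_abs_self _⟩
  simpa [D.flow.zero] using this

/-- The key identity: going to the section, around the loop and back. -/
lemma geoA_round : ∀ᶠ q : E × E in 𝓝 (γ (-D.T), γ (-D.T)), q.2 = sw (D.Φ (2 * D.T) q.1) →
    D.Jm (D.geoA_pi (D.h q.2)) = D.geoA_pi (D.h q.1) := by
  have hy : D.y ≠ 0 := D.y0
  have ch : ContinuousAt (fun q : E × E => D.h q.2) (γ (-D.T), γ (-D.T)) := by fun_prop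
  have ct : Tendsto (fun q : E × E => D.geoA_tm (D.h q.2)) (𝓝 (γ (-D.T), γ (-D.T))) (𝓝 0) := by
    rw [← D.geoA_tm0]
    exact D.geoA_tm_cont.tendsto.comp (D.geoA_hp ▸ ch.tendsto)
  have cn : Tendsto (fun q : E × E => -D.geoA_tm (D.h q.2)) (𝓝 (γ (-D.T), γ (-D.T))) (𝓝 0) := by
    simpa using ct.neg
  have c1 : Tendsto (fun q : E × E => D.h q.1) (𝓝 (γ (-D.T), γ (-D.T))) (𝓝 (0, D.y)) :=
    D.geoA_hp ▸ (show ContinuousAt (fun q : E × E => D.h q.1) _ by fun_prop).tendsto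
  have c2 : ContinuousAt (fun q : E × E => (D.h q.2).2) (γ (-D.T), γ (-D.T)) := by fun_prop
  filter_upwards [(ct.prodMk_nhds continuousAt_snd.tendsto).eventually D.geoA_loc,
    (cn.prodMk_nhds continuousAt_fst.tendsto).eventually D.geoA_loc,
    (cn.prodMk_nhds c1).eventually (D.geoA_pi_expA H), c2.eventually_ne hy] with q h1 h2 h3 h4 hq
  have e1 : D.sec (D.geoA_pi (D.h q.2)) = D.Φ (D.geoA_tm (D.h q.2)) q.2 := by
    change D.h.symm (D.geoA_sg _) = _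
    rw [D.geoA_sg_pi H h4, ← h1, Homeomorph.symm_apply_apply]
  have e2 : D.Φ (2 * D.T) (D.sec (D.geoA_pi (D.h q.2))) =
      sw (D.Φ (-D.geoA_tm (D.h q.2)) q.1) := by
    rw [e1, geoA_add]
    generalize D.geoA_tm (D.h q.2) = σ
    rw [hq, geoA_rev, geoA_add]
    congr 2
    ring
  rw [← h3, ← h2, Jm, e2, D.chart.swap]
  simp [geoA_pi, sw, mul_comm]

omit H in
lemma geoA_T (hl : 0 < l.re) {N : Set E} (hN : N ∈ 𝓝 (0 : E)) : ∃ T, 0 ≤ T ∧ ∀ x : ℂ,
    ‖x‖ ≤ D.c → ∀ t ≤ -T, D.h.symm (expA l t (0, x)) ∈ N := by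
  have h0 : D.h.symm 0 = 0 := by rw [Homeomorph.symm_apply_eq, D.chart.zero]
  obtain ⟨ε, hε, hb⟩ := Metric.mem_nhds_iff.1
    (D.h.symm.continuous.continuousAt.preimage_mem_nhds (x := 0) (h0.symm ▸ hN))
  have h1 : Tendsto (fun t : ℝ => Real.exp (l.re * t) * D.c) atBot (𝓝 0) := by
    simpa using (Real.tendsto_exp_atBot.comp (tendsto_id.const_mul_atBot hl)).mul_const D.c
  obtain ⟨T, hT⟩ := eventually_atBot.1 (h1.eventually (gt_mem_nhds hε))
  refine ⟨max (-T) 0, le_max_right _ _, fun x hx t ht => hb ?_⟩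
  have h2 := hT t (by linarith only [ht, le_max_left (-T) 0])
  have hn : ‖expA l t (0, x)‖ = Real.exp (l.re * t) * ‖x‖ := by
    simp [expA, Complex.norm_exp, Prod.norm_def, mul_nonneg (Real.exp_pos _).le (norm_nonneg x)]
  rw [mem_ball_zero_iff, hn]
  exact (mul_le_mul_of_nonneg_left hx (Real.exp_pos _).le).trans_lt h2

omit H in
lemma geoA_Wu {τ : ℝ} {x : ℂ} (hl : 0 < l.re) (hx : ‖x‖ ≤ D.c) {N : Set E} {T : ℝ} (hT : 0 ≤ T)
    (hN : ∀ t ≤ -T, D.h.symm (expA l t (0, x)) ∈ N)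
    (hb : ∀ t ∈ Icc 0 τ, ‖D.Φ t (D.h.symm (0, x))‖ ≤ D.M) :
    D.Φ τ (D.h.symm (0, x)) ∈ Wu F 0 N (T + τ) := by
  have hn : ∀ t ≤ (0 : ℝ), ‖expA l t (0, x)‖ = Real.exp (l.re * t) * ‖x‖ := fun t _ => by
    simp [expA, Complex.norm_exp, Prod.norm_def, mul_nonneg (Real.exp_pos _).le (norm_nonneg x)]
  have hs : ∀ t ≤ (0 : ℝ), ‖expA l t (0, x)‖ ≤ D.c := fun t ht => by
    rw [hn t ht]
    exact (mul_le_of_le_one_left (norm_nonneg _)
      (Real.exp_le_one_iff.2 (mul_nonpos_of_nonneg_of_nonpos hl.le ht))).trans hx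
  have key : ∀ t ≤ (0 : ℝ), D.Φ t (D.h.symm (0, x)) = D.h.symm (expA l t (0, x)) := fun t ht => by
    have := D.flow.unique_Icc D.lip (x := fun s => D.h.symm (expA l s (0, x))) (a := t) (b := 0)
      (fun u hu => by
        rw [D.agree _ ((D.chart.small _ (hs u hu.2)).trans D.δM)]
        exact D.chart.sol _ _ (hs u hu.2)) (t₀ := 0) (t := t) ⟨ht, le_rfl⟩ ⟨le_rfl, ht⟩
    simpa [expA] using this.symm
  refine ⟨fun t => D.Φ (t + τ) (D.h.symm (0, x)), by simp, fun t ht => ?_, ?_, fun t ht => by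
    simp only [key (t + τ) (by linarith only [hT, ht])]; exact hN _ (by linarith only [ht])⟩
  · rw [← D.agree]
    · exact (D.flow.deriv _ _).comp_add_const t τ
    · rcases le_total (t + τ) 0 with h | h
      · exact (congrArg norm (key _ h)).trans_le ((D.chart.small _ (hs _ h)).trans D.δM)
      · exact hb _ ⟨h, by linarith⟩
  · have h1 : Tendsto (fun t : ℝ => expA l t (0, x)) atBot (𝓝 0) := by
      rw [tendsto_zero_iff_norm_tendsto_zero]
      refine Tendsto.congr' ((eventually_le_atBot 0).mono fun t ht => (hn t ht).symm) ?_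
      simpa using (Real.tendsto_exp_atBot.comp (tendsto_id.const_mul_atBot hl)).mul_const ‖x‖
    have h2 := (D.h.symm.continuous.tendsto 0).comp h1
    rw [show D.h.symm 0 = 0 by rw [Homeomorph.symm_apply_eq, D.chart.zero]] at h2
    exact (Tendsto.congr' ((eventually_le_atBot 0).mono fun t ht => (key t ht).symm) h2).comp
      (tendsto_atBot_add_const_right _ τ tendsto_id)

omit D in
lemma geoA_Ws {z : E} {N : Set E} {T : ℝ} (hz : z ∈ Wu F 0 (sw ⁻¹' N) T) : sw z ∈ Ws F 0 N T := by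
  obtain ⟨x, h0, h1, h2, h3⟩ := hz
  refine ⟨fun t => sw (x (-t)), by simp [h0], fun t ht => ?_, ?_,
    fun t ht => h3 (-t) (by linarith only [ht])⟩
  · have := geoA_swL.hasFDerivAt.comp_hasDerivAt t
      ((h1 (-t) (neg_nonpos.2 ht)).scomp t (hasDerivAt_neg t))
    refine this.congr_deriv ?_
    rw [H.rev]
    simp [sw]
  · exact (geoA_swL.continuous.tendsto 0).comp (h2.comp tendsto_neg_atTop_atBot)

lemma geoA_DF {s t : ℝ} {P : E →L[ℝ] E} (hP : HasFDerivAt (D.Φ s) P (γ t)) :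
    P (F (γ t)) = F (γ (s + t)) := by
  have h1 := hP.comp_hasDerivAt t (H.hom.1 t)
  rw [show D.Φ s ∘ γ = fun u => γ (s + u) from funext fun u => D.geoA_flow H s u] at h1
  exact h1.unique ((H.hom.1 (s + t)).comp_const_add s t)

omit H in
lemma geoA_LF {L : E →L[ℝ] E} (hL : HasFDerivAt D.h L (γ (-D.T))) :
    L (F (γ (-D.T))) = (0, l * D.y) := by
  have h0 := D.flow.deriv (γ (-D.T)) 0
  rw [D.flow.zero, D.agree _ (by linarith only [D.bound (-D.T)])] at h0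
  have h1 := HasFDerivAt.comp_hasDerivAt (l := D.h) (f := fun s => D.Φ s (γ (-D.T))) 0
    (by rwa [D.flow.zero]) h0
  have h2 : HasDerivAt (fun s : ℝ => expA l s (0, D.y)) (0, l * D.y) 0 := by
    have := (((hasDerivAt_id (0 : ℝ)).ofReal_comp.const_mul l).cexp.mul_const D.y)
    simp only [expA, mul_zero]
    exact (hasDerivAt_const _ _).prodMk (by simpa using this)
  have ct : Tendsto (fun s : ℝ => (s, γ (-D.T))) (𝓝 0) (𝓝 (0, γ (-D.T))) :=
    tendsto_id.prodMk_nhds tendsto_const_nhds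
  refine h1.unique (h2.congr_of_eventuallyEq ?_)
  filter_upwards [ct.eventually D.geoA_loc] with s hs
  rw [← D.geoA_hp]
  exact hs

omit H in
lemma geoA_sec_cont : Continuous D.sec :=
  D.h.symm.continuous.comp D.geoA_sg_smooth.continuous

lemma geoA_hT : D.Φ (2 * D.T) (γ (-D.T)) = γ D.T := by
  rw [D.geoA_flow H]
  congr 1
  ring

/-- The image of the unstable circle of the section lies in the unstable set. -/
lemma geoA_ev_Wu {N : Set E} (hN : N ∈ 𝓝 (0 : E)) : ∃ T, 0 ≤ T ∧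
    ∀ᶠ s : ℝ in 𝓝 0, D.Φ (2 * D.T) (D.sec (s, 0)) ∈ Wu F 0 N T := by
  obtain ⟨T, hT, hN'⟩ := D.geoA_T H.re hN
  refine ⟨T + 2 * D.T, by linarith only [hT, D.Tpos], ?_⟩
  have hc := D.chart.cpos
  have hy : ‖D.y‖ ≤ D.c / 4 := (norm_snd_le _).trans (D.tail _ le_rfl).2
  have c1 : ContinuousAt (fun s : ℝ => ‖D.y * (Real.exp (kap l * s) : ℂ)‖) 0 := by fun_prop
  have c2 : ContinuousAt (fun s : ℝ =>
      Real.exp (D.K * (2 * D.T)) * ‖D.sec (s, 0) - γ (-D.T)‖) 0 := by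
    have := D.geoA_sec_cont
    fun_prop
  filter_upwards [c1.eventually (gt_mem_nhds (a := D.c) (by simp; linarith only [hc, hy])),
    c2.eventually (gt_mem_nhds (a := 1) (by
      simp only [show ((0, 0) : ℝ × ℂ) = 0 from rfl, D.geoA_sec0]
      simp))] with s h1 h2
  have e : D.sec (s, 0) = D.h.symm (0, D.y * (Real.exp (kap l * s) : ℂ)) := by simp [sec]
  rw [e] at h2 ⊢
  refine D.geoA_Wu H.re h1.le hT (hN' _ h1.le) fun t ht => ?_
  have h3 := D.flow.norm_sub_le D.lip t (D.h.symm (0, D.y * (Real.exp (kap l * s) : ℂ)))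
    (γ (-D.T))
  have h4 := norm_sub_norm_le (D.Φ t (D.h.symm (0, D.y * (Real.exp (kap l * s) : ℂ))))
    (D.Φ t (γ (-D.T)))
  have h5 : Real.exp (D.K * |t|) ≤ Real.exp (D.K * (2 * D.T)) := by
    rw [abs_of_nonneg ht.1]
    gcongr
    exact ht.2
  have h6 := mul_le_mul_of_nonneg_right h5
    (norm_nonneg (D.h.symm (0, D.y * (Real.exp (kap l * s) : ℂ)) - γ (-D.T)))
  rw [D.geoA_flow H] at h3 h4
  linarith only [h2, h3, h4, h6, D.bound (t + -D.T)]

lemma geoA_ev_Ws (η : ℂ) {N : Set E} (hN : N ∈ 𝓝 (0 : E)) : ∃ T, 0 ≤ T ∧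
    ∀ᶠ s : ℝ in 𝓝 0, sw (D.h.symm (0, D.y + s * η)) ∈ Ws F 0 N T := by
  obtain ⟨T, hT, hN'⟩ := D.geoA_T H.re (N := sw ⁻¹' N)
    (geoA_swL.continuous.continuousAt.preimage_mem_nhds (x := 0) (by rw [map_zero]; exact hN))
  refine ⟨T + 0, by linarith only [hT], ?_⟩
  have hc := D.chart.cpos
  have hy : ‖D.y‖ ≤ D.c / 4 := (norm_snd_le _).trans (D.tail _ le_rfl).2
  have c1 : ContinuousAt (fun s : ℝ => ‖D.y + s * η‖) 0 := by fun_prop
  filter_upwards [c1.eventually (gt_mem_nhds (a := D.c) (by simp; linarith only [hc, hy]))] with s h1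
  have := D.geoA_Wu (τ := 0) H.re h1.le hT (hN' _ h1.le) fun t ht => by
    rw [le_antisymm ht.2 ht.1, D.flow.zero]
    exact (D.chart.small _ (by simpa [Prod.norm_def] using h1.le)).trans D.δM
  rw [D.flow.zero] at this
  exact geoA_Ws H this

end GeoData

end Pool.Agent.Work.MP_05654f_an
end

-- merged part: Pool.Agent.Work.MP_05654f_an.GeoA
section
/-!
Existence of the data along the loop, and the linear structure of the involution `Jm`.
-/

namespace Pool.Agent.Work.MP_05654f_an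

open Filter Topology Set

variable {F : E → E} {l : ℂ} {γ : ℝ → E} {U : Set E}

theorem exists_geoData (H : Hyp F l γ U) : Nonempty (GeoData F l γ U) :=
  exists_geoData0 H

theorem GeoData.Jm_linear (H : Hyp F l γ U) (D : GeoData F l γ U) :
    ∃ DJ : ℝ × ℂ →L[ℝ] ℝ × ℂ, D.Jm 0 = 0 ∧ HasStrictFDerivAt D.Jm DJ 0 ∧
      (∀ᶠ w in 𝓝 (0 : ℝ × ℂ), D.Jm (D.Jm w) = w) ∧
      (∃ v₁ v₂ : ℝ × ℂ, LinearIndependent ℝ ![v₁, v₂] ∧ DJ v₁ = v₁ ∧ DJ v₂ = v₂) ∧
      (DJ (1, 0)).2 ≠ 0 := by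
  have hy : D.y ≠ 0 := D.y0
  have hk := (GeoData.geoA_kap H).ne'
  obtain ⟨L, hL⟩ := D.chart.strict _ D.x0 D.y0
  obtain ⟨P, hP⟩ := D.flow.strict D.lip D.c1 (2 * D.T) (γ (-D.T))
  obtain ⟨P', hP'⟩ := D.flow.strict D.lip D.c1 (-D.T) (γ 0)
  obtain ⟨A, hA, eA⟩ := D.geoA_pi_strict
  obtain ⟨B, hB, eB⟩ := D.geoA_sg_strict
  have hp : D.h.symm (0, D.y) = γ (-D.T) := by rw [← D.geoA_hp, Homeomorph.symm_apply_apply]
  have hS : HasStrictFDerivAt D.h.symm (L.symm : E →L[ℝ] E) (0, D.y) :=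
    HasStrictFDerivAt.of_local_left_inverse D.h.symm.continuous.continuousAt (hp ▸ hL)
      (Eventually.of_forall D.h.apply_symm_apply)
  have hsec : HasStrictFDerivAt D.sec ((L.symm : E →L[ℝ] E) ∘L B) 0 :=
    HasStrictFDerivAt.comp (g := D.h.symm) (f := D.geoA_sg) 0 (D.geoA_sg0 ▸ hS) hB
  have hco : HasStrictFDerivAt (fun z => D.geoA_pi (D.h z)) (A ∘L (L : E →L[ℝ] E)) (γ (-D.T)) :=
    HasStrictFDerivAt.comp (g := D.geoA_pi) (f := D.h) _ (D.geoA_hp ▸ hA) hL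
  have hG : HasStrictFDerivAt (fun w => D.Φ (2 * D.T) (D.sec w))
      ((P : E →L[ℝ] E) ∘L (L.symm : E →L[ℝ] E) ∘L B) 0 :=
    HasStrictFDerivAt.comp (g := D.Φ (2 * D.T)) (f := D.sec) 0 (D.geoA_sec0 ▸ hP) hsec
  have G0 : sw (D.Φ (2 * D.T) (D.sec 0)) = γ (-D.T) := by
    rw [D.geoA_sec0, D.geoA_hT H, H.sym]
  have hG' := geoA_swL.hasStrictFDerivAt.comp 0 hG
  have eJ : D.Jm = fun w => D.geoA_pi (D.h (sw (D.Φ (2 * D.T) (D.sec w)))) := funext fun w => by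
    rw [D.chart.swap]
    simp [GeoData.Jm, GeoData.geoA_pi, sw, mul_comm]
  have hJ : HasStrictFDerivAt D.Jm ((A ∘L (L : E →L[ℝ] E)) ∘L geoA_swL ∘L
      (P : E →L[ℝ] E) ∘L (L.symm : E →L[ℝ] E) ∘L B) 0 := by
    rw [eJ]
    exact HasStrictFDerivAt.comp (g := fun z => D.geoA_pi (D.h z))
      (f := fun w => sw (D.Φ (2 * D.T) (D.sec w))) 0 (G0 ▸ hco) hG'
  have J0 : D.Jm 0 = 0 := by
    rw [eJ]
    simp only [G0, D.geoA_hp, D.geoA_pi0]
  have LF := D.geoA_LF hL.hasFDerivAt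
  refine ⟨_, J0, hJ, ?_, ?_, fun h0 => ?_⟩
  · have t1 : Tendsto D.sec (𝓝 0) (𝓝 (γ (-D.T))) := D.geoA_sec0 ▸ hsec.continuousAt.tendsto
    have t2 : Tendsto (fun w => sw (D.Φ (2 * D.T) (D.sec w))) (𝓝 0) (𝓝 (γ (-D.T))) :=
      G0 ▸ hG'.continuousAt.tendsto
    filter_upwards [(t1.prodMk_nhds t2).eventually (D.geoA_round H)] with w hw
    have := hw rfl
    rw [show D.h (D.sec w) = D.geoA_sg w from D.h.apply_symm_apply _, D.geoA_pi_sg H] at this
    rw [← this]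
    congr 1
    rw [this, eJ]
  · let dg : ℂ →L[ℝ] E := (ContinuousLinearMap.id ℝ ℂ).prod (ContinuousLinearMap.id ℝ ℂ)
    have z0 : D.Φ (-D.T) (γ 0 + dg 0) = γ (-D.T) := by
      rw [map_zero, add_zero, D.geoA_flow H, add_zero]
    have hz : ∀ s, HasStrictFDerivAt (D.Φ s) (P' : E →L[ℝ] E) (γ 0) →
        HasFDerivAt (fun a => D.Φ s (γ 0 + dg a)) ((P' : E →L[ℝ] E) ∘L dg) 0 := fun s hs =>
      HasFDerivAt.comp (g := D.Φ s) (f := fun a => γ 0 + dg a) 0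
        (by simpa using hs.hasFDerivAt) (dg.hasFDerivAt.const_add _)
    have hc := HasFDerivAt.comp (g := fun z => D.geoA_pi (D.h z))
      (f := fun a => D.Φ (-D.T) (γ 0 + dg a)) 0 (z0 ▸ hco.hasFDerivAt) (hz _ hP')
    have t1 : Tendsto (fun a => D.Φ (-D.T) (γ 0 + dg a)) (𝓝 0) (𝓝 (γ (-D.T))) :=
      z0 ▸ (hz _ hP').continuousAt.tendsto
    have fix : ∀ᶠ a in 𝓝 (0 : ℂ), D.Jm (D.geoA_pi (D.h (D.Φ (-D.T) (γ 0 + dg a)))) =
        D.geoA_pi (D.h (D.Φ (-D.T) (γ 0 + dg a))) := by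
      filter_upwards [(t1.prodMk_nhds t1).eventually (D.geoA_round H)] with a ha
      refine ha ?_
      have : sw (γ 0 + dg a) = γ 0 + dg a := by
        rw [← geoA_swL_apply, map_add, geoA_swL_apply, H.sym, neg_zero]
        rfl
      simp only [D.geoA_add]
      rw [show 2 * D.T + -D.T = - -D.T by ring, ← D.geoA_rev, this]
    have hc' := HasFDerivAt.comp (g := D.Jm) 0 (by
      simp only [Function.comp_apply, z0, D.geoA_hp, D.geoA_pi0]
      exact hJ.hasFDerivAt) hc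
    have e := (hc'.congr_of_eventuallyEq (EventuallyEq.symm fix)).unique hc
    have inj : ∀ a, A (L (P' (dg a))) = 0 → a = 0 := fun a ha => by
      rw [eA, Prod.mk_eq_zero, mul_eq_zero] at ha
      generalize hv : L (P' (dg a)) = v at ha
      have h1 : v = (((v.2 / D.y).im / l.im : ℝ)) • ((0, l * D.y) : E) := by
        refine Prod.ext (by simpa [hy] using ha.2) ?_
        have h2 : v.2 / D.y = (((v.2 / D.y).im / l.im : ℝ) : ℂ) * l := by
          have h3 := ha.1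
          have hi := H.im.ne
          have hr := H.re.ne'
          generalize v.2 / D.y = ξ at h3
          rw [GeoData.kap] at h3
          refine Complex.ext ?_ ?_
          · rw [Complex.re_ofReal_mul]
            field_simp at h3 ⊢
            linarith only [h3]
          · rw [Complex.im_ofReal_mul]
            field_simp
        rw [div_eq_iff hy] at h2
        rw [Prod.smul_snd, Complex.real_smul, ← mul_assoc]
        exact h2
      have h2 := D.geoA_DF H hP'.hasFDerivAt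
      rw [add_zero] at h2
      rw [h1, ← LF, ← h2] at hv
      have h3 : dg a = ((v.2 / D.y).im / l.im : ℝ) • F (γ 0) :=
        P'.injective (L.injective (by simpa using hv))
      have h4 := H.rev (γ 0)
      rw [H.sym, neg_zero] at h4
      have h5 : a = ((v.2 / D.y).im / l.im : ℝ) • (F (γ 0)).1 := congrArg Prod.fst h3
      have h6 : a = ((v.2 / D.y).im / l.im : ℝ) • (F (γ 0)).2 := congrArg Prod.snd h3
      have h7 : (F (γ 0)).1 = -(F (γ 0)).2 := congrArg Prod.fst h4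
      rw [h7, smul_neg, ← h6] at h5
      linear_combination h5 / 2
    refine ⟨A (L (P' (dg 1))), A (L (P' (dg Complex.I))), ?_,
      DFunLike.congr_fun e 1, DFunLike.congr_fun e Complex.I⟩
    rw [LinearIndependent.pair_iff]
    intro s t hst
    have := inj (s • 1 + t • Complex.I) (by simpa only [map_add, map_smul] using hst)
    simpa [Complex.ext_iff] using this
  · let v := P (L.symm (B (1, 0)))
    have h1 : (L (sw v)).1 = 0 := by
      have : (A (L (sw v))).2 = 0 := h0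
      rw [eA] at this
      simpa [hy] using this
    have d1 : HasDerivAt (fun s : ℝ => ((s, 0) : ℝ × ℂ)) (1, 0) 0 :=
      (hasDerivAt_id (0 : ℝ)).prodMk (hasDerivAt_const _ _)
    have d0 := hG.hasFDerivAt.comp_hasDerivAt_of_eq (0 : ℝ) d1 rfl
    have tu : TanWu F 0 (γ D.T) v := fun N hN => (D.geoA_ev_Wu H hN).imp fun T hT =>
      ⟨hT.1, fun s => D.Φ (2 * D.T) (D.sec (s, 0)), by
        have := D.geoA_sec_cont
        have := D.flow.continuous D.lip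
        exact this.comp (f := fun s : ℝ => (2 * D.T, D.sec (s, 0))) (by fun_prop), by
        rw [← D.geoA_hT H, ← D.geoA_sec0]
        rfl, d0, hT.2⟩
    have d2 : HasDerivAt (fun s : ℝ => ((0, D.y + s * (L (sw v)).2) : E)) (L (sw v)) 0 := by
      have := (((hasDerivAt_id (0 : ℝ)).ofReal_comp.mul_const (L (sw v)).2).const_add D.y)
      refine ((hasDerivAt_const _ _).prodMk this).congr_deriv (Prod.ext h1.symm (by simp))
    have ts : TanWs F 0 (γ D.T) v := fun N hN => (D.geoA_ev_Ws H (L (sw v)).2 hN).imp fun T hT =>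
      ⟨hT.1, fun s => sw (D.h.symm (0, D.y + s * (L (sw v)).2)),
        geoA_swL.continuous.comp (D.h.symm.continuous.comp (by fun_prop)), by
        simp [hp, H.sym], by
        have := geoA_swL.hasFDerivAt.comp_hasDerivAt (0 : ℝ)
          (HasFDerivAt.comp_hasDerivAt (l := D.h.symm) (0 : ℝ) (by simpa using hS.hasFDerivAt) d2)
        exact this.congr_deriv (by simp), hT.2⟩
    obtain ⟨c, hc⟩ := H.nd _ _ ts tu
    have h2 := D.geoA_DF H hP.hasFDerivAt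
    rw [show 2 * D.T + -D.T = D.T by ring] at h2
    have h3 : L.symm (B (1, 0)) = c • F (γ (-D.T)) := P.injective (by
      rw [map_smul]
      exact hc.trans (congrArg (c • ·) h2.symm))
    have h4 : B (1, 0) = c • ((0, l * D.y) : E) := by
      rw [← LF, ← map_smul, ← h3]
      simp
    have h5 : D.y * GeoData.kap l = D.y * (c * l) := by
      rw [← eB, h4, Prod.smul_snd, Complex.real_smul]
      ring
    have h6 := mul_left_cancel₀ hy h5
    have h7 := congrArg Complex.im h6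
    have h8 := congrArg Complex.re h6
    simp only [Complex.ofReal_im, Complex.im_ofReal_mul, Complex.ofReal_re,
      Complex.re_ofReal_mul] at h7 h8
    rw [(mul_eq_zero.1 h7.symm).resolve_right H.im.ne, zero_mul] at h8
    exact hk h8

end Pool.Agent.Work.MP_05654f_an
end

-- merged part: Pool.Agent.Work.MP_05654f_an.GeoB
section
/-!
Chains of section points are realised by orbits of the flow.
-/

namespace Pool.Agent.Work.MP_05654f_an

open Filter Topology Set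

variable {F : E → E} {l : ℂ} {γ : ℝ → E} {U : Set E}

theorem geoB_expA_add (l : ℂ) (s t : ℝ) (w : E) : expA l s (expA l t w) = expA l (s + t) w := by
  simp only [expA, ← mul_assoc, ← Complex.exp_add]
  congr 3 <;> push_cast <;> ring

theorem geoB_expA_zero (l : ℂ) (w : E) : expA l 0 w = w := by
  simp [expA]

theorem geoB_norm1 (l : ℂ) (s : ℝ) (w : E) :
    ‖(expA l s w).1‖ = Real.exp (-(l.re * s)) * ‖w.1‖ := by
  simp [expA, Complex.norm_exp]

theorem geoB_norm2 (l : ℂ) (s : ℝ) (w : E) :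
    ‖(expA l s w).2‖ = Real.exp (l.re * s) * ‖w.2‖ := by
  simp [expA, Complex.norm_exp]

theorem geoB_norm_sw (w : E) : ‖sw w‖ = ‖w‖ := by
  simp [sw, Prod.norm_def, max_comm]

theorem geoB_seg_aux {a s σ r c : ℝ} (hs : s ∈ uIcc 0 σ) (hr : 0 ≤ r) (h0 : r ≤ c)
    (h1 : Real.exp (a * σ) * r ≤ c) : Real.exp (a * s) * r ≤ c := by
  have : a * s ≤ 0 ∨ a * s ≤ a * σ := by
    rcases mem_uIcc.1 hs with ⟨h2, h3⟩ | ⟨h2, h3⟩ <;> rcases le_total 0 a with ha | ha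
    · right; exact mul_le_mul_of_nonneg_left h3 ha
    · left; exact mul_nonpos_of_nonpos_of_nonneg ha h2
    · left; exact mul_nonpos_of_nonneg_of_nonpos ha h3
    · right; exact mul_le_mul_of_nonpos_left h2 ha
  rcases this with h | h
  · have : Real.exp (a * s) ≤ 1 := Real.exp_le_one_iff.2 h
    linarith only [h0, hr, this, mul_nonneg_of_nonpos_of_nonpos (Mathlib.Tactic.Linarith.sub_nonpos_of_le hr) (Mathlib.Tactic.Linarith.sub_nonpos_of_le this)]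
  · exact le_trans (mul_le_mul_of_nonneg_right (Real.exp_le_exp.2 h) hr) h1

theorem geoB_seg (l : ℂ) {σ s c : ℝ} {w : E} (h0 : ‖w‖ ≤ c) (h1 : ‖expA l σ w‖ ≤ c)
    (hs : s ∈ uIcc 0 σ) : ‖expA l s w‖ ≤ c := by
  have a1 := (norm_fst_le (expA l σ w)).trans h1
  have a2 := (norm_snd_le (expA l σ w)).trans h1
  rw [geoB_norm1, ← neg_mul] at a1
  rw [geoB_norm2] at a2
  rw [Prod.norm_def, geoB_norm1, geoB_norm2, ← neg_mul]
  exact max_le (geoB_seg_aux hs (norm_nonneg _) ((norm_fst_le w).trans h0) a1)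
    (geoB_seg_aux hs (norm_nonneg _) ((norm_snd_le w).trans h0) a2)

namespace GeoData

variable (D : GeoData F l γ U)

theorem geoB_add (s t : ℝ) (z : E) : D.Φ (s + t) z = D.Φ s (D.Φ t z) :=
  D.flow.add D.lip s t z

theorem geoB_lin {w : E} {σ : ℝ} (h0 : ‖w‖ ≤ D.c) (h1 : ‖expA l σ w‖ ≤ D.c) {s : ℝ}
    (hs : s ∈ uIcc 0 σ) : D.Φ s (D.h.symm w) = D.h.symm (expA l s w) := by
  have := D.flow.unique_Icc D.lip (x := fun s => D.h.symm (expA l s w)) (a := min 0 σ)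
    (b := max 0 σ) (t₀ := 0) (t := s) (fun t ht => by
      have hc := geoB_seg l h0 h1 (s := t) ht
      have := D.chart.sol w t hc
      rwa [← D.agree _ ((D.chart.small _ hc).trans D.δM)] at this) left_mem_uIcc hs
  simp only [sub_zero, geoB_expA_zero] at this
  exact this.symm

theorem geoB_gamma (H : Hyp F l γ U) (s t : ℝ) : D.Φ t (γ s) = γ (s + t) := by
  have := D.flow.unique_Icc D.lip (x := γ) (a := min s (s + t)) (b := max s (s + t)) (t₀ := s)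
    (t := s + t) (fun r _ => by
      have := H.hom.1 r
      rwa [← D.agree _ (by linarith only [D.bound r])] at this) left_mem_uIcc right_mem_uIcc
  rw [this, add_sub_cancel_left]

theorem geoB_y : D.y ≠ 0 := D.y0

theorem geoB_kap (H : Hyp F l γ U) : 0 < kap l := div_pos H.re (by linarith only [H, H.im])

theorem geoB_hsec (w : ℝ × ℂ) : D.h (D.sec w) =
    (w.2 / (D.y * Real.exp (kap l * w.1)), D.y * Real.exp (kap l * w.1)) := by
  simp [sec]

theorem geoB_sec0 : D.sec 0 = γ (-D.T) := by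
  apply D.h.injective
  rw [geoB_hsec]
  refine Prod.ext ?_ ?_
  · simp [D.x0]
  · simp [y]

theorem geoB_ye (w : ℝ × ℂ) : D.y * (Real.exp (kap l * w.1) : ℂ) ≠ 0 :=
  mul_ne_zero D.geoB_y (by exact_mod_cast (Real.exp_pos _).ne')

theorem geoB_cont : Continuous D.sec := by
  unfold sec
  refine D.h.symm.continuous.comp (Continuous.prodMk (Continuous.div (by fun_prop) (by fun_prop)
    fun w => D.geoB_ye w) (by fun_prop))

theorem geoB_uniq (H : Hyp F l γ U) {w w' : ℝ × ℂ} (hw : ‖w‖ ≤ 1) (hw' : ‖w'‖ ≤ 1) {s : ℝ}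
    (h : expA l s (D.h (D.sec w')) = D.h (D.sec w)) : w = w' := by
  rw [geoB_hsec, geoB_hsec] at h
  have h2 := congrArg Prod.snd h
  have h1 := congrArg Prod.fst h
  simp only [expA] at h1 h2
  have h3 : Complex.exp (l * s + (kap l * w'.1 : ℝ)) = Complex.exp (kap l * w.1 : ℝ) := by
    apply mul_left_cancel₀ D.geoB_y
    rw [Complex.exp_add, ← Complex.ofReal_exp, ← Complex.ofReal_exp, ← h2]
    ring
  obtain ⟨n, hn⟩ := Complex.exp_eq_exp_iff_exists_int.1 h3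
  have hre := congrArg Complex.re hn
  have him := congrArg Complex.im hn
  simp at hre him
  have hω : 0 < -l.im := by linarith only [H, H.im]
  have hk : kap l * (-l.im) = l.re := div_mul_cancel₀ _ hω.ne'
  have hκ := geoB_kap H
  have e1 : w.1 - w'.1 = -(l.im * s) := by
    apply mul_left_cancel₀ hκ.ne'
    have : kap l * -(l.im * s) = l.re * s := by rw [← hk]; ring
    rw [this]
    linarith only [hre]
  have b1 : |w.1| ≤ 1 := (norm_fst_le w).trans hw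
  have b2 : |w'.1| ≤ 1 := (norm_fst_le w').trans hw'
  have hn0 : n = 0 := by
    have p3 := Real.pi_gt_three
    rw [abs_le] at b1 b2
    by_contra hne
    rcases lt_or_gt_of_ne hne with h | h
    · have : (n : ℝ) ≤ -1 := by exact_mod_cast Int.le_sub_one_of_lt h
      linarith only [him, e1, b1, b2, p3, this, mul_nonneg_of_nonpos_of_nonpos (le_of_lt (Mathlib.Tactic.Linarith.sub_neg_of_lt p3)) (Mathlib.Tactic.Linarith.sub_nonpos_of_le this)]
    · have : (1 : ℝ) ≤ n := by exact_mod_cast h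
      linarith only [him, e1, b1, b2, p3, this, mul_nonneg_of_nonpos_of_nonpos (le_of_lt (Mathlib.Tactic.Linarith.sub_neg_of_lt p3)) (Mathlib.Tactic.Linarith.sub_nonpos_of_le this)]
  rw [hn0] at him
  have hs : l.im * s = 0 := by simpa using him
  have hs0 : s = 0 := (mul_eq_zero.1 hs).resolve_left H.im.ne
  have e2 : w.1 = w'.1 := by rw [hs] at e1; linarith only [e1]
  refine Prod.ext e2 ?_
  rw [hs0, e2] at h1
  have h4 := D.geoB_ye w'
  simp only [Complex.ofReal_zero, mul_zero, neg_zero, Complex.exp_zero, one_mul] at h1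
  exact ((div_left_inj' h4).1 h1).symm

theorem geoB_notper (H : Hyp F l γ U) {t : ℝ} (ht : 0 < t) : γ (-D.T + t) ≠ γ (-D.T) := by
  intro e
  have h1 : ∀ n : ℕ, γ (-D.T + n * t) = γ (-D.T) := by
    intro n
    induction n with
    | zero => simp
    | succ n ih =>
      have : -D.T + ((n + 1 : ℕ) : ℝ) * t = (-D.T + n * t) + t := by push_cast; ring
      rw [this, ← D.geoB_gamma H, ih, D.geoB_gamma H, e]
  have h2 : Tendsto (fun n : ℕ => γ (-D.T + n * t)) atTop (𝓝 0) :=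
    H.hom.2.2.1.comp (tendsto_atTop_add_const_left _ _
      (tendsto_natCast_atTop_atTop.atTop_mul_const ht))
  simp only [h1] at h2
  have h3 : γ (-D.T) = 0 := tendsto_nhds_unique tendsto_const_nhds h2
  have := D.y0
  rw [h3, D.chart.zero] at this
  exact this rfl

/-- The smallness conditions on the radius. -/
structure GeoBNear (ρ : ℝ) : Prop where
  pos : 0 < ρ
  one : ρ ≤ 1
  spi : ρ < ‖D.y‖ ^ 2 * Real.exp (-(kap l * (2 + Real.pi)))
  out : ∀ w, ‖w‖ ≤ ρ → ‖D.h (D.sec w)‖ ≤ D.c / 2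
  inn : ∀ w, ‖w‖ ≤ ρ → ‖D.h (D.Φ (2 * D.T) (D.sec w))‖ ≤ D.c
  ne : ∀ w, ‖w‖ ≤ ρ → (D.h (D.Φ (2 * D.T) (D.sec w))).1 ≠ 0
  arc : ∀ w, ‖w‖ ≤ ρ → ∀ t ∈ Icc 0 (2 * D.T), D.Φ t (D.sec w) ∈ U ∧ ‖D.Φ t (D.sec w)‖ ≤ D.M
  once : ∀ w w', ‖w‖ ≤ ρ → ‖w'‖ ≤ ρ → ∀ t ∈ Icc 0 (2 * D.T), D.Φ t (D.sec w') = D.sec w → w = w'

theorem geoB_near (H : Hyp F l γ U) : ∃ ρ, D.GeoBNear ρ := by
  have hc := D.chart.cpos
  have hΦ := D.flow.continuous D.lip
  have hs := D.geoB_cont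
  have hT : D.h (D.Φ (2 * D.T) (D.sec 0)) = sw (D.h (γ (-D.T))) := by
    rw [geoB_sec0, D.geoB_gamma H, ← D.chart.swap, H.sym]
    congr 2
    ring
  have hy := (D.tail (-D.T) le_rfl).2
  have c1 : Continuous fun w => D.h (D.Φ (2 * D.T) (D.sec w)) :=
    D.h.continuous.comp (hΦ.comp (continuous_const.prodMk hs))
  have e1 : ∀ᶠ w in 𝓝 (0 : ℝ × ℂ), ‖D.h (D.sec w)‖ < D.c / 2 :=
    (D.h.continuous.comp hs).norm.continuousAt.eventually_lt continuousAt_const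
      (by simp only [Function.comp, geoB_sec0]; linarith only [hc, hy])
  have e2 : ∀ᶠ w in 𝓝 (0 : ℝ × ℂ), ‖D.h (D.Φ (2 * D.T) (D.sec w))‖ < D.c :=
    c1.norm.continuousAt.eventually_lt continuousAt_const
      (by simp only [hT, geoB_norm_sw]; linarith only [hc, hy])
  have e3 : ∀ᶠ w in 𝓝 (0 : ℝ × ℂ), (D.h (D.Φ (2 * D.T) (D.sec w))).1 ≠ 0 :=
    c1.fst.continuousAt.eventually_ne (by simp only [hT]; exact D.y0)
  have c2 : Continuous fun q : (ℝ × ℂ) × ℝ => D.Φ q.2 (D.sec q.1) :=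
    hΦ.comp (continuous_snd.prodMk (hs.comp continuous_fst))
  have e4 : ∀ᶠ w in 𝓝 (0 : ℝ × ℂ), ∀ t ∈ Icc 0 (2 * D.T),
      D.Φ t (D.sec w) ∈ U ∧ ‖D.Φ t (D.sec w)‖ ≤ D.M := by
    refine isCompact_Icc.eventually_forall_of_forall_eventually fun t _ => ?_
    have g1 : D.Φ t (D.sec 0) = γ (-D.T + t) := by rw [geoB_sec0, D.geoB_gamma H]
    refine Eventually.and ?_ ?_
    · refine c2.continuousAt.eventually_mem ?_
      simp only [g1]
      exact mem_nhdsSet_iff_forall.1 H.nhd _ (Or.inr ⟨_, rfl⟩)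
    · refine (c2.norm.continuousAt.eventually_lt continuousAt_const ?_).mono fun _ h => h.le
      simp only [g1]
      linarith only [D.bound (-D.T + t)]
  have ht1 : 0 < Real.log 2 / l.re := div_pos (Real.log_pos (by norm_num)) H.re
  have e5 : ∀ᶠ q in 𝓝 ((0, 0) : (ℝ × ℂ) × (ℝ × ℂ)), ∀ t ∈ Icc (Real.log 2 / l.re) (2 * D.T),
      D.Φ t (D.sec q.2) ≠ D.sec q.1 := by
    refine isCompact_Icc.eventually_forall_of_forall_eventually fun t ht => ?_
    have c3 : Continuous fun q : ((ℝ × ℂ) × (ℝ × ℂ)) × ℝ => D.Φ q.2 (D.sec q.1.2) - D.sec q.1.1 :=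
      (hΦ.comp (continuous_snd.prodMk (hs.comp continuous_fst.snd))).sub
        (hs.comp continuous_fst.fst)
    refine (c3.continuousAt.eventually_ne (y := 0) ?_).mono fun _ h => sub_ne_zero.1 h
    simp only [geoB_sec0, D.geoB_gamma H]
    exact sub_ne_zero.2 (D.geoB_notper H (ht1.trans_le ht.1))
  obtain ⟨r1, hr1, h1⟩ := Metric.eventually_nhds_iff.1 (e1.and (e2.and (e3.and e4)))
  obtain ⟨r2, hr2, h2⟩ := Metric.eventually_nhds_iff.1 e5
  have hr3 : 0 < ‖D.y‖ ^ 2 * Real.exp (-(kap l * (2 + Real.pi))) :=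
    mul_pos (pow_pos (norm_pos_iff.2 D.geoB_y) 2) (Real.exp_pos _)
  obtain ⟨ρ, hρ, a0, a1, a2, a3⟩ : ∃ ρ : ℝ, 0 < ρ ∧ ρ ≤ 1 ∧ ρ < r1 ∧ ρ < r2 ∧
      ρ < ‖D.y‖ ^ 2 * Real.exp (-(kap l * (2 + Real.pi))) := by
    generalize ‖D.y‖ ^ 2 * Real.exp (-(kap l * (2 + Real.pi))) = r3 at hr3
    have m0 : 0 < min 1 (min r1 (min r2 r3)) := by positivity
    have m1 := min_le_left 1 (min r1 (min r2 r3))
    have m2 := (min_le_right 1 _).trans (min_le_left r1 (min r2 r3))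
    have m3 := ((min_le_right 1 _).trans (min_le_right r1 _)).trans (min_le_left r2 r3)
    have m4 := ((min_le_right 1 _).trans (min_le_right r1 _)).trans (min_le_right r2 r3)
    exact ⟨min 1 (min r1 (min r2 r3)) / 2, by linarith only [m0], by linarith only [m1], by linarith only [hr1, m2], by linarith only [hr2, m3],
      by linarith only [hr3, m4]⟩
  have k1 := fun (w : ℝ × ℂ) (hw : ‖w‖ ≤ ρ) => h1 (y := w) (by rw [dist_zero_right]; linarith only [a1, hw])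
  refine ⟨ρ, hρ, a0, a3, fun w hw => (k1 w hw).1.le, fun w hw => (k1 w hw).2.1.le,
    fun w hw => (k1 w hw).2.2.1, fun w hw => (k1 w hw).2.2.2, fun w w' hw hw' t ht e => ?_⟩
  rcases le_total t (Real.log 2 / l.re) with h | h
  · have n0 := (k1 w' hw').1.le
    have n1 : ‖expA l t (D.h (D.sec w'))‖ ≤ D.c := by
      have x1 : Real.exp (-(l.re * t)) ≤ 1 :=
        Real.exp_le_one_iff.2 (neg_nonpos.2 (mul_nonneg H.re.le ht.1))
      have x2 : Real.exp (l.re * t) ≤ 2 := by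
        rw [← Real.exp_log (x := 2) (by norm_num)]
        refine Real.exp_le_exp.2 ?_
        rwa [le_div_iff₀ H.re, mul_comm] at h
      have y1 := norm_fst_le (D.h (D.sec w'))
      have y2 := norm_snd_le (D.h (D.sec w'))
      rw [Prod.norm_def, geoB_norm1, geoB_norm2]
      refine max_le ?_ ?_
      · linarith only [hc, n0, y1, x1, norm_nonneg (D.h (D.sec w')).1, mul_nonneg_of_nonpos_of_nonpos (Mathlib.Tactic.Linarith.sub_nonpos_of_le x1) (Mathlib.Tactic.Linarith.sub_nonpos_of_le (norm_nonneg (D.h (D.sec w')).1))]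
      · linarith only [n0, y2, x2, norm_nonneg (D.h (D.sec w')).2, mul_nonneg_of_nonpos_of_nonpos (Mathlib.Tactic.Linarith.sub_nonpos_of_le x2) (Mathlib.Tactic.Linarith.sub_nonpos_of_le (norm_nonneg (D.h (D.sec w')).2))]
    have := D.geoB_lin (w := D.h (D.sec w')) (by linarith only [hc, n0]) n1 right_mem_uIcc
    rw [Homeomorph.symm_apply_apply, e] at this
    refine D.geoB_uniq H (hw.trans a0) (hw'.trans a0) (s := t) ?_
    rw [this, Homeomorph.apply_symm_apply]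
  · refine absurd e (h2 (y := (w, w')) ?_ t ⟨h, ht.2⟩)
    rw [Prod.dist_eq, dist_zero_right, dist_zero_right]
    exact max_lt (by linarith only [a2, hw]) (by linarith only [a2, hw'])

theorem geoB_exp (H : Hyp F l γ U) (u : ℝ) :
    -(l * ((u / (-l.im) : ℝ) : ℂ)) = (-(kap l : ℂ) + Complex.I) * u := by
  have hω : l.im ≠ 0 := H.im.ne
  apply Complex.ext
  · simp [kap, -Complex.ofReal_div, -Complex.ofReal_neg]
    field_simp
  · simp [kap, -Complex.ofReal_div, -Complex.ofReal_neg]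
    field_simp

theorem geoB_entry (H : Hyp F l γ U) {w : ℝ × ℂ}
    (hne : (D.h (D.Φ (2 * D.T) (D.sec w))).1 ≠ 0) :
    ∃ v : ℝ, v ≤ Real.pi ∧ expA l (v / (-l.im)) (sw (D.h (D.sec (D.Jm w)))) =
      D.h (D.Φ (2 * D.T) (D.sec w)) := by
  rw [geoB_hsec]
  simp only [Jm]
  generalize D.h (D.Φ (2 * D.T) (D.sec w)) = z at hne
  have hy := D.geoB_y
  have hκ := geoB_kap H
  refine ⟨(Complex.log (z.1 / D.y)).im, by rw [Complex.log_im]; exact Complex.arg_le_pi _, ?_⟩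
  have e0 := geoB_exp H (Complex.log (z.1 / D.y)).im
  have key : Complex.exp (-(l * (((Complex.log (z.1 / D.y)).im / (-l.im) : ℝ) : ℂ))) *
      (D.y * Real.exp (kap l * D.ang z.1)) = z.1 := by
    rw [e0, Complex.ofReal_exp, mul_left_comm, ← Complex.exp_add]
    have : (-(kap l : ℂ) + Complex.I) * (Complex.log (z.1 / D.y)).im +
        ((kap l * D.ang z.1 : ℝ) : ℂ) = Complex.log (z.1 / D.y) := by
      apply Complex.ext
      · simp [ang, -Complex.ofReal_div]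
        field_simp
        ring
      · simp [ang, -Complex.ofReal_div]
    rw [this, Complex.exp_log (div_ne_zero hne hy)]
    field_simp
  refine Prod.ext key ?_
  simp only [expA, sw]
  have h1 := D.geoB_ye (D.ang z.1, 0)
  simp only at h1
  rw [Complex.exp_neg] at key
  have h2 := Complex.exp_ne_zero (l * (((Complex.log (z.1 / D.y)).im / (-l.im) : ℝ) : ℂ))
  generalize Complex.exp (l * (((Complex.log (z.1 / D.y)).im / (-l.im) : ℝ) : ℂ)) = a at key h2 ⊢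
  generalize D.y * (Real.exp (kap l * D.ang z.1) : ℂ) = b at key h1 ⊢
  rw [← key]
  field_simp

theorem geoB_pass (H : Hyp F l γ U) {wm wp : ℝ × ℂ} {u : ℝ} (h2 : wm.2 = wp.2)
    (hu : wp.2 = D.y ^ 2 * Sp (kap l) (wm.1 + wp.1) u) :
    expA l (u / (-l.im)) (sw (D.h (D.sec wm))) = D.h (D.sec wp) := by
  rw [geoB_hsec, geoB_hsec, h2, hu]
  have e0 := geoB_exp H u
  have hs : Sp (kap l) (wm.1 + wp.1) u = Real.exp (kap l * wm.1) * Real.exp (kap l * wp.1) *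
      Complex.exp (-(l * ((u / (-l.im) : ℝ) : ℂ))) := by
    rw [e0, Sp, Complex.exp_add, ← Complex.ofReal_exp, mul_add, Real.exp_add]
    push_cast
    ring
  rw [hs]
  simp only [expA, sw]
  have hy := D.geoB_y
  have a1 : (Real.exp (kap l * wm.1) : ℂ) ≠ 0 := by exact_mod_cast (Real.exp_pos _).ne'
  have a2 : (Real.exp (kap l * wp.1) : ℂ) ≠ 0 := by exact_mod_cast (Real.exp_pos _).ne'
  have a3 := Complex.exp_ne_zero (l * ((u / (-l.im) : ℝ) : ℂ))
  rw [Complex.exp_neg]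
  generalize Complex.exp (l * ((u / (-l.im) : ℝ) : ℂ)) = a at a3
  generalize (Real.exp (kap l * wm.1) : ℂ) = b at a1
  generalize (Real.exp (kap l * wp.1) : ℂ) = c at a2
  refine Prod.ext ?_ ?_ <;> simp only <;> field_simp

theorem geoB_u (H : Hyp F l γ U) {ρ : ℝ} (N : D.GeoBNear ρ) {wm wp : ℝ × ℂ} {u : ℝ}
    (hm : ‖wm‖ ≤ ρ) (hp : ‖wp‖ ≤ ρ) (hu : wp.2 = D.y ^ 2 * Sp (kap l) (wm.1 + wp.1) u) :
    Real.pi < u := by
  have hκ := geoB_kap H
  have b1 : |wm.1| ≤ 1 := ((norm_fst_le wm).trans hm).trans N.one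
  have b2 : |wp.1| ≤ 1 := ((norm_fst_le wp).trans hp).trans N.one
  have b3 : ‖wp.2‖ ≤ ρ := (norm_snd_le wp).trans hp
  have e : ‖wp.2‖ = ‖D.y‖ ^ 2 * Real.exp (kap l * (wm.1 + wp.1) - kap l * u) := by
    rw [hu, norm_mul, norm_pow, Sp, Complex.norm_exp]
    congr 2
    simp
    ring
  have h3 := (e ▸ b3).trans_lt N.spi
  have h4 := Real.exp_lt_exp.1 (lt_of_mul_lt_mul_left h3 (by positivity))
  rw [abs_le] at b1 b2
  (refine lt_of_not_ge fun h_nl => ?_; linarith only [h_nl, h4, hκ, b1, b2, mul_nonneg_of_nonpos_of_nonpos (le_of_lt (Mathlib.Tactic.Linarith.sub_neg_of_lt hκ)) (Mathlib.Tactic.Linarith.sub_nonpos_of_le b1.left), mul_nonneg_of_nonpos_of_nonpos (le_of_lt (Mathlib.Tactic.Linarith.sub_neg_of_lt hκ)) (Mathlib.Tactic.Linarith.sub_nonpos_of_le b2.left), mul_nonneg_of_nonpos_of_nonpos (le_of_lt (Mathlib.Tactic.Linarith.sub_neg_of_lt hκ)) (Mathlib.Tactic.Linarith.sub_nonpos_of_le h_nl)])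

/-- The properties of the points of a realised orbit. -/
def GeoBGood (ρ : ℝ) (S : Set (ℝ × ℂ)) (z : E) : Prop :=
  z ∈ U ∧ ‖z‖ ≤ D.M ∧ ∀ w, ‖w‖ ≤ ρ → z = D.sec w → w ∈ S

theorem geoB_in (H : Hyp F l γ U) {ρ : ℝ} (N : D.GeoBNear ρ) {w : ℝ × ℂ} (hw : ‖w‖ ≤ ρ)
    (hm : ‖D.Jm w‖ ≤ ρ) : ∃ t, D.Φ t (D.sec w) = sw (D.sec (D.Jm w)) := by
  obtain ⟨v, -, hv⟩ := D.geoB_entry H (N.ne w hw)
  have hc := D.chart.cpos
  have h1 := D.geoB_lin (w := sw (D.h (D.sec (D.Jm w)))) (σ := v / (-l.im))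
    (by rw [geoB_norm_sw]; linarith only [hc, N, hm, N.out _ hm]) (by rw [hv]; exact N.inn w hw) right_mem_uIcc
  rw [hv, ← D.chart.swap, Homeomorph.symm_apply_apply, Homeomorph.symm_apply_apply] at h1
  refine ⟨-(v / (-l.im)) + 2 * D.T, ?_⟩
  rw [geoB_add, ← h1, ← geoB_add, neg_add_cancel, D.flow.zero]

theorem geoB_arc {ρ : ℝ} (N : D.GeoBNear ρ) {S : Set (ℝ × ℂ)} {w : ℝ × ℂ} (hw : ‖w‖ ≤ ρ)
    (hS : w ∈ S) {t : ℝ} (ht : t ∈ Icc 0 (2 * D.T)) : D.GeoBGood ρ S (D.Φ t (D.sec w)) :=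
  ⟨(N.arc w hw t ht).1, (N.arc w hw t ht).2, fun w' hw' e => N.once w' w hw' hw t ht e ▸ hS⟩

theorem geoB_loc {z : E} (hz : ‖z‖ ≤ D.c) : D.h.symm z ∈ U ∧ ‖D.h.symm z‖ ≤ D.M :=
  ⟨D.ballU _ (D.chart.small z hz), (D.chart.small z hz).trans D.δM⟩

theorem geoB_step (H : Hyp F l γ U) {ρ : ℝ} (N : D.GeoBNear ρ) {S : Set (ℝ × ℂ)}
    {w wm wp : ℝ × ℂ} {u : ℝ} (hw : ‖w‖ ≤ ρ) (hm : ‖wm‖ ≤ ρ) (hp : ‖wp‖ ≤ ρ) (hJ : D.Jm w = wm)
    (h2 : wm.2 = wp.2) (hu : wp.2 = D.y ^ 2 * Sp (kap l) (wm.1 + wp.1) u) (hS : w ∈ S)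
    (hS' : wp ∈ S) : ∃ σ, 0 < σ ∧ D.Φ σ (D.sec w) = D.sec wp ∧
      ∀ t ∈ Ico 0 σ, D.GeoBGood ρ S (D.Φ t (D.sec w)) := by
  obtain ⟨v, hv0, hv⟩ := D.geoB_entry H (N.ne w hw)
  rw [hJ] at hv
  have hc := D.chart.cpos
  have hT := D.Tpos
  have hω : 0 < -l.im := by linarith only [H, H.im]
  have hu0 := D.geoB_u H N hm hp hu
  have hpass := D.geoB_pass H h2 hu
  have hσ : 0 < (u - v) / (-l.im) := div_pos (by linarith only [hv0, hu0]) hω
  have e1 : expA l ((u - v) / (-l.im)) (D.h (D.Φ (2 * D.T) (D.sec w))) = D.h (D.sec wp) := by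
    rw [← hv, geoB_expA_add, ← hpass]
    congr 1
    ring
  generalize (u - v) / (-l.im) = σ at hσ e1
  have n0 := N.inn w hw
  have n1 : ‖expA l σ (D.h (D.Φ (2 * D.T) (D.sec w)))‖ ≤ D.c := by
    rw [e1]; linarith only [hc, N, hp, N.out _ hp]
  have hl : ∀ s ∈ uIcc 0 σ, D.Φ (s + 2 * D.T) (D.sec w) =
      D.h.symm (expA l s (D.h (D.Φ (2 * D.T) (D.sec w)))) := fun s hs => by
    rw [← D.geoB_lin n0 n1 hs, Homeomorph.symm_apply_apply, geoB_add]
  refine ⟨σ + 2 * D.T, by linarith only [hT, hσ], ?_, fun t ht => ?_⟩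
  · rw [hl σ right_mem_uIcc, e1, Homeomorph.symm_apply_apply]
  rcases le_total t (2 * D.T) with h | h
  · exact D.geoB_arc N hw hS ⟨ht.1, h⟩
  · have hs : t - 2 * D.T ∈ uIcc 0 σ := mem_uIcc.2 (Or.inl ⟨by linarith only [h], by linarith only [ht, ht.2]⟩)
    have e2 := hl _ hs
    rw [sub_add_cancel] at e2
    have g := D.geoB_loc (geoB_seg l n0 n1 hs)
    rw [← e2] at g
    refine ⟨g.1, g.2, fun w' hw' e => ?_⟩
    have : w' = wp := by
      refine D.geoB_uniq H (hw'.trans N.one) (hp.trans N.one) (s := t - 2 * D.T - σ) ?_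
      rw [← e1, geoB_expA_add, sub_add_cancel, ← e, e2, Homeomorph.apply_symm_apply]
    exact this ▸ hS'

theorem geoB_chain (G : E → Prop) (z : ℕ → E) (n : ℕ)
    (h : ∀ i < n, ∃ σ, 0 < σ ∧ D.Φ σ (z i) = z (i + 1) ∧ ∀ t ∈ Ico 0 σ, G (D.Φ t (z i))) :
    ∃ τ, 0 ≤ τ ∧ (0 < n → 0 < τ) ∧ D.Φ τ (z 0) = z n ∧ ∀ t ∈ Ico 0 τ, G (D.Φ t (z 0)) := by
  induction n with
  | zero => exact ⟨0, le_rfl, fun h => absurd h (lt_irrefl _), D.flow.zero _, by simp⟩
  | succ n ih =>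
    obtain ⟨τ, h0, -, h1, h2⟩ := ih fun i hi => h i (by omega)
    obtain ⟨σ, k0, k1, k2⟩ := h n (by omega)
    refine ⟨σ + τ, by linarith only [h0, k0], fun _ => by linarith only [h0, k0], by rw [geoB_add, h1, k1], fun t ht => ?_⟩
    rcases lt_or_ge t τ with e | e
    · exact h2 t ⟨ht.1, e⟩
    · have := k2 (t - τ) ⟨by linarith, by linarith only [ht, ht.2]⟩
      rwa [← h1, ← geoB_add, sub_add_cancel] at this

theorem geoB_sol {z : E} (h : ∀ t, ‖D.Φ t z‖ ≤ D.M) : IsSol F fun t => D.Φ t z := fun t => by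
  have := D.flow.deriv z t
  rwa [D.agree _ (h t)] at this

theorem geoB_periodic (H : Hyp F l γ U) {ρ : ℝ} (N : D.GeoBNear ρ) (p : ℕ) (wm wp : ℤ → ℝ × ℂ)
    (hp : 0 < p) (hwp : Function.Periodic wp p)
    (h : ∀ i, ‖wm i‖ ≤ ρ ∧ ‖wp i‖ ≤ ρ ∧ D.Jm (wp i) = wm (i + 1) ∧ (wm i).2 = (wp i).2 ∧
        ∃ u, (wp i).2 = D.y ^ 2 * Sp (GeoData.kap l) ((wm i).1 + (wp i).1) u) :
    ∃ x, IsPeriodicOrbit F x ∧ range x ⊆ U ∧
      (sw '' range x = range x → ∀ i, ∃ j, wp j = wm i) := by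
  have hstep : ∀ i : ℤ, ∃ σ, 0 < σ ∧ D.Φ σ (D.sec (wp i)) = D.sec (wp (i + 1)) ∧
      ∀ t ∈ Ico 0 σ, D.GeoBGood ρ (range wp) (D.Φ t (D.sec (wp i))) := fun i => by
    obtain ⟨u, hu⟩ := (h (i + 1)).2.2.2.2
    exact D.geoB_step H N (h i).2.1 (h (i + 1)).1 (h (i + 1)).2.1 (h i).2.2.1 (h (i + 1)).2.2.2.1
      hu ⟨i, rfl⟩ ⟨i + 1, rfl⟩
  obtain ⟨τ, -, hτ, h1, h2⟩ := D.geoB_chain (D.GeoBGood ρ (range wp))
    (fun i => D.sec (wp i)) p fun i _ => by simpa using hstep i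
  have hτ := hτ hp
  have hp0 : wp p = wp 0 := by simpa using hwp 0
  simp only [Nat.cast_zero, hp0] at h1 h2
  have hper : Function.Periodic (fun t => D.Φ t (D.sec (wp 0))) τ := fun t => by
    simp only [geoB_add, h1]
  have hgood : ∀ t, D.GeoBGood ρ (range wp) (D.Φ t (D.sec (wp 0))) := fun t => by
    obtain ⟨s, hs, e⟩ := hper.exists_mem_Ico₀ hτ t
    rw [e]
    exact h2 s hs
  have horb : ∀ i : ℤ, ∃ t, D.Φ t (D.sec (wp 0)) = D.sec (wp i) := by
    intro i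
    induction i using Int.induction_on with
    | zero => exact ⟨0, D.flow.zero _⟩
    | succ i ih =>
      obtain ⟨t, ht⟩ := ih
      obtain ⟨σ, -, hσ, -⟩ := hstep i
      exact ⟨σ + t, by rw [geoB_add, ht, hσ]⟩
    | pred i ih =>
      obtain ⟨t, ht⟩ := ih
      obtain ⟨σ, -, hσ, -⟩ := hstep (-(i : ℤ) - 1)
      rw [sub_add_cancel] at hσ
      exact ⟨-σ + t, by rw [geoB_add, ht, ← hσ, ← geoB_add, neg_add_cancel, D.flow.zero]⟩
  have hin : ∀ i : ℤ, ∃ t, D.Φ t (D.sec (wp 0)) = sw (D.sec (wm i)) := fun i => by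
    have e := (h (i - 1)).2.2.1
    rw [sub_add_cancel] at e
    obtain ⟨t, ht⟩ := horb (i - 1)
    obtain ⟨s, hs⟩ := D.geoB_in H N (h (i - 1)).2.1 (e ▸ (h i).1)
    exact ⟨s + t, by rw [geoB_add, ht, hs, e]⟩
  refine ⟨fun t => D.Φ t (D.sec (wp 0)), ⟨D.geoB_sol fun t => (hgood t).2.1, ?_, τ, hτ, hper⟩,
    ?_, fun hs i => ?_⟩
  · obtain ⟨t, ht⟩ := hin 0
    refine ⟨t, fun e => ?_⟩
    simp only [ht, D.flow.zero] at e
    have e1 := congrArg (fun z => (D.h z).1) e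
    simp only [D.chart.swap, geoB_hsec] at e1
    simp only [sw] at e1
    have := D.geoB_u H N (u := 0) (h 0).1 (h 0).2.1 (by
      rw [eq_div_iff (D.geoB_ye _)] at e1
      rw [← e1, Sp, mul_add]
      push_cast
      rw [mul_zero, add_zero, Complex.exp_add]
      ring)
    linarith only [this, Real.pi_pos]
  · rintro _ ⟨t, rfl⟩
    exact (hgood t).1
  · obtain ⟨t, ht⟩ := hin i
    have : D.sec (wm i) ∈ range fun t => D.Φ t (D.sec (wp 0)) := by
      rw [← hs]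
      exact ⟨_, ⟨t, ht⟩, rfl⟩
    obtain ⟨s, hs⟩ := this
    exact (hgood s).2.2 _ (h i).1 hs

theorem geoB_homoclinic (H : Hyp F l γ U) {ρ : ℝ} (N : D.GeoBNear ρ) (n : ℕ)
    (wm wp : ℕ → ℝ × ℂ)
    (h : ∀ i ≤ n, ‖wp i‖ ≤ ρ ∧ ‖wm (i + 1)‖ ≤ ρ ∧ D.Jm (wp i) = wm (i + 1))
    (h0 : (wp 0).2 = 0) (hn : (wm (n + 1)).2 = 0)
    (hs : ∀ i, 1 ≤ i → i ≤ n → (wm i).2 = (wp i).2 ∧
        ∃ u, (wp i).2 = D.y ^ 2 * Sp (GeoData.kap l) ((wm i).1 + (wp i).1) u) :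
    ∃ x, IsHomoclinic F 0 x ∧ range x ⊆ U ∧
      (sw '' range x = range x → ∀ i, 1 ≤ i → i ≤ n → ∃ j ≤ n, wp j = wm i) := by
  have hc := D.chart.cpos
  have hT := D.Tpos
  let S : Set (ℝ × ℂ) := {w | ∃ j ≤ n, wp j = w}
  have hstep : ∀ i < n, ∃ σ, 0 < σ ∧ D.Φ σ (D.sec (wp i)) = D.sec (wp (i + 1)) ∧
      ∀ t ∈ Ico 0 σ, D.GeoBGood ρ S (D.Φ t (D.sec (wp i))) := fun i hi => by
    obtain ⟨e, u, hu⟩ := hs (i + 1) (by omega) hi
    exact D.geoB_step H N (h i hi.le).1 (h i hi.le).2.1 (h (i + 1) hi).1 (h i hi.le).2.2 e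
      hu ⟨i, hi.le, rfl⟩ ⟨i + 1, hi, rfl⟩
  have horb := fun (m : ℕ) (hm : m ≤ n) => D.geoB_chain (D.GeoBGood ρ S)
    (fun i => D.sec (wp i)) m fun i hi => hstep i (by omega)
  obtain ⟨τ, hτ, -, h1, h2⟩ := horb n le_rfl
  -- the unstable tail
  have a0 : (D.h (D.sec (wp 0))).1 = 0 := by rw [geoB_hsec, h0, zero_div]
  have a1 : ‖D.h (D.sec (wp 0))‖ ≤ D.c := by linarith only [hc, N, h, N.out _ (h 0 (Nat.zero_le _)).1]
  have a2 : ∀ t : ℝ, ‖expA l t (D.h (D.sec (wp 0)))‖ =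
      Real.exp (l.re * t) * ‖(D.h (D.sec (wp 0))).2‖ := fun t => by
    rw [Prod.norm_def, geoB_norm1, geoB_norm2, a0, norm_zero, mul_zero]
    exact max_eq_right (by positivity)
  have a3 : ∀ t ≤ 0, ‖expA l t (D.h (D.sec (wp 0)))‖ ≤ D.c := fun t ht => by
    have x1 : Real.exp (l.re * t) ≤ 1 :=
      Real.exp_le_one_iff.2 (mul_nonpos_of_nonneg_of_nonpos H.re.le ht)
    have x2 := norm_snd_le (D.h (D.sec (wp 0)))
    rw [a2]
    linarith only [a1, x2, x1, norm_nonneg (D.h (D.sec (wp 0))).2, mul_nonneg_of_nonpos_of_nonpos (Mathlib.Tactic.Linarith.sub_nonpos_of_le x1) (Mathlib.Tactic.Linarith.sub_nonpos_of_le (norm_nonneg (D.h (D.sec (wp (0 : ℕ)))).2))]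
  have a4 : ∀ t ≤ 0, D.Φ t (D.sec (wp 0)) = D.h.symm (expA l t (D.h (D.sec (wp 0)))) :=
    fun t ht => by
      rw [← D.geoB_lin a1 (a3 t ht) right_mem_uIcc, Homeomorph.symm_apply_apply]
  -- the stable tail
  have b00 := N.ne _ (h n le_rfl).1
  have b1 := N.inn _ (h n le_rfl).1
  have b0 : (D.h (D.Φ (2 * D.T) (D.sec (wp n)))).2 = 0 := by
    rw [← (h n le_rfl).2.2] at hn
    exact (mul_eq_zero.1 hn).resolve_left b00
  have b2 : ∀ t : ℝ, ‖expA l t (D.h (D.Φ (2 * D.T) (D.sec (wp n))))‖ =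
      Real.exp (-(l.re * t)) * ‖(D.h (D.Φ (2 * D.T) (D.sec (wp n)))).1‖ := fun t => by
    rw [Prod.norm_def, geoB_norm1, geoB_norm2, b0, norm_zero, mul_zero]
    exact max_eq_left (by positivity)
  have b3 : ∀ t, 0 ≤ t → ‖expA l t (D.h (D.Φ (2 * D.T) (D.sec (wp n))))‖ ≤ D.c := fun t ht => by
    have x1 : Real.exp (-(l.re * t)) ≤ 1 :=
      Real.exp_le_one_iff.2 (neg_nonpos.2 (mul_nonneg H.re.le ht))
    have x2 := norm_fst_le (D.h (D.Φ (2 * D.T) (D.sec (wp n))))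
    rw [b2]
    linarith only [b1, x2, x1, norm_nonneg (D.h (D.Φ (2 * D.T) (D.sec (wp n)))).1, mul_nonneg_of_nonpos_of_nonpos (Mathlib.Tactic.Linarith.sub_nonpos_of_le x1) (Mathlib.Tactic.Linarith.sub_nonpos_of_le (norm_nonneg (D.h (D.Φ ((2 : ℝ) * D.T) (D.sec (wp n)))).1))]
  have b4 : ∀ t, 2 * D.T + τ ≤ t → D.Φ t (D.sec (wp 0)) =
      D.h.symm (expA l (t - (2 * D.T + τ)) (D.h (D.Φ (2 * D.T) (D.sec (wp n))))) :=
    fun t ht => by
      rw [← D.geoB_lin b1 (b3 _ (by linarith only [ht])) right_mem_uIcc, Homeomorph.symm_apply_apply, ← h1,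
        ← geoB_add, ← geoB_add]
      congr 1
      ring
  have hgood : ∀ t, D.GeoBGood ρ S (D.Φ t (D.sec (wp 0))) := fun t => by
    rcases le_total t 0 with k0 | k0
    · have g := D.geoB_loc (a3 t k0)
      rw [← a4 t k0] at g
      refine ⟨g.1, g.2, fun w hw e => ⟨0, Nat.zero_le _, Eq.symm ?_⟩⟩
      refine D.geoB_uniq H (hw.trans N.one) ((h 0 (Nat.zero_le _)).1.trans N.one) (s := t) ?_
      rw [← e, a4 t k0, Homeomorph.apply_symm_apply]
    rcases lt_or_ge t τ with k1 | k1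
    · exact h2 t ⟨k0, k1⟩
    rcases le_total t (2 * D.T + τ) with k2 | k2
    · have := D.geoB_arc N (S := S) (h n le_rfl).1 ⟨n, le_rfl, rfl⟩ (t := t - τ)
        ⟨by linarith only [k1], by linarith only [k2]⟩
      rwa [← h1, ← geoB_add, sub_add_cancel] at this
    · have g := D.geoB_loc (b3 (t - (2 * D.T + τ)) (by linarith only [k2]))
      rw [← b4 t k2] at g
      refine ⟨g.1, g.2, fun w hw e => ?_⟩
      have e1 := congrArg (fun z => (D.h z).2) (e.symm.trans (b4 t k2))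
      simp only [Homeomorph.apply_symm_apply, geoB_hsec, expA, b0, mul_zero] at e1
      exact absurd e1 (D.geoB_ye w)
  have hsol := D.geoB_sol fun t => (hgood t).2.1
  have hz : D.h.symm 0 = 0 := by rw [← D.chart.zero, Homeomorph.symm_apply_apply, D.chart.zero]
  have hcz : Tendsto D.h.symm (𝓝 0) (𝓝 0) := by
    have := D.h.symm.continuous.tendsto 0
    rwa [hz] at this
  have hbot : Tendsto (fun t => D.Φ t (D.sec (wp 0))) atBot (𝓝 0) := by
    have t1 : Tendsto (fun t : ℝ => expA l t (D.h (D.sec (wp 0)))) atBot (𝓝 0) := by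
      rw [tendsto_zero_iff_norm_tendsto_zero]
      simp only [a2]
      have := (Real.tendsto_exp_atBot.comp (tendsto_id.const_mul_atBot H.re)).mul_const
        ‖(D.h (D.sec (wp 0))).2‖
      simpa using this
    exact (hcz.comp t1).congr' ((eventually_le_atBot 0).mono fun t ht => (a4 t ht).symm)
  have htop : Tendsto (fun t => D.Φ t (D.sec (wp 0))) atTop (𝓝 0) := by
    have t1 : Tendsto (fun t : ℝ => expA l t (D.h (D.Φ (2 * D.T) (D.sec (wp n))))) atTop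
        (𝓝 0) := by
      rw [tendsto_zero_iff_norm_tendsto_zero]
      simp only [b2]
      have := (Real.tendsto_exp_neg_atTop_nhds_zero.comp
        (tendsto_id.const_mul_atTop H.re)).mul_const ‖(D.h (D.Φ (2 * D.T) (D.sec (wp n)))).1‖
      simpa using this
    have t2 : Tendsto (fun t : ℝ => t - (2 * D.T + τ)) atTop atTop :=
      tendsto_atTop_add_const_right _ _ tendsto_id
    exact (hcz.comp (t1.comp t2)).congr'
      ((eventually_ge_atTop (2 * D.T + τ)).mono fun t ht => (b4 t ht).symm)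
  refine ⟨fun t => D.Φ t (D.sec (wp 0)), ⟨hsol, ?_, htop, hbot⟩, ?_, fun hsym i i1 i2 => ?_⟩
  · by_contra hne
    push Not at hne
    have hconst : ∀ t, D.Φ t (D.sec (wp 0)) = D.Φ 0 (D.sec (wp 0)) := fun t =>
      is_const_of_deriv_eq_zero (f := fun t => D.Φ t (D.sec (wp 0)))
        (fun s => (hsol s).differentiableAt) (fun s => by rw [(hsol s).deriv]; exact hne s) t 0
    simp only [hconst, D.flow.zero] at hbot
    have e : D.sec (wp 0) = 0 := tendsto_nhds_unique tendsto_const_nhds hbot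
    have e1 := congrArg (fun z => (D.h z).2) e
    simp only [geoB_hsec, D.chart.zero] at e1
    exact D.geoB_ye _ e1
  · rintro _ ⟨t, rfl⟩
    exact (hgood t).1
  · obtain ⟨j, rfl⟩ : ∃ j, i = j + 1 := ⟨i - 1, by omega⟩
    obtain ⟨k1, k2, k3⟩ := h j (by omega)
    obtain ⟨t, -, -, ht, -⟩ := horb j (by omega)
    obtain ⟨s, hs⟩ := D.geoB_in H N k1 (k3 ▸ k2)
    have : D.sec (wm (j + 1)) ∈ range fun t => D.Φ t (D.sec (wp 0)) := by
      rw [← hsym]
      exact ⟨sw (D.sec (wm (j + 1))), ⟨s + t, by simp only [geoB_add, ht, hs, k3]⟩, rfl⟩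
    obtain ⟨r, hr⟩ := this
    exact (hgood r).2.2 _ k2 hr

end GeoData

theorem GeoData.realise (H : Hyp F l γ U) (D : GeoData F l γ U) : ∃ ρ : ℝ, 0 < ρ ∧
    (∀ (p : ℕ) (wm wp : ℤ → ℝ × ℂ), 0 < p → Function.Periodic wm p → Function.Periodic wp p →
      (∀ i, ‖wm i‖ ≤ ρ ∧ ‖wp i‖ ≤ ρ ∧ D.Jm (wp i) = wm (i + 1) ∧ (wm i).2 = (wp i).2 ∧
        ∃ u, (wp i).2 = D.y ^ 2 * Sp (GeoData.kap l) ((wm i).1 + (wp i).1) u) →
      ∃ x, IsPeriodicOrbit F x ∧ range x ⊆ U ∧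
        (sw '' range x = range x → ∀ i, ∃ j, wp j = wm i)) ∧
    (∀ (n : ℕ) (wm wp : ℕ → ℝ × ℂ),
      (∀ i ≤ n, ‖wp i‖ ≤ ρ ∧ ‖wm (i + 1)‖ ≤ ρ ∧ D.Jm (wp i) = wm (i + 1)) →
      (wp 0).2 = 0 → (wm (n + 1)).2 = 0 →
      (∀ i, 1 ≤ i → i ≤ n → (wm i).2 = (wp i).2 ∧
        ∃ u, (wp i).2 = D.y ^ 2 * Sp (GeoData.kap l) ((wm i).1 + (wp i).1) u) →
      ∃ x, IsHomoclinic F 0 x ∧ range x ⊆ U ∧
        (sw '' range x = range x → ∀ i, 1 ≤ i → i ≤ n → ∃ j ≤ n, wp j = wm i)) := by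
  obtain ⟨ρ, N⟩ := D.geoB_near H
  exact ⟨ρ, N.pos, fun p wm wp hp _ hwp h => D.geoB_periodic H N p wm wp hp hwp h,
    fun n wm wp h h0 hn hs => D.geoB_homoclinic H N n wm wp h h0 hn hs⟩

end Pool.Agent.Work.MP_05654f_an
end

-- merged part: Pool.Agent.Work.MP_05654f_an.Chart
section
/-!
Symmetric coordinates for a reflection-type involution of three-space.
-/

namespace Pool.Agent.Work.MP_05654f_an

open Filter Topology Set

namespace ChartAux

theorem rank_one (DJ : ℝ × ℂ →L[ℝ] ℝ × ℂ)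
    (hfix : ∃ v₁ v₂ : ℝ × ℂ, LinearIndependent ℝ ![v₁, v₂] ∧ DJ v₁ = v₁ ∧ DJ v₂ = v₂)
    (hnd : (DJ (1, 0)).2 ≠ 0) (w : ℝ × ℂ) :
    ∃ t : ℝ, w - DJ w = t • (((1, 0) : ℝ × ℂ) - DJ (1, 0)) := by
  obtain ⟨v₁, v₂, hli, h1, h2⟩ := hfix
  set N : ℝ × ℂ →ₗ[ℝ] ℝ × ℂ := LinearMap.id - (DJ : ℝ × ℂ →ₗ[ℝ] ℝ × ℂ) with hN
  have hNa : ∀ w, N w = w - DJ w := fun w => rfl
  have hk : Submodule.span ℝ (range ![v₁, v₂]) ≤ LinearMap.ker N := by
    rw [Submodule.span_le]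
    rintro _ ⟨i, rfl⟩
    fin_cases i
    · show N v₁ = 0
      rw [hNa, h1, sub_self]
    · show N v₂ = 0
      rw [hNa, h2, sub_self]
  have hli' : LinearIndependent ℝ (Fin.cons ((1, 0) : ℝ × ℂ) ![v₁, v₂] : Fin 3 → ℝ × ℂ) := by
    rw [linearIndependent_finCons]
    refine ⟨hli, fun hm => hnd ?_⟩
    have := hk hm
    rw [LinearMap.mem_ker, hNa, sub_eq_zero] at this
    rw [← this]
  have htop := hli'.span_eq_top_of_card_eq_finrank' (by simp [Module.finrank_prod])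
  have hle : Submodule.span ℝ (range (Fin.cons ((1, 0) : ℝ × ℂ) ![v₁, v₂] : Fin 3 → ℝ × ℂ)) ≤
      (Submodule.span ℝ {N (1, 0)}).comap N := by
    rw [Submodule.span_le]
    rintro _ ⟨i, rfl⟩
    fin_cases i
    · exact Submodule.mem_span_singleton_self _
    · show N v₁ ∈ Submodule.span ℝ {N (1, 0)}
      rw [hNa v₁, h1, sub_self]
      exact zero_mem _
    · show N v₂ ∈ Submodule.span ℝ {N (1, 0)}
      rw [hNa v₂, h2, sub_self]
      exact zero_mem _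
  rw [htop] at hle
  obtain ⟨t, ht⟩ := Submodule.mem_span_singleton.1 (hle (Submodule.mem_top (x := w)))
  exact ⟨t, ht.symm⟩

theorem rot (κ : ℝ) {C z : ℂ} (hC : C ≠ 0) (hz : z ≠ 0) : ∃ (C' : ℂ) (σ : ℝ), C' ≠ 0 ∧ σ ≠ 0 ∧
    z = σ * C' ∧ ∀ δ u, ∃ u', C' * Sp κ δ u = C * Sp κ δ u' := by
  set u0 := (z / C).arg with hu0
  refine ⟨C * Complex.exp ((-(κ : ℂ) + Complex.I) * u0), ‖z / C‖ * Real.exp (κ * u0),
    mul_ne_zero hC (Complex.exp_ne_zero _),
    mul_ne_zero (norm_ne_zero_iff.2 (div_ne_zero hz hC)) (Real.exp_ne_zero _), ?_,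
    fun δ u => ⟨u0 + u, ?_⟩⟩
  · have h1 := Complex.norm_mul_exp_arg_mul_I (z / C)
    have h2 : Complex.exp ((κ * u0 : ℝ) : ℂ) * Complex.exp ((-(κ : ℂ) + Complex.I) * u0) =
        Complex.exp (u0 * Complex.I) := by
      rw [← Complex.exp_add]
      congr 1
      push_cast
      ring
    calc z = C * (z / C) := by field_simp
      _ = C * (‖z / C‖ * Complex.exp (u0 * Complex.I)) := by rw [h1]
      _ = _ := by
        rw [← h2, Complex.ofReal_mul ‖z / C‖, Complex.ofReal_exp]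
        ring
  · unfold Sp
    rw [mul_assoc, ← Complex.exp_add]
    congr 2
    push_cast
    ring

/-- real coordinate -/
noncomputable def sL (C' : ℂ) : ℝ × ℂ →L[ℝ] ℝ :=
  Complex.reCLM.comp (C'⁻¹ • ContinuousLinearMap.snd ℝ ℝ ℂ)

/-- imaginary coordinate -/
noncomputable def hL (C' : ℂ) : ℝ × ℂ →L[ℝ] ℝ :=
  Complex.imCLM.comp (C'⁻¹ • ContinuousLinearMap.snd ℝ ℝ ℂ)

theorem recon {C' : ℂ} (h : C' ≠ 0) (w : ℝ × ℂ) :
    w.2 = C' * ((sL C' w : ℂ) + (hL C' w : ℂ) * Complex.I) := by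
  have : ((sL C' w : ℂ) + (hL C' w : ℂ) * Complex.I) = C'⁻¹ * w.2 := Complex.re_add_im _
  rw [this]
  field_simp

theorem vals {C' : ℂ} (h : C' ≠ 0) {w : ℝ × ℂ} {σ : ℝ} (hw : w.2 = σ * C') :
    sL C' w = σ ∧ hL C' w = 0 := by
  have : C'⁻¹ * w.2 = σ := by
    rw [hw]
    field_simp
  constructor
  · show (C'⁻¹ * w.2).re = σ
    rw [this, Complex.ofReal_re]
  · show (C'⁻¹ * w.2).im = 0
    rw [this, Complex.ofReal_im]

end ChartAux

set_option linter.unusedVariables false in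
open ChartAux in
theorem chart (κ : ℝ) (hκ : 0 < κ) (J : ℝ × ℂ → ℝ × ℂ) (DJ : ℝ × ℂ →L[ℝ] ℝ × ℂ) (C : ℂ)
    (hC : C ≠ 0) (J0 : J 0 = 0) (hJ : HasStrictFDerivAt J DJ 0)
    (hinv : ∀ᶠ w in 𝓝 (0 : ℝ × ℂ), J (J w) = w)
    (hfix : ∃ v₁ v₂ : ℝ × ℂ, LinearIndependent ℝ ![v₁, v₂] ∧ DJ v₁ = v₁ ∧ DJ v₂ = v₂)
    (hnd : (DJ (1, 0)).2 ≠ 0) :
    ∃ (C' : ℂ) (q Θ : ℝ × ℝ × ℝ → ℝ) (DΘ : ℝ × ℝ × ℝ →L[ℝ] ℝ), C' ≠ 0 ∧
      (∀ δ u, ∃ u', C' * Sp κ δ u = C * Sp κ δ u') ∧ q 0 = 0 ∧ Θ 0 = 0 ∧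
      HasStrictFDerivAt q (0 : ℝ × ℝ × ℝ →L[ℝ] ℝ) 0 ∧ HasStrictFDerivAt Θ DΘ 0 ∧
      DΘ (0, 1, 0) ≠ 0 ∧
      (∀ᶠ p in 𝓝 (0 : ℝ × ℝ × ℝ), q (p.2.1, p.1, p.2.2) = -q p) ∧
      ∀ᶠ p in 𝓝 (0 : ℝ × ℝ × ℝ),
        J (Θ p, C' * ((p.1 : ℂ) + ((p.2.2 - q p : ℝ) : ℂ) * Complex.I)) =
          (Θ (p.2.1, p.1, p.2.2), C' * ((p.2.1 : ℂ) + ((p.2.2 + q p : ℝ) : ℂ) * Complex.I)) := by
  have hr := rank_one DJ hfix hnd
  set v0 : ℝ × ℂ := ((1, 0) : ℝ × ℂ) - DJ (1, 0) with hv0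
  have hv2 : v0.2 ≠ 0 := by simpa [hv0] using hnd
  obtain ⟨C', σ, hC', hσ, hv, hsp⟩ := rot κ hC hv2
  obtain ⟨vs, vh⟩ := vals hC' hv
  have hH : ∀ w, hL C' (DJ w) = hL C' w := by
    intro w
    obtain ⟨t, ht⟩ := hr w
    have := congrArg (hL C') ht
    rw [map_sub, map_smul, vh, smul_zero, sub_eq_zero] at this
    exact this.symm
  set L : ℝ × ℂ →L[ℝ] ℝ × ℝ × ℝ := (sL C').prod (((sL C').comp DJ).prod
    ((1 / 2 : ℝ) • (hL C' + (hL C').comp DJ))) with hLdef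
  have hLa : ∀ w, L w = (sL C' w, sL C' (DJ w), hL C' w) := by
    intro w
    simp only [hLdef, ContinuousLinearMap.prod_apply, ContinuousLinearMap.comp_apply,
      smul_apply, add_apply, hH, smul_eq_mul]
    congr 2
    ring
  have hw2 : ∀ w, sL C' w = 0 → hL C' w = 0 → w.2 = 0 := by
    intro w h1 h2
    rw [recon hC' w, h1, h2]
    simp
  have hinj : Function.Injective (L : ℝ × ℂ →ₗ[ℝ] ℝ × ℝ × ℝ) := by
    rw [injective_iff_map_eq_zero]
    intro w hw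
    have hw' : L w = 0 := hw
    rw [hLa] at hw'
    simp only [Prod.mk_eq_zero] at hw'
    obtain ⟨h1, h2, h3⟩ := hw'
    have h4 := hw2 w h1 h3
    have h5 : w = w.1 • ((1, 0) : ℝ × ℂ) := by
      ext <;> simp [h4]
    have h6 : w - DJ w = w.1 • v0 := by
      rw [hv0, smul_sub, ← map_smul, ← h5]
    have h7 := congrArg (sL C') h6
    rw [map_sub, map_smul, h1, h2, vs, sub_self, smul_eq_mul] at h7
    have h8 : w.1 = 0 := (mul_eq_zero.1 h7.symm).resolve_right hσ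
    rw [h5, h8, zero_smul]
  set Le : (ℝ × ℂ) ≃L[ℝ] ℝ × ℝ × ℝ := (LinearMap.linearEquivOfInjective _ hinj
    (by simp [Module.finrank_prod])).toContinuousLinearEquiv with hLe
  have hLeL : (Le : ℝ × ℂ →L[ℝ] ℝ × ℝ × ℝ) = L :=
    ContinuousLinearMap.ext fun _ => rfl
  set Ξ : ℝ × ℂ → ℝ × ℝ × ℝ := fun w => (sL C' w, sL C' (J w),
    (1 / 2 : ℝ) • (hL C' w + hL C' (J w))) with hΞdef
  have hsJ : HasStrictFDerivAt (fun w => sL C' (J w)) ((sL C').comp DJ) 0 :=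
    (sL C').hasStrictFDerivAt.comp 0 hJ
  have hhJ : HasStrictFDerivAt (fun w => hL C' (J w)) ((hL C').comp DJ) 0 :=
    (hL C').hasStrictFDerivAt.comp 0 hJ
  have hΞ : HasStrictFDerivAt Ξ (Le : ℝ × ℂ →L[ℝ] ℝ × ℝ × ℝ) 0 := by
    rw [hLeL]
    exact (sL C').hasStrictFDerivAt.prodMk (hsJ.prodMk
      (((hL C').hasStrictFDerivAt.add hhJ).const_smul (1 / 2 : ℝ)))
  have Ξ0 : Ξ 0 = 0 := by simp [hΞdef, J0]
  set Ψ := hΞ.localInverse Ξ Le 0 with hΨdef
  have hΨ : HasStrictFDerivAt Ψ (Le.symm : ℝ × ℝ × ℝ →L[ℝ] ℝ × ℂ) 0 := by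
    have := hΞ.to_localInverse
    rwa [Ξ0] at this
  have Ψ0 : Ψ 0 = 0 := by
    have := hΞ.localInverse_apply_image
    rwa [Ξ0] at this
  have hright : ∀ᶠ p in 𝓝 (0 : ℝ × ℝ × ℝ), Ξ (Ψ p) = p := by
    have := hΞ.eventually_right_inverse
    rwa [Ξ0] at this
  have hleft : ∀ᶠ w in 𝓝 (0 : ℝ × ℂ), Ψ (Ξ w) = w := hΞ.eventually_left_inverse
  have tΨ : Tendsto Ψ (𝓝 0) (𝓝 0) := by
    have := hΨ.continuousAt.tendsto
    rwa [Ψ0] at this
  have tJ : Tendsto J (𝓝 0) (𝓝 0) := by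
    have := hJ.continuousAt.tendsto
    rwa [J0] at this
  set q : ℝ × ℝ × ℝ → ℝ := fun p => (1 / 2 : ℝ) • (hL C' (J (Ψ p)) - hL C' (Ψ p)) with hqdef
  have key : ∀ᶠ p in 𝓝 (0 : ℝ × ℝ × ℝ), Ξ (Ψ p) = p ∧ J (J (Ψ p)) = Ψ p ∧
      Ψ (p.2.1, p.1, p.2.2) = J (Ψ p) := by
    filter_upwards [hright, tΨ.eventually hinv, (tJ.comp tΨ).eventually hleft] with p h1 h2 h3
    refine ⟨h1, h2, ?_⟩
    simp only [Function.comp_apply] at h3
    have a1 : sL C' (Ψ p) = p.1 := congrArg (fun x : ℝ × ℝ × ℝ => x.1) h1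
    have a2 : sL C' (J (Ψ p)) = p.2.1 := congrArg (fun x : ℝ × ℝ × ℝ => x.2.1) h1
    have a3 : (1 / 2 : ℝ) • (hL C' (Ψ p) + hL C' (J (Ψ p))) = p.2.2 :=
      congrArg (fun x : ℝ × ℝ × ℝ => x.2.2) h1
    have a4 : Ξ (J (Ψ p)) = (p.2.1, p.1, p.2.2) := by
      show (sL C' (J (Ψ p)), sL C' (J (J (Ψ p))),
        (1 / 2 : ℝ) • (hL C' (J (Ψ p)) + hL C' (J (J (Ψ p))))) = _
      rw [h2, a1, a2, add_comm, a3]
    rw [← h3, a4]
  refine ⟨C', q, fun p => (Ψ p).1, (ContinuousLinearMap.fst ℝ ℝ ℂ).comp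
    (Le.symm : ℝ × ℝ × ℝ →L[ℝ] ℝ × ℂ), hC', hsp, by simp [hqdef, Ψ0, J0], by simp [Ψ0], ?_,
    hΨ.fst, ?_, ?_, ?_⟩
  · have h1 : HasStrictFDerivAt (fun w => (1 / 2 : ℝ) • (hL C' (J w) - hL C' w))
        ((1 / 2 : ℝ) • ((hL C').comp DJ - hL C')) (Ψ 0) := by
      rw [Ψ0]
      exact (hhJ.sub (hL C').hasStrictFDerivAt).const_smul (1 / 2 : ℝ)
    have h2 : (hL C').comp DJ - hL C' = 0 := by
      refine ContinuousLinearMap.ext fun w => ?_
      simp [hH]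
    have h3 := h1.comp 0 hΨ
    rw [h2, smul_zero, ContinuousLinearMap.zero_comp] at h3
    exact h3
  · intro h0
    set w := Le.symm (0, 1, 0) with hw
    have h1 : L w = (0, 1, 0) := by
      rw [← hLeL, hw]
      exact Le.apply_symm_apply _
    have h2 := h1
    rw [hLa] at h2
    simp only [Prod.mk.injEq] at h2
    have h3 : w = 0 := Prod.ext h0 (hw2 w h2.1 h2.2.2)
    rw [h3, map_zero] at h1
    simpa using congrArg (fun x : ℝ × ℝ × ℝ => x.2.1) h1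
  · filter_upwards [key] with p ⟨h1, h2, h3⟩
    simp only [hqdef, h3, h2, smul_eq_mul]
    ring
  · filter_upwards [key] with p ⟨h1, h2, h3⟩
    have a1 : sL C' (Ψ p) = p.1 := congrArg (fun x : ℝ × ℝ × ℝ => x.1) h1
    have a2 : sL C' (J (Ψ p)) = p.2.1 := congrArg (fun x : ℝ × ℝ × ℝ => x.2.1) h1
    have a3 : (1 / 2 : ℝ) • (hL C' (Ψ p) + hL C' (J (Ψ p))) = p.2.2 :=
      congrArg (fun x : ℝ × ℝ × ℝ => x.2.2) h1
    have b1 : p.2.2 - q p = hL C' (Ψ p) := by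
      rw [← a3]
      simp only [hqdef, smul_eq_mul]
      ring
    have b2 : p.2.2 + q p = hL C' (J (Ψ p)) := by
      rw [← a3]
      simp only [hqdef, smul_eq_mul]
      ring
    rw [b1, b2, h3]
    conv_lhs => rw [← a1, ← recon hC']
    conv_rhs => rw [← a2, ← recon hC']

end Pool.Agent.Work.MP_05654f_an
end

-- merged part: Pool.Agent.Work.MP_05654f_an.Data
section
/-!
Choice of all constants after rescaling by a power of `-lam`.
-/

namespace Pool.Agent.Work.MP_05654f_an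

open Filter Topology Set

lemma Data_small (C : ℝ) {d : ℝ} (hd : 0 < d) : ∀ᶠ x in 𝓝[>] (0 : ℝ), C * x ≤ d := by
  have h : Tendsto (fun x : ℝ => C * x) (𝓝 0) (𝓝 (C * 0)) := tendsto_id.const_mul C
  rw [mul_zero] at h
  exact ((h.eventually (gt_mem_nhds hd)).mono fun _ h => h.le).filter_mono nhdsWithin_le_nhds

lemma Data_pow (C : ℝ) {d θ : ℝ} (hd : 0 < d) (h0 : 0 ≤ θ) (h1 : θ < 1) :
    ∀ᶠ n : ℕ in atTop, C * θ ^ n ≤ d := by
  obtain ⟨n0, h⟩ := Lw.exists_pow_lt (C := C) hd h0 h1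
  exact eventually_atTop.2 ⟨n0, fun n hn => (h n hn).le⟩

lemma Data_strict {f : ℝ × ℝ × ℝ → ℝ} {f' : ℝ × ℝ × ℝ →L[ℝ] ℝ} (h : HasStrictFDerivAt f f' 0)
    {c : ℝ} (hc : 0 < c) : ∃ r > 0, ∀ p p', ‖p‖ ≤ r → ‖p'‖ ≤ r →
      |f p - f p' - f' (p - p')| ≤ c * ‖p - p'‖ := by
  obtain ⟨ε, hε, h1⟩ := Metric.eventually_nhds_iff.1 (h.isLittleO.def hc)
  refine ⟨ε / 2, by positivity, fun p p' hp hp' => ?_⟩
  have h2 : dist (p, p') ((0 : ℝ × ℝ × ℝ), (0 : ℝ × ℝ × ℝ)) < ε := by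
    rw [Prod.dist_eq, dist_zero_right, dist_zero_right]
    exact max_lt (by linarith only [hε, hp]) (by linarith only [hε, hp'])
  simpa using h1 h2

/-- Clamp and rescale. -/
def Data_sc (μ B : ℝ) (p : ℝ × ℝ × ℝ) : ℝ × ℝ × ℝ :=
  (μ * cl (-B) B p.1, μ * cl (-B) B p.2.1, μ * cl (-B) B p.2.2)

lemma Data_norm3 {x y z m : ℝ} (h1 : |x| ≤ m) (h2 : |y| ≤ m) (h3 : |z| ≤ m) :
    ‖((x, y, z) : ℝ × ℝ × ℝ)‖ ≤ m := by
  rw [Prod.norm_def, Prod.norm_def]
  exact max_le h1 (max_le h2 h3)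

lemma Data_sc_norm (μ : ℝ) {B : ℝ} (hB : 0 ≤ B) (p : ℝ × ℝ × ℝ) : ‖Data_sc μ B p‖ ≤ |μ| * B := by
  have key : ∀ x, |μ * cl (-B) B x| ≤ |μ| * B := by
    intro x
    rw [abs_mul]
    exact mul_le_mul_of_nonneg_left (abs_le.2 (cl_mem (by linarith only [hB]) x)) (abs_nonneg _)
  exact Data_norm3 (key _) (key _) (key _)

lemma Data_sc_lip (μ B : ℝ) {a b c a' b' c' m : ℝ} (h1 : |a - a'| ≤ m) (h2 : |b - b'| ≤ m)
    (h3 : |c - c'| ≤ m) : ‖Data_sc μ B (a, b, c) - Data_sc μ B (a', b', c')‖ ≤ |μ| * m := by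
  have key : ∀ x x', |x - x'| ≤ m → |μ * cl (-B) B x - μ * cl (-B) B x'| ≤ |μ| * m := by
    intro x x' h
    rw [← mul_sub, abs_mul]
    exact mul_le_mul_of_nonneg_left ((cl_lip _ _ _ _).trans h) (abs_nonneg _)
  exact Data_norm3 (key _ _ h1) (key _ _ h2) (key _ _ h3)

lemma Data_sc_eq (μ : ℝ) {B x y z : ℝ} (h1 : |x| ≤ B) (h2 : |y| ≤ B) (h3 : |z| ≤ B) :
    Data_sc μ B (x, y, z) = (μ * x, μ * y, μ * z) := by
  unfold Data_sc
  rw [cl_eq (abs_le.1 h1).1 (abs_le.1 h1).2, cl_eq (abs_le.1 h2).1 (abs_le.1 h2).2,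
    cl_eq (abs_le.1 h3).1 (abs_le.1 h3).2]

lemma Data_lip {f : ℝ × ℝ × ℝ → ℝ} {r c μ B : ℝ}
    (h : ∀ p p', ‖p‖ ≤ r → ‖p'‖ ≤ r → |f p - f p'| ≤ c * ‖p - p'‖) (hc : 0 ≤ c) (hB : 0 ≤ B)
    (hr : |μ| * B ≤ r) : Lip3 (|μ| * c) fun p => f (Data_sc μ B p) := by
  intro a b d a' b' d' m h1 h2 h3
  refine (h _ _ ((Data_sc_norm μ hB _).trans hr) ((Data_sc_norm μ hB _).trans hr)).trans ?_
  refine (mul_le_mul_of_nonneg_left (Data_sc_lip μ B h1 h2 h3) hc).trans_eq ?_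
  ring

lemma Data_lip' {f : ℝ × ℝ × ℝ → ℝ} {r c μ B : ℝ} (hμ : μ ≠ 0)
    (h : ∀ p p', ‖p‖ ≤ r → ‖p'‖ ≤ r → |f p - f p'| ≤ c * ‖p - p'‖) (hc : 0 ≤ c) (hB : 0 ≤ B)
    (hr : |μ| * B ≤ r) : Lip3 c fun p => f (Data_sc μ B p) / μ := by
  intro a b d a' b' d' m h1 h2 h3
  have h4 := Data_lip h hc hB hr a b d a' b' d' m h1 h2 h3
  rw [← sub_div, abs_div, div_le_iff₀ (abs_pos.2 hμ)]
  refine h4.trans_eq ?_
  ring

lemma Data_anti {f : ℝ × ℝ × ℝ → ℝ} {r μ B : ℝ}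
    (h : ∀ p : ℝ × ℝ × ℝ, ‖p‖ ≤ r → f (p.2.1, p.1, p.2.2) = -f p) (hB : 0 ≤ B)
    (hr : |μ| * B ≤ r) : Anti fun p => f (Data_sc μ B p) / μ := by
  intro a b c
  have h1 := h (Data_sc μ B (a, b, c)) ((Data_sc_norm μ hB _).trans hr)
  have h2 : f (Data_sc μ B (b, a, c)) = -f (Data_sc μ B (a, b, c)) := h1
  show f (Data_sc μ B (b, a, c)) / μ = -(f (Data_sc μ B (a, b, c)) / μ)
  rw [h2, neg_div]

lemma Data_V0 {κ : ℝ} (hκ : 0 < κ) (D : SpD κ) (b : ℕ) : D.V (1 / 2) b 0 0 = (-lam κ) ^ b := by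
  have h0 := D.F0pos
  have h1 := lam_pos κ
  have h := (D.V_eq hκ (ν := 1 / 2) (by norm_num) le_rfl b (H := 0) (δ := 0) (by simp)
    (by
      simp only [zero_div, mul_zero, mem_Icc]
      constructor
      · have : 0 ≤ (1 - 1 / 2) * D.F0 / lam κ := by positivity
        linarith only [this]
      · positivity)).1
  rw [h]
  simp [D.U0, Zu]

lemma Data_sep {l : ℝ} (h0 : 0 < l) (h1 : l < 1) {b b' : ℕ} (h : b < b') (hb : b' ≤ 5) :
    l ^ 5 * (1 - l) ≤ |(-l) ^ b - (-l) ^ b'| := by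
  refine le_trans ?_ (abs_sub_abs_le_abs_sub _ _)
  rw [abs_pow, abs_pow, abs_neg, abs_of_pos h0]
  have a1 : l ^ b' ≤ l ^ (b + 1) := pow_le_pow_of_le_one h0.le h1.le h
  have a2 : l ^ 5 ≤ l ^ b := pow_le_pow_of_le_one h0.le h1.le (by omega)
  rw [pow_succ] at a1
  linarith only [a1, h1, a2, mul_nonneg_of_nonpos_of_nonpos (le_of_lt (Mathlib.Tactic.Linarith.sub_neg_of_lt h1)) (Mathlib.Tactic.Linarith.sub_nonpos_of_le a2)]

lemma Data_par {l b0 : ℝ} (h0 : 0 < l) (hb : b0 ≠ 0) : ∃ᶠ m : ℕ in atTop, 0 < (-l) ^ m * b0 := by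
  refine frequently_atTop.2 fun N => ?_
  rcases lt_or_gt_of_ne hb with h | h
  · refine ⟨2 * N + 1, by omega, ?_⟩
    rw [Odd.neg_pow ⟨N, rfl⟩]
    have := pow_pos h0 (2 * N + 1)
    linarith only [h, this, mul_pos_of_neg_of_neg (Mathlib.Tactic.Linarith.sub_neg_of_lt h) (Mathlib.Tactic.Linarith.sub_neg_of_lt this)]
  · refine ⟨2 * N, by omega, ?_⟩
    rw [Even.neg_pow ⟨N, by ring⟩]
    positivity

/-- The window constants exist for a suitable `W`. -/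
lemma Data_hi (W : Lw) (D : SpD W.κ) (κ0 : 0 < W.κ) (κδ : W.κ * W.δ0 ≤ 1)
    (law0 : ∀ b, Law W.δ0 W.Λ (lam W.κ ^ b * W.e) (3 * lam W.κ ^ b / lam W.κ) (D.V (1 / 2) b))
    (e1 : 0 < W.e)
    (hq : ∀ η' > 0, ∃ r > 0, ∀ ρ, 0 ≤ ρ → ρ ≤ r → ∃ qw, Lip3 η' qw ∧ Lip3 W.η qw ∧ Anti qw ∧
      ∀ x y m, |x| ≤ ρ → |y| ≤ ρ → |m| ≤ ρ → qw (x, y, m) = W.q (x, y, m))
    (notMk : ∀ s, |s| ≤ lam W.κ ^ 5 / 2 → ¬W.Mk 3 s ∧ ¬W.Mk 5 s) (Θ0 : W.Θ (0, 0, 0) = 0)
    {c : ℝ} (hc : 0 < c)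
    (phase : ∀ t, t = 0 ∨ t = 2 ∨ t = 4 → ∀ x m H δ, |x| ≤ W.R → |m| ≤ W.R → |H| ≤ W.R →
      |δ| ≤ W.δ0 → |W.Θ (x, W.LV t H δ, m) - c * lam W.κ ^ t| ≤
        c * (lam W.κ ^ 4 * (1 - lam W.κ ^ 2)) / 8)
    (m2 : lam W.κ * Real.exp (2 * (W.κ * W.δ0)) < 1)
    (m5 : 4608 * (W.η * W.Λ) ≤ lam W.κ * D.F0) : Nonempty W.Hi := by
  have l0 := lam_pos W.κ
  have l1 := lam_lt_one κ0
  have F0 := D.F0pos
  have Λ1 := W.Λ1
  have R0 := W.R0
  have l2 : lam W.κ ^ 2 < 1 := pow_lt_one₀ l0.le l1 (by norm_num)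
  obtain ⟨γ0, hγ0⟩ : ∃ γ0, γ0 = c * (lam W.κ ^ 4 * (1 - lam W.κ ^ 2)) := ⟨_, rfl⟩
  have γ00 : 0 < γ0 := by
    rw [hγ0]
    exact mul_pos hc (mul_pos (by positivity) (by linarith only [l2]))
  obtain ⟨θ0, m1, m2', hθ⟩ : ∃ θ0, Real.exp (-(W.κ * γ0 / 2)) ≤ θ0 ∧
      lam W.κ * Real.exp (2 * (W.κ * W.δ0)) ≤ θ0 ∧ θ0 < 1 :=
    ⟨max _ _, le_max_left _ _, le_max_right _ _, max_lt
      (Real.exp_lt_one_iff.2 (by have := mul_pos κ0 γ00; linarith only [this])) m2⟩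
  obtain ⟨ν, ν0, ν1, ν2⟩ : ∃ ν : ℝ, 0 < ν ∧ ν ≤ 1 / 2 ∧ ν ≤ (1 - θ0) / 2 :=
    ⟨min _ _, lt_min (by norm_num) (by linarith only [hθ]), min_le_left _ _, min_le_right _ _⟩
  obtain ⟨ε, ⟨⟨ε1, ε2⟩, ε3⟩, ε0⟩ := ((((Data_small 3 (d := (1 - θ0) / 2 * D.F0)
    (mul_pos (by linarith only [ν0, ν2]) F0)).and (Data_small 6 (mul_pos l0 F0))).and
    (Data_small (3 * W.Λ) one_pos)).and self_mem_nhdsWithin).exists
  have ε0' : 0 < ε := ε0
  obtain ⟨K', eK, -, eK0, lawK⟩ := D.law κ0 ν0 ν1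
  obtain ⟨K, hK, hK'⟩ : ∃ K, W.Λ ≤ K ∧ K' ≤ K := ⟨max _ _, le_max_left _ _, le_max_right _ _⟩
  have K0 : 0 < K := by linarith only [l0, l1, Λ1, hK]
  have ηw0 : 0 < ε * lam W.κ ^ 3 / (5000 * K) := by positivity
  obtain ⟨r, r0, hr⟩ := hq _ ηw0
  have P := fun (C : ℝ) {d : ℝ} (hd : 0 < d) => Data_pow C hd l0.le l1
  obtain ⟨a, ⟨⟨⟨⟨⟨⟨⟨a1, a2⟩, a3⟩, a4⟩, a5⟩, a6⟩, a7⟩, a8⟩⟩ := ((((((((P eK e1).and
    (P (W.κ * (3 / lam W.κ)) e1)).and
    (P (W.κ * (3 / lam W.κ) * W.l * W.Λ * K) (d := 1 / 32) (by norm_num))).and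
    (P (3 / lam W.κ) (d := ε * lam W.κ ^ 2) (by positivity))).and
    (P (4 * (3 / lam W.κ)) R0)).and
    (P (3 / lam W.κ) (d := lam W.κ ^ 5 / 2) (by positivity))).and
    (P (W.l * (2 * (3 / lam W.κ))) (d := γ0 / 8) (by positivity))).and
    (P (2 * (3 / lam W.κ)) r0)).exists
  obtain ⟨ρ, hρ⟩ : ∃ ρ, ρ = 3 / lam W.κ * lam W.κ ^ a := ⟨_, rfl⟩
  have ρ0 : 0 < ρ := by
    rw [hρ]
    positivity
  obtain ⟨qw, q1, q2, q3, q4⟩ := hr (2 * ρ) (by linarith only [ρ0]) (by rw [hρ]; linarith only [a8])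
  have b4 : lam W.κ ^ 4 ≤ lam W.κ ^ 2 := pow_le_pow_of_le_one l0.le l1.le (by norm_num)
  have b4' : 0 < lam W.κ ^ 4 := by positivity
  have b2 : 0 < lam W.κ ^ 2 := by positivity
  have ρR : 4 * ρ ≤ W.R := by rw [hρ]; linarith only [a5]
  exact ⟨{
    D := D
    ν := ν
    K := K
    eK := eK
    ηw := ε * lam W.κ ^ 3 / (5000 * K)
    ε := ε
    θ0 := θ0
    γ0 := γ0
    ρ := ρ
    a := a
    qw := qw
    γ := fun t => c * lam W.κ ^ t
    κ0 := κ0
    κδ := κδ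
    ν0 := ν0
    ν1 := ν1
    hK := hK
    eK0 := eK0
    lawK := fun b => (lawK _ κδ b).mono hK' le_rfl le_rfl
    law0 := law0
    hρ := by rw [hρ]; ring
    ηw0 := ηw0.le
    lipw := q1
    lipq := q2
    antiw := q3
    agree := q4
    seK := by linarith only [a1]
    seV := by rw [hρ]; linarith only [a2]
    seY := by rw [hρ]; linarith only [a3]
    sηw := le_of_eq (by field_simp)
    ρε := by rw [hρ]; exact a4
    ρR := ρR
    notMk := fun s hs => notMk s (by rw [hρ] at hs; linarith only [a6, hs])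
    phase0 := fun x y m h1 h2 h3 => by
      have h := W.lipΘ x y m 0 0 0 (2 * ρ) (by simpa) (by simpa) (by simpa)
      rw [Θ0, sub_zero, hρ] at h
      linarith only [a7, h]
    phase := fun t ht x m H δ h1 h2 h3 h4 => by
      rw [hγ0]
      exact phase t ht x m H δ (by linarith only [a5, hρ, ρ0, h1]) h2 h3 h4
    γ00 := γ00
    γ4 := by
      rw [hγ0]
      exact mul_le_mul_of_nonneg_left (mul_le_of_le_one_right b4'.le (by linarith only [b4, b4'])) hc.le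
    γ2 := by
      rw [hγ0, ← mul_add]
      refine mul_le_mul_of_nonneg_left ?_ hc.le
      have h := mul_le_mul_of_nonneg_right b4 (sub_nonneg.2 l2.le)
      have h' : lam W.κ ^ 2 * (1 - lam W.κ ^ 2) = lam W.κ ^ 2 - lam W.κ ^ 4 := by ring
      linarith only [h, h']
    γ0' := by
      rw [hγ0, ← mul_add]
      refine mul_le_mul_of_nonneg_left ?_ hc.le
      rw [pow_zero]
      have h := mul_le_of_le_one_left (sub_nonneg.2 l2.le) (b4.trans l2.le)
      linarith only [h]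
    m1 := m1
    m2 := m2'
    m3 := by
      have h := mul_le_mul_of_nonneg_right ν2 F0.le
      linarith only [h, ε1]
    m4 := ε2
    m5 := m5
    m6 := by linarith only [ε3] }⟩

theorem exists_data (κ : ℝ) (hκ : 0 < κ) (q Θ : ℝ × ℝ × ℝ → ℝ) (DΘ : ℝ × ℝ × ℝ →L[ℝ] ℝ)
    (q0 : q 0 = 0) (Θ0 : Θ 0 = 0) (hq : HasStrictFDerivAt q (0 : ℝ × ℝ × ℝ →L[ℝ] ℝ) 0)
    (hΘ : HasStrictFDerivAt Θ DΘ 0) (hb : DΘ (0, 1, 0) ≠ 0)
    (anti : ∀ᶠ p in 𝓝 (0 : ℝ × ℝ × ℝ), q (p.2.1, p.1, p.2.2) = -q p) (r : ℝ) (hr : 0 < r) :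
    ∃ (W : Lw) (_ : W.Hi) (m : ℕ), W.κ = κ ∧ lam κ ^ m * W.B ≤ r ∧
      ∀ x y z, |x| ≤ W.B → |y| ≤ W.B → |z| ≤ W.B →
        (-lam κ) ^ m * W.q (x, y, z) =
            q ((-lam κ) ^ m * x, (-lam κ) ^ m * y, (-lam κ) ^ m * z) ∧
          W.Θ (x, y, z) = Θ ((-lam κ) ^ m * x, (-lam κ) ^ m * y, (-lam κ) ^ m * z) := by
  have l0 := lam_pos κ
  have l1 := lam_lt_one hκ
  have l2 : lam κ ^ 2 < 1 := pow_lt_one₀ l0.le l1 (by norm_num)
  have lb : ∀ b : ℕ, lam κ ^ b ≤ 1 := fun b => pow_le_one₀ l0.le l1.le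
  obtain ⟨D⟩ := exists_spD hκ
  have F0 := D.F0pos
  obtain ⟨Λ, e', Λ1, e0, law⟩ := D.law hκ (ν := 1 / 2) (by norm_num) le_rfl
  obtain ⟨B, hB⟩ : ∃ B, B = 3 / lam κ := ⟨_, rfl⟩
  have B1 : 1 ≤ B := by
    rw [hB, le_div_iff₀ l0]
    linarith only [l0, l1]
  have B0 : 0 ≤ B := zero_le_one.trans B1
  have Λ0 : 0 ≤ Λ := zero_le_one.trans Λ1
  have e1' : 0 ≤ e' + 1 := by linarith only [e0]
  obtain ⟨g, hg⟩ : ∃ g, g = lam κ ^ 5 * (1 - lam κ) / 4 := ⟨_, rfl⟩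
  have g0 : 0 < g := by
    rw [hg]
    exact div_pos (mul_pos (by positivity) (by linarith only [l1])) (by norm_num)
  obtain ⟨c0, hc0⟩ : ∃ c0, c0 = |DΘ (0, 1, 0)| * (lam κ ^ 4 * (1 - lam κ ^ 2)) / 8 := ⟨_, rfl⟩
  have c00 : 0 < c0 := by
    rw [hc0]
    exact div_pos (mul_pos (abs_pos.2 hb) (mul_pos (by positivity) (by linarith only [l2]))) (by norm_num)
  have N0 := norm_nonneg DΘ
  -- the radius `R`, also used as the bound of the phases
  have hexp : ∀ᶠ x in 𝓝[>] (0 : ℝ), lam κ * Real.exp (2 * (κ * x)) < 1 := by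
    have h : ContinuousAt (fun x : ℝ => lam κ * Real.exp (2 * (κ * x))) 0 := by fun_prop
    exact (h.eventually (gt_mem_nhds (by simpa using l1))).filter_mono nhdsWithin_le_nhds
  obtain ⟨R, ⟨⟨⟨⟨⟨⟨R1, R2⟩, R3⟩, R4⟩, R5⟩, R6⟩, R0⟩⟩ := (((((((Data_small 12 (d := B)
    (by linarith only [l0, l1, B1])).and (Data_small (36 / lam κ ^ 5) (d := D.F0 / 2) (by positivity))).and
    (Data_small (12 * Λ + (e' + 1)) g0)).and
    (Data_small (‖DΘ‖ * (Λ + (e' + 1))) (d := c0 / 2) (by positivity))).and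
    (Data_small κ one_pos)).and hexp).and self_mem_nhdsWithin).exists
  replace R0 : 0 < R := R0
  obtain ⟨η, ⟨⟨⟨η1, η2⟩, η3⟩, η0⟩⟩ := ((((Data_small (Λ * Λ) (d := 1 / 1024) (by norm_num)).and
    (Data_small (28800 * (Λ * B)) R0)).and
    (Data_small (4608 * Λ) (mul_pos l0 F0))).and self_mem_nhdsWithin).exists
  replace η0 : 0 < η := η0
  obtain ⟨ε, ⟨⟨ε1, ε2⟩, ε0⟩⟩ := (((Data_small B (d := c0 / 2) (by positivity)).and
    (Data_small 1 one_pos)).and self_mem_nhdsWithin).exists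
  replace ε0 : 0 < ε := ε0
  have hq' : ∀ c > 0, ∃ r > 0, ∀ p p', ‖p‖ ≤ r → ‖p'‖ ≤ r → |q p - q p'| ≤ c * ‖p - p'‖ := by
    intro c hc
    obtain ⟨r, hr, h⟩ := Data_strict hq hc
    exact ⟨r, hr, fun p p' h1 h2 => by simpa using h p p' h1 h2⟩
  obtain ⟨r1, r10, hr1⟩ := hq' η η0
  obtain ⟨r2, r20, hr2⟩ := Data_strict hΘ ε0
  obtain ⟨r3, r30, hr3⟩ : ∃ r > 0, ∀ p : ℝ × ℝ × ℝ, ‖p‖ ≤ r → q (p.2.1, p.1, p.2.2) = -q p := by
    obtain ⟨r, hr, h⟩ := Metric.eventually_nhds_iff.1 anti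
    exact ⟨r / 2, by positivity, fun p hp => h (by rw [dist_zero_right]; linarith only [hp, hr])⟩
  have hΘl : ∀ p p', ‖p‖ ≤ r2 → ‖p'‖ ≤ r2 → |Θ p - Θ p'| ≤ (‖DΘ‖ + 1) * ‖p - p'‖ := by
    intro p p' h1 h2
    have a1 := hr2 p p' h1 h2
    have a2 : |DΘ (p - p')| ≤ ‖DΘ‖ * ‖p - p'‖ := DΘ.le_opNorm _
    have a3 := abs_add_le (Θ p - Θ p' - DΘ (p - p')) (DΘ (p - p'))
    rw [sub_add_cancel] at a3
    have a4 := mul_le_of_le_one_left (norm_nonneg (p - p')) (one_mul ε ▸ ε2)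
    linarith only [a1, a2, a3, a4]
  have P := fun (C : ℝ) {d : ℝ} (hd : 0 < d) => Data_pow C hd l0.le l1
  obtain ⟨m, hm, ⟨⟨⟨⟨⟨m1, m2⟩, m3⟩, m4⟩, m5⟩, m6⟩⟩ := ((Data_par l0 hb).and_eventually
    ((((((P B r10).and (P B r20)).and (P B r30)).and (P B hr)).and
    (P ((‖DΘ‖ + 1) * B) (d := R / 2) (by positivity))).and
    (P ((e' + 1) * (‖DΘ‖ + 1) * Λ) (d := 1 / 64) (by norm_num)))).exists
  obtain ⟨μ, hμ⟩ : ∃ μ, μ = (-lam κ) ^ m := ⟨_, rfl⟩
  have hμa : |μ| = lam κ ^ m := by rw [hμ, abs_pow, abs_neg, abs_of_pos l0]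
  have μ0 : 0 < |μ| := by
    rw [hμa]
    positivity
  have μne : μ ≠ 0 := abs_pos.1 μ0
  rw [← hμa, mul_comm] at m1 m2 m3 m4 m5 m6
  rw [← hμ] at hm
  have law0 : ∀ b, Law R Λ (lam κ ^ b * (e' + 1)) (3 * lam κ ^ b / lam κ) (D.V (1 / 2) b) :=
    fun b => (law R R5 b).mono le_rfl
      (mul_le_mul_of_nonneg_left (by linarith only) (by positivity)) le_rfl
  have law1 : ∀ b, Law R Λ (e' + 1) B (D.V (1 / 2) b) := fun b => (law0 b).mono le_rfl
    (mul_le_of_le_one_left e1' (lb b)) (by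
      rw [hB]
      exact div_le_div_of_nonneg_right (by linarith only [lb b]) l0.le)
  have near : ∀ b H δ, |δ| ≤ R →
      |D.V (1 / 2) b H δ - (-lam κ) ^ b| ≤ Λ * |H| + (e' + 1) * |δ| := by
    intro b H δ hδ
    have h := (law1 b).1 H 0 δ 0 hδ (by simpa using R0.le)
    rwa [Data_V0 hκ, sub_zero, sub_zero] at h
  have lipΘ : Lip3 (|μ| * (‖DΘ‖ + 1)) fun p => Θ (Data_sc μ B p) :=
    Data_lip hΘl (by positivity) B0 m2
  have hΘ0 : Θ (Data_sc μ B (0, 0, 0)) = 0 := by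
    rw [Data_sc_eq μ (by simpa using B0) (by simpa using B0) (by simpa using B0), mul_zero]
    exact Θ0
  let W : Lw := {
    κ := κ
    q := fun p => q (Data_sc μ B p) / μ
    Θ := fun p => Θ (Data_sc μ B p)
    η := η
    l := |μ| * (‖DΘ‖ + 1)
    δ0 := R
    Λ := Λ
    e := e' + 1
    B := B
    R := R
    LV := D.V (1 / 2)
    Mk := fun b s => |s - (-lam κ) ^ b| ≤ g
    anti := Data_anti hr3 B0 m3
    lipq := Data_lip' μne hr1 η0.le B0 m1
    lipΘ := lipΘ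
    bΘ := fun p => by
      have h1 := Data_sc_norm μ (B := B) B0 p
      have h2 := hΘl (Data_sc μ B p) 0 (h1.trans m2) (by simpa using r20.le)
      rw [Θ0, sub_zero, sub_zero] at h2
      have h3 := mul_le_mul_of_nonneg_left h1 (by positivity : 0 ≤ ‖DΘ‖ + 1)
      linarith only [h2, h3, m5, R0]
    law := law1
    η0 := η0.le
    l0 := by positivity
    e0 := e1'
    Λ1 := Λ1
    B1 := B1
    R0 := R0
    RB := R1
    se := by linarith only [m6]
    sη := by linarith only [η1]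
    sR := by linarith only [η2]
    adm := fun b hb5 H δ hH hδ => by
      have hκδ : κ * |δ| ≤ 1 := (mul_le_mul_of_nonneg_left hδ hκ.le).trans R5
      refine ⟨⟨_, (D.V_eq hκ (by norm_num) le_rfl b hκδ ?_).2⟩, ?_⟩
      · have a1 : Real.exp (-(κ * δ)) ≤ 3 := by
          have b1 : -(κ * δ) ≤ 1 := by
            have := mul_le_mul_of_nonneg_left (neg_abs_le δ) hκ.le
            linarith only [this, hκδ]
          exact (Real.exp_le_exp.2 b1).trans (by linarith only [Real.exp_one_lt_d9])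
        have a2 : |H / (-lam κ) ^ b| ≤ 12 * R / lam κ ^ 5 := by
          rw [abs_div, abs_pow, abs_neg, abs_of_pos l0]
          exact div_le_div₀ (by positivity) hH (by positivity)
            (pow_le_pow_of_le_one l0.le l1.le hb5)
        have a3 : |Real.exp (-(κ * δ)) * (H / (-lam κ) ^ b)| ≤ D.F0 / 2 := by
          rw [abs_mul, abs_of_pos (Real.exp_pos _)]
          refine (mul_le_mul a1 a2 (abs_nonneg _) (by norm_num)).trans (le_trans (le_of_eq ?_) R2)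
          ring
        have a4 : D.F0 / 2 ≤ (1 - 1 / 2) * D.F0 / lam κ := by
          rw [le_div_iff₀ l0]
          have := mul_le_of_le_one_right F0.le l1.le
          linarith only [this]
        obtain ⟨a5, a6⟩ := abs_le.1 a3
        exact ⟨by linarith only [a4, a5, a6, F0], by linarith only [a4, a5, a6, F0]⟩
      · have a1 := near b H δ hδ
        have a2 := mul_le_mul_of_nonneg_left hH Λ0
        have a3 := mul_le_mul_of_nonneg_left hδ e1'
        show |D.V (1 / 2) b H δ - (-lam κ) ^ b| ≤ g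
        linarith only [a1, a2, a3, R3]
    mk_inj := fun b hb5 b' hb5' s h1 h2 => by
      have a1 := abs_sub_le ((-lam κ) ^ b) s ((-lam κ) ^ b')
      rw [abs_sub_comm _ s] at a1
      rcases lt_trichotomy b b' with h | h | h
      · have := Data_sep l0 l1 h hb5'
        linarith only [this, a1, h1, h2, hg, g0]
      · exact h
      · have := Data_sep l0 l1 h hb5
        rw [abs_sub_comm] at this
        linarith only [this, a1, h1, h2, hg, g0] }
  refine (Data_hi W D hκ R5 law0 (by show 0 < e' + 1; linarith only [e0]) ?_ ?_ hΘ0 hm ?_ R6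
    (by show 4608 * (η * Λ) ≤ lam κ * D.F0; linarith only [η3])).elim fun Hi => ?_
  rotate_right
  · refine ⟨W, Hi, m, rfl, by rw [← hμa]; exact m4, fun x y z h1 h2 h3 => ?_⟩
    rw [← hμ]
    show μ * (q (Data_sc μ B (x, y, z)) / μ) = _ ∧ Θ (Data_sc μ B (x, y, z)) = _
    rw [Data_sc_eq μ h1 h2 h3, mul_div_cancel₀ _ μne]
    exact ⟨rfl, rfl⟩
  · intro η' hη'
    obtain ⟨r4, r40, hr4⟩ := hq' η' hη'
    refine ⟨min B (r4 / |μ|), lt_min (zero_lt_one.trans_le B1) (by positivity), fun ρ h0 h1 => ?_⟩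
    have a1 : ρ ≤ B := h1.trans (min_le_left _ _)
    have a2 : |μ| * ρ ≤ r4 := by
      rw [mul_comm, ← le_div_iff₀ μ0]
      exact h1.trans (min_le_right _ _)
    have a3 : |μ| * ρ ≤ |μ| * B := mul_le_mul_of_nonneg_left a1 μ0.le
    refine ⟨fun p => q (Data_sc μ ρ p) / μ, Data_lip' μne hr4 hη'.le h0 a2,
      Data_lip' μne hr1 η0.le h0 (a3.trans m1), Data_anti hr3 h0 (a3.trans m3), ?_⟩
    intro x y z h1 h2 h3
    show q (Data_sc μ ρ (x, y, z)) / μ = q (Data_sc μ B (x, y, z)) / μ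
    rw [Data_sc_eq μ h1 h2 h3, Data_sc_eq μ (h1.trans a1) (h2.trans a1) (h3.trans a1)]
  · intro s hs
    replace hs : |s| ≤ lam κ ^ 5 / 2 := hs
    have key : ∀ b ≤ 5, ¬ |s - (-lam κ) ^ b| ≤ g := by
      intro b hb5 h
      have a1 := abs_sub_abs_le_abs_sub ((-lam κ) ^ b) s
      rw [abs_sub_comm, abs_pow, abs_neg, abs_of_pos l0] at a1
      have a2 : lam κ ^ 5 ≤ lam κ ^ b := pow_le_pow_of_le_one l0.le l1.le hb5
      have a3 : 0 < lam κ ^ 5 := by positivity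
      have a4 := mul_pos a3 l0
      linarith only [a1, a2, a3, a4, h, hs, hg]
    exact ⟨key 3 (by norm_num), key 5 le_rfl⟩
  · intro t ht x z H δ h1 h2 h3 h4
    replace h1 : |x| ≤ R := h1
    replace h2 : |z| ≤ R := h2
    replace h3 : |H| ≤ R := h3
    replace h4 : |δ| ≤ R := h4
    show |Θ (Data_sc μ B (x, D.V (1 / 2) t H δ, z)) - μ * DΘ (0, 1, 0) * lam κ ^ t| ≤
      μ * DΘ (0, 1, 0) * (lam κ ^ 4 * (1 - lam κ ^ 2)) / 8
    have hy := (law1 t).2 H δ h4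
    have hy' := near t H δ h4
    have ev : Even t := by rcases ht with rfl | rfl | rfl <;> decide
    rw [ev.neg_pow] at hy'
    generalize D.V (1 / 2) t H δ = y at hy hy'
    have b1 := Data_sc_norm μ (B := B) B0 (x, y, z)
    have b2 := hr2 _ 0 (b1.trans m2) (by simpa using r20.le)
    rw [Θ0, sub_zero, sub_zero] at b2
    have b3 : DΘ (Data_sc μ B (x, y, z)) - μ * DΘ (0, 1, 0) * lam κ ^ t =
        μ * DΘ (x, y - lam κ ^ t, z) := by
      rw [Data_sc_eq μ (by linarith only [h1, R1, R0]) hy (by linarith only [h2, R1, R0])]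
      have e1 : ((μ * x, μ * y, μ * z) : ℝ × ℝ × ℝ) =
          μ • (x, y - lam κ ^ t, z) + (μ * lam κ ^ t) • (0, 1, 0) := by
        simp only [Prod.smul_mk, smul_eq_mul, Prod.mk_add_mk]
        congr 1
        · ring
        · congr 1 <;> ring
      rw [e1, map_add, map_smul, map_smul, smul_eq_mul, smul_eq_mul]
      ring
    have c1 := mul_le_mul_of_nonneg_left h3 Λ0
    have c2 := mul_le_mul_of_nonneg_left h4 e1'
    have c3 : R ≤ (Λ + (e' + 1)) * R := le_mul_of_one_le_left R0.le (by linarith only [Λ1, e0])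
    have b4 : ‖((x, y - lam κ ^ t, z) : ℝ × ℝ × ℝ)‖ ≤ (Λ + (e' + 1)) * R :=
      Data_norm3 (h1.trans c3) (by linarith only [hy', c1, c2]) (h2.trans c3)
    have b5 : |DΘ (x, y - lam κ ^ t, z)| ≤ c0 / 2 := by
      have d1 : |DΘ (x, y - lam κ ^ t, z)| ≤ _ := DΘ.le_opNorm _
      have d2 := mul_le_mul_of_nonneg_left b4 N0
      linarith only [d1, d2, R4]
    have b6 : μ * DΘ (0, 1, 0) * (lam κ ^ 4 * (1 - lam κ ^ 2)) / 8 = |μ| * c0 := by
      rw [hc0, ← abs_of_pos hm, abs_mul]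
      ring
    have b7 := abs_sub_le (Θ (Data_sc μ B (x, y, z))) (DΘ (Data_sc μ B (x, y, z)))
      (μ * DΘ (0, 1, 0) * lam κ ^ t)
    rw [b3, abs_mul] at b7
    have b8 := mul_le_mul_of_nonneg_left b5 μ0.le
    have b9 := mul_le_mul_of_nonneg_left b1 ε0.le
    have b10 := mul_le_mul_of_nonneg_left ε1 μ0.le
    rw [b6]
    linarith only [b2, b7, b8, b9, b10]

end Pool.Agent.Work.MP_05654f_an
end

-- merged part: Pool.Agent.Work.MP_05654f_an.Fin
section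
/-!
The dichotomy for the normalised model.
-/

namespace Pool.Agent.Work.MP_05654f_an

open Filter Topology Set

namespace Lw

namespace Hi

variable {W : Lw} {G : W.Hi} {r : ℤ → ℕ} {b : ℕ} {s H s' H' : ℤ → ℝ}

variable (G) in
/-- The middle word `a, a + 1`. -/
def r4 : ℤ → ℕ := fun i => if i = 2 then G.a else G.a + 1

lemma rok4 {n : ℤ} (h2 : 2 ≤ n) (h4 : n ≤ 4) : G.Rok G.r4 n :=
  ⟨h2, h4, fun i _ _ => by unfold r4; split_ifs <;> omega⟩

lemma pok_base {k : ℤ} (hk : k = 3 ∨ k = 4) :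
    G.Pok (fun i => if i = 1 ∨ i = 4 then G.a + 2 else G.r4 i) 4 k 2 4 := by
  have P : G.Wok (fun i => if i = 1 ∨ i = 4 then G.a + 2 else G.r4 i) 4 k 2 4 :=
    ⟨by omega, by omega, by norm_num, le_rfl, fun i _ _ => by unfold r4; split_ifs <;> omega,
      by simp, by simp⟩
  refine ⟨P, fun i h1 h2 h3 => ?_, fun z s H hz h i h1 h2 _ => crude_off P hz h h1 h2 ?_⟩
  · have a1 := G.γ4
    have a2 := G.γ2
    have a3 := G.γ00
    rcases hk with rfl | rfl <;> interval_cases i <;> simp [r4, ph] at h3 ⊢ <;> linarith only [a1, a2, a3]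
  · simp only [r4]; split_ifs <;> omega

lemma base (hN : ¬W.Per) : G.X 2 (cw (G.a + 2) G.r4) (4 - 1) = G.X0 2 := by
  have R2 : G.Rok G.r4 2 := rok4 le_rfl (by norm_num)
  have R3 : G.Rok G.r4 3 := rok4 (by norm_num) (by norm_num)
  have R4 : G.Rok G.r4 4 := rok4 (by norm_num) le_rfl
  refine count hN (Xcw_bd R4 (by omega)) X0_bd 4 fun φ hφ => ?_
  have a1 := line hN (G := G) (pok_base (Or.inr rfl)) (pok_base (Or.inl rfl)) (by norm_num) hφ
  have a2 := rel (tl := 4) (tr := 2) hN R2 (b := G.a + 2) le_rfl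
    ((G.small_two _).mono (by have := G.ε0; have := lam_pos W.κ; positivity)) (by simp) (by simp)
    G.γ2 hφ
  rw [null hN R2.rev (G.small_two _) (by omega)] at a2
  rw [X_zero (sub_self 4), X_congr (c' := cw (G.a + 2) G.r4) (m := 4 - 1),
    X_congr (c' := cw (G.a + 2) G.r4) (m := 3 - 1), null hN R3 (small_three R3) le_rfl,
    X_congr (t := 4) (c' := cw (G.a + 2) G.r4) (m := 4 - 3)] at a1
  · rw [show (4 - 3 : ℤ) = 2 - 1 by norm_num] at a1
    rw [abs_le] at *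
    omega
  all_goals
    intro i h1 h2
    simp only [cw]
    split_ifs <;> first | rfl | omega

lemma in_range (G : W.Hi) {ν h : ℝ} (h1 : ν ≤ 1 / 2) (hh : |h| ≤ G.D.F0 / 2) :
    h ∈ Icc (-((1 - ν) * G.D.F0 / lam W.κ)) ((1 - ν) * G.D.F0) := by
  have a0 := lam_pos W.κ
  have a1 := G.lam1
  have F0 := G.D.F0pos
  have a2 : G.D.F0 / 2 ≤ (1 - ν) * G.D.F0 := by linarith only [h1, F0, mul_nonneg_of_nonpos_of_nonpos (Mathlib.Tactic.Linarith.sub_nonpos_of_le h1) (le_of_lt (Mathlib.Tactic.Linarith.sub_neg_of_lt F0))]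
  have a3 : (1 - ν) * G.D.F0 ≤ (1 - ν) * G.D.F0 / lam W.κ := by
    rw [le_div_iff₀ a0]; linarith only [a1, F0, a2, mul_pos_of_neg_of_neg (Mathlib.Tactic.Linarith.sub_neg_of_lt a1) (Mathlib.Tactic.Linarith.sub_neg_of_lt F0), mul_nonneg_of_nonpos_of_nonpos (le_of_lt (Mathlib.Tactic.Linarith.sub_neg_of_lt a1)) (Mathlib.Tactic.Linarith.sub_nonpos_of_le a2)]
  rw [abs_le] at hh
  constructor <;> linarith only [hh, a2, a3, hh.1, hh.2]

lemma central (G : W.Hi) {x δ : ℝ} (hδ : |δ| ≤ W.δ0)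
    (hh : |Real.exp (-(W.κ * δ)) * (x / (-lam W.κ) ^ b)| ≤ G.D.F0 / 2) :
    G.D.V G.ν b x δ = G.D.V (1 / 2) b x δ := by
  rw [(G.D.V_eq G.κ0 G.ν0 G.ν1 b (G.κδ' hδ) (G.in_range G.ν1 hh)).1,
    (G.D.V_eq G.κ0 (by norm_num) le_rfl b (G.κδ' hδ) (G.in_range le_rfl hh)).1]

lemma HW.central {m : ℤ} (h : G.HW 2 (cw b r) m s H) (hm : 1 ≤ m) (hx : LL H (G.X0 2)) :
    s 1 = G.D.V (1 / 2) b (H 1) (dl W.Θ s H 1) := by
  have l0 := lam_pos W.κ
  obtain ⟨s0, H0, h0, hx0⟩ := G.exists_hw 2 (c := fun _ => 0) le_rfl fun i a b => by omega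
  have a1 := U h.lch h0.lch (a0 := 0) (fun i hi => if_neg (by omega)) hx hx0 le_rfl
  have e1 : s0 1 = 0 := h0.s0
  have e2 : H0 1 = 0 := h0.H0
  have a2 : |s 1| ≤ 3 * lam W.κ ^ b / lam W.κ := h.sbd le_rfl hm
  rw [e1, e2, sub_zero, sub_zero, sub_self, zpow_zero, one_mul] at a1
  have a3 : 0 ≤ W.η * W.Λ := mul_nonneg W.η0 (by linarith only [W.Λ1])
  have a4 := G.scaled_le (W.dl_le s H 1) (x := H 1) (b := b) (C := 768 * (W.η * W.Λ) / lam W.κ)
    (a1.trans ((mul_le_mul_of_nonneg_left a2 (by positivity)).trans_eq (by ring)))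
  have a5 : s 1 = G.D.V G.ν b (H 1) (dl W.Θ s H 1) := h.vx 1 le_rfl hm
  rw [a5]
  refine G.central (W.dl_le s H 1) (a4.trans ?_)
  rw [← mul_div_assoc, div_le_iff₀ l0]
  linarith only [G.m5]

lemma top (hN : ¬W.Per) (hb : G.a + 2 ≤ b) (hX : G.X 2 (cw b G.r4) (4 - 1) = G.X0 2)
    (h' : G.Mid G.r4 4 s' H') (a1 : s' 1 = 0) (a2 : s' 4 = 0) (a3 : H' 4 = 0) :
    |H' 1| ≤ G.ε / 4 * lam W.κ ^ (b + 2) := by
  have l0 := lam_pos W.κ
  have R2 : G.Rok G.r4 2 := rok4 le_rfl (by norm_num)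
  have R4 : G.Rok G.r4 4 := rok4 (by norm_num) le_rfl
  obtain ⟨s, H, h, hx⟩ := G.exists_hw 2 (by norm_num) (cw_ge R4 (b := b) (by omega))
  obtain ⟨s1, H1, h1, hx1⟩ := G.exists_hw 2 (by norm_num) (cw_ge R2 (b := b) (by omega))
  rw [hX] at hx
  rw [null hN R2 (G.small_two _) hb] at hx1
  have v := h.central (by norm_num) hx
  have v1 := h1.central (by norm_num) hx1
  have u := U h.lch h1.lch (a0 := 0) (fun i hi => if_neg (by omega)) hx hx1 le_rfl
  rw [sub_self, zpow_zero, one_mul] at u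
  set d := |s 1 - s1 1| with hd
  have d0 : 0 ≤ d := abs_nonneg _
  have Λ1 := W.Λ1
  have ρ0 := G.ρ0
  have u' : |H 1 - H1 1| ≤ d := u.trans (by linarith only [d0, W.sηΛ, mul_nonneg_of_nonpos_of_nonpos (Mathlib.Tactic.Linarith.sub_nonpos_of_le d0) (Mathlib.Tactic.Linarith.sub_nonpos_of_le (sηΛ W))])
  obtain ⟨c1, c2⟩ := cmpL (μ := 2) le_rfl (by norm_num) (h.lch.dl h1.lch) (k := 1) le_rfl (E := d)
    u' (by simp [hd]) (i := 1 - 1) (by norm_num)
  have e0 : (2 : ℝ) ^ |(1 : ℤ) - 1 - 1| = 2 := by norm_num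
  rw [e0] at c1 c2
  simp only [Pi.sub_apply] at c1 c2
  have e1 : s1 (1 + 1) = 0 := h1.s0
  have e2 : H1 (1 + 1) = 0 := h1.H0
  obtain ⟨b1, b2⟩ := h.bd (by norm_num) (cw_ge R4 (by omega)) (i := 1 + 1) (by norm_num)
    (by norm_num)
  have b3 := G.crude.2
  have dΛ : d ≤ W.Λ * d := le_mul_of_one_le_left d0 Λ1
  have c3 := dl_lip W.lipΘ (s := s) (H := H) (s' := s1) (H' := H1) (i := 1)
    (m := 8 * (W.Λ * d) + 2 * G.ρ) (by linarith only [ρ0, c2]) (by linarith only [d0, ρ0, dΛ]) (by rw [e1, sub_zero]; linarith only [d0, ρ0, b1, dΛ])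
    (by linarith only [d0, ρ0, c1, dΛ]) (by linarith only [d0, ρ0, u', dΛ]) (by rw [e2, sub_zero]; linarith only [d0, ρ0, b2, b3, dΛ])
  have c4 := (G.law0 b).1 (H 1) (H1 1) _ _ (W.dl_le s H 1) (W.dl_le s1 H1 1)
  rw [← v, ← v1, ← hd] at c4
  have p0 : 0 < lam W.κ ^ b := by positivity
  have p1 : lam W.κ ^ b ≤ 1 := pow_le_one₀ l0.le G.lam1.le
  have c5 := mul_le_mul_of_nonneg_left c3 (mul_nonneg p0.le W.e0)
  have c6 := mul_le_mul_of_nonneg_left u (by linarith only [Λ1] : 0 ≤ W.Λ)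
  have c7 := mul_le_mul_of_nonneg_right W.sη d0
  have c8 := mul_le_mul_of_nonneg_right W.se (mul_nonneg p0.le d0)
  have c9 := mul_le_mul_of_nonneg_right W.sel (mul_nonneg p0.le ρ0.le)
  have c10 := mul_le_mul_of_nonneg_right p1 d0
  have c11 : d ≤ lam W.κ ^ b * G.ρ / 8 := by linarith only [c4, c5, c6, c7, c8, c9, c10]
  have f1 : |s1 1| ≤ 3 * lam W.κ ^ b / lam W.κ := h1.sbd le_rfl (by norm_num)
  have f2 := (h1.ed 1 le_rfl (by norm_num)).size G.lipw G.antiw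
  rw [e1, e2, sub_zero, zero_sub, abs_neg] at f2
  have f3 : |s 1| ≤ 3 * lam W.κ ^ b / lam W.κ := h.sbd le_rfl (by norm_num)
  obtain ⟨m1, m2, m3⟩ := h.mid
  have hE : 0 ≤ 3 * lam W.κ ^ b / lam W.κ := by positivity
  have f4 := off_ref R4 m1 h' a1 a2 (k := 4) (by norm_num) le_rfl (by simpa [m3, a3] using hE) f3
    (by simpa [m2] using hE)
  rw [m3, a3, sub_zero, zero_sub, abs_neg] at f4
  have f5 := G.ηK_mul b
  have f6 := mul_le_mul_of_nonneg_left f1 (by linarith only [G.ηw0] : 0 ≤ 2 * G.ηw)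
  have f7 := mul_le_mul_of_nonneg_right G.ηwK hE
  have f8 := mul_le_mul_of_nonneg_left G.ρε p0.le
  have f9 : 0 ≤ G.ε * lam W.κ ^ (b + 2) := by have := G.ε0; positivity
  have e3 : lam W.κ ^ b * (G.ε * lam W.κ ^ 2) = G.ε * lam W.κ ^ (b + 2) := by ring
  have e4 : 3 * lam W.κ ^ b / lam W.κ = 3 * (lam W.κ ^ b / lam W.κ) := by ring
  rw [e4] at f4 f6 f7
  rw [abs_le] at u' f4 ⊢
  have f10 := abs_le.1 (f2.trans f6)
  constructor <;> linarith only [u', c4, c5, c6, c7, c8, c9, c10, f4, f5, f7, f8, e3, f10, u'.1, u'.2, f4.1, f4.2, f10.1, f10.2]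

lemma exists_zero (hN : ¬W.Per) :
    ∃ s H, G.Mid G.r4 4 s H ∧ s 1 = 0 ∧ s 4 = 0 ∧ H 1 = 0 ∧ H 4 = 0 := by
  have l0 := lam_pos W.κ
  have ε0 := G.ε0
  have R4 : G.Rok G.r4 4 := rok4 (by norm_num) le_rfl
  obtain ⟨s, H, h, a1, a2, a3⟩ := exists_ref R4 (k := 4) (by norm_num) le_rfl
  have k1 : ∀ j : ℕ, G.X 2 (cw (G.a + 2 + 2 * j) G.r4) (4 - 1) = G.X0 2 := by
    intro j
    induction j with
    | zero => exact base hN
    | succ j ih =>
      rw [← ih]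
      exact (stepX hN R4 (by omega) ⟨s, H, h, a1, a2, top hN (by omega) ih h a1 a2 a3,
        by rw [a3, abs_zero]; positivity⟩).symm
  refine ⟨s, H, h, a1, a2, ?_, a3⟩
  by_contra hc
  obtain ⟨j, hj⟩ := exists_pow_lt (C := G.ε / 4) (abs_pos.2 hc) l0.le G.lam1
  have b1 := top hN (by omega) (k1 j) h a1 a2 a3
  have b2 := mul_le_mul_of_nonneg_left (G.pow_le (b := j) (b' := G.a + 2 + 2 * j + 2) (by omega))
    (by linarith only [ε0] : 0 ≤ G.ε / 4)
  linarith only [b1, b2, hj, hj j le_rfl]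

lemma vertex (G : W.Hi) {x δ : ℝ} (hb : b ≤ G.a + 1) (hδ : |δ| ≤ W.δ0)
    (hx : |x| ≤ G.ε * lam W.κ ^ (G.a + 2)) :
    (∃ u : ℝ, (G.D.V G.ν b x δ : ℂ) + (x : ℂ) * Complex.I = Sp W.κ δ u) ∧
      0 < (-1) ^ b * G.D.V G.ν b x δ := by
  have l0 := lam_pos W.κ
  have l1 := G.lam1
  have ε0 := G.ε0
  have F0 := G.D.F0pos
  have p0 : 0 < lam W.κ ^ b := by positivity
  have a0 : |x| ≤ G.ε * (lam W.κ ^ b * lam W.κ) :=
    hx.trans (mul_le_mul_of_nonneg_left (by rw [← pow_succ]; exact G.pow_le (by omega)) ε0.le)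
  have a1 := (G.scaled_le (b := b) hδ (C := G.ε) (hx.trans
    (mul_le_mul_of_nonneg_left (G.pow_le (by omega)) ε0.le))).trans
    (show 3 * G.ε ≤ G.D.F0 / 2 by (refine le_of_not_gt fun h_nl => ?_; linarith only [h_nl, l0, l1, ε0, G.m4, mul_pos_of_neg_of_neg (Mathlib.Tactic.Linarith.sub_neg_of_lt l0) (Mathlib.Tactic.Linarith.sub_neg_of_lt h_nl), mul_pos_of_neg_of_neg (Mathlib.Tactic.Linarith.sub_neg_of_lt l1) (Mathlib.Tactic.Linarith.sub_neg_of_lt ε0)]))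
  refine ⟨⟨_, (G.D.V_eq G.κ0 G.ν0 G.ν1 b (G.κδ' hδ) (G.in_range G.ν1 a1)).2⟩, ?_⟩
  rw [G.central hδ a1]
  have a2 := (G.law0 b).1 x 0 δ δ hδ hδ
  rw [(G.D.V_eq G.κ0 (by norm_num) le_rfl b (H := 0) (G.κδ' hδ)
    (G.in_range le_rfl (by simp; positivity))).1] at a2
  simp only [zero_div, mul_zero, G.D.U0, Zu_zero, Complex.one_re, mul_one, sub_self, abs_zero,
    add_zero, sub_zero] at a2
  have a3 : 1 / 3 ≤ Real.exp (W.κ * δ) := by
    have := (G.exp_le hδ).2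
    rw [Real.exp_neg, inv_le_comm₀ (Real.exp_pos _) (by norm_num)] at this
    rwa [one_div]
  have a4 := mul_le_mul_of_nonneg_left a0 (by linarith only [l0, l1, W.Λ1] : 0 ≤ W.Λ)
  have a5 := mul_le_mul_of_nonneg_right G.m6 (mul_pos p0 l0).le
  have a6 := mul_le_mul_of_nonneg_right a3 p0.le
  have a7 := mul_lt_mul_of_pos_left l1 p0
  rw [abs_le] at a2
  rcases Nat.even_or_odd b with e | e
  · rw [e.neg_pow] at a2
    rw [e.neg_one_pow]
    linarith only [a2, a4, a5, a6, a7, a2.1]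
  · rw [e.neg_pow] at a2
    rw [e.neg_one_pow]
    linarith only [a2, a4, a5, a6, a7, a2.2]

end Hi

end Lw

theorem Lw.fin (W : Lw) (G : W.Hi) : W.Per ∨ W.Hom := by
  by_cases hN : W.Per
  · exact Or.inl hN
  right
  obtain ⟨s, H, h, a1, a2, a3, a4⟩ := Lw.Hi.exists_zero (G := G) hN
  have ρ0 := G.ρ0
  have ρB := G.ρB
  have v2 : s 2 = G.D.V G.ν G.a (H 2) (dl W.Θ s H 2) := h.vx 2 (by norm_num) (by norm_num)
  have v3 : s 3 = G.D.V G.ν (G.a + 1) (H 3) (dl W.Θ s H 3) := h.vx 3 (by norm_num) (by norm_num)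
  have hs : ∀ i, 1 ≤ i → i ≤ 4 → |s i| ≤ G.ρ := by
    intro i h1 h2
    interval_cases i
    · rw [a1, abs_zero]; exact ρ0.le
    · rw [v2]; exact ((G.lawK _).2 _ _ (W.dl_le _ _ _)).trans (G.sz_ρ le_rfl)
    · rw [v3]; exact ((G.lawK _).2 _ _ (W.dl_le _ _ _)).trans (G.sz_ρ (by omega))
    · rw [a2, abs_zero]; exact ρ0.le
  have hH : ∀ i, 1 ≤ i → i ≤ 4 → |H i| ≤ 12 * (G.ηw * G.ρ) := fun i h1 h2 => by
    simpa [a4] using G.var_le le_rfl hs h.ed h1 h2 (j := 4) (by norm_num) le_rfl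
  have hE : ∀ i, 1 ≤ i → i < 4 → Edge W.q s H i := fun i h1 h2 => by
    have b1 := h.ed i h1 h2
    have b2 := G.crude.2
    unfold Edge at *
    rwa [G.agree _ _ _ (by linarith only [ρ0, hs, h1, h2, hs i h1 h2.le]) (by linarith only [ρ0, hs, h1, h2, hs (i + 1) (by omega) (by omega)])
      (Lw.Hi.abs_half_le (by linarith only [ρ0, b2, hH, h1, h2, hH i h1 h2.le])
        (by linarith only [ρ0, b2, hH, h1, h2, hH (i + 1) (by omega) (by omega)]))] at b1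
  obtain ⟨o2, p2⟩ := G.vertex (b := G.a) (by omega) (W.dl_le s H 2)
    ((hH 2 (by norm_num) (by norm_num)).trans G.crude.1)
  obtain ⟨o3, p3⟩ := G.vertex (b := G.a + 1) le_rfl (W.dl_le s H 3)
    ((hH 3 (by norm_num) (by norm_num)).trans G.crude.1)
  rw [← v2] at o2 p2
  rw [← v3] at o3 p3
  have e1 := hE 1 le_rfl (by norm_num)
  have e2 := hE 2 (by norm_num) (by norm_num)
  have e3 := hE 3 (by norm_num) (by norm_num)
  refine ⟨fun i => if 0 ≤ i ∧ i ≤ 3 then s (i + 1) else 0,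
    fun i => if 0 ≤ i ∧ i ≤ 3 then H (i + 1) else 0, fun i => ?_, by simpa, by simpa, by simpa,
    by simpa, by simpa [Edge] using e1, by simpa [Edge] using e2, by simpa [Edge] using e3,
    by simpa [OnSp, dl] using o2, by simpa [OnSp, dl] using o3, ?_⟩
  · have b2 := G.crude.2
    beta_reduce
    split_ifs with d
    · exact ⟨by linarith only [ρ0, ρB, hs, d, hs (i + 1) (by omega) (by omega)],
        by linarith only [ρ0, ρB, b2, hH, d, hH (i + 1) (by omega) (by omega)]⟩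
    · simp; linarith only [ρ0, ρB]
  · intro e
    have e' : s 2 = s 3 := by simpa using e
    rw [pow_succ, ← e'] at p3
    linarith only [p2, p3]

end Pool.Agent.Work.MP_05654f_an
end

-- merged part: Pool.Agent.Work.MP_05654f_an.Model
section
/-!
The discrete model: existence of a non-symmetric periodic or homoclinic chain.
-/

namespace Pool.Agent.Work.MP_05654f_an

open Filter Topology Set

theorem model_mid {B x y : ℝ} (hx : |x| ≤ B) (hy : |y| ≤ B) : |(x + y) / 2| ≤ B := by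
  rw [abs_le] at *
  constructor <;> linarith only [hx, hy, hx.1, hx.2, hy.1, hy.2]

theorem model_edge {B μ : ℝ} {q q' : ℝ × ℝ × ℝ → ℝ}
    (hq : ∀ x y z, |x| ≤ B → |y| ≤ B → |z| ≤ B → μ * q' (x, y, z) = q (μ * x, μ * y, μ * z))
    {s H : ℤ → ℝ} (hb : ∀ i, |s i| ≤ B ∧ |H i| ≤ B) {i : ℤ} (h : Edge q' s H i) :
    Edge q (fun j => μ * s j) (fun j => μ * H j) i := by
  unfold Edge at h ⊢
  have e := hq (s i) (s (i + 1)) ((H i + H (i + 1)) / 2) (hb _).1 (hb _).1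
    (model_mid (hb _).2 (hb _).2)
  rw [show (μ * H i + μ * H (i + 1)) / 2 = μ * ((H i + H (i + 1)) / 2) by ring, ← e, ← mul_sub, h]
  ring

theorem model_onSp {B κ : ℝ} {m : ℕ} {Θ Θ' : ℝ × ℝ × ℝ → ℝ}
    (hΘ : ∀ x y z, |x| ≤ B → |y| ≤ B → |z| ≤ B →
      Θ' (x, y, z) = Θ ((-lam κ) ^ m * x, (-lam κ) ^ m * y, (-lam κ) ^ m * z))
    {s H : ℤ → ℝ} (hb : ∀ i, |s i| ≤ B ∧ |H i| ≤ B) {i : ℤ} (h : OnSp κ Θ' s H i) :
    OnSp κ Θ (fun j => (-lam κ) ^ m * s j) (fun j => (-lam κ) ^ m * H j) i := by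
  obtain ⟨u, hu⟩ := h
  have e : dl Θ (fun j => (-lam κ) ^ m * s j) (fun j => (-lam κ) ^ m * H j) i = dl Θ' s H i := by
    unfold dl
    rw [hΘ _ _ _ (hb _).1 (hb _).1 (model_mid (hb _).2 (hb _).2),
      hΘ _ _ _ (hb _).1 (hb _).1 (model_mid (hb _).2 (hb _).2)]
    simp only [mul_div_assoc', mul_add]
  refine ⟨u + m * Real.pi, ?_⟩
  rw [e, Sp_eq, Zu_add, mul_left_comm, ← Sp_eq, ← hu]
  push_cast
  ring

theorem model (κ : ℝ) (hκ : 0 < κ) (q Θ : ℝ × ℝ × ℝ → ℝ) (DΘ : ℝ × ℝ × ℝ →L[ℝ] ℝ)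
    (q0 : q 0 = 0) (Θ0 : Θ 0 = 0) (hq : HasStrictFDerivAt q (0 : ℝ × ℝ × ℝ →L[ℝ] ℝ) 0)
    (hΘ : HasStrictFDerivAt Θ DΘ 0) (hb : DΘ (0, 1, 0) ≠ 0)
    (anti : ∀ᶠ p in 𝓝 (0 : ℝ × ℝ × ℝ), q (p.2.1, p.1, p.2.2) = -q p) (r : ℝ) (hr : 0 < r) :
    (∃ (p : ℕ) (s H : ℤ → ℝ), 0 < p ∧ Function.Periodic s p ∧ Function.Periodic H p ∧
      (∀ i, |s i| ≤ r ∧ |H i| ≤ r ∧ Edge q s H i ∧ OnSp κ Θ s H i) ∧
      ∀ c : ℤ, ¬∀ i, s (c - i) = s i) ∨
    ∃ s H : ℤ → ℝ, (∀ i, |s i| ≤ r ∧ |H i| ≤ r) ∧ s 0 = 0 ∧ H 0 = 0 ∧ s 3 = 0 ∧ H 3 = 0 ∧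
      Edge q s H 0 ∧ Edge q s H 1 ∧ Edge q s H 2 ∧ OnSp κ Θ s H 1 ∧ OnSp κ Θ s H 2 ∧
      s 1 ≠ s 2 := by
  obtain ⟨W, G, m, hκW, hr', hW⟩ := exists_data κ hκ q Θ DΘ q0 Θ0 hq hΘ hb anti r hr
  have hl := lam_pos κ
  have hμ : (-lam κ) ^ m ≠ 0 := pow_ne_zero _ (neg_ne_zero.2 hl.ne')
  have hab : ∀ x, |x| ≤ W.B → |(-lam κ) ^ m * x| ≤ r := by
    intro x hx
    rw [abs_mul, abs_pow, abs_neg, abs_of_pos hl]
    exact (mul_le_mul_of_nonneg_left hx (pow_nonneg hl.le _)).trans hr'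
  have hq' := fun x y z hx hy hz => (hW x y z hx hy hz).1
  have hΘ' := fun x y z hx hy hz => (hW x y z hx hy hz).2
  rcases W.fin G with ⟨p, s, H, hp, ps, pH, hall, hns⟩ | ⟨s, H, hbd, s0, H0, s3, H3, e0, e1, e2,
    o1, o2, hne⟩
  · left
    have hbd : ∀ i, |s i| ≤ W.B ∧ |H i| ≤ W.B := fun i => ⟨(hall i).1, (hall i).2.1⟩
    refine ⟨p, fun j => (-lam κ) ^ m * s j, fun j => (-lam κ) ^ m * H j, hp, ?_, ?_, ?_, ?_⟩
    · intro j
      simp only [ps j]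
    · intro j
      simp only [pH j]
    · intro i
      exact ⟨hab _ (hbd i).1, hab _ (hbd i).2, model_edge hq' hbd (hall i).2.2.1,
        model_onSp hΘ' hbd (hκW ▸ (hall i).2.2.2)⟩
    · intro c hc
      exact hns c fun i => mul_left_cancel₀ hμ (hc i)
  · right
    refine ⟨fun j => (-lam κ) ^ m * s j, fun j => (-lam κ) ^ m * H j,
      fun i => ⟨hab _ (hbd i).1, hab _ (hbd i).2⟩, by simp only [s0, mul_zero],
      by simp only [H0, mul_zero], by simp only [s3, mul_zero], by simp only [H3, mul_zero],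
      model_edge hq' hbd e0, model_edge hq' hbd e1, model_edge hq' hbd e2,
      model_onSp hΘ' hbd (hκW ▸ o1), model_onSp hΘ' hbd (hκW ▸ o2), fun h => ?_⟩
    exact hne (mul_left_cancel₀ hμ h)

end Pool.Agent.Work.MP_05654f_an
end

-- merged part: Pool.Agent.Work.MP_05654f_an.Glue
section
/-!
The theorem in normal coordinates.
-/

namespace Pool.Agent.Work.MP_05654f_an

open Filter Topology Set

namespace GlueAux

theorem Sp_ne (κ δ u : ℝ) : Sp κ δ u ≠ 0 := Complex.exp_ne_zero _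

theorem phase_eq {κ δ δ' u u' : ℝ} (hκ : 0 < κ) (h1 : |δ| ≤ 2) (h2 : |δ'| ≤ 2)
    (h : Sp κ δ u = Sp κ δ' u') : δ = δ' := by
  obtain ⟨n, hn⟩ := Complex.exp_eq_exp_iff_exists_int.1 h
  have hre := congrArg Complex.re hn
  have him := congrArg Complex.im hn
  simp at hre him
  have e : δ - δ' = n * (2 * Real.pi) := by
    apply mul_left_cancel₀ hκ.ne'
    rw [him] at hre
    linarith only [hre]
  have hn0 : n = 0 := by
    by_contra h0
    have h3 : (1 : ℝ) ≤ |(n : ℝ)| := by exact_mod_cast Int.one_le_abs h0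
    have h4 : |δ - δ'| ≤ 4 := (abs_sub _ _).trans (by linarith only [h1, h2])
    rw [e, abs_mul, abs_of_pos Real.two_pi_pos] at h4
    linarith only [h3, h4, Real.pi_gt_three, mul_nonneg_of_nonpos_of_nonpos (Mathlib.Tactic.Linarith.sub_nonpos_of_le h3) (le_of_lt (Mathlib.Tactic.Linarith.sub_neg_of_lt Real.pi_gt_three))]
  rw [hn0] at e
  simpa [sub_eq_zero] using e

/-- the section point towards the next vertex -/
noncomputable def wp (C' : ℂ) (Θ : ℝ × ℝ × ℝ → ℝ) (s H : ℤ → ℝ) (i : ℤ) : ℝ × ℂ :=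
  (Θ (s i, s (i + 1), (H i + H (i + 1)) / 2), C' * ((s i : ℂ) + (H i : ℂ) * Complex.I))

/-- the section point towards the previous vertex -/
noncomputable def wm (C' : ℂ) (Θ : ℝ × ℝ × ℝ → ℝ) (s H : ℤ → ℝ) (i : ℤ) : ℝ × ℂ :=
  (Θ (s i, s (i - 1), (H i + H (i - 1)) / 2), C' * ((s i : ℂ) + (H i : ℂ) * Complex.I))

/-- the local properties of the symmetric coordinates -/
def Good (J : ℝ × ℂ → ℝ × ℂ) (C' : ℂ) (q Θ : ℝ × ℝ × ℝ → ℝ) (ρ : ℝ) (p : ℝ × ℝ × ℝ) : Prop :=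
  q (p.2.1, p.1, p.2.2) = -q p ∧
    J (Θ p, C' * ((p.1 : ℂ) + ((p.2.2 - q p : ℝ) : ℂ) * Complex.I)) =
      (Θ (p.2.1, p.1, p.2.2), C' * ((p.2.1 : ℂ) + ((p.2.2 + q p : ℝ) : ℂ) * Complex.I)) ∧
    |Θ p| ≤ min ρ 1

variable {J : ℝ × ℂ → ℝ × ℂ} {C' : ℂ} {q Θ : ℝ × ℝ × ℝ → ℝ} {ρ r : ℝ} {s H : ℤ → ℝ}

theorem good_at (hg : ∀ p, ‖p‖ ≤ r → Good J C' q Θ ρ p) (hb : ∀ i, |s i| ≤ r ∧ |H i| ≤ r)
    (i j : ℤ) : Good J C' q Θ ρ (s i, s j, (H i + H j) / 2) := by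
  apply hg
  simp only [Prod.norm_def, Real.norm_eq_abs, max_le_iff]
  refine ⟨(hb i).1, (hb j).1, ?_⟩
  have h1 := abs_le.1 (hb i).2
  have h2 := abs_le.1 (hb j).2
  rw [abs_le]
  constructor <;> linarith only [h1, h2, h1.1, h1.2, h2.1, h2.2]

theorem J_wp (hg : ∀ p, ‖p‖ ≤ r → Good J C' q Θ ρ p) (hb : ∀ i, |s i| ≤ r ∧ |H i| ≤ r)
    {i : ℤ} (he : Edge q s H i) : J (wp C' Θ s H i) = wm C' Θ s H (i + 1) := by
  have h := (good_at hg hb i (i + 1)).2.1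
  unfold Edge at he
  have e1 : (H i + H (i + 1)) / 2 - q (s i, s (i + 1), (H i + H (i + 1)) / 2) = H i := by linarith only [he]
  have e2 : (H i + H (i + 1)) / 2 + q (s i, s (i + 1), (H i + H (i + 1)) / 2) = H (i + 1) := by
    linarith only [he]
  simp only [e1, e2] at h
  unfold wp wm
  rw [h, add_sub_cancel_right, add_comm (H (i + 1))]

theorem J_wm (hg : ∀ p, ‖p‖ ≤ r → Good J C' q Θ ρ p) (hb : ∀ i, |s i| ≤ r ∧ |H i| ≤ r)
    {i : ℤ} (he : Edge q s H i) : J (wm C' Θ s H (i + 1)) = wp C' Θ s H i := by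
  have h := (good_at hg hb (i + 1) i).2.1
  have ha := (good_at hg hb i (i + 1)).1
  unfold Edge at he
  simp only at ha
  rw [add_comm (H (i + 1))] at h
  have e1 : (H i + H (i + 1)) / 2 - q (s (i + 1), s i, (H i + H (i + 1)) / 2) = H (i + 1) := by
    linarith only [he, ha]
  have e2 : (H i + H (i + 1)) / 2 + q (s (i + 1), s i, (H i + H (i + 1)) / 2) = H i := by
    linarith only [he, ha]
  simp only [e1, e2] at h
  unfold wp wm
  rw [add_sub_cancel_right, add_comm (H (i + 1)), h]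

theorem norm_pt (hC : ‖C'‖ * (2 * r) ≤ ρ) (hb : ∀ i, |s i| ≤ r ∧ |H i| ≤ r) (i : ℤ) :
    ‖C' * ((s i : ℂ) + (H i : ℂ) * Complex.I)‖ ≤ ρ := by
  rw [norm_mul]
  refine le_trans (mul_le_mul_of_nonneg_left ?_ (norm_nonneg _)) hC
  refine (norm_add_le _ _).trans ?_
  simp only [norm_mul, Complex.norm_real, Complex.norm_I, mul_one, Real.norm_eq_abs]
  linarith only [hb, (hb i).1, (hb i).2]

theorem norm_wp (hg : ∀ p, ‖p‖ ≤ r → Good J C' q Θ ρ p) (hC : ‖C'‖ * (2 * r) ≤ ρ)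
    (hb : ∀ i, |s i| ≤ r ∧ |H i| ≤ r) (i : ℤ) : ‖wp C' Θ s H i‖ ≤ ρ := by
  rw [Prod.norm_def, max_le_iff]
  exact ⟨(good_at hg hb i (i + 1)).2.2.trans (min_le_left _ _), norm_pt hC hb i⟩

theorem norm_wm (hg : ∀ p, ‖p‖ ≤ r → Good J C' q Θ ρ p) (hC : ‖C'‖ * (2 * r) ≤ ρ)
    (hb : ∀ i, |s i| ≤ r ∧ |H i| ≤ r) (i : ℤ) : ‖wm C' Θ s H i‖ ≤ ρ := by
  rw [Prod.norm_def, max_le_iff]
  exact ⟨(good_at hg hb i (i - 1)).2.2.trans (min_le_left _ _), norm_pt hC hb i⟩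

theorem dl_le (hg : ∀ p, ‖p‖ ≤ r → Good J C' q Θ ρ p) (hb : ∀ i, |s i| ≤ r ∧ |H i| ≤ r)
    (i : ℤ) : |dl Θ s H i| ≤ 2 := by
  have h1 := (good_at hg hb i (i + 1)).2.2.trans (min_le_right _ _)
  have h2 := (good_at hg hb i (i - 1)).2.2.trans (min_le_right _ _)
  exact (abs_add_le _ _).trans (by linarith only [h1, h2])

theorem spiral {κ : ℝ} {C : ℂ} (hsp : ∀ δ u, ∃ u', C' * Sp κ δ u = C * Sp κ δ u') {i : ℤ}
    (h : OnSp κ Θ s H i) : ∃ u, (wp C' Θ s H i).2 =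
      C * Sp κ ((wm C' Θ s H i).1 + (wp C' Θ s H i).1) u := by
  obtain ⟨u, hu⟩ := h
  obtain ⟨u', hu'⟩ := hsp (dl Θ s H i) u
  exact ⟨u', (congrArg (C' * ·) hu).trans hu'⟩

theorem s_eq (hC' : C' ≠ 0) {a b : ℤ} (h : C' * ((s a : ℂ) + (H a : ℂ) * Complex.I) =
    C' * ((s b : ℂ) + (H b : ℂ) * Complex.I)) : s a = s b := by
  simpa using congrArg Complex.re (mul_left_cancel₀ hC' h)

theorem step {κ : ℝ} (hκ : 0 < κ) (hC' : C' ≠ 0) (hg : ∀ p, ‖p‖ ≤ r → Good J C' q Θ ρ p)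
    (hb : ∀ i, |s i| ≤ r ∧ |H i| ≤ r) (he : ∀ i, Edge q s H i) (ho : ∀ i, OnSp κ Θ s H i)
    {a b : ℤ} (h : wp C' Θ s H a = wm C' Θ s H b) :
    wp C' Θ s H (a + 1) = wm C' Θ s H (b - 1) := by
  have h1 : wm C' Θ s H (a + 1) = wp C' Θ s H (b - 1) := by
    rw [← J_wp hg hb (he a), ← J_wm hg hb (he (b - 1)), sub_add_cancel, h]
  have h2 := congrArg Prod.snd h1
  have h3 := congrArg Prod.fst h1
  obtain ⟨u, hu⟩ := ho (a + 1)
  obtain ⟨u', hu'⟩ := ho (b - 1)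
  have h4 := mul_left_cancel₀ hC' h2
  rw [hu, hu'] at h4
  have h5 : (wm C' Θ s H (a + 1)).1 + (wp C' Θ s H (a + 1)).1 =
      (wm C' Θ s H (b - 1)).1 + (wp C' Θ s H (b - 1)).1 :=
    phase_eq hκ (dl_le hg hb _) (dl_le hg hb _) h4
  exact Prod.ext (by linarith only [h3, h5]) h2

end GlueAux

open GlueAux in
theorem mainE {F : E → E} {l : ℂ} {γ : ℝ → E} {U : Set E} (H : Hyp F l γ U) :
    ∃ x, range x ⊆ U ∧ sw '' range x ≠ range x ∧ (IsPeriodicOrbit F x ∨ IsHomoclinic F 0 x) := by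
  obtain ⟨D⟩ := exists_geoData H
  obtain ⟨DJ, J0, hJ, hinv, hfix, hnd⟩ := D.Jm_linear H
  have hκ : 0 < GeoData.kap l := div_pos H.re (neg_pos.2 H.im)
  obtain ⟨C', q, Θ, DΘ, hC', hsp, q0, Θ0, hq, hΘ, hb0, anti, hid⟩ :=
    chart _ hκ D.Jm DJ (D.y ^ 2) (pow_ne_zero 2 D.y0) J0 hJ hinv hfix hnd
  obtain ⟨ρ, hρ, hper, hhom⟩ := D.realise H
  have hsm : ∀ᶠ p in 𝓝 (0 : ℝ × ℝ × ℝ), |Θ p| ≤ min ρ 1 := by
    have h1 : Tendsto (fun p => |Θ p|) (𝓝 0) (𝓝 0) := by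
      have := hΘ.continuousAt.abs.tendsto
      simpa [Θ0] using this
    exact h1.eventually (ge_mem_nhds (lt_min hρ one_pos))
  have hgood : ∀ᶠ p in 𝓝 (0 : ℝ × ℝ × ℝ), Good D.Jm C' q Θ ρ p := by
    filter_upwards [anti, hid, hsm] with p h1 h2 h3 using ⟨h1, h2, h3⟩
  obtain ⟨r₀, hr₀, hball⟩ := Metric.nhds_basis_closedBall.eventually_iff.1 hgood
  have hCpos : 0 < ‖C'‖ := norm_pos_iff.2 hC'
  set r := min r₀ (ρ / (2 * ‖C'‖)) with hrdef
  have hr : 0 < r := lt_min hr₀ (by positivity)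
  have hg : ∀ p, ‖p‖ ≤ r → Good D.Jm C' q Θ ρ p := fun p hp =>
    hball (mem_closedBall_zero_iff.2 (hp.trans (min_le_left _ _)))
  have hC : ‖C'‖ * (2 * r) ≤ ρ := by
    have h1 : r ≤ ρ / (2 * ‖C'‖) := min_le_right _ _
    rw [le_div_iff₀ (by positivity)] at h1
    linarith only [h1]
  rcases model _ hκ q Θ DΘ q0 Θ0 hq hΘ hb0 anti r hr with
    ⟨p, s, G, hp, ps, pG, hall, hns⟩ | ⟨s, G, hb, s0, G0, s3, G3, e0, e1, e2, o1, o2, hne⟩
  · have hb : ∀ i, |s i| ≤ r ∧ |G i| ≤ r := fun i => ⟨(hall i).1, (hall i).2.1⟩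
    have he : ∀ i, Edge q s G i := fun i => (hall i).2.2.1
    have ho : ∀ i, OnSp (GeoData.kap l) Θ s G i := fun i => (hall i).2.2.2
    have pm : Function.Periodic (wm C' Θ s G) p := fun i => by
      unfold wm
      rw [show i + p - 1 = i - 1 + p by ring, ps, ps, pG, pG]
    have pp : Function.Periodic (wp C' Θ s G) p := fun i => by
      unfold wp
      rw [show i + p + 1 = i + 1 + p by ring, ps, ps, pG, pG]
    obtain ⟨x, hx, hU, hs⟩ := hper p (wm C' Θ s G) (wp C' Θ s G) hp pm pp fun i =>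
      ⟨norm_wm hg hC hb i, norm_wp hg hC hb i, J_wp hg hb (he i), rfl, spiral hsp (ho i)⟩
    refine ⟨x, hU, fun hsym => ?_, Or.inl hx⟩
    obtain ⟨j, hj⟩ := hs hsym 0
    have hn : ∀ n : ℕ, wp C' Θ s G (j + n) = wm C' Θ s G (-n) := by
      intro n
      induction n with
      | zero => simpa using hj
      | succ n ih =>
        have := step hκ hC' hg hb he ho ih
        rw [show j + ((n + 1 : ℕ) : ℤ) = j + n + 1 by push_cast; ring,
          show -((n + 1 : ℕ) : ℤ) = -n - 1 by push_cast; ring]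
        exact this
    refine hns j fun i => ?_
    have hp' : (1 : ℤ) ≤ p := by exact_mod_cast hp
    have h0 : 0 ≤ |i| * p - i := by nlinarith only [hp, le_abs_self i, abs_nonneg i]
    obtain ⟨n, hn'⟩ := Int.eq_ofNat_of_zero_le h0
    have h1 : s (j + n) = s (-n) := s_eq hC' (congrArg Prod.snd (hn n))
    have pk : Function.Periodic s (|i| * p) := ps.int_mul |i|
    rw [← hn', show j + (|i| * p - i) = j - i + |i| * p by ring,
      show -(|i| * p - i) = i - |i| * p by ring, pk, pk.sub_eq] at h1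
    exact h1
  · have he : ∀ i : ℕ, i ≤ 2 → Edge q s G i := by
      intro i hi
      interval_cases i
      exacts [e0, e1, e2]
    have nz : ∀ i, OnSp (GeoData.kap l) Θ s G i →
        C' * ((s i : ℂ) + (G i : ℂ) * Complex.I) ≠ 0 := by
      rintro i ⟨u, hu⟩
      rw [hu]
      exact mul_ne_zero hC' (Sp_ne _ _ _)
    have z0 : (wp C' Θ s G 0).2 = 0 := by simp [wp, s0, G0]
    obtain ⟨x, hx, hU, hs⟩ := hhom 2 (fun i => wm C' Θ s G i) (fun i => wp C' Θ s G i)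
      (fun i hi => ⟨norm_wp hg hC hb _, norm_wm hg hC hb _, by
        rw [J_wp hg hb (he i hi)]; push_cast; rfl⟩) z0 (by simp [wm, s3, G3])
      (fun i h1 h2 => ⟨rfl, spiral hsp (by
        interval_cases i
        exacts [o1, o2])⟩)
    refine ⟨x, hU, fun hsym => ?_, Or.inr hx⟩
    obtain ⟨j, hj, hj'⟩ := hs hsym 1 le_rfl (by norm_num)
    interval_cases j
    · exact nz 1 o1 ((congrArg Prod.snd hj').symm.trans z0)
    · have h1 : wp C' Θ s G 1 = wm C' Θ s G (0 + 1) := hj'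
      have h2 := congrArg D.Jm h1
      rw [J_wp hg hb e1, J_wm hg hb e0] at h2
      exact nz 2 o2 ((congrArg Prod.snd h2).trans z0)
    · exact hne (s_eq hC' (congrArg Prod.snd hj')).symm

end Pool.Agent.Work.MP_05654f_an
end
end

-- merged part: Pool.Agent.Work.MP_05654f_an.Normal
section
/-!
Reduction to normal coordinates.
-/

namespace Pool.Agent.Work.MP_05654f_an

open Filter Topology Set Polynomial

section Uniq

variable {V : Type} [NormedAddCommGroup V] [NormedSpace ℝ V]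

theorem normal_unique {f : V → V} (hf : ContDiff ℝ 2 f) {x y : ℝ → V} (hx : IsSol f x)
    (hy : IsSol f y) (h0 : x 0 = y 0) (t : ℝ) : x t = y t := by
  have cx : Continuous x := continuous_iff_continuousAt.2 fun s => (hx s).continuousAt
  have cy : Continuous y := continuous_iff_continuousAt.2 fun s => (hy s).continuousAt
  have hc : IsCompact (x '' Icc (-(|t| + 1)) (|t| + 1) ∪ y '' Icc (-(|t| + 1)) (|t| + 1)) :=
    (isCompact_Icc.image cx).union (isCompact_Icc.image cy)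
  obtain ⟨K, hK⟩ := ((hf.of_le (by norm_num) : ContDiff ℝ 1 f).locallyLipschitz.locallyLipschitzOn
    ).exists_lipschitzOnWith_of_compact hc
  have h1 := abs_nonneg t
  refine ODE_solution_unique_of_mem_Ioo (v := fun _ => f) (a := -(|t| + 1)) (b := |t| + 1)
    (t₀ := 0) (fun _ _ => hK) ⟨by linarith only [h1], by linarith⟩
    (fun s hs => ⟨hx s, Or.inl ⟨s, Ioo_subset_Icc_self hs, rfl⟩⟩)
    (fun s hs => ⟨hy s, Or.inr ⟨s, Ioo_subset_Icc_self hs, rfl⟩⟩) h0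
    ⟨by linarith only [neg_abs_le t], by linarith [le_abs_self t]⟩

theorem normal_shift {f : V → V} {x : ℝ → V} (hx : IsSol f x) (τ : ℝ) :
    IsSol f fun t => x (t + τ) := fun t => (hx (t + τ)).comp_add_const t τ

theorem normal_hom_shift {f : V → V} {O : V} {x : ℝ → V} (hx : IsHomoclinic f O x) (τ : ℝ) :
    IsHomoclinic f O fun t => x (t + τ) := by
  obtain ⟨h1, ⟨t, h2⟩, h3, h4⟩ := hx
  exact ⟨normal_shift h1 τ, ⟨t - τ, by simpa using h2⟩,
    h3.comp (tendsto_atTop_add_const_right _ τ tendsto_id),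
    h4.comp (tendsto_atBot_add_const_right _ τ tendsto_id)⟩

theorem normal_sym {f : V → V} (hf : ContDiff ℝ 2 f) (R : V →L[ℝ] V)
    (hrev : ∀ z, f (R z) = -R (f z)) {O : V} {γ : ℝ → V} (hγ : IsHomoclinic f O γ)
    (hsym : R '' range γ = range γ) : R O = O ∧ ∃ τ, ∀ t, R (γ (t + τ)) = γ (-t + τ) := by
  obtain ⟨t0, h0⟩ : R (γ 0) ∈ range γ := hsym ▸ ⟨_, ⟨0, rfl⟩, rfl⟩
  have h1 : IsSol f fun t => R (γ (-t)) := fun t => by
    have h2 := R.hasFDerivAt.comp_hasDerivAt t ((hγ.1 (-t)).scomp t (hasDerivAt_neg t))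
    rw [hrev]
    simpa [Function.comp_def] using h2
  have h2 := normal_unique hf h1 (normal_shift hγ.1 t0) (by simpa using h0.symm)
  refine ⟨?_, t0 / 2, fun t => ?_⟩
  · have h3 : Tendsto (fun t => R (γ (-t))) atTop (𝓝 (R O)) :=
      (R.continuous.tendsto O).comp (hγ.2.2.2.comp tendsto_neg_atTop_atBot)
    rw [funext h2] at h3
    exact tendsto_nhds_unique h3 (normal_hom_shift hγ t0).2.2.1
  · have h3 := h2 (-(t + t0 / 2))
    simp only [neg_neg] at h3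
    rw [h3]
    congr 1
    ring

end Uniq

section Transport

variable {V W : Type} [NormedAddCommGroup V] [NormedSpace ℝ V] [NormedAddCommGroup W]
  [NormedSpace ℝ W] {f : V → V} {F : W → W} (L : W →L[ℝ] V) (c : V)

theorem normal_der {x : ℝ → W} {v : W} {t : ℝ} (h : HasDerivAt x v t) :
    HasDerivAt (fun s => c + L (x s)) (L v) t :=
  (L.hasFDerivAt.comp_hasDerivAt t h).const_add c

theorem normal_lim {x : ℝ → W} {p : W} {l : Filter ℝ} (h : Tendsto x l (𝓝 p)) :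
    Tendsto (fun s => c + L (x s)) l (𝓝 (c + L p)) :=
  ((L.continuous.tendsto p).comp h).const_add c

theorem normal_tan {S : Set W} {S' : Set V} (h : ∀ z ∈ S, c + L z ∈ S') {p v : W}
    (ht : TangentTo S p v) : TangentTo S' (c + L p) (L v) := by
  obtain ⟨x, h1, h2, h3, h4⟩ := ht
  exact ⟨fun s => c + L (x s), continuous_const.add (L.continuous.comp h1), by simp only [h2],
    normal_der L c h3, h4.mono fun s hs => h _ hs⟩

variable (hc : ∀ z, f (c + L z) = L (F z))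
include hc

theorem normal_sol {x : ℝ → W} (h : IsSol F x) : IsSol f fun s => c + L (x s) := fun t => by
  rw [hc]
  exact normal_der L c (h t)

theorem normal_Ws {p z v : W} (h : TanWs F p z v) : TanWs f (c + L p) (c + L z) (L v) := by
  intro N hN
  obtain ⟨T, hT, ht⟩ := h ((fun z => c + L z) ⁻¹' N)
    ((continuous_const.add L.continuous).continuousAt.preimage_mem_nhds hN)
  refine ⟨T, hT, normal_tan L c ?_ ht⟩
  rintro z ⟨x, h1, h2, h3, h4⟩
  refine ⟨fun s => c + L (x s), by simp only [h1], fun t ht => ?_, normal_lim L c h3, h4⟩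
  rw [hc]
  exact normal_der L c (h2 t ht)

theorem normal_Wu {p z v : W} (h : TanWu F p z v) : TanWu f (c + L p) (c + L z) (L v) := by
  intro N hN
  obtain ⟨T, hT, ht⟩ := h ((fun z => c + L z) ⁻¹' N)
    ((continuous_const.add L.continuous).continuousAt.preimage_mem_nhds hN)
  refine ⟨T, hT, normal_tan L c ?_ ht⟩
  rintro z ⟨x, h1, h2, h3, h4⟩
  refine ⟨fun s => c + L (x s), by simp only [h1], fun t ht => ?_, normal_lim L c h3, h4⟩
  rw [hc]
  exact normal_der L c (h2 t ht)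

theorem normal_hom (hL : Function.Injective L) {p : W} {x : ℝ → W} (h : IsHomoclinic F p x) :
    IsHomoclinic f (c + L p) fun s => c + L (x s) := by
  obtain ⟨h1, ⟨t, h2⟩, h3, h4⟩ := h
  refine ⟨normal_sol L c hc h1, ⟨t, fun e => h2 (hL ?_)⟩, normal_lim L c h3, normal_lim L c h4⟩
  rw [← hc, map_zero]
  exact e

theorem normal_per (hL : Function.Injective L) {x : ℝ → W} (h : IsPeriodicOrbit F x) :
    IsPeriodicOrbit f fun s => c + L (x s) := by
  obtain ⟨h1, ⟨t, h2⟩, T, h3, h4⟩ := h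
  exact ⟨normal_sol L c hc h1, ⟨t, fun e => h2 (hL (add_left_cancel e))⟩, T, h3,
    fun s => by simp only [h4 s]⟩

end Transport

section Lin

variable {V : Type} [AddCommGroup V] [Module ℝ V]

theorem normal_vec [FiniteDimensional ℝ V] (hV : Module.finrank ℝ V = 4) (A R : V →ₗ[ℝ] V)
    (hR : ∀ z, R (R z) = z) (hAR : ∀ z, A (R z) = -R (A z)) {α₁ α₂ ω₁ ω₂ : ℝ} (h₂ : 0 < α₂)
    (hchar : A.charpoly = ((X - C α₁) ^ 2 + C (ω₁ ^ 2)) * ((X - C α₂) ^ 2 + C (ω₂ ^ 2))) :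
    ∃ v, v ≠ 0 ∧ A (A v) = (2 * α₁) • A v - (α₁ ^ 2 + ω₁ ^ 2) • v := by
  have hq : ∀ (a w : ℝ) (u : V), aeval A ((X - C a) ^ 2 + C w) u =
      A (A u) - (2 * a) • A u + (a ^ 2 + w) • u := fun a w u => by
    simp only [map_add, map_sub, sq, map_mul, aeval_X, aeval_C, LinearMap.add_apply,
      Module.End.mul_apply, LinearMap.sub_apply, Module.algebraMap_end_apply, map_smul]
    module
  have h0 := A.aeval_self_charpoly
  rw [hchar, map_mul] at h0
  by_contra hne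
  have h1 : ∀ u, A (A u) - (2 * α₂) • A u + (α₂ ^ 2 + ω₂ ^ 2) • u = 0 := fun u => by
    by_contra h
    refine hne ⟨_, h, ?_⟩
    have h2 := LinearMap.congr_fun h0 u
    rw [Module.End.mul_apply, hq, hq, LinearMap.zero_apply] at h2
    linear_combination (norm := module) h2
  have h2 : ∀ u, A u = 0 := fun u => by
    have h3 := congrArg R (h1 (R u))
    simp only [hAR, map_neg, map_add, map_sub, map_smul, hR, neg_neg, map_zero] at h3
    have h4 : (4 * α₂) • A u = 0 := by linear_combination (norm := module) h3 - h1 u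
    exact (smul_eq_zero.1 h4).resolve_left (by positivity)
  have : Nontrivial V := Module.nontrivial_of_finrank_pos (R := ℝ) (by omega)
  obtain ⟨u, hu⟩ := exists_ne (0 : V)
  have h3 := h1 u
  simp only [h2, smul_zero, sub_zero, zero_add] at h3
  exact hu ((smul_eq_zero.1 h3).resolve_left (by positivity))

theorem normal_lin [FiniteDimensional ℝ V] (hV : Module.finrank ℝ V = 4) (A R : V →ₗ[ℝ] V)
    (hR : ∀ z, R (R z) = z) (hAR : ∀ z, A (R z) = -R (A z)) {α w : ℝ} (hα : α < 0) (hw : 0 < w)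
    {v : V} (hv : v ≠ 0) (h : A (A v) = (2 * α) • A v - (α ^ 2 + w ^ 2) • v) :
    ∃ Ψ : E ≃ₗ[ℝ] V, (∀ z, A (Ψ z) = Ψ (Alin ⟨-α, -w⟩ z)) ∧ ∀ z, R (Ψ z) = Ψ (sw z) := by
  obtain ⟨u, hu⟩ : ∃ u, A v = α • v + w • u :=
    ⟨w⁻¹ • (A v - α • v), by rw [smul_inv_smul₀ hw.ne']; abel⟩
  have hu' : A u = α • u - w • v := by
    have h1 := congrArg A hu
    rw [map_add, map_smul, map_smul, h, hu] at h1
    have h2 : w • (A u - (α • u - w • v)) = 0 := by linear_combination (norm := module) -h1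
    exact sub_eq_zero.1 ((smul_eq_zero.1 h2).resolve_left hw.ne')
  let φ : ℂ →ₗ[ℝ] V := Complex.reLm.smulRight v + Complex.imLm.smulRight u
  have hφ : ∀ x, φ x = x.re • v + x.im • u := fun x => rfl
  let μ : ℂ := ⟨α, w⟩
  have hA : ∀ x, A (φ x) = φ (μ * x) := fun x => by
    simp only [hφ, map_add, map_smul, hu, hu', Complex.mul_re, Complex.mul_im, μ]
    module
  have hμ : μ ≠ 0 := fun e => hw.ne' (congrArg Complex.im e)
  have hinj : ∀ x, φ x = 0 → x = 0 := fun x hx => by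
    have h1 := hA x
    rw [hx, map_zero, hφ] at h1
    rw [hφ] at hx
    simp only [Complex.mul_re, Complex.mul_im, μ] at h1
    have h2 : (w * (x.re ^ 2 + x.im ^ 2)) • v = 0 := by
      linear_combination (norm := module) (w * x.re + α * x.im) • hx + x.im • h1
    have h3 := ((mul_eq_zero.1 ((smul_eq_zero.1 h2).resolve_right hv)).resolve_left hw.ne')
    exact Complex.ext (by simp only [Complex.zero_re]; nlinarith)
      (by simp only [Complex.zero_im]; nlinarith)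
  let Ψ : E →ₗ[ℝ] V := φ.coprod (R ∘ₗ φ)
  have hΨ : ∀ z : E, Ψ z = φ z.1 + R (φ z.2) := fun z => rfl
  have hT : ∀ x y, A (Ψ (x, y)) = Ψ (μ * x, -(μ * y)) := fun x y => by
    simp only [hΨ, map_add, hAR, hA, map_neg]
  have hq : ∀ x, φ (μ * (μ * x)) = (2 * α) • φ (μ * x) - (α ^ 2 + w ^ 2) • φ x := fun x => by
    simp only [hφ, Complex.mul_re, Complex.mul_im, μ]
    module
  have hi : Function.Injective Ψ := (injective_iff_map_eq_zero Ψ).2 fun z hz => by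
    obtain ⟨x, y⟩ := z
    have h1 := hT x y
    rw [hz, map_zero] at h1
    have h2 := hT (μ * x) (-(μ * y))
    rw [← h1, map_zero] at h2
    simp only [hΨ, mul_neg, neg_neg, hq, map_neg, map_sub, map_smul] at h1 h2 hz
    have h3 : (4 * α) • φ (μ * x) = 0 := by
      linear_combination (norm := module) (α ^ 2 + w ^ 2) • hz - h2 - (2 * α) • h1
    have h4 := (smul_eq_zero.1 h3).resolve_left (by linarith only [hα])
    rw [h4, zero_add, eq_comm, neg_eq_zero] at h1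
    have h5 := congrArg R h1
    rw [hR, map_zero] at h5
    rw [(mul_eq_zero.1 (hinj _ h4)).resolve_left hμ, (mul_eq_zero.1 (hinj _ h5)).resolve_left hμ]
    rfl
  refine ⟨Ψ.linearEquivOfInjective hi (by simp [hV]), fun z => ?_, fun z => ?_⟩
  · have e : (⟨-α, -w⟩ : ℂ) = -μ := rfl
    simp only [LinearMap.linearEquivOfInjective_apply, Alin_apply, e, neg_neg, neg_mul]
    exact hT z.1 z.2
  · simp only [LinearMap.linearEquivOfInjective_apply, hΨ, sw, map_add, hR, add_comm]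

end Lin

theorem main (f : EuclideanSpace ℝ (Fin 4) → EuclideanSpace ℝ (Fin 4)) (hf : ContDiff ℝ 2 f)
    (R : EuclideanSpace ℝ (Fin 4) →ₗ[ℝ] EuclideanSpace ℝ (Fin 4)) (hR : ∀ z, R (R z) = z)
    (hrev : ∀ z, f (R z) = -R (f z)) (O : EuclideanSpace ℝ (Fin 4)) (hO : f O = 0)
    (α₁ α₂ ω₁ ω₂ : ℝ) (h₁ : α₁ < 0) (h₂ : 0 < α₂) (hω : ω₁ * ω₂ ≠ 0)
    (hchar : (fderiv ℝ f O).toLinearMap.charpoly =
      ((X - C α₁) ^ 2 + C (ω₁ ^ 2)) * ((X - C α₂) ^ 2 + C (ω₂ ^ 2)))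
    (γ : ℝ → EuclideanSpace ℝ (Fin 4)) (hγ : IsHomoclinic f O γ)
    (hsym : R '' range γ = range γ) (hnd : Nondegenerate f O γ)
    (U : Set (EuclideanSpace ℝ (Fin 4))) (hU : U ∈ 𝓝ˢ (insert O (range γ))) :
    ∃ x, range x ⊆ U ∧ R '' range x ≠ range x ∧ (IsPeriodicOrbit f x ∨ IsHomoclinic f O x) := by
  let Rc := LinearMap.toContinuousLinearMap R
  obtain ⟨hRO, τ, hτ⟩ := normal_sym hf Rc hrev hγ hsym
  have hd : HasFDerivAt f (fderiv ℝ f O) O := (hf.differentiable (by norm_num) O).hasFDerivAt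
  have hAR : ∀ z, fderiv ℝ f O (R z) = -R (fderiv ℝ f O z) := fun z => by
    have h1 := (hRO.symm ▸ hd : HasFDerivAt f (fderiv ℝ f O) (Rc O)).comp O Rc.hasFDerivAt
    have h2 := (Rc.hasFDerivAt.comp O hd).neg
    rw [show f ∘ Rc = -(Rc ∘ f) from funext hrev] at h1
    exact DFunLike.congr_fun (h1.unique h2) z
  have hV : Module.finrank ℝ (EuclideanSpace ℝ (Fin 4)) = 4 := by simp
  obtain ⟨v, hv, hv'⟩ := normal_vec hV _ R hR hAR h₂ hchar
  have hw : 0 < |ω₁| := abs_pos.2 (left_ne_zero_of_mul hω)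
  obtain ⟨Ψ0, hΨA, hΨR⟩ := normal_lin hV _ R hR hAR h₁ hw hv (by rwa [sq_abs])
  let Ψ := Ψ0.toContinuousLinearEquiv
  have hA : ∀ z, fderiv ℝ f O (Ψ z) = Ψ (Alin ⟨-α₁, -|ω₁|⟩ z) := hΨA
  have hS : ∀ z, R (Ψ z) = Ψ (sw z) := hΨR
  have hRO' : R O = O := hRO
  have hτ' : ∀ t, R (γ (t + τ)) = γ (-t + τ) := hτ
  let L : E →L[ℝ] EuclideanSpace ℝ (Fin 4) := Ψ
  have hL : ∀ z, L z = Ψ z := fun z => rfl
  let F : E → E := fun z => Ψ.symm (f (O + L z))
  have hc : ∀ z, f (O + L z) = L (F z) := fun z => (Ψ.apply_symm_apply _).symm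
  have hsw : ∀ z, O + L (sw z) = R (O + L z) := fun z => by rw [map_add, hRO', hL, hL, hS]
  let γ' : ℝ → E := fun t => -Ψ.symm O + Ψ.symm (γ (t + τ))
  have hγ' : ∀ t, O + L (γ' t) = γ (t + τ) := fun t => by simp [hL, γ']
  have hinj : Function.Injective fun z => O + L z := fun a b e => Ψ.injective (add_left_cancel e)
  have H : Hyp F ⟨-α₁, -|ω₁|⟩ γ' ((fun z => O + L z) ⁻¹' U) :=
    { c2 := Ψ.symm.contDiff.comp (hf.comp (contDiff_const.add L.contDiff))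
      re := neg_pos.2 h₁
      im := neg_lt_zero.2 hw
      F0 := by simp [F, hO]
      der := by
        have h1 : HasFDerivAt f (fderiv ℝ f O) (O + L 0) := by simpa using hd
        have h2 := Ψ.symm.hasFDerivAt.comp 0 (h1.comp 0 (L.hasFDerivAt.const_add O))
        refine h2.congr_fderiv (ContinuousLinearMap.ext fun z => Ψ.injective ?_)
        rw [← hA]
        simp [hL]
      rev := fun z => Ψ.injective (by rw [map_neg, ← hS, ← hL, ← hL, ← hc, ← hc, hsw, hrev])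
      hom := by
        have h1 := normal_hom (F := f) (f := F) (Ψ.symm : EuclideanSpace ℝ (Fin 4) →L[ℝ] E)
          (-Ψ.symm O) (fun z => by simp [F, hL]) Ψ.symm.injective (normal_hom_shift hγ τ)
        simpa using h1
      sym := fun t => hinj (by
        show O + L (sw (γ' t)) = O + L (γ' (-t))
        rw [hsw, hγ', hγ', hτ'])
      nd := fun t v h1 h2 => by
        have h3 := normal_Ws L O hc h1
        have h4 := normal_Wu L O hc h2
        rw [map_zero, add_zero, hγ'] at h3 h4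
        obtain ⟨c, h5⟩ := hnd _ _ h3 h4
        refine ⟨c, Ψ.injective ?_⟩
        rw [map_smul, ← hL, ← hL, ← hc, hγ', h5]
      nhd := by
        refine (continuous_const.add L.continuous).tendsto_nhdsSet ?_ hU
        rintro z (rfl | ⟨t, rfl⟩)
        · exact Or.inl (by simp)
        · exact Or.inr ⟨t + τ, (hγ' t).symm⟩ }
  obtain ⟨x, h1, h2, h3⟩ := mainE H
  refine ⟨fun t => O + L (x t), range_subset_iff.2 fun t => h1 ⟨t, rfl⟩, fun e => h2 ?_, ?_⟩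
  · refine hinj.image_injective ?_
    rw [← range_comp] at e
    rw [image_image, ← range_comp, ← range_comp]
    simpa only [Function.comp_def, hsw] using e
  · refine h3.imp (normal_per L O hc Ψ.injective) fun h => ?_
    simpa using normal_hom L O hc Ψ.injective h

end Pool.Agent.Work.MP_05654f_an
end
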